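import Pool.Agent.W_7d29a1_h46u.LamU

/-!
The slopes of the free energy: if `v` is a subgradient of `lam` then `|v|_1 < 1`. The walk gains entropy by a
small density of steps in an unfavourable direction.
-/

namespace Pool.Agent.W_7d29a1_v

open MeasureTheory ProbabilityTheory Filter Topology Pool.Agent.W_MP_7d29a1_pr
  Pool.Agent.W_7d29a1_h46 Pool.Agent.W_7d29a1_h46u

variable {d : ℕ} {ρ : Measure ℝ} [IsProbabilityMeasure ρ]

/-- The partition function of `k` steps with the tilt `φ` followed by `l` steps with the tilt `θ`. -/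
noncomputable def Slope_W (β : ℝ) (φ θ : Vec d) (k l : ℕ) (η : Env d) : ℝ :=
  ∑ s : Fin k → Step d, wgt β φ η s * Z β θ (sh k (pos s k) η) l

/-- Its mean logarithm. -/
noncomputable def Slope_a (ρ : Measure ℝ) (β : ℝ) (φ θ : Vec d) (k l : ℕ) : ℝ :=
  ∫ η, Real.log (Slope_W β φ θ k l η) ∂(law d ρ)

theorem Slope_pos (hd : 0 < d) (β : ℝ) (φ θ : Vec d) (k l : ℕ) (η : Env d) :
    0 < Slope_W β φ θ k l η := by
  have h1 := Z_pos hd β φ η k
  rw [Z_eq] at h1
  unfold Slope_W
  have : Nonempty (Fin d) := ⟨⟨0, hd⟩⟩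
  exact Finset.sum_pos (fun s _ => mul_pos (wgt_pos β φ η s) (Z_pos hd β θ _ l)) Finset.univ_nonempty

theorem Slope_meas (β : ℝ) (φ θ : Vec d) (k l : ℕ) : Measurable (Slope_W β φ θ k l) := by
  unfold Slope_W
  exact Finset.measurable_fun_sum _ fun s _ =>
    (measurable_wgt β φ s).mul ((measurable_Z β θ l).comp (measurable_sh k (pos s k)))

theorem Slope_zero_right (β : ℝ) (φ θ : Vec d) (k : ℕ) (η : Env d) :
    Slope_W β φ θ k 0 η = Z β φ η k := by
  unfold Slope_W
  rw [Z_eq]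
  exact Finset.sum_congr rfl fun s _ => by rw [Z_zero, mul_one]

theorem Slope_zero_left (β : ℝ) (φ θ : Vec d) (l : ℕ) (η : Env d) :
    Slope_W β φ θ 0 l η = Z β θ η l := by
  unfold Slope_W
  have h1 := Z_zero β φ η
  rw [Z_eq, Fintype.sum_unique] at h1
  rw [Fintype.sum_unique, h1, one_mul]
  have h2 : pos (default : Fin 0 → Step d) 0 = 0 := Finset.sum_of_isEmpty _
  rw [h2]
  have h3 : sh 0 (0 : Site d) η = η := by
    funext p
    simp [sh]
  rw [h3]

theorem Slope_wgt_le (β : ℝ) (φ θ : Vec d) (η : Env d) {k : ℕ} (s : Fin k → Step d) :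
    wgt β φ η s ≤ Real.exp (‖φ - θ‖ * k) * wgt β θ η s := by
  unfold wgt
  rw [← Real.exp_add]
  refine Real.exp_le_exp.2 ?_
  have h2 : inner ℝ (φ - θ) (emb (pos s k)) ≤ ‖φ - θ‖ * k := by
    refine (real_inner_le_norm _ _).trans (mul_le_mul_of_nonneg_left ?_ (norm_nonneg _))
    rw [norm_emb]
    exact nrm_pos_le s k
  rw [inner_sub_left] at h2
  linarith

theorem Slope_le (hd : 0 < d) (β : ℝ) (φ θ : Vec d) (k l : ℕ) (η : Env d) :
    Real.log (Slope_W β φ θ k l η) ≤ ‖φ - θ‖ * k + X β θ η (k + l) := by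
  have h0 := Z_pos hd β θ η (k + l)
  have h1 : Slope_W β φ θ k l η ≤ Real.exp (‖φ - θ‖ * k) * Z β θ η (k + l) := by
    unfold Slope_W
    rw [Z_add, Finset.mul_sum]
    refine Finset.sum_le_sum fun s _ => ?_
    rw [← mul_assoc]
    exact mul_le_mul_of_nonneg_right (Slope_wgt_le β φ θ η s) (Z_pos hd β θ _ l).le
  have h2 := Real.log_le_log (Slope_pos hd β φ θ k l η) h1
  rwa [Real.log_mul (Real.exp_pos _).ne' h0.ne', Real.log_exp] at h2

theorem Slope_ge (hd : 0 < d) (β : ℝ) (φ θ : Vec d) (k l : ℕ) (η : Env d) :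
    X β θ η (k + l) - ‖φ - θ‖ * k ≤ Real.log (Slope_W β φ θ k l η) := by
  have h0 := Z_pos hd β θ η (k + l)
  have hW := Slope_pos hd β φ θ k l η
  have h1 : Z β θ η (k + l) ≤ Real.exp (‖φ - θ‖ * k) * Slope_W β φ θ k l η := by
    unfold Slope_W
    rw [Z_add, Finset.mul_sum]
    refine Finset.sum_le_sum fun s _ => ?_
    rw [← mul_assoc]
    refine mul_le_mul_of_nonneg_right ?_ (Z_pos hd β θ _ l).le
    have h3 := Slope_wgt_le β θ φ η s
    rwa [norm_sub_rev] at h3
  have h2 := Real.log_le_log h0 h1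
  rw [Real.log_mul (Real.exp_pos _).ne' hW.ne', Real.log_exp] at h2
  unfold X
  linarith

theorem Slope_int (hd : 0 < d) (hρ : EM ρ) (β : ℝ) (φ θ : Vec d) (k l : ℕ) :
    Integrable (fun η => Real.log (Slope_W β φ θ k l η)) (law d ρ) := by
  have h1 : Integrable (fun η => X β θ η (k + l)) (law d ρ) := (concU hd hρ β θ (k + l)).1
  refine (h1.abs.add (integrable_const (‖φ - θ‖ * k))).mono'
    (Real.measurable_log.comp (Slope_meas β φ θ k l)).aestronglyMeasurable
    (Eventually.of_forall fun η => ?_)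
  rw [Real.norm_eq_abs, abs_le]
  have h2 := Slope_le hd β φ θ k l η
  have h3 := Slope_ge hd β φ θ k l η
  have h4 := neg_abs_le (X β θ η (k + l))
  have h5 := le_abs_self (X β θ η (k + l))
  simp only [Pi.add_apply]
  constructor <;> linarith

/-- Remove the row `k + 1` and shift the following rows by `z`. -/
def Slope_rm (k : ℕ) (z : Site d) (η : Env d) : Env d := fun p =>
  η (if p.1 ≤ k then p else (p.1 + 1, p.2 + z))

theorem Slope_mp (k : ℕ) (z : Site d) : MeasurePreserving (Slope_rm k z) (law d ρ) (law d ρ) := by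
  refine LawU_reindex (f := fun p : ℕ × Site d => if p.1 ≤ k then p else (p.1 + 1, p.2 + z)) ?_
  rintro ⟨i, y⟩ ⟨j, x⟩ h
  simp only at h
  split_ifs at h with h1 h2 h2
  · exact h
  · simp only [Prod.mk.injEq] at h
    omega
  · simp only [Prod.mk.injEq] at h
    omega
  · simp only [Prod.mk.injEq, add_left_inj] at h
    exact Prod.ext h.1 h.2

/-- The terms after the removal of the row. -/
noncomputable def Slope_g (β : ℝ) (φ θ : Vec d) (k l : ℕ) (z : Site d) (s : Fin k → Step d)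
    (η : Env d) : ℝ :=
  wgt β φ η s * Z β θ (sh (k + 1) (pos s k + z) η) l

theorem Slope_g_pos (hd : 0 < d) (β : ℝ) (φ θ : Vec d) (k l : ℕ) (z : Site d)
    (s : Fin k → Step d) (η : Env d) : 0 < Slope_g β φ θ k l z s η :=
  mul_pos (wgt_pos β φ η s) (Z_pos hd β θ _ l)

theorem Slope_W_rm (β : ℝ) (φ θ : Vec d) (k l : ℕ) (z : Site d) (η : Env d) :
    Slope_W β φ θ k l (Slope_rm k z η) = ∑ s : Fin k → Step d, Slope_g β φ θ k l z s η := by
  unfold Slope_W Slope_g
  refine Finset.sum_congr rfl fun s _ => ?_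
  congr 1
  · unfold wgt
    have h1 : energy (Slope_rm k z η) s = energy η s := by
      unfold energy
      refine Finset.sum_congr rfl fun i _ => ?_
      have hi := i.2
      unfold Slope_rm
      rw [if_pos (by simp only; omega)]
    rw [h1]
  · refine dependsOn_Z β θ l fun p hp => ?_
    have hp1 := hp.1
    unfold sh Slope_rm
    simp only
    rw [if_neg (by omega)]
    congr 1
    refine Prod.ext ?_ ?_
    · simp only
      omega
    · simp only
      abel

/-- The terms with the row. -/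
noncomputable def Slope_F (β : ℝ) (φ θ : Vec d) (k l : ℕ) (z : Site d) (η : Env d) : ℝ :=
  ∑ s : Fin k → Step d, Slope_g β φ θ k l z s η * Real.exp (β * η (k + 1, pos s k + z))

/-- The Gibbs weights. -/
noncomputable def Slope_p (β : ℝ) (φ θ : Vec d) (k l : ℕ) (z : Site d) (s : Fin k → Step d)
    (η : Env d) : ℝ :=
  Slope_g β φ θ k l z s η / ∑ s : Fin k → Step d, Slope_g β φ θ k l z s η

theorem Slope_g_sum_pos (hd : 0 < d) (β : ℝ) (φ θ : Vec d) (k l : ℕ) (z : Site d) (η : Env d) :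
    0 < ∑ s : Fin k → Step d, Slope_g β φ θ k l z s η := by
  rw [← Slope_W_rm]
  exact Slope_pos hd β φ θ k l _

theorem Slope_p_nonneg (hd : 0 < d) (β : ℝ) (φ θ : Vec d) (k l : ℕ) (z : Site d)
    (s : Fin k → Step d) (η : Env d) : 0 ≤ Slope_p β φ θ k l z s η :=
  div_nonneg (Slope_g_pos hd β φ θ k l z s η).le (Slope_g_sum_pos hd β φ θ k l z η).le

theorem Slope_p_sum (hd : 0 < d) (β : ℝ) (φ θ : Vec d) (k l : ℕ) (z : Site d) (η : Env d) :
    ∑ s, Slope_p β φ θ k l z s η = 1 := by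
  unfold Slope_p
  rw [← Finset.sum_div, div_self (Slope_g_sum_pos hd β φ θ k l z η).ne']

theorem Slope_p_le_one (hd : 0 < d) (β : ℝ) (φ θ : Vec d) (k l : ℕ) (z : Site d)
    (s : Fin k → Step d) (η : Env d) : Slope_p β φ θ k l z s η ≤ 1 := by
  rw [← Slope_p_sum hd β φ θ k l z η]
  exact Finset.single_le_sum (f := fun s => Slope_p β φ θ k l z s η)
    (fun r _ => Slope_p_nonneg hd β φ θ k l z r η) (Finset.mem_univ s)

theorem Slope_g_meas (β : ℝ) (φ θ : Vec d) (k l : ℕ) (z : Site d) (s : Fin k → Step d) :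
    Measurable (Slope_g β φ θ k l z s) :=
  (measurable_wgt β φ s).mul ((measurable_Z β θ l).comp (measurable_sh _ _))

theorem Slope_p_meas (β : ℝ) (φ θ : Vec d) (k l : ℕ) (z : Site d) (s : Fin k → Step d) :
    Measurable (Slope_p β φ θ k l z s) :=
  (Slope_g_meas β φ θ k l z s).div (Finset.measurable_fun_sum _ fun r _ => Slope_g_meas β φ θ k l z r)

theorem Slope_g_dep (β : ℝ) (φ θ : Vec d) (k l : ℕ) (z : Site d) (s : Fin k → Step d) :
    DependsOn (Slope_g β φ θ k l z s) {p : ℕ × Site d | p.1 = k + 1}ᶜ := by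
  intro η η' hη
  have h1 : energy η s = energy η' s := by
    unfold energy
    refine Finset.sum_congr rfl fun i _ => hη _ ?_
    have hi := i.2
    change ¬ ((i : ℕ) + 1 = k + 1)
    omega
  have h2 : Z β θ (sh (k + 1) (pos s k + z) η) l = Z β θ (sh (k + 1) (pos s k + z) η') l := by
    refine dependsOn_Z β θ l fun p hp => ?_
    refine hη (p.1 + (k + 1), p.2 + (pos s k + z)) ?_
    have := hp.1
    change ¬ (p.1 + (k + 1) = k + 1)
    omega
  unfold Slope_g wgt
  rw [h1, h2]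

theorem Slope_p_dep (β : ℝ) (φ θ : Vec d) (k l : ℕ) (z : Site d) (s : Fin k → Step d) :
    DependsOn (Slope_p β φ θ k l z s) {p : ℕ × Site d | p.1 = k + 1}ᶜ := by
  intro η η' hη
  unfold Slope_p
  rw [Slope_g_dep β φ θ k l z s hη, Finset.sum_congr rfl fun r _ => Slope_g_dep β φ θ k l z r hη]

/-- Jensen in the row `k + 1`. -/
theorem Slope_jensen (hd : 0 < d) (β : ℝ) (φ θ : Vec d) (k l : ℕ) (z : Site d) (η : Env d) :
    Real.log (Slope_W β φ θ k l (Slope_rm k z η)) +
      ∑ s : Fin k → Step d, Slope_p β φ θ k l z s η * (β * η (k + 1, pos s k + z)) ≤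
      Real.log (Slope_F β φ θ k l z η) := by
  have hG := Slope_g_sum_pos hd β φ θ k l z η
  have h1 : Slope_F β φ θ k l z η = (∑ s : Fin k → Step d, Slope_g β φ θ k l z s η) *
      ∑ s : Fin k → Step d, Slope_p β φ θ k l z s η * Real.exp (β * η (k + 1, pos s k + z)) := by
    unfold Slope_F
    rw [Finset.mul_sum]
    refine Finset.sum_congr rfl fun s _ => ?_
    unfold Slope_p
    rw [← mul_assoc, mul_div_cancel₀ _ hG.ne']
  have hj := strictConcaveOn_log_Ioi.concaveOn.le_map_sum (t := Finset.univ)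
    (w := fun s : Fin k → Step d => Slope_p β φ θ k l z s η)
    (p := fun s : Fin k → Step d => Real.exp (β * η (k + 1, pos s k + z)))
    (fun s _ => Slope_p_nonneg hd β φ θ k l z s η) (Slope_p_sum hd β φ θ k l z η)
    (fun s _ => Real.exp_pos _)
  simp only [smul_eq_mul, Real.log_exp] at hj
  have hF : 0 < Slope_F β φ θ k l z η := by
    have : Nonempty (Fin d) := ⟨⟨0, hd⟩⟩
    exact Finset.sum_pos (fun s _ => mul_pos (Slope_g_pos hd β φ θ k l z s η) (Real.exp_pos _))
      Finset.univ_nonempty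
  have hpos : 0 < ∑ s : Fin k → Step d,
      Slope_p β φ θ k l z s η * Real.exp (β * η (k + 1, pos s k + z)) := by
    rw [h1] at hF
    exact (mul_pos_iff_of_pos_left hG).1 hF
  rw [h1, Real.log_mul hG.ne' hpos.ne', Slope_W_rm]
  linarith

theorem Slope_id_int (hρ : EM ρ) : Integrable (fun t : ℝ => t) ρ := by
  refine ((hρ 1).add (hρ (-1))).mono' measurable_id.aestronglyMeasurable
    (Eventually.of_forall fun t => ?_)
  rw [Real.norm_eq_abs]
  simp only [Pi.add_apply, one_mul, neg_mul]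
  have h1 := Real.add_one_le_exp t
  have h2 := Real.add_one_le_exp (-t)
  have h3 := Real.exp_pos t
  have h4 := Real.exp_pos (-t)
  rcases abs_cases t with ⟨h, _⟩ | ⟨h, _⟩ <;> rw [h] <;> linarith

theorem Slope_site (hρ : EM ρ) (p : ℕ × Site d) :
    Integrable (fun η : Env d => η p) (law d ρ) ∧ ∫ η : Env d, η p ∂(law d ρ) = ∫ t, t ∂ρ := by
  have h1 : MeasurePreserving (fun η : Env d => η p) (law d ρ) ρ :=
    ⟨measurable_pi_apply p, Measure.infinitePi_map_eval (μ := fun _ : ℕ × Site d => ρ) p⟩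
  exact ⟨(h1.integrable_comp measurable_id.aestronglyMeasurable).2 (Slope_id_int hρ),
    LawU_integral h1 (F := fun t => t) measurable_id.aestronglyMeasurable⟩

/-- The row has mean energy. -/
theorem Slope_row (hd : 0 < d) (hρ : EM ρ) (β : ℝ) (φ θ : Vec d) (k l : ℕ) (z : Site d) :
    Integrable (fun η : Env d => ∑ s : Fin k → Step d,
      Slope_p β φ θ k l z s η * (β * η (k + 1, pos s k + z))) (law d ρ) ∧
    ∫ η : Env d, ∑ s : Fin k → Step d,
      Slope_p β φ θ k l z s η * (β * η (k + 1, pos s k + z)) ∂(law d ρ) = β * ∫ t, t ∂ρ := by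
  have hp : ∀ s : Fin k → Step d, Integrable (Slope_p β φ θ k l z s) (law d ρ) := fun s => by
    refine (integrable_const (1 : ℝ)).mono' (Slope_p_meas β φ θ k l z s).aestronglyMeasurable
      (Eventually.of_forall fun η => ?_)
    rw [Real.norm_eq_abs, abs_of_nonneg (Slope_p_nonneg hd β φ θ k l z s η)]
    exact Slope_p_le_one hd β φ θ k l z s η
  have hi : ∀ s : Fin k → Step d, Integrable (fun η : Env d =>
      Slope_p β φ θ k l z s η * (β * η (k + 1, pos s k + z))) (law d ρ) := fun s => by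
    refine ((Slope_site hρ (k + 1, pos s k + z)).1.const_mul β).bdd_mul (c := 1)
      (Slope_p_meas β φ θ k l z s).aestronglyMeasurable (Eventually.of_forall fun η => ?_)
    rw [Real.norm_eq_abs, abs_of_nonneg (Slope_p_nonneg hd β φ θ k l z s η)]
    exact Slope_p_le_one hd β φ θ k l z s η
  refine ⟨integrable_finsetSum _ fun s _ => hi s, ?_⟩
  rw [integral_finsetSum _ fun s _ => hi s]
  have h1 : ∀ s : Fin k → Step d, ∫ η : Env d,
      Slope_p β φ θ k l z s η * (β * η (k + 1, pos s k + z)) ∂(law d ρ) =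
      (∫ η, Slope_p β φ θ k l z s η ∂(law d ρ)) * (β * ∫ t, t ∂ρ) := by
    intro s
    have h2 := integral_indep (ρ := ρ) {p : ℕ × Site d | p.1 = k + 1}
      (F := fun η : Env d => β * η (k + 1, pos s k + z)) (G := Slope_p β φ θ k l z s)
      (measurable_const.mul (measurable_pi_apply (k + 1, pos s k + z))) (Slope_p_meas β φ θ k l z s)
      (fun η η' h => by simp only; rw [h (k + 1, pos s k + z) rfl]) (Slope_p_dep β φ θ k l z s)
    have h3 : (fun η : Env d => Slope_p β φ θ k l z s η * (β * η (k + 1, pos s k + z))) =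
        fun η => (β * η (k + 1, pos s k + z)) * Slope_p β φ θ k l z s η := by
      funext η
      ring
    rw [h3, h2, integral_const_mul, (Slope_site hρ (k + 1, pos s k + z)).2]
    ring
  rw [Finset.sum_congr rfl fun s _ => h1 s, ← Finset.sum_mul, ← integral_finsetSum _ fun s _ => hp s]
  simp only [Slope_p_sum hd]
  simp

/-- Splitting off the step `k + 1`. -/
theorem Slope_split (β : ℝ) (φ θ ψ : Vec d) (k l : ℕ) (η : Env d) :
    (∑ s : Fin k → Step d, wgt β φ η s * ∑ u : Fin 1 → Step d,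
      wgt β ψ (sh k (pos s k) η) u * Z β θ (sh (k + 1) (pos s k + pos u 1) η) l) =
    ∑ s : Fin k → Step d, wgt β φ η s * ∑ u : Fin 1 → Step d,
      wgt β ψ (sh k (pos s k) η) u * Z β θ (sh 1 (pos u 1) (sh k (pos s k) η)) l := by
  have h1 : ∀ x y : Site d, sh (k + 1) (x + y) η = sh 1 y (sh k x η) := by
    intro x y
    funext p
    unfold sh
    congr 1
    refine Prod.ext ?_ ?_
    · simp only
      omega
    · simp only
      abel
  simp only [h1]

theorem Slope_succ_left (β : ℝ) (φ θ : Vec d) (k l : ℕ) (η : Env d) :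
    Slope_W β φ θ (k + 1) l η = ∑ s : Fin k → Step d, wgt β φ η s * ∑ u : Fin 1 → Step d,
      wgt β φ (sh k (pos s k) η) u * Z β θ (sh (k + 1) (pos s k + pos u 1) η) l := by
  unfold Slope_W
  rw [sum_glue]
  refine Finset.sum_congr rfl fun s _ => ?_
  rw [Finset.mul_sum]
  refine Finset.sum_congr rfl fun u _ => ?_
  rw [wgt_glue, pos_glue_add, mul_assoc]

theorem Slope_succ_right (β : ℝ) (φ θ : Vec d) (k l : ℕ) (η : Env d) :
    Slope_W β φ θ k (l + 1) η = ∑ s : Fin k → Step d, wgt β φ η s * ∑ u : Fin 1 → Step d,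
      wgt β θ (sh k (pos s k) η) u * Z β θ (sh (k + 1) (pos s k + pos u 1) η) l := by
  rw [Slope_split]
  unfold Slope_W
  refine Finset.sum_congr rfl fun s _ => ?_
  rw [add_comm l 1, Z_add]

/-- One step. -/
theorem Slope_wgt_one (β : ℝ) (ψ : Vec d) (η : Env d) (e : Step d) :
    wgt β ψ η (fun _ : Fin 1 => e) = Real.exp (inner ℝ ψ (emb (vec e)) + β * η (1, vec e)) := by
  have h1 : pos (fun _ : Fin 1 => e) 1 = vec e := by
    unfold pos
    simp
  unfold wgt energy
  rw [h1]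
  simp [h1]

theorem Slope_inner (u : Vec d) (e : Step d) :
    inner ℝ u (emb (vec e)) = if e.2 then u e.1 else -u e.1 := by
  have h1 : inner ℝ u (emb (vec e)) = ∑ j, u j * ((vec e j : ℤ) : ℝ) := by
    simp [emb, PiLp.inner_apply, mul_comm]
  rw [h1, Finset.sum_eq_single e.1]
  · unfold vec
    rw [Pi.single_eq_same]
    split_ifs <;> simp
  · intro j _ hj
    unfold vec
    rw [Pi.single_eq_of_ne hj]
    simp
  · intro h
    exact absurd (Finset.mem_univ _) h

/-- The pointwise inequality. -/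
theorem Slope_main (hd : 0 < d) (β : ℝ) (θ u : Vec d) {t : ℝ} (hu : ∀ j, |u j| ≤ t) (e : Step d)
    (he : inner ℝ u (emb (vec e)) ≤ 0) (k l : ℕ) (η : Env d) :
    Real.exp (-t) * Slope_W β (θ + u) θ (k + 1) l η +
      Real.exp (inner ℝ θ (emb (vec e))) * (1 - Real.exp (-t)) *
        Slope_F β (θ + u) θ k l (vec e) η ≤ Slope_W β (θ + u) θ k (l + 1) η := by
  classical
  rw [Slope_succ_left, Slope_succ_right]
  unfold Slope_F Slope_g
  rw [Finset.mul_sum, Finset.mul_sum, ← Finset.sum_add_distrib]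
  refine Finset.sum_le_sum fun s _ => ?_
  have hw := wgt_pos β (θ + u) η s
  obtain ⟨ζ, hζ⟩ : ∃ ζ : Env d, ζ = sh k (pos s k) η := ⟨_, rfl⟩
  rw [← hζ]
  have hrow : η (k + 1, pos s k + vec e) = ζ (1, vec e) := by
    rw [hζ]
    unfold sh
    congr 1
    refine Prod.ext ?_ ?_
    · simp only
      omega
    · simp only
      abel
  rw [hrow]
  obtain ⟨G, hG⟩ : ∃ G : Site d → ℝ, G = fun y => Z β θ (sh (k + 1) (pos s k + y) η) l := ⟨_, rfl⟩
  have hG0 : ∀ y, 0 < G y := fun y => by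
    rw [hG]
    exact Z_pos hd β θ _ l
  have hGe : Z β θ (sh (k + 1) (pos s k + vec e) η) l = G (vec e) := by rw [hG]
  have hGu : ∀ r : Fin 1 → Step d, Z β θ (sh (k + 1) (pos s k + pos r 1) η) l = G (pos r 1) := by
    intro r
    rw [hG]
  rw [hGe]
  simp only [hGu]
  have hstep : ∀ q : Step d, inner ℝ u (emb (vec q)) ≤ t := by
    intro q
    rw [Slope_inner]
    have h1 := abs_le.1 (hu q.1)
    split_ifs <;> linarith [h1.1, h1.2]
  have h1 : ∀ r : Fin 1 → Step d, Real.exp (-t) * (wgt β (θ + u) ζ r * G (pos r 1)) +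
      (if r = fun _ => e then Real.exp (inner ℝ θ (emb (vec e))) * (1 - Real.exp (-t)) *
        (Real.exp (β * ζ (1, vec e)) * G (vec e)) else 0) ≤ wgt β θ ζ r * G (pos r 1) := by
    intro r
    obtain ⟨q, rfl⟩ : ∃ q, r = fun _ => q := ⟨r 0, funext fun i => by rw [Subsingleton.elim i 0]⟩
    have hpos : pos (fun _ : Fin 1 => q) 1 = vec q := by
      unfold pos
      simp
    rw [hpos, Slope_wgt_one, Slope_wgt_one, inner_add_left]
    have hGq := hG0 (vec q)
    split_ifs with hq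
    · have hqe : q = e := congrFun hq 0
      subst hqe
      have h2 : Real.exp (inner ℝ θ (emb (vec q)) + inner ℝ u (emb (vec q)) + β * ζ (1, vec q)) ≤
          Real.exp (inner ℝ θ (emb (vec q))) * Real.exp (β * ζ (1, vec q)) := by
        rw [← Real.exp_add]
        exact Real.exp_le_exp.2 (by linarith)
      have h3 : Real.exp (inner ℝ θ (emb (vec q)) + β * ζ (1, vec q)) =
          Real.exp (inner ℝ θ (emb (vec q))) * Real.exp (β * ζ (1, vec q)) := Real.exp_add _ _
      rw [h3]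
      have h4 := mul_le_mul_of_nonneg_left (mul_le_mul_of_nonneg_right h2 hGq.le) (Real.exp_pos (-t)).le
      have h5 : Real.exp (-t) * (Real.exp (inner ℝ θ (emb (vec q))) * Real.exp (β * ζ (1, vec q)) *
          G (vec q)) + Real.exp (inner ℝ θ (emb (vec q))) * (1 - Real.exp (-t)) *
          (Real.exp (β * ζ (1, vec q)) * G (vec q)) =
          Real.exp (inner ℝ θ (emb (vec q))) * Real.exp (β * ζ (1, vec q)) * G (vec q) := by
        ring
      linarith
    · rw [add_zero, ← mul_assoc]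
      refine mul_le_mul_of_nonneg_right ?_ hGq.le
      rw [← Real.exp_add]
      exact Real.exp_le_exp.2 (by linarith [hstep q])
  have h2 := Finset.sum_le_sum fun r (_ : r ∈ Finset.univ) => h1 r
  rw [Finset.sum_add_distrib, Finset.sum_ite_eq' Finset.univ (fun _ : Fin 1 => e), if_pos (Finset.mem_univ _),
    ← Finset.mul_sum] at h2
  have h3 := mul_le_mul_of_nonneg_left h2 hw.le
  refine le_trans (le_of_eq ?_) h3
  ring

theorem Slope_log {x y ε : ℝ} (hx : 0 < x) (hy : 0 < y) (hε : 0 < ε) (hε1 : ε < 1) :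
    (1 - ε) * (Real.log x - Real.log (1 - ε)) + ε * (Real.log y - Real.log ε) ≤
      Real.log (x + y) := by
  have h1 := strictConcaveOn_log_Ioi.concaveOn.2 (show x / (1 - ε) ∈ Set.Ioi (0 : ℝ) from
    div_pos hx (by linarith)) (show y / ε ∈ Set.Ioi (0 : ℝ) from div_pos hy hε)
    (show 0 ≤ 1 - ε by linarith) hε.le (by ring)
  simp only [smul_eq_mul] at h1
  rw [Real.log_div hx.ne' (by linarith), Real.log_div hy.ne' hε.ne', mul_div_cancel₀ _ (by linarith),
    mul_div_cancel₀ _ hε.ne'] at h1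
  exact h1

theorem Slope_mean {f1 f2 f3 g : Env d → ℝ} {a b c c' : ℝ} (i1 : Integrable f1 (law d ρ))
    (i2 : Integrable f2 (law d ρ)) (i3 : Integrable f3 (law d ρ)) (ig : Integrable g (law d ρ))
    (h : ∀ η, a * (f1 η + c) + b * ((f2 η + f3 η) + c') ≤ g η) :
    a * ((∫ η, f1 η ∂(law d ρ)) + c) + b * (((∫ η, f2 η ∂(law d ρ)) + ∫ η, f3 η ∂(law d ρ)) + c') ≤
      ∫ η, g η ∂(law d ρ) := by
  have j1 : Integrable (fun η => a * (f1 η + c)) (law d ρ) := (i1.add (integrable_const c)).const_mul a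
  have j2 : Integrable (fun η => b * ((f2 η + f3 η) + c')) (law d ρ) :=
    ((i2.add i3).add (integrable_const c')).const_mul b
  have hint := integral_mono (j1.add j2) ig h
  have e0 : ∫ η, ((fun η => a * (f1 η + c)) + fun η => b * ((f2 η + f3 η) + c')) η ∂(law d ρ) =
      (∫ η, a * (f1 η + c) ∂(law d ρ)) + ∫ η, b * ((f2 η + f3 η) + c') ∂(law d ρ) := integral_add j1 j2
  have e1 : ∫ η, (f1 η + c) ∂(law d ρ) = (∫ η, f1 η ∂(law d ρ)) + c := by
    rw [integral_add i1 (integrable_const c)]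
    simp
  have e2 : ∫ η, ((f2 η + f3 η) + c') ∂(law d ρ) =
      ((∫ η, f2 η ∂(law d ρ)) + ∫ η, f3 η ∂(law d ρ)) + c' := by
    have j3 : Integrable (fun η => f2 η + f3 η) (law d ρ) := i2.add i3
    rw [integral_add j3 (integrable_const c'), integral_add i2 i3]
    simp
  rw [e0, integral_const_mul, integral_const_mul, e1, e2] at hint
  exact hint

/-- The recursion. -/
theorem Slope_rec (hd : 0 < d) (hρ : EM ρ) (β : ℝ) (θ u : Vec d) {t : ℝ} (ht : 0 < t)
    (hu : ∀ j, |u j| ≤ t) (e : Step d) (he : inner ℝ u (emb (vec e)) ≤ 0) {ε : ℝ} (hε : 0 < ε)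
    (hε1 : ε < 1) (k l : ℕ) :
    (1 - ε) * (Slope_a ρ β (θ + u) θ (k + 1) l - t - Real.log (1 - ε)) +
      ε * (inner ℝ θ (emb (vec e)) + Real.log (1 - Real.exp (-t)) - Real.log ε +
        Slope_a ρ β (θ + u) θ k l + β * ∫ x, x ∂ρ) ≤ Slope_a ρ β (θ + u) θ k (l + 1) := by
  have ha : 0 < 1 - Real.exp (-t) := by
    have := Real.exp_strictMono (show -t < 0 by linarith)
    rw [Real.exp_zero] at this
    linarith
  obtain ⟨R1, R2⟩ := Slope_row (d := d) hd hρ β (θ + u) θ k l (vec e)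
  have hrm : Integrable (fun η : Env d => Real.log (Slope_W β (θ + u) θ k l (Slope_rm k (vec e) η)))
      (law d ρ) := ((Slope_mp k (vec e)).integrable_comp
        (Real.measurable_log.comp (Slope_meas β (θ + u) θ k l)).aestronglyMeasurable).2
        (Slope_int hd hρ β (θ + u) θ k l)
  have hrv : ∫ η : Env d, Real.log (Slope_W β (θ + u) θ k l (Slope_rm k (vec e) η)) ∂(law d ρ) =
      Slope_a ρ β (θ + u) θ k l :=
    LawU_integral (Slope_mp k (vec e)) (F := fun η => Real.log (Slope_W β (θ + u) θ k l η))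
      (Real.measurable_log.comp (Slope_meas β (θ + u) θ k l)).aestronglyMeasurable
  have hpt : ∀ η : Env d, (1 - ε) * (Real.log (Slope_W β (θ + u) θ (k + 1) l η) + (-t - Real.log (1 - ε))) +
      ε * ((Real.log (Slope_W β (θ + u) θ k l (Slope_rm k (vec e) η)) +
        ∑ s : Fin k → Step d, Slope_p β (θ + u) θ k l (vec e) s η *
          (β * η (k + 1, pos s k + vec e))) +
        (inner ℝ θ (emb (vec e)) + Real.log (1 - Real.exp (-t)) - Real.log ε)) ≤
      Real.log (Slope_W β (θ + u) θ k (l + 1) η) := by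
    intro η
    have h0 := Slope_pos hd β (θ + u) θ (k + 1) l η
    have hF : 0 < Slope_F β (θ + u) θ k l (vec e) η := by
      have : Nonempty (Fin d) := ⟨⟨0, hd⟩⟩
      exact Finset.sum_pos (fun s _ => mul_pos (Slope_g_pos hd β (θ + u) θ k l (vec e) s η)
        (Real.exp_pos _)) Finset.univ_nonempty
    have h1 := Slope_main hd β θ u hu e he k l η
    have h2 := Slope_log (ε := ε) (mul_pos (Real.exp_pos (-t)) h0)
      (mul_pos (mul_pos (Real.exp_pos (inner ℝ θ (emb (vec e)))) ha) hF) hε hε1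
    have h3 := Real.log_le_log (add_pos (mul_pos (Real.exp_pos (-t)) h0)
      (mul_pos (mul_pos (Real.exp_pos (inner ℝ θ (emb (vec e)))) ha) hF)) h1
    rw [Real.log_mul (Real.exp_pos _).ne' h0.ne', Real.log_exp,
      Real.log_mul (mul_pos (Real.exp_pos _) ha).ne' hF.ne',
      Real.log_mul (Real.exp_pos _).ne' ha.ne', Real.log_exp] at h2
    have h4 := Slope_jensen hd β (θ + u) θ k l (vec e) η
    have h5 := mul_le_mul_of_nonneg_left h4 hε.le
    linarith
  have i1 := Slope_int hd hρ β (θ + u) θ (k + 1) l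
  have i2 := Slope_int hd hρ β (θ + u) θ k (l + 1)
  have hint := Slope_mean i1 hrm R1 i2 hpt
  rw [hrv, R2] at hint
  unfold Slope_a at hint ⊢
  linarith

/-- Iteration of the recursion. -/
theorem Slope_iter (hd : 0 < d) (hρ : EM ρ) (β : ℝ) (θ u : Vec d) {t : ℝ} (ht : 0 < t)
    (hu : ∀ j, |u j| ≤ t) (e : Step d) (he : inner ℝ u (emb (vec e)) ≤ 0) {ε : ℝ} (hε : 0 < ε)
    (hε1 : ε < 1) {L C : ℝ} (hL : ∀ k : ℕ, k * L - C ≤ A ρ β (θ + u) k) (l : ℕ) :
    ∀ k : ℕ, k * L + l * ((1 - ε) * (L - t - Real.log (1 - ε)) +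
      ε * (inner ℝ θ (emb (vec e)) + Real.log (1 - Real.exp (-t)) - Real.log ε + β * ∫ x, x ∂ρ)) - C ≤
      Slope_a ρ β (θ + u) θ k l := by
  induction l with
  | zero =>
    intro k
    have h1 : Slope_a ρ β (θ + u) θ k 0 = A ρ β (θ + u) k := by
      unfold Slope_a A X
      simp only [Slope_zero_right]
    rw [h1]
    simpa using hL k
  | succ l ih =>
    intro k
    refine le_trans ?_ (Slope_rec hd hρ β θ u ht hu e he hε hε1 k l)
    have h1 := mul_le_mul_of_nonneg_left (ih (k + 1)) (show 0 ≤ 1 - ε by linarith)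
    have h2 := mul_le_mul_of_nonneg_left (ih k) hε.le
    push_cast at h1 ⊢
    nlinarith

/-- The free energy is strictly contracted: `lam (θ + u) < lam θ + t` for `|u|_∞ ≤ t`, `t > 0`. -/
theorem lam_strict (hd : 0 < d) (hρ : EM ρ) (β : ℝ) (θ u : Vec d) {t : ℝ} (ht : 0 < t)
    (hu : ∀ j, |u j| ≤ t) : lam ρ β (θ + u) < lam ρ β θ + t := by
  obtain ⟨e, he⟩ : ∃ e : Step d, inner ℝ u (emb (vec e)) ≤ 0 := by
    obtain ⟨j⟩ : Nonempty (Fin d) := ⟨⟨0, hd⟩⟩
    by_cases h : 0 ≤ u j
    · exact ⟨(j, false), by rw [Slope_inner]; simpa using h⟩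
    · exact ⟨(j, true), by rw [Slope_inner]; simp only [if_true]; linarith⟩
  obtain ⟨K, hK⟩ : ∃ K : ℝ, K = lam ρ β (θ + u) - t - (inner ℝ θ (emb (vec e)) +
    Real.log (1 - Real.exp (-t)) + β * ∫ x, x ∂ρ) := ⟨_, rfl⟩
  obtain ⟨ε, hεd⟩ : ∃ ε : ℝ, ε = Real.exp (-(|K| + 1)) := ⟨_, rfl⟩
  have hε : 0 < ε := by
    rw [hεd]
    exact Real.exp_pos _
  have hlog : Real.log ε = -(|K| + 1) := by rw [hεd, Real.log_exp]
  have hε1 : ε < 1 := by
    have h1 := Real.exp_strictMono (show -(|K| + 1) < 0 by linarith [abs_nonneg K])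
    rwa [Real.exp_zero, ← hεd] at h1
  obtain ⟨M, hM⟩ : ∃ M : ℝ, M = (1 - ε) * (lam ρ β (θ + u) - t - Real.log (1 - ε)) +
    ε * (inner ℝ θ (emb (vec e)) + Real.log (1 - Real.exp (-t)) - Real.log ε +
      β * ∫ x, x ∂ρ) := ⟨_, rfl⟩
  have hfin : lam ρ β (θ + u) - t < M := by
    have h1 : Real.log (1 - ε) ≤ 0 := Real.log_nonpos (by linarith) (by linarith)
    have h2 : M = (lam ρ β (θ + u) - t) + (1 - ε) * (-Real.log (1 - ε)) +
        ε * (-K - Real.log ε) := by
      rw [hM, hK]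
      ring
    have h3 : 0 ≤ (1 - ε) * (-Real.log (1 - ε)) := mul_nonneg (by linarith) (by linarith)
    have h4 : 0 < ε * (-K - Real.log ε) := by
      refine mul_pos hε ?_
      rw [hlog]
      linarith [le_abs_self K]
    linarith
  suffices hs : M ≤ lam ρ β θ by linarith
  refine le_of_forall_pos_le_add fun δ hδ => ?_
  -- linear lower bound for the means of the tilt `θ + u`
  obtain ⟨N, hN⟩ := (Metric.tendsto_atTop.1 (tendsto_A (ρ := ρ) hd hρ β (θ + u))) δ hδ
  obtain ⟨C, hC⟩ : ∃ C : ℝ, ∀ k : ℕ, k * (lam ρ β (θ + u) - δ) - C ≤ A ρ β (θ + u) k := by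
    refine ⟨∑ k ∈ Finset.range (N + 1), |k * (lam ρ β (θ + u) - δ) - A ρ β (θ + u) k|, fun k => ?_⟩
    have hC0 : 0 ≤ ∑ k ∈ Finset.range (N + 1), |k * (lam ρ β (θ + u) - δ) - A ρ β (θ + u) k| :=
      Finset.sum_nonneg fun k _ => abs_nonneg _
    rcases Nat.lt_or_ge k (N + 1) with hk | hk
    · have h1 := Finset.single_le_sum (f := fun k : ℕ => |k * (lam ρ β (θ + u) - δ) - A ρ β (θ + u) k|)
        (fun k _ => abs_nonneg _) (Finset.mem_range.2 hk)
      have h2 := le_abs_self ((k : ℝ) * (lam ρ β (θ + u) - δ) - A ρ β (θ + u) k)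
      linarith
    · have h1 := hN k (by omega)
      rw [Real.dist_eq] at h1
      have h2 := neg_lt_of_abs_lt h1
      have hk0 : (0 : ℝ) < k := by
        have : 0 < k := by omega
        exact_mod_cast this
      have h3 : (lam ρ β (θ + u) - δ) < A ρ β (θ + u) k / k := by linarith
      rw [lt_div_iff₀ hk0] at h3
      linarith
  have h1 : ∀ l : ℕ, l * (M - (1 - ε) * δ) - C ≤ l * lam ρ β θ := by
    intro l
    have h2 := Slope_iter hd hρ β θ u ht hu e he hε hε1 hC l 0
    have h3 : Slope_a ρ β (θ + u) θ 0 l = A ρ β θ l := by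
      unfold Slope_a A X
      simp only [Slope_zero_left]
    rw [h3] at h2
    have h4 := A_le_lam hd hρ β θ l
    refine le_trans (le_of_eq ?_) (h2.trans h4)
    rw [hM]
    push_cast
    ring
  have h2 : M - (1 - ε) * δ ≤ lam ρ β θ := by
    by_contra hcon
    push Not at hcon
    obtain ⟨l, hl⟩ := exists_nat_gt (C / (M - (1 - ε) * δ - lam ρ β θ))
    rw [div_lt_iff₀ (by linarith)] at hl
    have h3 := h1 l
    nlinarith
  nlinarith

/-- The subgradients of the free energy are in the open unit ball of `l1`. -/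
theorem slope_lt (hd : 0 < d) (hρ : EM ρ) (β : ℝ) {θ v : Vec d}
    (hv : ∀ h : Vec d, lam ρ β θ + inner ℝ (h - θ) v ≤ lam ρ β h) : ∑ j, |v j| < 1 := by
  obtain ⟨u, hu⟩ : ∃ u : Vec d, ∀ j, u j = if 0 ≤ v j then 1 else -1 :=
    ⟨WithLp.toLp 2 fun j => if 0 ≤ v j then 1 else -1, fun j => rfl⟩
  have h1 := lam_strict hd hρ β θ u (t := 1) one_pos fun j => by
    rw [hu]
    split_ifs <;> simp
  have h2 := hv (θ + u)
  have h3 : inner ℝ (θ + u - θ) v = ∑ j, |v j| := by
    rw [add_sub_cancel_left]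
    have h4 : inner ℝ u v = ∑ j, u j * v j := by
      simp [PiLp.inner_apply, mul_comm]
    rw [h4]
    refine Finset.sum_congr rfl fun j _ => ?_
    rw [hu]
    split_ifs with h
    · rw [one_mul, abs_of_nonneg h]
    · rw [abs_of_neg (not_le.1 h)]
      ring
  rw [h3] at h2
  linarith

end Pool.Agent.W_7d29a1_v
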