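import Pool.Agent.W_7d29a1_v.CritC
import Pool.Agent.W_7d29a1_v.Slope

/-!
Theorem (V) without conditions on the slope: the free energy is affine on no nonempty open set, and tubes of radius
`K n ^ (1 / (d + 2))` are never typical.
-/

namespace Pool.Agent.W_7d29a1_v

open MeasureTheory ProbabilityTheory Filter Topology Pool.Agent.W_MP_7d29a1_pr
  Pool.Agent.W_7d29a1_h46 Pool.Agent.W_7d29a1_h46u Pool.Agent.W_7d29a1_h3

variable {d : ℕ} {ρ : Measure ℝ} [IsProbabilityMeasure ρ]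

/-- A convex function which is affine on an open set is above this affine function. -/
theorem Final_supp {f : Vec d → ℝ} (hf : ConvexOn ℝ Set.univ f) {U : Set (Vec d)} (hU : IsOpen U)
    {c : ℝ} {v θ : Vec d} (hθ : θ ∈ U) (h : ∀ x ∈ U, f x = c + inner ℝ x v) (x : Vec d) :
    f θ + inner ℝ (x - θ) v ≤ f x := by
  -- a point of the segment near `θ`
  have hcont : Tendsto (fun s : ℝ => θ + s • (x - θ)) (𝓝[>] 0) (𝓝 θ) := by
    have h1 : Tendsto (fun s : ℝ => θ + s • (x - θ)) (𝓝 0) (𝓝 (θ + (0 : ℝ) • (x - θ))) :=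
      (Continuous.tendsto (by fun_prop) 0)
    rw [zero_smul, add_zero] at h1
    exact h1.mono_left nhdsWithin_le_nhds
  have hev := hcont.eventually (hU.mem_nhds hθ)
  have hlt : ∀ᶠ s : ℝ in 𝓝[>] 0, s < 1 := by
    have h2 : ∀ᶠ s : ℝ in 𝓝 0, s < 1 := gt_mem_nhds one_pos
    exact h2.filter_mono nhdsWithin_le_nhds
  obtain ⟨s, ⟨hs, hs1⟩, hs0⟩ := ((hev.and hlt).and self_mem_nhdsWithin).exists
  have hs0' : 0 < s := hs0
  have h3 := hf.2 (Set.mem_univ θ) (Set.mem_univ x) (show 0 ≤ 1 - s by linarith) hs0'.le (by ring)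
  have h4 : (1 - s) • θ + s • x = θ + s • (x - θ) := by
    rw [sub_smul, one_smul, smul_sub]
    abel
  rw [h4, h _ hs, h _ hθ] at h3
  rw [h _ hθ]
  simp only [smul_eq_mul, inner_add_left, real_inner_smul_left] at h3
  have h5 : s * (c + inner ℝ θ v + inner ℝ (x - θ) v) ≤ s * f x := by linarith
  exact le_of_mul_le_mul_left h5 hs0'

/-- (V1): the free energy is affine on no nonempty open set. -/
theorem not_affine (hρ : EM ρ) (hnc : ∀ c : ℝ, ρ {c} ≠ 1) {β : ℝ} (hβ : 0 < β) (hd : 0 < d)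
    {U : Set (Vec d)} (hU : IsOpen U) (hne : U.Nonempty) (v : Vec d) (c : ℝ) :
    ∃ h ∈ U, lam ρ β h ≠ c + inner ℝ h v := by
  by_contra hcon
  push Not at hcon
  have hs : ∀ θ ∈ U, ∀ h' : Vec d, lam ρ β θ + inner ℝ (h' - θ) v ≤ lam ρ β h' := fun θ hθ h' =>
    Final_supp (lam_convex hd hρ β) hU hθ hcon h'
  obtain ⟨θ, hθ⟩ := hne
  have h1 := slope_lt hd hρ β (hs θ hθ)
  have h2 := no_vertex hρ hnc hβ hd h1
  have h3 : θ ∈ interior {h : Vec d | ∀ h' : Vec d, lam ρ β h + inner ℝ (h' - h) v ≤ lam ρ β h'} :=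
    mem_interior.2 ⟨U, fun x hx => hs x hx, hU, hθ⟩
  rw [h2] at h3
  exact h3

/-- (V2). -/
theorem tube_all (hρ : EM ρ) (hnc : ∀ c : ℝ, ρ {c} ≠ 1) {β : ℝ} (hβ : 0 < β) (hd : 0 < d)
    (h v : Vec d) (K : ℝ) :
    ∫ η, liminf (fun n : ℕ => PolT β h η
      (tube d n v (K * (n : ℝ) ^ (1 / ((d : ℝ) + 2))))) atTop ∂(law d ρ) < 1 := by
  by_contra hcon
  push Not at hcon
  have h1 := slope_lt hd hρ β (supp_of_conf hd hρ β h v K hcon)
  exact absurd hcon (not_le.2 (crit_all hρ hnc hβ hd h h1 K))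

end Pool.Agent.W_7d29a1_v
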