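import Pool.Agent.W_7d29a1_v.Mom
import Pool.Agent.W_7d29a1_h3.CheapA

/-!
The setup.
-/

namespace Pool.Agent.W_7d29a1_v

open MeasureTheory ProbabilityTheory Filter Topology Pool.Agent.W_MP_7d29a1_pr
  Pool.Agent.W_7d29a1_h46 Pool.Agent.W_7d29a1_h46u Pool.Agent.W_7d29a1_h3

variable {d : ℕ} {F : Fr d} {ρ : Measure ℝ} [IsProbabilityMeasure ρ]

/-- The direction `s e_j`. -/
private noncomputable def VCheapA_w {d : ℕ} (i : Ix d) : Vec d := emb (vec i)

private theorem VCheapA_w_apply (i : Ix d) (k : Fin d) :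
    (VCheapA_w i) k = if k = i.1 then (if i.2 then 1 else -1) else 0 := by
  unfold VCheapA_w emb vec
  simp only [PiLp.toLp_apply]
  rw [Pi.single_apply]
  split_ifs <;> simp

private theorem VCheapA_inner (i : Ix d) (u : Vec d) :
    inner ℝ (VCheapA_w i) u = (if i.2 then u i.1 else -(u i.1)) := by
  rw [PiLp.inner_apply]
  simp only [VCheapA_w_apply, RCLike.inner_apply, conj_trivial]
  rw [Finset.sum_eq_single i.1]
  · by_cases h : i.2 = true
    · simp [h]
    · simp [h]
  · intro k _ hk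
    simp [hk]
  · intro h
    exact absurd (Finset.mem_univ _) h

private theorem VCheapA_inner_self (i : Ix d) : inner ℝ (VCheapA_w i) (VCheapA_w i) = (1 : ℝ) := by
  rw [VCheapA_inner, VCheapA_w_apply]
  by_cases h : i.2 = true
  · simp [h]
  · simp [h]

private theorem VCheapA_grow (i : Ix d) (hρ : EM ρ) (β : ℝ) (h : Vec d) :
    inner ℝ h (VCheapA_w i) + β * ∫ x, x ∂ρ ≤ lam ρ β h := by
  have hd := Fin.pos i.1
  have h1 := A_le_lam (ρ := ρ) hd hρ β h 1
  rw [Nat.cast_one, one_mul] at h1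
  refine le_trans ?_ h1
  have hi : Integrable (fun x : ℝ => x) ρ := by
    refine ((hρ 1).add (hρ (-1))).mono' measurable_id.aestronglyMeasurable
      (Filter.Eventually.of_forall fun x => ?_)
    rw [Real.norm_eq_abs]
    simp only [Pi.add_apply, one_mul, neg_mul]
    have e1 := Real.add_one_le_exp x
    have e2 := Real.add_one_le_exp (-x)
    have e3 := Real.exp_pos x
    have e4 := Real.exp_pos (-x)
    rcases abs_cases x with ⟨h, -⟩ | ⟨h, -⟩ <;> rw [h] <;> linarith
  have hmp : MeasurePreserving (fun η : Env d => η (1, vec i)) (law d ρ) ρ := by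
    refine ⟨measurable_pi_apply _, ?_⟩
    exact Measure.infinitePi_map_eval (μ := fun _ : ℕ × Site d => ρ) (1, vec i)
  have hi2 : Integrable (fun η : Env d => η (1, vec i)) (law d ρ) :=
    (hmp.integrable_comp measurable_id.aestronglyMeasurable).2 hi
  have hi3 : ∫ η : Env d, η (1, vec i) ∂(law d ρ) = ∫ x, x ∂ρ :=
    LawU_integral hmp (F := fun x : ℝ => x) measurable_id.aestronglyMeasurable
  have h2 : ∀ η : Env d, inner ℝ h (VCheapA_w i) + β * η (1, vec i) ≤ X β h η 1 := by
    intro η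
    have hZ := Z_pos hd β h η 1
    rw [X, Real.le_log_iff_exp_le hZ, Z_eq]
    have h3 : wgt β h η (fun _ : Fin 1 => i) =
        Real.exp (inner ℝ h (VCheapA_w i) + β * η (1, vec i)) := by
      unfold wgt
      congr 1
      have e1 : pos (fun _ : Fin 1 => i) 1 = (vec i : Site d) := by
        simp [pos]
      have e2 : energy η (fun _ : Fin 1 => i) = η (1, vec i) := by
        unfold energy
        rw [Fin.sum_univ_one]
        simp [e1]
      rw [e1, e2]
      rfl
    rw [← h3]
    exact Finset.single_le_sum (f := fun s => wgt β h η s)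
      (fun s _ => (wgt_pos β h η s).le) (Finset.mem_univ _)
  have h4 := integral_mono ((integrable_const (inner ℝ h (VCheapA_w i))).add (hi2.const_mul β))
    (concU hd hρ β h 1).1 h2
  have h5 : ∫ η : Env d, (inner ℝ h (VCheapA_w i) + β * η (1, vec i)) ∂(law d ρ) =
      inner ℝ h (VCheapA_w i) + β * ∫ x, x ∂ρ := by
    rw [integral_add (integrable_const _) (hi2.const_mul β), integral_const_mul, hi3]
    simp
  rw [← h5]
  exact h4

private theorem VCheapA_dir (hρ : EM ρ) {β : ℝ} {θ v : Vec d} (hv : ∑ j, |v j| < 1)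
    (hint : θ ∈ interior {h : Vec d | ∀ h' : Vec d, lam ρ β h + inner ℝ (h' - h) v ≤ lam ρ β h'})
    (i : Ix d) : ∃ κ : ℝ, 0 < κ ∧
      lam ρ β (θ + κ • VCheapA_w i) ≤ lam ρ β θ + κ * inner ℝ (VCheapA_w i) v ∧
      ∀ t : ℝ, κ < t →
        lam ρ β θ + t * inner ℝ (VCheapA_w i) v < lam ρ β (θ + t • VCheapA_w i) := by
  have hd := Fin.pos i.1
  have hconv : ConvexOn ℝ Set.univ (fun t : ℝ => lam ρ β (θ + t • VCheapA_w i)) := by
    refine ⟨convex_univ, fun x _ y _ a b ha hb hab => ?_⟩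
    have h1 := (lam_convex (ρ := ρ) hd hρ β).2 (Set.mem_univ (θ + x • VCheapA_w i))
      (Set.mem_univ (θ + y • VCheapA_w i)) ha hb hab
    have h2 : θ + (a • x + b • y) • VCheapA_w i =
        a • (θ + x • VCheapA_w i) + b • (θ + y • VCheapA_w i) := by
      have h3 : (a + b) • θ = θ := by rw [hab, one_smul]
      calc θ + (a • x + b • y) • VCheapA_w i
          = (a + b) • θ + (a • x + b • y) • VCheapA_w i := by rw [h3]
        _ = a • (θ + x • VCheapA_w i) + b • (θ + y • VCheapA_w i) := by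
          rw [add_smul, add_smul, smul_add, smul_add, smul_assoc, smul_assoc]
          abel
    simp only [h2]
    exact h1
  have hcont : Continuous (fun t : ℝ => lam ρ β (θ + t • VCheapA_w i)) := by
    rw [← continuousOn_univ]
    exact hconv.continuousOn isOpen_univ
  obtain ⟨p, hp⟩ : ∃ p : ℝ, p = inner ℝ (VCheapA_w i) v := ⟨_, rfl⟩
  have hp1 : p < 1 := by
    rw [hp, VCheapA_inner]
    have h1 : |v i.1| ≤ ∑ j, |v j| :=
      Finset.single_le_sum (f := fun j => |v j|) (fun j _ => abs_nonneg _) (Finset.mem_univ i.1)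
    have h2 := le_abs_self (v i.1)
    have h3 := neg_le_abs (v i.1)
    split_ifs <;> linarith
  rw [← hp]
  obtain ⟨S, hS⟩ : ∃ S : Set ℝ, S = {t : ℝ | lam ρ β (θ + t • VCheapA_w i) ≤
    lam ρ β θ + t * p} := ⟨_, rfl⟩
  have hcl : IsClosed S := by
    rw [hS]
    exact isClosed_le hcont (by fun_prop)
  have hbd : BddAbove S := by
    refine ⟨(lam ρ β θ - inner ℝ θ (VCheapA_w i) - β * ∫ x, x ∂ρ) / (1 - p), fun t ht => ?_⟩
    rw [hS] at ht
    have h1 := VCheapA_grow (ρ := ρ) i hρ β (θ + t • VCheapA_w i)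
    have h2 : lam ρ β (θ + t • VCheapA_w i) ≤ lam ρ β θ + t * p := ht
    rw [inner_add_left, real_inner_smul_left, VCheapA_inner_self, mul_one] at h1
    rw [le_div_iff₀ (by linarith)]
    nlinarith
  obtain ⟨ε, hε, hball⟩ := Metric.isOpen_iff.1 isOpen_interior θ hint
  have hmem : ε / 2 ∈ S := by
    rw [hS]
    have hnorm : ‖VCheapA_w i‖ = 1 := by
      rw [norm_eq_sqrt_real_inner, VCheapA_inner_self, Real.sqrt_one]
    have h1 : θ + (ε / 2) • VCheapA_w i ∈ Metric.ball θ ε := by
      rw [Metric.mem_ball, dist_eq_norm, add_sub_cancel_left, norm_smul, hnorm, mul_one,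
        Real.norm_eq_abs, abs_of_pos (by linarith)]
      linarith
    have h2 := interior_subset (hball h1) θ
    have h3 : θ - (θ + (ε / 2) • VCheapA_w i) = (-(ε / 2)) • VCheapA_w i := by
      rw [neg_smul]
      abel
    rw [h3, real_inner_smul_left, ← hp] at h2
    show lam ρ β (θ + (ε / 2) • VCheapA_w i) ≤ lam ρ β θ + ε / 2 * p
    linarith
  have hk := hcl.csSup_mem ⟨_, hmem⟩ hbd
  have hle := le_csSup hbd hmem
  have hub : ∀ t ∈ S, t ≤ sSup S := fun t ht => le_csSup hbd ht
  generalize sSup S = κ at hk hle hub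
  refine ⟨κ, by linarith, ?_, fun t ht => ?_⟩
  · rw [hS] at hk
    exact hk
  · by_contra hcon
    push Not at hcon
    have h1 : t ∈ S := by
      rw [hS]
      exact hcon
    have := hub t h1
    linarith

/-- TASK VCheapA. (WHY of row 595.) `θ` is interior in the set of the tilts at which the affine function with slope `v`
supports `lam`. Then `{t ≥ 0 | lam (θ + t s e_j) = lam θ + t s v_j}` is an interval `[0, κ]` (convex function `lam - affine ≥ 0`,
zero at `t = 0`), `κ > 0` because `θ` is interior (every `h` of the set has `lam h = lam θ + (h - θ).v`: two supporting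
inequalities), bounded because `lam (θ + t s e_j) ≥ t + s θ_j + β ∫ x dρ` (straight path, as `CheapA_grow` of
`W_7d29a1_h3/CheapA.lean`, which is private: copy it) and `|v_j| < 1`; continuity as there. `φ (j, s) = κ s e_j`,
`c = min κ / (d + 1)`. -/
theorem setup_of (hρ : EM ρ) (hnc : ∀ c : ℝ, ρ {c} ≠ 1) {β : ℝ} (hβ : 0 < β) (hd : 0 < d)
    {θ v : Vec d} (hv : ∑ j, |v j| < 1)
    (hint : θ ∈ interior {h : Vec d | ∀ h' : Vec d, lam ρ β h + inner ℝ (h' - h) v ≤ lam ρ β h'}) :
    ∃ (φ : Ix d → Vec d) (c : ℝ), Setup d ⟨θ, v⟩ ρ β φ c := by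
  choose κ hκ0 hκ1 hκ2 using VCheapA_dir hρ hv hint
  have hne : (Finset.univ : Finset (Ix d)).Nonempty := ⟨(⟨0, hd⟩, true), Finset.mem_univ _⟩
  obtain ⟨m, hm⟩ : ∃ m : ℝ, m = Finset.univ.inf' hne κ := ⟨_, rfl⟩
  have hm0 : 0 < m := by
    rw [hm, Finset.lt_inf'_iff]
    intro i _
    exact hκ0 i
  have hmle : ∀ i, m ≤ κ i := fun i => by
    rw [hm]
    exact Finset.inf'_le _ (Finset.mem_univ i)
  have hd1 : (0 : ℝ) < (d : ℝ) + 1 := by positivity
  refine ⟨fun i => κ i • VCheapA_w i, m / (d + 1), hρ, hnc, hβ, by positivity, hv, fun i => ?_,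
    fun u => ?_, fun i ε hε => ?_⟩
  · show lam ρ β (θ + κ i • VCheapA_w i) ≤ lam ρ β θ + inner ℝ (κ i • VCheapA_w i) v
    rw [real_inner_smul_left]
    exact hκ1 i
  · obtain ⟨j, -, hj⟩ := Finset.exists_max_image (Finset.univ : Finset (Fin d)) (fun j => |u j|)
      ⟨⟨0, hd⟩, Finset.mem_univ _⟩
    have h1 : ‖u‖ ≤ d * |u j| := by
      refine (norm_le_sum u).trans ?_
      have h2 : ∑ k, |u k| ≤ ∑ _k : Fin d, |u j| :=
        Finset.sum_le_sum fun k _ => hj k (Finset.mem_univ k)
      simpa using h2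
    refine ⟨(j, decide (0 ≤ u j)), ?_⟩
    show m / (d + 1) * ‖u‖ ≤ inner ℝ (κ (j, decide (0 ≤ u j)) • VCheapA_w (j, decide (0 ≤ u j))) u
    have h3 : inner ℝ (VCheapA_w (j, decide (0 ≤ u j))) u = |u j| := by
      rw [VCheapA_inner]
      by_cases h : 0 ≤ u j
      · simp [h, abs_of_nonneg h]
      · push Not at h
        simp [not_le.2 h, abs_of_neg h]
    rw [real_inner_smul_left, h3]
    have h4 := hmle (j, decide (0 ≤ u j))
    have h5 : m / (d + 1) * ‖u‖ ≤ m * |u j| := by
      have h6 : m / (d + 1) * ‖u‖ ≤ m / (d + 1) * (d * |u j|) :=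
        mul_le_mul_of_nonneg_left h1 (by positivity)
      have h7 : m / (d + 1) * (d * |u j|) ≤ m * |u j| := by
        rw [div_mul_eq_mul_div, div_le_iff₀ hd1]
        have := mul_nonneg hm0.le (abs_nonneg (u j))
        nlinarith
      exact h6.trans h7
    exact h5.trans (mul_le_mul_of_nonneg_right h4 (abs_nonneg _))
  · refine ⟨(κ i + ε) • VCheapA_w i, ?_, ?_⟩
    · have hnorm : ‖VCheapA_w i‖ = 1 := by
        rw [norm_eq_sqrt_real_inner, VCheapA_inner_self, Real.sqrt_one]
      show ‖(κ i + ε) • VCheapA_w i - κ i • VCheapA_w i‖ ≤ ε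
      rw [← sub_smul, add_sub_cancel_left, norm_smul, hnorm, mul_one, Real.norm_eq_abs,
        abs_of_pos hε]
    · show lam ρ β θ + inner ℝ ((κ i + ε) • VCheapA_w i) v <
        lam ρ β (θ + (κ i + ε) • VCheapA_w i)
      rw [real_inner_smul_left]
      exact hκ2 i _ (by linarith)

end Pool.Agent.W_7d29a1_v
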