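import Pool.Agent.W_7d29a1_v.MeanC

/-!
Cheap directions.
-/

namespace Pool.Agent.W_7d29a1_v

open MeasureTheory ProbabilityTheory Filter Topology Pool.Agent.W_MP_7d29a1_pr
  Pool.Agent.W_7d29a1_h46 Pool.Agent.W_7d29a1_h46u Pool.Agent.W_7d29a1_h3

variable {d : ℕ} {F : Fr d} {ρ : Measure ℝ} [IsProbabilityMeasure ρ]

/-- `√l log l` is small compared with `l`. -/
private theorem VCheapB_log {C c : ℝ} (hC : 0 < C) (hc : 0 < c) :
    ∀ᶠ l : ℕ in atTop, C * (Real.sqrt l * Real.log l) ≤ c * l := by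
  have h1 := (isLittleO_log_rpow_atTop (r := 1 / 2) (by norm_num)).def (div_pos hc hC)
  have h2 := (tendsto_natCast_atTop_atTop (R := ℝ)).eventually h1
  filter_upwards [h2] with l hl
  rw [← Real.sqrt_eq_rpow, Real.norm_of_nonneg (Real.sqrt_nonneg _)] at hl
  have h3 : Real.log l ≤ c / C * Real.sqrt l := (le_abs_self _).trans hl
  have h4 : Real.sqrt l * Real.log l ≤ Real.sqrt l * (c / C * Real.sqrt l) :=
    mul_le_mul_of_nonneg_left h3 (Real.sqrt_nonneg _)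
  have h5 : Real.sqrt l * (c / C * Real.sqrt l) = c / C * l := by
    have := Real.mul_self_sqrt (Nat.cast_nonneg (α := ℝ) l)
    linear_combination (c / C) * this
  calc C * (Real.sqrt l * Real.log l) ≤ C * (c / C * l) :=
        mul_le_mul_of_nonneg_left (h4.trans h5.le) hC.le
    _ = c * l := by field_simp

/-- `l ^ 0.52` is small compared with `l`. -/
private theorem VCheapB_pow {C c : ℝ} (hC : 0 < C) (hc : 0 < c) :
    ∀ᶠ l : ℕ in atTop, C * (l : ℝ) ^ (0.52 : ℝ) ≤ c * l := by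
  have h1 : Tendsto (fun x : ℝ => x ^ (-(0.48 : ℝ))) atTop (𝓝 0) :=
    tendsto_rpow_neg_atTop (by norm_num)
  have h2 := (h1.comp (tendsto_natCast_atTop_atTop (R := ℝ))).eventually
    (gt_mem_nhds (div_pos hc hC))
  filter_upwards [h2, eventually_gt_atTop 0] with l hl hl0
  have hl' : (0 : ℝ) < l := by exact_mod_cast hl0
  have h3 : (l : ℝ) ^ (0.52 : ℝ) = (l : ℝ) ^ (-(0.48 : ℝ)) * l := by
    have := Real.rpow_add hl' (-(0.48 : ℝ)) 1
    rw [Real.rpow_one] at this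
    rw [← this]
    norm_num
  have h4 : (l : ℝ) ^ (-(0.48 : ℝ)) ≤ c / C := by
    simpa [Function.comp] using hl.le
  rw [h3]
  calc C * ((l : ℝ) ^ (-(0.48 : ℝ)) * l) ≤ C * (c / C * l) :=
        mul_le_mul_of_nonneg_left (mul_le_mul_of_nonneg_right h4 hl'.le) hC.le
    _ = c * l := by field_simp

/-- TASK VCheapB. (1.1) without the waiting block: `ψ` from `hst` with `ε`, `lam' = lam (θ + ψ) - lam θ - ψ.v > 0`. For large `l`
`- ∫ HH ψ l ≥ l lam' / 2` (`H_mean_eq`, `tendsto_A`), `exists_y` gives `y` with `ψ.r(l,y) - g l y ≥ l lam' / 4`. As `g ≥ 0`,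
`‖rv F l y‖ ≥ c l`, and `g l y ≤ φ₀.r + ε ‖r‖`. `L = 2 l`, `w = 2 y` (`g_add` with `x = y`). Compare `W_7d29a1_h3/CheapB.lean`. -/
theorem cheap0 (j0 : Fin d) (hρ : EM ρ) {β : ℝ} {φ₀ : Vec d} (hst : Steep F ρ β φ₀) {ε : ℝ}
    (hε : 0 < ε) : ∃ c : ℝ, 0 < c ∧ ∀ᶠ l : ℕ in atTop, ∃ w : Site d, (∀ j, Even (w j)) ∧
      adm (2 * l) w ∧ c * l ≤ ‖rv F (2 * l) w‖ ∧
      g F ρ β (2 * l) w ≤ inner ℝ φ₀ (rv F (2 * l) w) + ε * ‖rv F (2 * l) w‖ := by
  have hd : 0 < d := Fin.pos j0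
  obtain ⟨ψ, hψ, hlt⟩ := hst ε hε
  obtain ⟨v, hv⟩ : ∃ v : ℝ, v = lam ρ β (F.θ + ψ) - (lam ρ β F.θ + inner ℝ ψ F.v) := ⟨_, rfl⟩
  have hv0 : 0 < v := by rw [hv]; linarith
  obtain ⟨t, ht⟩ : ∃ t : ℝ, t = ‖ψ‖ + 1 := ⟨_, rfl⟩
  have ht0 : 0 < t := by rw [ht]; linarith [norm_nonneg ψ]
  obtain ⟨C1, hC1, hy⟩ := exists_y F j0 hρ β ‖ψ‖
  have hA := (tendsto_A hd hρ β (F.θ + ψ)).eventually
    (lt_mem_nhds (show lam ρ β (F.θ + ψ) - v / 4 < lam ρ β (F.θ + ψ) by linarith))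
  have hB := VCheapB_log hC1 (show (0 : ℝ) < v / 4 by positivity)
  refine ⟨v / t, by positivity, ?_⟩
  filter_upwards [hA, hB, eventually_ge_atTop 2] with l hAl hBl hl2
  have hl0 : (0 : ℝ) < l := by
    have : 0 < l := by omega
    exact_mod_cast this
  obtain ⟨y, hyl, hyi⟩ := hy ψ le_rfl l hl2
  rw [H_mean_eq hd hρ β ψ l] at hyi
  have hAl' : (lam ρ β (F.θ + ψ) - v / 4) * l < A ρ β (F.θ + ψ) l := (lt_div_iff₀ hl0).1 hAl
  have hg := g_nonneg (F := F) j0 hρ β hyl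
  have hkey : v / 2 * l ≤ inner ℝ ψ (rv F l y) - g F ρ β l y := by
    have h1 : (lam ρ β (F.θ + ψ) - v / 4) * l =
        l * (lam ρ β F.θ + inner ℝ ψ F.v) + (3 / 4) * v * l := by
      have : lam ρ β (F.θ + ψ) = lam ρ β F.θ + inner ℝ ψ F.v + v := by rw [hv]; ring
      rw [this]
      ring
    nlinarith [hyi, hAl', h1, hBl]
  have hin : inner ℝ ψ (rv F l y) ≤ t * ‖rv F l y‖ := by
    refine (real_inner_le_norm _ _).trans (mul_le_mul_of_nonneg_right ?_ (norm_nonneg _))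
    rw [ht]
    linarith
  have h2l : 2 * l = l + l := two_mul l
  have hrv : rv F (2 * l) (y + y) = (2 : ℝ) • rv F l y := by
    rw [h2l, rv_add, two_smul]
  have hnrv : ‖rv F (2 * l) (y + y)‖ = 2 * ‖rv F l y‖ := by
    rw [hrv, norm_smul, Real.norm_eq_abs, abs_of_pos two_pos]
  refine ⟨y + y, fun j => ⟨y j, rfl⟩, ?_, ?_, ?_⟩
  · rw [h2l]
    exact adm_add hyl hyl
  · rw [hnrv]
    have h1 : v / t * l = 2 / t * (v / 2 * l) := by field_simp
    have h2 : 2 / t * (v / 2 * l) ≤ 2 / t * (t * ‖rv F l y‖) :=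
      mul_le_mul_of_nonneg_left (by linarith) (by positivity)
    have h3 : 2 / t * (t * ‖rv F l y‖) = 2 * ‖rv F l y‖ := by field_simp
    linarith
  · have h1 := g_add (F := F) j0 hρ β hyl hyl
    rw [← h2l] at h1
    have h2 : inner ℝ ψ (rv F (2 * l) (y + y)) = 2 * inner ℝ ψ (rv F l y) := by
      rw [hrv, inner_smul_right]
    have h3 : inner ℝ (ψ - φ₀) (rv F (2 * l) (y + y)) ≤ ε * ‖rv F (2 * l) (y + y)‖ :=
      (real_inner_le_norm _ _).trans (mul_le_mul_of_nonneg_right hψ (norm_nonneg _))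
    rw [inner_sub_left] at h3
    have h4 : 0 < v / 2 * l := by positivity
    linarith

/-- (1.1): with the waiting block (`g_zz_le`). -/
theorem cheap (j0 : Fin d) {β : ℝ} {φ : Ix d → Vec d} {c : ℝ} (S : Setup d F ρ β φ c) (k : Ix d)
    {ε : ℝ} (hε : 0 < ε) (R : ℝ) : ∃ (L : ℕ) (w : Site d), 0 < L ∧ Even L ∧ (∀ j, Even (w j)) ∧
      adm L w ∧ R ≤ ‖rv F L w‖ ∧
      g F ρ β L w ≤ inner ℝ (φ k) (rv F L w) + ε * ‖rv F L w‖ ∧
      g F ρ β L (zz F (L / 2)) ≤ ε * ‖rv F L w‖ := by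
  obtain ⟨c', hc', h1⟩ := cheap0 (F := F) j0 S.em (S.steep k) hε
  obtain ⟨C2, hC2, hz⟩ := g_zz_le (F := F) j0 S
  have hP := VCheapB_pow hC2 (show (0 : ℝ) < ε * c' by positivity)
  have hR : ∀ᶠ l : ℕ in atTop, R ≤ c' * l :=
    ((tendsto_natCast_atTop_atTop (R := ℝ)).const_mul_atTop hc').eventually
      (eventually_ge_atTop R)
  obtain ⟨l, hl, hPl, hRl, hl1⟩ := (h1.and (hP.and (hR.and (eventually_ge_atTop 1)))).exists
  obtain ⟨w, hw1, hw2, hw3, hw4⟩ := hl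
  refine ⟨2 * l, w, by omega, even_two_mul l, hw1, hw2, hRl.trans hw3, hw4, ?_⟩
  rw [Nat.mul_div_cancel_left l (by norm_num : 0 < 2)]
  have h2 := hz l hl1
  have h3 : ε * (c' * l) ≤ ε * ‖rv F (2 * l) w‖ := mul_le_mul_of_nonneg_left hw3 hε.le
  linarith

end Pool.Agent.W_7d29a1_v
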