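import Pool.Agent.W_7d29a1_v.CheapB

/-!
Travel.
-/

namespace Pool.Agent.W_7d29a1_v

open MeasureTheory ProbabilityTheory Filter Topology Pool.Agent.W_MP_7d29a1_pr
  Pool.Agent.W_7d29a1_h46 Pool.Agent.W_7d29a1_h46u Pool.Agent.W_7d29a1_h3

variable {d : ℕ} {F : Fr d} {ρ : Measure ℝ} [IsProbabilityMeasure ρ]

/-- The tail for one displacement. -/
private theorem CheapC_tail (j0 : Fin d) (hρ : EM ρ) {β : ℝ} {L : ℕ} {a ε : ℝ} (ha : 0 < a)
    (hε : 0 < ε) : ∃ c' : ℝ, 0 < c' ∧ ∀ (i : ℕ) (y : Site d) (m : ℝ), 1 ≤ i → adm (i * L) y →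
      g F ρ β (i * L) y ≤ m + 2 * ε * (i * a) →
      (law d ρ).real {η | ¬ Real.exp (-(m + 6 * ε * (i * a))) ≤ Vp F ρ β η (i * L) y} ≤
        Real.exp (-(c' * i)) := by
  have hden : 0 < Kc β ρ ^ 2 * L + 1 := by positivity
  obtain ⟨t, ht⟩ : ∃ t : ℝ, t = min 1 (ε * a / (Kc β ρ ^ 2 * L + 1)) := ⟨_, rfl⟩
  have ht0 : 0 < t := by
    rw [ht]
    exact lt_min one_pos (by positivity)
  have ht1 : t ≤ 1 := by
    rw [ht]
    exact min_le_left _ _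
  have ht2 : t * (Kc β ρ ^ 2 * L) ≤ ε * a := by
    have e1 : t ≤ ε * a / (Kc β ρ ^ 2 * L + 1) := by
      rw [ht]
      exact min_le_right _ _
    rw [le_div_iff₀ hden] at e1
    linarith
  refine ⟨3 * ε * a * t, by positivity, fun i y m hi hy hg => ?_⟩
  have hiR : (1 : ℝ) ≤ i := by exact_mod_cast hi
  have hne : (toP (i * L) y).Nonempty := (adm_iff j0).1 hy
  have hup := concE_up (F := F) (t := t) (z := 4 * ε * (i * a)) hρ β (subset_refl (toP (i * L) y))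
    hne ht0.le ht1
  have hmono : (law d ρ).real {η | ¬ Real.exp (-(m + 6 * ε * (i * a))) ≤
        Vp F ρ β η (i * L) y} ≤
      (law d ρ).real {η | ¬ Real.exp (-(gE F ρ β (toP (i * L) y) + 4 * ε * (i * a))) ≤
        V F ρ β η (toP (i * L) y)} := by
    refine measureReal_mono ?_
    intro η hη hcon
    apply hη
    refine le_trans (Real.exp_le_exp.2 ?_) hcon
    have : gE F ρ β (toP (i * L) y) ≤ m + 2 * ε * (i * a) := hg
    linarith
  refine hmono.trans (hup.trans (Real.exp_le_exp.2 ?_))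
  have e3 : Kc β ρ ^ 2 * t ^ 2 * ((i * L : ℕ) : ℝ) = (t * (Kc β ρ ^ 2 * L)) * (t * i) := by
    push_cast
    ring
  rw [e3]
  have e4 : (t * (Kc β ρ ^ 2 * L)) * (t * i) ≤ (ε * a) * (t * i) :=
    mul_le_mul_of_nonneg_right ht2 (by positivity)
  nlinarith

/-- TASK VCheapC. (1.2): mean by `g_mul` (`≤ j φ.r(L,w) + i ε a`; the relative position of the waiting blocks is at most
`2 d` each, `zz_rv'`, and `R ≥ 2 d ‖φ k‖ / ε`), tail by `concE_up` with a small constant `t` (deviation `4 ε i a`).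
Compare `W_7d29a1_h3/CheapC.lean`. -/
theorem travel (j0 : Fin d) {β : ℝ} {φ : Ix d → Vec d} {c : ℝ} (S : Setup d F ρ β φ c) (k : Ix d)
    {ε : ℝ} (hε : 0 < ε) (R : ℝ) : ∃ (L : ℕ) (w : Site d), 0 < L ∧ Even L ∧ (∀ j, Even (w j)) ∧
      adm L w ∧ R ≤ ‖rv F L w‖ ∧ ∃ c' : ℝ, 0 < c' ∧ ∀ i j : ℕ, j ≤ i → 1 ≤ i →
      (law d ρ).real {η | ¬ Real.exp (-(inner ℝ (φ k)
          (rv F (i * L) (j • w + (i - j) • zz F (L / 2))) + 6 * ε * (i * ‖rv F L w‖))) ≤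
        Vp F ρ β η (i * L) (j • w + (i - j) • zz F (L / 2))} ≤ Real.exp (-(c' * i)) := by
  classical
  obtain ⟨R', hR'⟩ : ∃ R' : ℝ, R' = max R (max 1 (‖φ k‖ * (2 * d) / ε)) := ⟨_, rfl⟩
  obtain ⟨L, w, hL, hLe, hwe, hw, hR, h1, h2⟩ := cheap j0 S k hε R'
  have ha1 : 1 ≤ ‖rv F L w‖ := le_trans (by rw [hR']; exact (le_max_left _ _).trans (le_max_right _ _)) hR
  have ha2 : ‖φ k‖ * (2 * d) / ε ≤ ‖rv F L w‖ :=
    le_trans (by rw [hR']; exact (le_max_right _ _).trans (le_max_right _ _)) hR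
  have ha0 : 0 < ‖rv F L w‖ := by linarith
  rw [div_le_iff₀ hε] at ha2
  refine ⟨L, w, hL, hLe, hwe, hw, le_trans (by rw [hR']; exact le_max_left _ _) hR, ?_⟩
  obtain ⟨c', hc', ht⟩ := CheapC_tail (F := F) j0 S.em (β := β) (L := L) ha0 hε
  refine ⟨c', hc', fun i j hji hi => ?_⟩
  have hz : adm L (zz F (L / 2)) := cz_adm F S.vlt.le hLe
  have hjR : (j : ℝ) ≤ i := by exact_mod_cast hji
  have hj0 : (0 : ℝ) ≤ j := Nat.cast_nonneg j
  refine ht i _ _ hi (adm_blocks hw hz i j hji) ?_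
  have hg := g_mul (F := F) j0 S.em β hw hz i j hji
  have hrv : rv F (i * L) (j • w + (i - j) • zz F (L / 2)) =
      (j : ℝ) • rv F L w + ((i : ℝ) - j) • rv F L (zz F (L / 2)) := by
    have e1 : i * L = j * L + (i - j) * L := by
      rw [← Nat.add_mul, Nat.add_sub_cancel' hji]
    rw [e1, rv_add, rv_mul, rv_mul, Nat.cast_sub hji]
  rw [hrv, inner_add_right, inner_smul_right, inner_smul_right]
  have e2 : |inner ℝ (φ k) (rv F L (zz F (L / 2)))| ≤ ε * ‖rv F L w‖ := by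
    refine (abs_real_inner_le_norm _ _).trans ?_
    have := mul_le_mul_of_nonneg_left (cz_rv F hLe) (norm_nonneg (φ k))
    unfold cz at this
    linarith
  have e3 := (abs_le.1 e2).1
  have e4 : (j : ℝ) * g F ρ β L w ≤ j * (inner ℝ (φ k) (rv F L w) + ε * ‖rv F L w‖) :=
    mul_le_mul_of_nonneg_left h1 hj0
  have e5 : ((i : ℝ) - j) * g F ρ β L (zz F (L / 2)) ≤ ((i : ℝ) - j) * (ε * ‖rv F L w‖) :=
    mul_le_mul_of_nonneg_left h2 (by linarith)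
  have e6 : ((i : ℝ) - j) * (-(ε * ‖rv F L w‖)) ≤
      ((i : ℝ) - j) * inner ℝ (φ k) (rv F L (zz F (L / 2))) :=
    mul_le_mul_of_nonneg_left e3 (by linarith)
  have e7 : 0 ≤ (j : ℝ) * (ε * ‖rv F L w‖) := by positivity
  linarith

/-- The case without waiting blocks and without `Setup` (from `cheap0`, `g_mul` with `j = i`). -/
theorem travel0 (j0 : Fin d) (hρ : EM ρ) {β : ℝ} {φ₀ : Vec d} (hst : Steep F ρ β φ₀)
    {ε : ℝ} (hε : 0 < ε) (R : ℝ) : ∃ (L : ℕ) (w : Site d), 0 < L ∧ Even L ∧ adm L w ∧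
      R ≤ ‖rv F L w‖ ∧ ∃ c' : ℝ, 0 < c' ∧ ∀ i : ℕ, 1 ≤ i →
      (law d ρ).real {η | ¬ Real.exp (-(inner ℝ φ₀ (rv F (i * L) (i • w)) +
        6 * ε * (i * ‖rv F L w‖))) ≤ Vp F ρ β η (i * L) (i • w)} ≤ Real.exp (-(c' * i)) := by
  classical
  obtain ⟨c', hc', h1⟩ := cheap0 (F := F) j0 hρ hst hε
  have hR : ∀ᶠ l : ℕ in atTop, max R 1 ≤ c' * l :=
    ((tendsto_natCast_atTop_atTop (R := ℝ)).const_mul_atTop hc').eventually
      (eventually_ge_atTop (max R 1))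
  obtain ⟨l, hl, hRl, hl1⟩ := (h1.and (hR.and (eventually_ge_atTop 1))).exists
  obtain ⟨w, -, hw2, hw3, hw4⟩ := hl
  have ha0 : 0 < ‖rv F (2 * l) w‖ := by
    have := (le_max_right R 1).trans (hRl.trans hw3)
    linarith
  refine ⟨2 * l, w, by omega, even_two_mul l, hw2, (le_max_left R 1).trans (hRl.trans hw3), ?_⟩
  obtain ⟨c2, hc2, ht⟩ := CheapC_tail (F := F) j0 hρ (β := β) (L := 2 * l) ha0 hε
  refine ⟨c2, hc2, fun i hi => ?_⟩
  have hb := adm_blocks hw2 hw2 i i le_rfl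
  have hg := g_mul (F := F) j0 hρ β hw2 hw2 i i le_rfl
  rw [Nat.sub_self, zero_smul, add_zero] at hb hg
  refine ht i _ _ hi hb ?_
  rw [rv_mul, inner_smul_right]
  have hiR : (0 : ℝ) ≤ i := Nat.cast_nonneg i
  have e4 : (i : ℝ) * g F ρ β (2 * l) w ≤
      i * (inner ℝ φ₀ (rv F (2 * l) w) + ε * ‖rv F (2 * l) w‖) :=
    mul_le_mul_of_nonneg_left hw4 hiR
  have e7 : 0 ≤ (i : ℝ) * (ε * ‖rv F (2 * l) w‖) := by positivity
  linarith

end Pool.Agent.W_7d29a1_v
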