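import Pool.Agent.W_7d29a1_v.DecA

/-!
The exit estimate.
-/

namespace Pool.Agent.W_7d29a1_v

open MeasureTheory ProbabilityTheory Filter Topology Pool.Agent.W_MP_7d29a1_pr
  Pool.Agent.W_7d29a1_h46 Pool.Agent.W_7d29a1_h46u Pool.Agent.W_7d29a1_h3

variable {d : ℕ} {F : Fr d} {ρ : Measure ℝ} [IsProbabilityMeasure ρ]

/-- TASK VConfA. Deterministic (compare `W_7d29a1_h3/ConfA.lean`): `exit_exists` gives `(i, p)`, `Y < ‖rv F i p‖`; choose by `S.span` the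
indices for `rv F i p` and for `rv F (N - i) (z - p) = rv F N z - rv F i p` (`rv_sub`), whose norm is at least `Y - ‖rv F N z‖`; if both factors
were `< exp (v - φ.r)` then `- u - log (..) < 2 v - c (2 Y - ‖rv F N z‖)`. (With `l = N - i`, `y = z - p`:
`sh (N - l) (z - y) = sh i p`.) -/
theorem exit_luck (j0 : Fin d) {β : ℝ} {φ : Ix d → Vec d} {c : ℝ} (S : Setup d F ρ β φ c)
    (η : Env d) {N Y : ℕ} {z : Site d} {u v : ℝ} (hz : adm N z)
    (hu : Real.exp (-u) ≤ Vp F ρ β η N z)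
    (hhalf : V F ρ β η (stP F N Y z) ≤ 1 / 2 * Vp F ρ β η N z)
    (hv : 2 * v ≤ c * (2 * Y - ‖rv F N z‖) - u -
      Real.log (2 * ((N : ℝ) + 1) * (2 * (N : ℝ) + 1) ^ d)) :
    (∃ l ≤ N, ∃ (y : Site d) (i : Ix d),
      Real.exp (v - inner ℝ (φ i) (rv F l y)) ≤ Vp F ρ β η l y) ∨
    (∃ l ≤ N, ∃ (y : Site d) (i : Ix d),
      Real.exp (v - inner ℝ (φ i) (rv F l y)) ≤ Vp F ρ β (sh (N - l) (z - y) η) l y) := by
  obtain ⟨i, hi, p, hp, hw⟩ := exit_exists j0 η hz hhalf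
  by_contra hcon
  push Not at hcon
  obtain ⟨h1, h2⟩ := hcon
  obtain ⟨i1, hi1⟩ := S.span (rv F i p)
  obtain ⟨i2, hi2⟩ := S.span (rv F (N - i) (z - p))
  have ha := h1 i hi p i1
  have hb := h2 (N - i) (Nat.sub_le _ _) (z - p) i2
  have e1 : N - (N - i) = i := by omega
  have e2 : z - (z - p) = p := by abel
  rw [e1, e2] at hb
  have ha0 : 0 ≤ Vp F ρ β η i p := V_nonneg η _
  have hb0 : 0 ≤ Vp F ρ β (sh i p η) (N - i) (z - p) := V_nonneg _ _
  have hC : (0 : ℝ) < 2 * ((N : ℝ) + 1) * (2 * (N : ℝ) + 1) ^ d := by positivity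
  have hab := mul_lt_mul'' ha hb ha0 hb0
  rw [← Real.exp_add] at hab
  have h3 := lt_of_le_of_lt (hu.trans hw) (mul_lt_mul_of_pos_left hab hC)
  rw [← Real.exp_log hC, ← Real.exp_add] at h3
  have h4 := Real.exp_lt_exp.mp h3
  have h5 : rv F i p = rv F N z - rv F (N - i) (z - p) := by
    rw [rv_sub F hi]
    abel
  have h6 : ‖rv F i p‖ ≤ ‖rv F N z‖ + ‖rv F (N - i) (z - p)‖ := by
    rw [h5]
    exact norm_sub_le _ _
  have h7 : c * (2 * Y - ‖rv F N z‖) ≤ c * ‖rv F i p‖ + c * ‖rv F (N - i) (z - p)‖ := by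
    rw [← mul_add]
    refine mul_le_mul_of_nonneg_left ?_ S.cpos.le
    linarith
  linarith

end Pool.Agent.W_7d29a1_v
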