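import Pool.Agent.W_7d29a1_v.Wt
import Pool.Agent.W_7d29a1_h3.Rev

/-!
Time reversal (the reversed environment is the one of `W_7d29a1_h3.Rev`).
-/

namespace Pool.Agent.W_7d29a1_v

open MeasureTheory ProbabilityTheory Filter Topology Pool.Agent.W_MP_7d29a1_pr
  Pool.Agent.W_7d29a1_h46 Pool.Agent.W_7d29a1_h46u Pool.Agent.W_7d29a1_h3

variable {d : ℕ} {F : Fr d} {ρ : Measure ℝ} {β : ℝ}

private theorem VRev_pos {l : ℕ} (s : Fin l → Step d) {i : ℕ} (hi : i ≤ l) :
    pos (fun j => s (Fin.rev j)) i = pos s l - pos s (l - i) := by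
  have h1 : pos (fun j => s (Fin.rev j)) i =
      ∑ j : Fin l, if ((Fin.rev j : Fin l) : ℕ) < i then vec (s j) else 0 := by
    unfold pos
    have := Equiv.sum_comp (Fin.revPerm (n := l))
      (fun j : Fin l => if ((Fin.rev j : Fin l) : ℕ) < i then vec (s j) else 0)
    rw [← this]
    refine Finset.sum_congr rfl fun j _ => ?_
    simp
  rw [h1, eq_sub_iff_add_eq]
  unfold pos
  rw [← Finset.sum_add_distrib]
  refine Finset.sum_congr rfl fun j _ => ?_
  have hj := j.2
  have h2 : ((Fin.rev j : Fin l) : ℕ) = l - (j + 1) := Fin.val_rev j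
  by_cases h3 : (j : ℕ) < l - i
  · have h4 : ¬ ((Fin.rev j : Fin l) : ℕ) < i := by omega
    rw [if_neg h4, if_pos h3, if_pos hj, zero_add]
  · have h4 : ((Fin.rev j : Fin l) : ℕ) < i := by omega
    rw [if_pos h4, if_neg h3, if_pos hj, add_zero]

private theorem VRev_zero {l : ℕ} (s : Fin l → Step d) : pos s 0 = 0 := by
  unfold pos
  simp

private theorem VRev_energy {N l : ℕ} (hl : l ≤ N) (z y : Site d) (η : Env d) (s : Fin l → Step d)
    (hs : pos s l = y) :
    energy (sh (N - l) (z - y) η) s =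
      energy (rev N z η) (fun j => s (Fin.rev j)) + (rev N z η (0, 0) - rev N z η (l, y)) := by
  set G : ℕ → ℝ := fun k => η (N - l + k, z - y + pos s k) with hG
  have h1 : energy (sh (N - l) (z - y) η) s = ∑ k ∈ Finset.range l, G (k + 1) := by
    unfold energy
    rw [← Fin.sum_univ_eq_sum_range (fun k => G (k + 1)) l]
    refine Finset.sum_congr rfl fun i _ => ?_
    show η ((i : ℕ) + 1 + (N - l), pos s ((i : ℕ) + 1) + (z - y)) =
      η (N - l + ((i : ℕ) + 1), z - y + pos s ((i : ℕ) + 1))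
    rw [add_comm ((i : ℕ) + 1) (N - l), add_comm (pos s ((i : ℕ) + 1)) (z - y)]
  have h2 : energy (rev N z η) (fun j => s (Fin.rev j)) = ∑ k ∈ Finset.range l, G k := by
    unfold energy
    rw [← Finset.sum_range_reflect (fun k => G k) l,
      ← Fin.sum_univ_eq_sum_range (fun k => G (l - 1 - k)) l]
    refine Finset.sum_congr rfl fun i _ => ?_
    have hi := i.2
    show η (if (i : ℕ) + 1 ≤ N then N - ((i : ℕ) + 1) else (i : ℕ) + 1,
      z - pos (fun j => s (Fin.rev j)) ((i : ℕ) + 1)) =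
      η (N - l + (l - 1 - (i : ℕ)), z - y + pos s (l - 1 - (i : ℕ)))
    rw [if_pos (by omega), VRev_pos s (by omega : (i : ℕ) + 1 ≤ l), hs]
    have e1 : N - ((i : ℕ) + 1) = N - l + (l - 1 - (i : ℕ)) := by omega
    have e2 : l - ((i : ℕ) + 1) = l - 1 - (i : ℕ) := by omega
    rw [e1, e2]
    congr 2
    abel
  have h3 : ∑ k ∈ Finset.range l, (G (k + 1) - G k) = G l - G 0 := Finset.sum_range_sub G l
  rw [Finset.sum_sub_distrib] at h3
  have h4 : G l = rev N z η (0, 0) := by
    show η (N - l + l, z - y + pos s l) = η (if 0 ≤ N then N - 0 else 0, z - 0)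
    rw [if_pos (Nat.zero_le N), hs, Nat.sub_add_cancel hl, Nat.sub_zero, sub_add_cancel, sub_zero]
  have h5 : G 0 = rev N z η (l, y) := by
    show η (N - l + 0, z - y + pos s 0) = η (if l ≤ N then N - l else l, z - y)
    rw [if_pos hl, VRev_zero, add_zero, add_zero]
  rw [h1, h2, ← h4, ← h5]
  linarith

/-- TASK VRev. (0.9), from `W_7d29a1_h3.Vp_rev` and `Vp_eq` (the same displacement `y`, the same constant). -/
theorem Vp_rev {N l : ℕ} (hl : l ≤ N) (z y : Site d) (η : Env d) :
    Vp F ρ β (sh (N - l) (z - y) η) l y =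
      Real.exp (β * (rev N z η (0, 0) - rev N z η (l, y))) * Vp F ρ β (rev N z η) l y := by
  classical
  unfold Vp V
  rw [mul_left_comm]
  congr 1
  unfold ZT
  rw [Finset.mul_sum]
  have hinv : Function.Involutive (fun (s : Fin l → Step d) (j : Fin l) => s (Fin.rev j)) := by
    intro s
    funext j
    show s (Fin.rev (Fin.rev j)) = s j
    rw [Fin.rev_rev]
  have h1 := Equiv.sum_comp (hinv.toPerm _) (fun s : Fin l → Step d =>
    Real.exp (β * (rev N z η (0, 0) - rev N z η (l, y))) *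
      (if s ∈ toP l y then wgt β F.θ (rev N z η) s else 0))
  refine Eq.trans ?_ h1
  refine Finset.sum_congr rfl fun s _ => ?_
  have h2 : (hinv.toPerm _) s = fun j => s (Fin.rev j) := rfl
  rw [h2]
  have h3 : pos (fun j => s (Fin.rev j)) l = pos s l := by
    rw [VRev_pos s le_rfl, Nat.sub_self, VRev_zero, sub_zero]
  by_cases hs : pos s l = y
  · have h4 : s ∈ toP l y := hs
    have h5 : (fun j => s (Fin.rev j)) ∈ toP l y := h3.trans hs
    rw [if_pos h4, if_pos h5]
    unfold wgt
    rw [← Real.exp_add, VRev_energy hl z y η s hs, h3]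
    congr 1
    ring
  · have h4 : s ∉ toP l y := hs
    have h5 : (fun j => s (Fin.rev j)) ∉ toP l y := fun h6 => hs (h3.symm.trans h6)
    rw [if_neg h4, if_neg h5, mul_zero]

end Pool.Agent.W_7d29a1_v
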