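import Pool.Agent.W_7d29a1_v.StopC
import Pool.Agent.W_7d29a1_v.Rev

/-!
Luck.
-/

namespace Pool.Agent.W_7d29a1_v

open MeasureTheory ProbabilityTheory Filter Topology Pool.Agent.W_MP_7d29a1_pr
  Pool.Agent.W_7d29a1_h46 Pool.Agent.W_7d29a1_h46u Pool.Agent.W_7d29a1_h3

variable {d : ℕ} {F : Fr d} {ρ : Measure ℝ} [IsProbabilityMeasure ρ]

/-- TASK VLuck. (2.3), forward: `V_le_H` gives `HH (φ i) η l ≤ -Y`; union over the `2 d` indices, `stop`, `D1_le_D2`.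
Compare `W_7d29a1_h3/Luck.lean`. -/
theorem luck (j0 : Fin d) {β : ℝ} {φ : Ix d → Vec d} {c : ℝ} (S : Setup d F ρ β φ c) (N : ℕ)
    {Y : ℝ} (hY : 0 < Y) :
    (law d ρ).real {η | ∃ l ≤ N, ∃ (y : Site d) (i : Ix d),
      Real.exp (Y - inner ℝ (φ i) (rv F l y)) ≤ Vp F ρ β η l y} ≤
      2 * DM F ρ β φ N / Y := by
  have hd : 0 < d := Fin.pos j0
  have h1 : {η : Env d | ∃ l ≤ N, ∃ (y : Site d) (i : Ix d),
      Real.exp (Y - inner ℝ (φ i) (rv F l y)) ≤ Vp F ρ β η l y} ⊆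
      ⋃ i : Ix d, {η : Env d | ∃ l ≤ N, HH F ρ β (φ i) η l ≤ -Y} := by
    rintro η ⟨l, hl, y, i, hy⟩
    rw [Set.mem_iUnion]
    refine ⟨i, l, hl, ?_⟩
    have h2 := V_le_H (F := F) (ρ := ρ) (β := β) j0 (φ i) η (subset_refl (toP l y))
    have h3 : Real.exp (Y - inner ℝ (φ i) (rv F l y)) * Real.exp (inner ℝ (φ i) (rv F l y)) ≤
        Real.exp (-HH F ρ β (φ i) η l) :=
      (mul_le_mul_of_nonneg_right hy (Real.exp_pos _).le).trans h2
    rw [← Real.exp_add, sub_add_cancel, Real.exp_le_exp] at h3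
    show HH F ρ β (φ i) η l ≤ -Y
    linarith
  have h2 : ∀ i : Ix d, (law d ρ).real {η : Env d | ∃ l ≤ N, HH F ρ β (φ i) η l ≤ -Y} ≤
      2 * D2 F ρ β (φ i) N / Y := by
    intro i
    have h3 := stop (F := F) hd S.em β (φ i) (S.flat i) N hY
    have h4 := D1_le_D2 (F := F) hd S.em β (φ i) N
    refine h3.trans ?_
    gcongr
  calc (law d ρ).real {η | ∃ l ≤ N, ∃ (y : Site d) (i : Ix d),
      Real.exp (Y - inner ℝ (φ i) (rv F l y)) ≤ Vp F ρ β η l y}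
      ≤ (law d ρ).real (⋃ i : Ix d, {η : Env d | ∃ l ≤ N, HH F ρ β (φ i) η l ≤ -Y}) :=
        measureReal_mono h1
    _ ≤ ∑ i : Ix d, (law d ρ).real {η : Env d | ∃ l ≤ N, HH F ρ β (φ i) η l ≤ -Y} :=
        measureReal_iUnion_fintype_le _
    _ ≤ ∑ i : Ix d, 2 * D2 F ρ β (φ i) N / Y := Finset.sum_le_sum fun i _ => h2 i
    _ = 2 * DM F ρ β φ N / Y := by
        unfold DM
        rw [Finset.mul_sum, Finset.sum_div]

/-- (2.3), backward: `Vp_rev`, `mp_rev`, `luck` with `Y / 2`, `W_7d29a1_h3.bdry` with `Y / 2` (the luck of a non admissible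
point is impossible as `Vp = 0`; so `sn y ≤ N` may be assumed). -/
theorem luck_back (j0 : Fin d) {β : ℝ} {φ : Ix d → Vec d} {c : ℝ} (S : Setup d F ρ β φ c) :
    ∃ C : ℝ, 0 < C ∧ ∀ (N : ℕ) (z : Site d) (Y : ℝ), 0 < Y →
      (law d ρ).real {η | ∃ l ≤ N, ∃ (y : Site d) (i : Ix d),
        Real.exp (Y - inner ℝ (φ i) (rv F l y)) ≤ Vp F ρ β (sh (N - l) (z - y) η) l y} ≤
      4 * DM F ρ β φ N / Y + C * ((N : ℝ) + 1) ^ (d + 1) * Real.exp (-(Y / 4)) := by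
  obtain ⟨C, hC, hb⟩ := bdry (d := d) S.em β
  refine ⟨C, hC, ?_⟩
  intro N z Y hY
  set A : Set (Env d) := {η | ∃ l ≤ N, ∃ (y : Site d) (i : Ix d),
    Real.exp (Y / 2 - inner ℝ (φ i) (rv F l y)) ≤ Vp F ρ β η l y} with hA
  set B : Set (Env d) := {η | ∃ l ≤ N, ∃ y : Site d, sn y ≤ N ∧ Y / 2 < |β * (η (0, 0) - η (l, y))|} with hB
  have h1 : {η | ∃ l ≤ N, ∃ (y : Site d) (i : Ix d),
        Real.exp (Y - inner ℝ (φ i) (rv F l y)) ≤ Vp F ρ β (sh (N - l) (z - y) η) l y} ⊆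
      rev N z ⁻¹' (A ∪ B) := by
    rintro η ⟨l, hl, y, i, hy⟩
    rw [Vp_rev hl z y η] at hy
    rw [Set.mem_preimage, Set.mem_union]
    set η' : Env d := rev N z η with hη'
    by_cases hbig : Y / 2 < |β * (η' (0, 0) - η' (l, y))|
    · right
      refine ⟨l, hl, y, ?_, hbig⟩
      by_contra hsn
      have hna : ¬ adm l y := by
        intro hadm
        have h2 := sn_le_ln y
        have h3 := hadm.1
        omega
      rw [Vp_zero j0 η' hna, mul_zero] at hy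
      exact absurd hy (not_le.2 (Real.exp_pos _))
    · left
      refine ⟨l, hl, y, i, ?_⟩
      push Not at hbig
      have h2 : Real.exp (β * (η' (0, 0) - η' (l, y))) ≤ Real.exp (Y / 2) :=
        Real.exp_le_exp.2 ((le_abs_self _).trans hbig)
      have h3 : Real.exp (Y - inner ℝ (φ i) (rv F l y)) ≤ Real.exp (Y / 2) * Vp F ρ β η' l y :=
        hy.trans (mul_le_mul_of_nonneg_right h2 (V_nonneg η' _))
      have h4 : Real.exp (Y - inner ℝ (φ i) (rv F l y)) =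
          Real.exp (Y / 2) * Real.exp (Y / 2 - inner ℝ (φ i) (rv F l y)) := by
        rw [← Real.exp_add]
        congr 1
        ring
      rw [h4] at h3
      exact le_of_mul_le_mul_left h3 (Real.exp_pos _)
  have hmp := mp_rev (ρ := ρ) N z
  have h2 : (law d ρ).real (rev N z ⁻¹' (A ∪ B)) ≤ (law d ρ).real (A ∪ B) := by
    rw [measureReal_def, measureReal_def]
    exact ENNReal.toReal_mono (measure_ne_top _ _) (hmp.measure_preimage_le _)
  have hA' := luck j0 S N (half_pos hY)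
  have hB' := hb N (Y / 2) (half_pos hY).le
  have e1 : 2 * DM F ρ β φ N / (Y / 2) = 4 * DM F ρ β φ N / Y := by
    field_simp
    ring
  have e2 : -(Y / 2 / 2) = -(Y / 4) := by ring
  rw [e1] at hA'
  rw [e2] at hB'
  calc (law d ρ).real {η | ∃ l ≤ N, ∃ (y : Site d) (i : Ix d),
        Real.exp (Y - inner ℝ (φ i) (rv F l y)) ≤ Vp F ρ β (sh (N - l) (z - y) η) l y}
      ≤ (law d ρ).real (rev N z ⁻¹' (A ∪ B)) := measureReal_mono h1
    _ ≤ (law d ρ).real (A ∪ B) := h2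
    _ ≤ (law d ρ).real A + (law d ρ).real B := measureReal_union_le _ _
    _ ≤ _ := add_le_add hA' hB'

end Pool.Agent.W_7d29a1_v
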