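import Pool.Agent.W_7d29a1_v.ScaleA
import Pool.Agent.W_7d29a1_v.LaneC
import Pool.Agent.W_7d29a1_h3.ScaleB

/-!
A lower bound of the scale.
-/

namespace Pool.Agent.W_7d29a1_v

open MeasureTheory ProbabilityTheory Filter Topology Pool.Agent.W_MP_7d29a1_pr
  Pool.Agent.W_7d29a1_h46 Pool.Agent.W_7d29a1_h46u Pool.Agent.W_7d29a1_h3

variable {d : ℕ} {F : Fr d} {ρ : Measure ℝ} [IsProbabilityMeasure ρ]

/-- TASK VScaleB. Section 5, copy of `W_7d29a1_h3/ScaleB.lean`: `E = stP F (2 n) Y (zz F n)`, nonempty because otherwise the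
event of `xi_spec` has probability one. -/
theorem scale (j0 : Fin d) {β : ℝ} {φ : Ix d → Vec d} {c : ℝ} (S : Setup d F ρ β φ c)
    {q εF cF : ℝ} (h0 : 0 < q) (h1 : q ≤ 1 / 16) (hc : 0 < cF) (hf : FluctAt ρ β εF cF)
    (hq : 4 * q ≤ εF) :
    ∀ᶠ n : ℕ in atTop, (n : ℝ) ^ c0 d ≤ max (xi d F ρ β q n : ℝ) (bb d F ρ β q n) := by
  have hd : 0 < d := lt_of_le_of_lt (Nat.zero_le _) j0.isLt
  have hε : 0 < εF := by linarith
  obtain ⟨k, -⟩ : ∃ k : Ix d, k = (j0, true) := ⟨_, rfl⟩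
  obtain ⟨Cφ, hCφ⟩ : ∃ Cφ : ℝ, Cφ = ‖φ k‖ * (2 * d) := ⟨_, rfl⟩
  have hCφ0 : 0 ≤ Cφ := by rw [hCφ]; positivity
  obtain ⟨K, hK⟩ : ∃ K : ℝ, K = 2 + 4 * 201 / εF + Cφ := ⟨_, rfl⟩
  have hK0 : 0 < K := by rw [hK]; positivity
  have hlim : ∀ᶠ n : ℕ in atTop, K ^ 2 * 3 ^ d / (2 * cF ^ 2) < Real.sqrt n :=
    (Real.tendsto_sqrt_atTop.comp tendsto_natCast_atTop_atTop).eventually_gt_atTop _
  filter_upwards [lanes j0 S k h0 h1 (ε := 1) one_pos, hlim, eventually_ge_atTop 1] with n hn1 hn2 hn3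
  by_contra hcon
  push Not at hcon
  rw [max_lt_iff] at hcon
  obtain ⟨hx, hb⟩ := hcon
  have hn : (1 : ℝ) ≤ n := by exact_mod_cast hn3
  obtain ⟨t, ht⟩ : ∃ t : ℝ, t = (n : ℝ) ^ c0 d := ⟨_, rfl⟩
  have hc0 : 0 < c0 d := by unfold c0; positivity
  have ht1 : 1 ≤ t := by rw [ht]; exact Real.one_le_rpow hn hc0.le
  have htp : t ^ (d + 2) = Real.sqrt n := by
    rw [ht, ← Real.rpow_natCast, ← Real.rpow_mul (by linarith), Real.sqrt_eq_rpow]
    congr 1
    unfold c0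
    push_cast
    field_simp
    ring
  rw [← ht] at hx hb
  have hxi : xi' d F ρ β q n = t := by
    unfold xi'
    rw [← ht]
    exact max_eq_right hx.le
  rw [hxi, one_mul] at hn1
  have hD2 : D2 F ρ β (φ k) (2 * n) ≤ 200 * t := by linarith
  have hD1 : D1 F ρ β (φ k) (2 * n) ≤ 200 * t :=
    (D1_le_D2 hd S.em β _ _).trans hD2
  have hD0 := D1_nonneg (F := F) (ρ := ρ) β (φ k) (2 * n)
  -- the strip
  obtain ⟨Y, hY⟩ : ∃ Y : ℕ, Y = max (xi d F ρ β q n) 1 := ⟨_, rfl⟩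
  have hYx : xi d F ρ β q n ≤ Y := by rw [hY]; exact le_max_left _ _
  have hYt : (Y : ℝ) ≤ t := by
    rw [hY]
    push_cast
    exact max_le hx.le ht1
  have hst : stP F (2 * n) (xi d F ρ β q n) (zz F n) ⊆ stP F (2 * n) Y (zz F n) :=
    fun s hs => ⟨fun i hi => (hs.1 i hi).trans (by exact_mod_cast hYx), hs.2⟩
  obtain ⟨y, hy⟩ : ∃ y : ℝ, y = 4 * (D1 F ρ β (φ k) (2 * n) + 1) / εF := ⟨_, rfl⟩
  have hy0 : 0 < y := by rw [hy]; positivity
  have hxs := xi_spec (ρ := ρ) j0 S.vlt.le β h0 (by linarith) (le_refl n)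
  have hne : (stP F (2 * n) Y (zz F n)).Nonempty := by
    by_contra hemp
    rw [Set.not_nonempty_iff_eq_empty] at hemp
    have h2 : stP F (2 * n) (xi d F ρ β q n) (zz F n) = ∅ :=
      Set.subset_empty_iff.1 (hst.trans hemp.le)
    have h3 : {η : Env d | ¬ Real.exp (-(bb d F ρ β q n + 1)) ≤
        V F ρ β η (stP F (2 * n) (xi d F ρ β q n) (zz F n))} = Set.univ := by
      refine Set.eq_univ_of_forall fun η => ?_
      change ¬ Real.exp (-(bb d F ρ β q n + 1)) ≤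
        V F ρ β η (stP F (2 * n) (xi d F ρ β q n) (zz F n))
      have h4 : V F ρ β η (stP F (2 * n) (xi d F ρ β q n) (zz F n)) = 0 := by
        have h5 : ZT β F.θ η (∅ : Set (Fin (2 * n) → Step d)) = 0 := by
          unfold ZT
          exact Finset.sum_eq_zero fun s _ => if_neg (Set.notMem_empty s)
        rw [h2]
        unfold V
        rw [h5, mul_zero]
      rw [h4, not_le]
      exact Real.exp_pos _
    rw [h3, probReal_univ] at hxs
    linarith
  have hP1 : (law d ρ).real {η : Env d | ¬ Real.exp (-(bb d F ρ β q n + 1)) ≤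
      V F ρ β η (stP F (2 * n) Y (zz F n))} ≤ 2 * q := by
    refine le_trans (measureReal_mono ?_) hxs
    intro η hη h
    exact hη (h.trans (V_mono η hst))
  have hin : -Cφ ≤ inner ℝ (φ k) (rv F (2 * n) (zz F n)) := by
    have h2 := abs_real_inner_le_norm (φ k) (rv F (2 * n) (zz F n))
    have h3 : ‖φ k‖ * ‖rv F (2 * n) (zz F n)‖ ≤ Cφ := by
      rw [hCφ]
      exact mul_le_mul_of_nonneg_left (zz_rv F n) (norm_nonneg _)
    have h4 := (abs_le.1 h2).1
    linarith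
  have hP2 : (law d ρ).real {η : Env d | Real.exp (y + Cφ) ≤ V F ρ β η (stP F (2 * n) Y (zz F n))} ≤
      εF / 2 := by
    have h2 := stop (F := F) (ρ := ρ) hd S.em β (φ k) (S.flat k) (2 * n) hy0
    refine le_trans (measureReal_mono ?_) (h2.trans ?_)
    · intro η hη
      refine ⟨2 * n, le_rfl, ?_⟩
      have h3 := V_le_H (F := F) (ρ := ρ) (β := β) j0 (φ k) η
        (stP_sub (F := F) (S := Y) (n := 2 * n) (y := zz F n))
      have h50 : Real.exp (y + Cφ) ≤ V F ρ β η (stP F (2 * n) Y (zz F n)) := hη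
      have h5 : Real.exp (y + Cφ + inner ℝ (φ k) (rv F (2 * n) (zz F n))) ≤
          Real.exp (-HH F ρ β (φ k) η (2 * n)) := by
        rw [Real.exp_add]
        exact (mul_le_mul_of_nonneg_right h50 (Real.exp_pos _).le).trans h3
      have h6 := Real.exp_le_exp.1 h5
      linarith
    · rw [div_le_iff₀ hy0]
      have h7 : εF / 2 * y = 2 * (D1 F ρ β (φ k) (2 * n) + 1) := by
        rw [hy]
        field_simp
        ring
      rw [h7]
      linarith
  have hbb1 := one_le_bb (d := d) (F := F) (ρ := ρ) β q n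
  have key := tube_fluct (F := F) (ρ := ρ) (n := 2 * n) (Y := Y) j0 hf hc.le hne (fun s hs => hs.1)
    (u := bb d F ρ β q n + 1) (v := y + Cφ) (by linarith) (by linarith)
  -- arithmetic
  have hu : bb d F ρ β q n + 1 + (y + Cφ) ≤ K * t := by
    have h2 : y ≤ 4 * (201 * t) / εF := by
      rw [hy]
      refine div_le_div_of_nonneg_right ?_ hε.le
      linarith
    have h3 : K * t = 2 * t + 4 * (201 * t) / εF + Cφ * t := by
      rw [hK]
      ring
    have h4 : Cφ ≤ Cφ * t := le_mul_of_one_le_right hCφ0 ht1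
    rw [h3]
    linarith
  have hW : ((2 * n : ℕ) : ℝ) * (2 * (Y : ℝ) + 1) ^ d ≤ 2 * n * (3 * t) ^ d := by
    push_cast
    refine mul_le_mul_of_nonneg_left ?_ (by linarith)
    refine pow_le_pow_left₀ (by positivity) ?_ d
    linarith
  have hkey2 : cF * (2 * n) ≤ K * t * Real.sqrt (2 * n * (3 * t) ^ d) := by
    have h2 : cF * (2 * n) = cF * ((2 * n : ℕ) : ℝ) := by push_cast; ring
    rw [h2]
    exact key.trans (mul_le_mul hu (Real.sqrt_le_sqrt hW) (Real.sqrt_nonneg _) (by positivity))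
  have hsq : (cF * (2 * n)) ^ 2 ≤ (K * t * Real.sqrt (2 * n * (3 * t) ^ d)) ^ 2 :=
    pow_le_pow_left₀ (by positivity) hkey2 2
  have e1 : (K * t * Real.sqrt (2 * n * (3 * t) ^ d)) ^ 2 = 2 * K ^ 2 * 3 ^ d * n * t ^ (d + 2) := by
    rw [mul_pow, Real.sq_sqrt (by positivity), mul_pow 3 t d]
    ring
  rw [e1, htp] at hsq
  have hsn : 0 < Real.sqrt n := Real.sqrt_pos.2 (by linarith)
  have hss : Real.sqrt n * Real.sqrt n = n := Real.mul_self_sqrt (by linarith)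
  rw [div_lt_iff₀ (by positivity)] at hn2
  have h8 : K ^ 2 * 3 ^ d * (2 * n * Real.sqrt n) < Real.sqrt n * (2 * cF ^ 2) * (2 * n * Real.sqrt n) :=
    mul_lt_mul_of_pos_right hn2 (by positivity)
  have h9 : Real.sqrt n * (2 * cF ^ 2) * (2 * n * Real.sqrt n) = (cF * (2 * n)) ^ 2 := by
    calc Real.sqrt n * (2 * cF ^ 2) * (2 * n * Real.sqrt n)
        = 4 * cF ^ 2 * n * (Real.sqrt n * Real.sqrt n) := by ring
      _ = 4 * cF ^ 2 * n * n := by rw [hss]
      _ = (cF * (2 * n)) ^ 2 := by ring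
  have h10 : 2 * K ^ 2 * 3 ^ d * n * Real.sqrt n = K ^ 2 * 3 ^ d * (2 * n * Real.sqrt n) := by ring
  linarith

end Pool.Agent.W_7d29a1_v
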