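import Pool.Agent.W_7d29a1_v.ConfA
import Pool.Agent.W_7d29a1_v.ScaleB
import Pool.Agent.W_7d29a1_v.Luck

/-!
Confinement.
-/

namespace Pool.Agent.W_7d29a1_v

open MeasureTheory ProbabilityTheory Filter Topology Pool.Agent.W_MP_7d29a1_pr
  Pool.Agent.W_7d29a1_h46 Pool.Agent.W_7d29a1_h46u Pool.Agent.W_7d29a1_h3

variable {d : ℕ} {F : Fr d} {ρ : Measure ℝ} [IsProbabilityMeasure ρ]

private theorem vConfB_small (p : ℕ) {b c θ : ℝ} (hb : 0 < b) (hc : 0 < c) (hθ : 0 < θ) :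
    ∀ᶠ n : ℕ in atTop, (n : ℝ) ^ p * Real.exp (-(b * (n : ℝ) ^ c)) ≤ θ := by
  have h1 := (tendsto_rpow_mul_exp_neg_mul_atTop_nhds_zero ((p : ℝ) / c) b hb).comp
    ((tendsto_rpow_atTop hc).comp tendsto_natCast_atTop_atTop)
  filter_upwards [h1.eventually (gt_mem_nhds hθ)] with n hn
  have h2 : ((n : ℝ) ^ c) ^ ((p : ℝ) / c) = (n : ℝ) ^ p := by
    rw [← Real.rpow_mul (Nat.cast_nonneg n), mul_div_cancel₀ _ hc.ne', Real.rpow_natCast]
  simp only [Function.comp] at hn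
  rw [h2] at hn
  have h3 : -(b * (n : ℝ) ^ c) = -b * (n : ℝ) ^ c := by ring
  rw [h3]
  exact hn.le

/-- TASK VConfB. Section 6, copy of `W_7d29a1_h3/ConfB.lean`: `Y = ξ - 1`, `xi_min` gives `r`; with probability `≥ q`:
`exp (-b) ≤ Vp (2 r) (zz F r)` and `V (stP ..) < exp (-(b + 1)) ≤ 1/2 Vp`; `exit_luck` with `v = c ξ / 2`, `luck`,
`luck_back`, `lanesM` with small `ε`. -/
theorem confine (j0 : Fin d) {β : ℝ} {φ : Ix d → Vec d} {c : ℝ} (S : Setup d F ρ β φ c)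
    {q εF cF : ℝ} (h0 : 0 < q) (h1 : q ≤ 1 / 16) (hc : 0 < cF) (hf : FluctAt ρ β εF cF)
    (hq : 4 * q ≤ εF) :
    ∃ C : ℝ, 0 < C ∧ ∀ᶠ n : ℕ in atTop, (xi d F ρ β q n : ℝ) ≤ C * bb d F ρ β q n := by
  classical
  have hd : 0 < d := j0.pos
  have hdR : (0 : ℝ) < d := by exact_mod_cast hd
  have hκ : 0 < c := S.cpos
  have hvl : ∑ j, |F.v j| ≤ 1 := S.vlt.le
  have hc0 : 0 < c0 d := by unfold c0; positivity
  obtain ⟨C, hC, hback⟩ := luck_back (ρ := ρ) j0 S
  set K : ℝ := 2400 * d / c with hK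
  have hK0 : 0 < K := by positivity
  set ε : ℝ := q / (4 * K) with hε
  have hε0 : 0 < ε := by positivity
  set C8 : ℝ := 1 + 4 / c + 4 * K / q with hC8
  have hC80 : 0 < C8 := by positivity
  have hC81 : 1 ≤ C8 := by
    have : 0 ≤ 4 / c + 4 * K / q := by positivity
    linarith
  have hC82 : 4 / c ≤ C8 := by
    have : 0 ≤ 4 * K / q := by positivity
    linarith
  have hC83 : 4 * K / q ≤ C8 := by
    have : 0 ≤ 4 / c := by positivity
    linarith
  refine ⟨C8, hC80, ?_⟩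
  have hbig : ∀ᶠ n : ℕ in atTop, 4 * (1 + (d : ℝ)) ≤ (n : ℝ) ^ c0 d :=
    ((tendsto_rpow_atTop hc0).comp tendsto_natCast_atTop_atTop).eventually_ge_atTop _
  filter_upwards [lanesM (ρ := ρ) j0 S h0 h1 hε0, scale j0 S h0 h1 hc hf hq,
    vConfB_small (d + 2) (b := c / 4) (c := c0 d) (θ := 1 / 5 ^ (d + 2)) (by positivity) hc0
      (by positivity),
    vConfB_small (d + 1) (b := c / 8) (c := c0 d) (θ := q / (4 * C * 3 ^ (d + 1))) (by positivity)
      hc0 (by positivity), eventually_ge_atTop 1, hbig] with n hlan hsc hlog hexp hn1 hnb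
  by_contra hcon
  rw [not_le] at hcon
  have hn1R : (1 : ℝ) ≤ n := by exact_mod_cast hn1
  set b : ℝ := bb d F ρ β q n with hb
  set x : ℝ := (xi d F ρ β q n : ℝ) with hx
  have hb1 : 1 ≤ b := one_le_bb β q n
  have hbx : b < x := by nlinarith
  have hx0 : 0 < x := by linarith
  have hnx : (n : ℝ) ^ c0 d ≤ x := by
    rwa [max_eq_left hbx.le] at hsc
  have hxi' : xi' d F ρ β q n = x := max_eq_left hnx
  rw [hxi'] at hlan
  set v : ℝ := c * x / 2 with hv
  have hv0 : 0 < v := by positivity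
  -- the scale
  have hxi1 : 1 ≤ xi d F ρ β q n := by
    by_contra h2
    have h3 : xi d F ρ β q n = 0 := by omega
    rw [hx, h3] at hx0
    simp at hx0
  set Y : ℕ := xi d F ρ β q n - 1 with hY
  have hYx : (Y : ℝ) + 1 = x := by
    rw [hY, hx]
    push_cast [Nat.cast_sub hxi1]
    ring
  obtain ⟨r, hr, hrP⟩ := xi_min (ρ := ρ) (d := d) (F := F) β q (n := n) (Y := Y) (by omega)
  have hrR : (r : ℝ) ≤ n := by exact_mod_cast hr
  have hq1 : q < 1 := by linarith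
  have hbP := bb_spec (ρ := ρ) (F := F) j0 hvl β h0 hq1 hr
  set G : Set (Env d) := {η | Real.exp (-b) ≤ Vp F ρ β η (2 * r) (zz F r) ∧
    ¬ Real.exp (-(b + 1)) ≤ V F ρ β η (stP F (2 * r) Y (zz F r))} with hG
  have hGP : q ≤ (law d ρ).real G := by
    have h2 : {η : Env d | ¬ Real.exp (-(b + 1)) ≤ V F ρ β η (stP F (2 * r) Y (zz F r))} ⊆
        G ∪ {η : Env d | ¬ Real.exp (-b) ≤ Vp F ρ β η (2 * r) (zz F r)} := by
      intro η hη
      by_cases h3 : Real.exp (-b) ≤ Vp F ρ β η (2 * r) (zz F r)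
      · exact Or.inl ⟨h3, hη⟩
      · exact Or.inr h3
    have h4 := (measureReal_mono (μ := law d ρ) h2).trans (measureReal_union_le _ _)
    linarith
  -- the exit estimate
  have hlog2 : Real.log (2 * (((2 * r : ℕ) : ℝ) + 1) * (2 * ((2 * r : ℕ) : ℝ) + 1) ^ d) ≤
      c / 4 * x := by
    have h2 : (0 : ℝ) ≤ r := Nat.cast_nonneg r
    have h3 : 2 * (((2 * r : ℕ) : ℝ) + 1) * (2 * ((2 * r : ℕ) : ℝ) + 1) ^ d ≤
        (5 * (n : ℝ)) ^ (d + 2) := by
      push_cast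
      have h4 : (2 * (2 * (r : ℝ)) + 1) ^ d ≤ (5 * (n : ℝ)) ^ d :=
        pow_le_pow_left₀ (by positivity) (by linarith) d
      have h5 : 2 * (2 * (r : ℝ) + 1) ≤ (5 * (n : ℝ)) ^ 2 := by nlinarith
      calc 2 * (2 * (r : ℝ) + 1) * (2 * (2 * (r : ℝ)) + 1) ^ d
          ≤ (5 * (n : ℝ)) ^ 2 * (5 * (n : ℝ)) ^ d :=
            mul_le_mul h5 h4 (by positivity) (by positivity)
        _ = (5 * (n : ℝ)) ^ (d + 2) := by rw [← pow_add, add_comm]
    have h6 : (5 * (n : ℝ)) ^ (d + 2) ≤ Real.exp (c / 4 * (n : ℝ) ^ c0 d) := by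
      rw [mul_pow]
      have h7 : Real.exp (-(c / 4 * (n : ℝ) ^ c0 d)) * Real.exp (c / 4 * (n : ℝ) ^ c0 d) = 1 := by
        rw [← Real.exp_add]
        simp
      have h8 : (5 : ℝ) ^ (d + 2) * ((n : ℝ) ^ (d + 2) *
          Real.exp (-(c / 4 * (n : ℝ) ^ c0 d))) ≤ 1 := by
        have h9 : (5 : ℝ) ^ (d + 2) * ((n : ℝ) ^ (d + 2) *
            Real.exp (-(c / 4 * (n : ℝ) ^ c0 d))) ≤ 5 ^ (d + 2) * (1 / 5 ^ (d + 2)) :=
          mul_le_mul_of_nonneg_left hlog (by positivity)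
        have h10 : (5 : ℝ) ^ (d + 2) * (1 / 5 ^ (d + 2)) = 1 := by
          field_simp
        linarith
      calc (5 : ℝ) ^ (d + 2) * (n : ℝ) ^ (d + 2)
          = (5 : ℝ) ^ (d + 2) * (n : ℝ) ^ (d + 2) * (Real.exp (-(c / 4 * (n : ℝ) ^ c0 d)) *
            Real.exp (c / 4 * (n : ℝ) ^ c0 d)) := by rw [h7, mul_one]
        _ = (5 : ℝ) ^ (d + 2) * ((n : ℝ) ^ (d + 2) * Real.exp (-(c / 4 * (n : ℝ) ^ c0 d))) *
            Real.exp (c / 4 * (n : ℝ) ^ c0 d) := by ring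
        _ ≤ 1 * Real.exp (c / 4 * (n : ℝ) ^ c0 d) :=
            mul_le_mul_of_nonneg_right h8 (Real.exp_pos _).le
        _ = Real.exp (c / 4 * (n : ℝ) ^ c0 d) := one_mul _
    have h11 : 0 < 2 * (((2 * r : ℕ) : ℝ) + 1) * (2 * ((2 * r : ℕ) : ℝ) + 1) ^ d := by positivity
    calc Real.log (2 * (((2 * r : ℕ) : ℝ) + 1) * (2 * ((2 * r : ℕ) : ℝ) + 1) ^ d)
        ≤ Real.log (Real.exp (c / 4 * (n : ℝ) ^ c0 d)) := Real.log_le_log h11 (h3.trans h6)
      _ = c / 4 * (n : ℝ) ^ c0 d := Real.log_exp _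
      _ ≤ c / 4 * x := mul_le_mul_of_nonneg_left hnx (by positivity)
  have hbκ : b ≤ c / 4 * x := by
    have h2 : 4 / c * b ≤ C8 * b := mul_le_mul_of_nonneg_right hC82 (by linarith)
    have h3 : 4 / c * b < x := lt_of_le_of_lt h2 hcon
    have h4 : c / 4 * (4 / c * b) = b := by
      field_simp
    have h5 : c / 4 * (4 / c * b) ≤ c / 4 * x := mul_le_mul_of_nonneg_left h3.le (by positivity)
    linarith
  have hrv : ‖rv F (2 * r) (zz F r)‖ ≤ 2 * d := zz_rv F r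
  have hxd : c * (4 * (1 + (d : ℝ))) ≤ c * x :=
    mul_le_mul_of_nonneg_left (hnb.trans hnx) hκ.le
  have hGsub : G ⊆ {η | ∃ l ≤ 2 * r, ∃ (y : Site d) (i : Ix d),
        Real.exp (v - inner ℝ (φ i) (rv F l y)) ≤ Vp F ρ β η l y} ∪
      {η | ∃ l ≤ 2 * r, ∃ (y : Site d) (i : Ix d),
        Real.exp (v - inner ℝ (φ i) (rv F l y)) ≤
          Vp F ρ β (sh (2 * r - l) (zz F r - y) η) l y} := by
    rintro η ⟨hη1, hη2⟩
    rw [not_le] at hη2
    have hhalf : V F ρ β η (stP F (2 * r) Y (zz F r)) ≤ 1 / 2 * Vp F ρ β η (2 * r) (zz F r) := by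
      have h2 : Real.exp (-(b + 1)) = Real.exp (-1) * Real.exp (-b) := by
        rw [← Real.exp_add]
        congr 1
        ring
      have h3 : Real.exp (-1) ≤ 1 / 2 := by
        rw [Real.exp_neg, one_div]
        apply inv_anti₀ (by norm_num)
        have := Real.add_one_le_exp (1 : ℝ)
        linarith
      have h4 : Real.exp (-1) * Real.exp (-b) ≤ 1 / 2 * Vp F ρ β η (2 * r) (zz F r) :=
        mul_le_mul h3 hη1 (Real.exp_pos _).le (by norm_num)
      linarith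
    have h5 := exit_luck (ρ := ρ) (β := β) j0 S η (N := 2 * r) (Y := Y) (z := zz F r) (u := b)
      (v := v) (zz_adm F hvl r) hη1 hhalf (by
        have h6 : c * (2 * (Y : ℝ) - ‖rv F (2 * r) (zz F r)‖) ≥ c * (2 * (Y : ℝ) - 2 * d) :=
          mul_le_mul_of_nonneg_left (by linarith) hκ.le
        have h7 : c * (2 * (Y : ℝ) - 2 * d) = 2 * (c * x) - 1 / 2 * (c * (4 * (1 + (d : ℝ)))) := by
          rw [← hYx]
          ring
        have h8 : 2 * v = c * x := by rw [hv]; ring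
        linarith)
    rcases h5 with h5 | h5
    · exact Or.inl h5
    · exact Or.inr h5
  have hP := (measureReal_mono (μ := law d ρ) hGsub).trans (measureReal_union_le _ _)
  have hl1 := luck (ρ := ρ) j0 S (2 * r) hv0
  have hl2 := hback (2 * r) (zz F r) v hv0
  have hD : DM F ρ β φ (2 * r) ≤ 200 * d * (b + ε * x) := by
    refine le_trans ?_ hlan
    unfold DM
    refine Finset.sum_le_sum fun i _ => ?_
    unfold D2
    refine Finset.sup'_mono _ ?_ _
    intro l hl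
    rw [Finset.mem_range] at hl ⊢
    omega
  have hD0 : 0 ≤ DM F ρ β φ (2 * r) := by
    unfold DM
    refine Finset.sum_nonneg fun i _ => ?_
    unfold D2
    exact (Real.sqrt_nonneg _).trans (Finset.le_sup' (fun l => Real.sqrt
      (∫ η, max (HH F ρ β (φ i) η l) 0 ^ 2 ∂(law d ρ))) (Finset.mem_range.2 (Nat.succ_pos (2 * r))))
  set D : ℝ := DM F ρ β φ (2 * r) with hDd
  have hbx2 : b ≤ q / (4 * K) * x := by
    have h2 : 4 * K / q * b ≤ C8 * b := mul_le_mul_of_nonneg_right hC83 (by linarith)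
    have h3 : 4 * K / q * b ≤ x := (lt_of_le_of_lt h2 hcon).le
    have h4 : q / (4 * K) * (4 * K / q * b) = b := by
      field_simp
    have h5 : q / (4 * K) * (4 * K / q * b) ≤ q / (4 * K) * x :=
      mul_le_mul_of_nonneg_left h3 (by positivity)
    linarith
  have hmain : 2 * D / v + 4 * D / v ≤ q / 2 := by
    have h2 : 2 * D / v + 4 * D / v = 6 * D / v := by ring
    rw [h2, div_le_iff₀ hv0]
    have h3 : D ≤ 200 * d * (2 * (q / (4 * K) * x)) := by
      refine hD.trans ?_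
      apply mul_le_mul_of_nonneg_left _ (by positivity)
      rw [hε]
      linarith
    have h4 : 6 * D ≤ 6 * (200 * d * (2 * (q / (4 * K) * x))) :=
      mul_le_mul_of_nonneg_left h3 (by norm_num)
    refine h4.trans (le_of_eq ?_)
    rw [hK, hv]
    field_simp
    ring
  have hlast : C * (((2 * r : ℕ) : ℝ) + 1) ^ (d + 1) * Real.exp (-(v / 4)) ≤ q / 4 := by
    have h2 : (0 : ℝ) ≤ r := Nat.cast_nonneg r
    have h3 : (((2 * r : ℕ) : ℝ) + 1) ^ (d + 1) ≤ (3 * (n : ℝ)) ^ (d + 1) := by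
      push_cast
      exact pow_le_pow_left₀ (by positivity) (by linarith) _
    have h4 : Real.exp (-(v / 4)) ≤ Real.exp (-(c / 8 * (n : ℝ) ^ c0 d)) := by
      apply Real.exp_le_exp.2
      rw [hv]
      have : c / 8 * (n : ℝ) ^ c0 d ≤ c / 8 * x := mul_le_mul_of_nonneg_left hnx (by positivity)
      linarith
    calc C * (((2 * r : ℕ) : ℝ) + 1) ^ (d + 1) * Real.exp (-(v / 4))
        ≤ C * (3 * (n : ℝ)) ^ (d + 1) * Real.exp (-(c / 8 * (n : ℝ) ^ c0 d)) := by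
          apply mul_le_mul _ h4 (Real.exp_pos _).le (by positivity)
          exact mul_le_mul_of_nonneg_left h3 hC.le
      _ = C * 3 ^ (d + 1) * ((n : ℝ) ^ (d + 1) * Real.exp (-(c / 8 * (n : ℝ) ^ c0 d))) := by
          rw [mul_pow]
          ring
      _ ≤ C * 3 ^ (d + 1) * (q / (4 * C * 3 ^ (d + 1))) :=
          mul_le_mul_of_nonneg_left hexp (by positivity)
      _ = q / 4 := by
          field_simp
  linarith

end Pool.Agent.W_7d29a1_v
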