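import Pool.Agent.W_7d29a1_v.MeanB

/-!
The mean of the waiting cost.
-/

namespace Pool.Agent.W_7d29a1_v

open MeasureTheory ProbabilityTheory Filter Topology Pool.Agent.W_MP_7d29a1_pr
  Pool.Agent.W_7d29a1_h46 Pool.Agent.W_7d29a1_h46u Pool.Agent.W_7d29a1_h3

variable {d : ℕ} {F : Fr d} {ρ : Measure ℝ} [IsProbabilityMeasure ρ]

/-- the end point at time `n` -/
private theorem MeanC_end (j0 : Fin d) {β : ℝ} {φ : Ix d → Vec d} {c : ℝ} (S : Setup d F ρ β φ c) :
    ∃ C : ℝ, 0 < C ∧ ∀ n : ℕ, 2 ≤ n → ∃ y : Site d, adm n y ∧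
      g F ρ β n y ≤ C * (n : ℝ) ^ (0.515 : ℝ) := by
  have hd : 0 < d := j0.pos
  obtain ⟨δ, hδ, C1, hC1, hrate⟩ := rateU hd S.em (β := β) (h := F.θ) (x := 1 / 2)
    (by norm_num) (Fl_half hd S.em β F.θ) (ε := 1 / 100) (by norm_num) (by norm_num)
  obtain ⟨C2, hC2, hy⟩ := exists_y F j0 S.em β 0
  refine ⟨C1 + 100 * C2, by linarith, fun n h2 => ?_⟩
  have hn1 : (1 : ℝ) ≤ n := by exact_mod_cast (by omega : 1 ≤ n)
  have hn0 : (0 : ℝ) < n := by linarith
  obtain ⟨y, hya, hyb⟩ := hy 0 (by rw [norm_zero]) n h2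
  refine ⟨y, hya, ?_⟩
  rw [inner_zero_left, zero_sub, H_mean_eq hd S.em, inner_zero_left, add_zero, add_zero] at hyb
  have h5 := hrate F.θ (by rw [sub_self, norm_zero]; exact hδ) n (by omega)
  have h6 : (n : ℝ) ^ ((1 : ℝ) / 2 + 1 / 100) ≤ (n : ℝ) ^ (0.515 : ℝ) :=
    Real.rpow_le_rpow_of_exponent_le hn1 (by norm_num)
  have h7 : Real.sqrt n * Real.log n ≤ 100 * (n : ℝ) ^ (0.515 : ℝ) := by
    have e1 : Real.log n ≤ (n : ℝ) ^ (0.015 : ℝ) / 0.015 :=
      Real.log_le_rpow_div hn0.le (by norm_num)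
    have e2 : (n : ℝ) ^ (0.515 : ℝ) = Real.sqrt n * (n : ℝ) ^ (0.015 : ℝ) := by
      rw [Real.sqrt_eq_rpow, ← Real.rpow_add hn0]
      norm_num
    rw [e2]
    have e0 : 0 ≤ Real.sqrt n * (n : ℝ) ^ (0.015 : ℝ) := by positivity
    have e3 := mul_le_mul_of_nonneg_left e1 (Real.sqrt_nonneg (n : ℝ))
    have e4 : Real.sqrt n * ((n : ℝ) ^ (0.015 : ℝ) / 0.015) =
        200 / 3 * (Real.sqrt n * (n : ℝ) ^ (0.015 : ℝ)) := by
      ring
    rw [e4] at e3
    linarith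
  have e1 := mul_le_mul_of_nonneg_left h6 hC1
  have e2 := mul_le_mul_of_nonneg_left h7 hC2.le
  linarith

private theorem MeanC_ln_neg (y : Site d) : ln (-y) = ln y := by
  unfold ln
  refine Finset.sum_congr rfl fun j _ => ?_
  rw [Pi.neg_apply, Int.natAbs_neg]

/-- TASK VMeanC. (0.8) of row 595: `φ = 0` in `exists_y` at the time `n = 2 r - m`, `H_mean_eq` and `rateU` at `θ`
(`Fl_half`, exponent `1/2 + 1/100`), so `g n y ≤ C n ^ .515`, `g_norm` gives `‖rv F n y‖ ≤ C n ^ .515`;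
`m` even `~ C' r ^ .515`; `adm m (zz F r - y)` by `ln_le_rv` for `rv F m (zz F r - y) = rv F (2 r) (zz F r) - rv F n y` (`rv_sub`) and
`S.vlt`; `g_add`, `g_le`. If `n < r` the claim is trivial (`g_le`). -/
theorem g_zz_le (j0 : Fin d) {β : ℝ} {φ : Ix d → Vec d} {c : ℝ} (S : Setup d F ρ β φ c) :
    ∃ C : ℝ, 0 < C ∧ ∀ r : ℕ, 1 ≤ r →
      g F ρ β (2 * r) (zz F r) ≤ C * (r : ℝ) ^ (0.52 : ℝ) := by
  have hd : 0 < d := j0.pos
  have hd0 : (0 : ℝ) < d := by exact_mod_cast hd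
  obtain ⟨s, hs⟩ : ∃ s : ℝ, s = ∑ j, |F.v j| := ⟨_, rfl⟩
  have hs1 : s < 1 := by rw [hs]; exact S.vlt
  have hv1 : ∑ j, |F.v j| ≤ 1 := S.vlt.le
  obtain ⟨C1, hC1, hend⟩ := MeanC_end j0 S
  obtain ⟨C3, hC3, hg⟩ := g_le F j0 S.em β
  have hc := S.cpos
  -- the constant of the length of the last piece
  obtain ⟨K, hK⟩ : ∃ K : ℝ, K = d * (2 * d + 2 * C1 / c) / (1 - s) := ⟨_, rfl⟩
  have hs0 : 0 < 1 - s := by linarith
  have hK0 : 0 < K := by rw [hK]; positivity
  refine ⟨2 * C1 + 2 * C3 * (K + 1), by positivity, fun r hr => ?_⟩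
  have hr1 : (1 : ℝ) ≤ r := by exact_mod_cast hr
  have hr0 : (0 : ℝ) < r := by linarith
  obtain ⟨R, hR⟩ : ∃ R : ℝ, R = (r : ℝ) ^ (0.515 : ℝ) := ⟨_, rfl⟩
  have hR1 : 1 ≤ R := by rw [hR]; exact Real.one_le_rpow hr1 (by norm_num)
  have hRle : R ≤ (r : ℝ) ^ (0.52 : ℝ) := by
    rw [hR]
    exact Real.rpow_le_rpow_of_exponent_le hr1 (by norm_num)
  suffices h : g F ρ β (2 * r) (zz F r) ≤ (2 * C1 + 2 * C3 * (K + 1)) * R from
    h.trans (mul_le_mul_of_nonneg_left hRle (by positivity))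
  obtain ⟨k, hk⟩ : ∃ k : ℕ, k = ⌈K * R⌉₊ := ⟨_, rfl⟩
  have hk1 : K * R ≤ k := by rw [hk]; exact Nat.le_ceil _
  have hk2 : (k : ℝ) ≤ (K + 1) * R := by
    have h1 : (k : ℝ) < K * R + 1 := by
      rw [hk]
      exact Nat.ceil_lt_add_one (by positivity)
    linarith
  have hzz : adm (2 * r) (zz F r) := zz_adm F hv1 r
  have hC1R : 0 ≤ 2 * C1 * R := by positivity
  rcases Nat.lt_or_ge k r with hkr | hkr
  · -- the main case
    have hn2 : 2 ≤ 2 * r - 2 * k := by omega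
    have hneven : Even (2 * r - 2 * k) := ⟨r - k, by omega⟩
    obtain ⟨y, hya, hyb⟩ := hend (2 * r - 2 * k) hn2
    have hnle : ((2 * r - 2 * k : ℕ) : ℝ) ^ (0.515 : ℝ) ≤ 2 * R := by
      have h1 : ((2 * r - 2 * k : ℕ) : ℝ) ≤ 2 * r := by
        have : 2 * r - 2 * k ≤ 2 * r := Nat.sub_le _ _
        exact_mod_cast this
      have h2 := Real.rpow_le_rpow (Nat.cast_nonneg _) h1 (by norm_num : (0 : ℝ) ≤ 0.515)
      have h3 : (2 * (r : ℝ)) ^ (0.515 : ℝ) = 2 ^ (0.515 : ℝ) * R := by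
        rw [hR, Real.mul_rpow (by norm_num) hr0.le]
      have h4 : (2 : ℝ) ^ (0.515 : ℝ) ≤ 2 ^ (1 : ℝ) :=
        Real.rpow_le_rpow_of_exponent_le (by norm_num) (by norm_num)
      rw [Real.rpow_one] at h4
      rw [h3] at h2
      exact h2.trans (mul_le_mul_of_nonneg_right h4 (by linarith))
    have hgy : g F ρ β (2 * r - 2 * k) y ≤ 2 * C1 * R := by
      have := mul_le_mul_of_nonneg_left hnle hC1.le
      linarith
    -- the relative position of the end point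
    have hrv : ‖rv F (2 * r - 2 * k) y‖ ≤ 2 * C1 / c * R := by
      have h1 := (g_norm j0 S hya).trans hgy
      have h2 : 2 * C1 / c * R = (2 * C1 * R) / c := by ring
      rw [h2, le_div_iff₀ hc]
      linarith
    have hsub : 2 * r - (2 * r - 2 * k) = 2 * k := by omega
    have hrv2 : ‖rv F (2 * k) (zz F r - y)‖ ≤ 2 * d + 2 * C1 / c * R := by
      have h1 := rv_sub F (Nat.sub_le (2 * r) (2 * k)) y (zz F r)
      rw [hsub] at h1
      rw [h1]
      exact (norm_sub_le _ _).trans (add_le_add (zz_rv F r) hrv)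
    have hpar : Even (ln (zz F r - y)) := by
      have h1 : zz F r - y = -y + zz F r := by abel
      rw [h1]
      refine even_ln_add ?_ (zz_even F r)
      rw [MeanC_ln_neg]
      exact even_of_adm hneven hya
    have hadm : adm (2 * k) (zz F r - y) := by
      refine adm_of_even (even_two_mul k) hpar ?_
      have h1 := ln_le_rv F (2 * k) (zz F r - y)
      rw [← hs] at h1
      have h2 : (d : ℝ) * ‖rv F (2 * k) (zz F r - y)‖ ≤ (1 - s) * (K * R) := by
        have h3 : (1 - s) * (K * R) = d * ((2 * d + 2 * C1 / c) * R) := by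
          rw [hK]
          field_simp
        rw [h3]
        refine mul_le_mul_of_nonneg_left (hrv2.trans ?_) hd0.le
        have h4 : 2 * (d : ℝ) * 1 ≤ 2 * d * R := mul_le_mul_of_nonneg_left hR1 (by positivity)
        linarith
      have h5 : (1 - s) * (K * R) ≤ (1 - s) * (2 * k) := by
        refine mul_le_mul_of_nonneg_left ?_ hs0.le
        have : (0 : ℝ) ≤ k := Nat.cast_nonneg k
        linarith
      have h6 : (ln (zz F r - y) : ℝ) ≤ ((2 * k : ℕ) : ℝ) := by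
        push_cast at h1 ⊢
        linarith
      exact_mod_cast h6
    have h7 := g_add (F := F) j0 S.em β hya hadm
    have h8 : 2 * r - 2 * k + 2 * k = 2 * r := by omega
    have h9 : y + (zz F r - y) = zz F r := by abel
    rw [h8, h9] at h7
    have h10 := hg (2 * k) _ hadm
    have h11 : C3 * ((2 * k : ℕ) : ℝ) ≤ 2 * C3 * (K + 1) * R := by
      push_cast
      have := mul_le_mul_of_nonneg_left hk2 (by positivity : 0 ≤ 2 * C3)
      linarith
    linarith
  · -- the short case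
    have h1 := hg (2 * r) _ hzz
    have h2 : (r : ℝ) ≤ (K + 1) * R := by
      have : (r : ℝ) ≤ k := by exact_mod_cast hkr
      linarith
    have h3 : C3 * ((2 * r : ℕ) : ℝ) ≤ 2 * C3 * (K + 1) * R := by
      push_cast
      have := mul_le_mul_of_nonneg_left h2 (by positivity : 0 ≤ 2 * C3)
      linarith
    linarith

end Pool.Agent.W_7d29a1_v
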