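import Pool.Agent.W_7d29a1_v.QuantA
import Pool.Agent.W_7d29a1_v.MeanC

/-!
The upper bound of `b`.
-/

namespace Pool.Agent.W_7d29a1_v

open MeasureTheory ProbabilityTheory Filter Topology Pool.Agent.W_MP_7d29a1_pr
  Pool.Agent.W_7d29a1_h46 Pool.Agent.W_7d29a1_h46u Pool.Agent.W_7d29a1_h3

variable {d : ℕ} {F : Fr d} {ρ : Measure ℝ} [IsProbabilityMeasure ρ]

private theorem VQuantB_exp_lt {q : ℝ} (h0 : 0 < q) : Real.exp (-(1 / q)) < q := by
  have h1 : 1 / q < Real.exp (1 / q) := by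
    have := Real.add_one_le_exp (1 / q)
    linarith
  rw [Real.exp_neg]
  have h2 : 0 < 1 / q := by positivity
  calc (Real.exp (1 / q))⁻¹ < (1 / q)⁻¹ := by
        apply inv_strictAnti₀ h2 h1
    _ = q := by rw [one_div, inv_inv]

private theorem VQuantB_Q_le (F : Fr d) (j0 : Fin d) (hv : ∑ j, |F.v j| ≤ 1) (hρ : EM ρ) (β : ℝ)
    {q : ℝ} (h0 : 0 < q) (h1 : q < 1) (r : ℕ) {t z : ℝ} (ht : 0 ≤ t) (ht1 : t ≤ 1)
    (hz : Real.exp (Kc β ρ ^ 2 * t ^ 2 * ((2 * r : ℕ) : ℝ) - t * z) < q) :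
    Q d F ρ β q r ≤ g F ρ β (2 * r) (zz F r) + z := by
  by_contra hlt
  push Not at hlt
  have hE : (toP (2 * r) (zz F r)).Nonempty := (adm_iff j0).1 (zz_adm F hv r)
  have h2 := (Q_spec (F := F) (ρ := ρ) j0 hv β h0 h1 r).2
  have h3 := concE_up (F := F) hρ β (E := toP (2 * r) (zz F r)) (y := zz F r) subset_rfl hE
    (t := t) (z := z) ht ht1
  have h4 : (law d ρ).real
      {η : Env d | Vp F ρ β η (2 * r) (zz F r) ≤ Real.exp (-Q d F ρ β q r)} ≤
      (law d ρ).real {η | ¬ Real.exp (-(gE F ρ β (toP (2 * r) (zz F r)) + z)) ≤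
        V F ρ β η (toP (2 * r) (zz F r))} := by
    apply measureReal_mono
    · intro η hη
      simp only [Set.mem_ofPred_eq] at hη ⊢
      intro h5
      have h6 : Real.exp (-(gE F ρ β (toP (2 * r) (zz F r)) + z)) ≤
          Real.exp (-Q d F ρ β q r) := le_trans h5 hη
      rw [Real.exp_le_exp] at h6
      have h7 : g F ρ β (2 * r) (zz F r) = gE F ρ β (toP (2 * r) (zz F r)) := rfl
      rw [h7] at hlt
      linarith
    · exact measure_ne_top _ _
  linarith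

/-- TASK VQuantB. (3.1), copy of `W_7d29a1_h3/QuantB.lean` with `g_zz_le`. -/
theorem bb_le (j0 : Fin d) {β : ℝ} {φ : Ix d → Vec d} {c : ℝ} (S : Setup d F ρ β φ c) {q : ℝ}
    (h0 : 0 < q) (h1 : q < 1) :
    ∃ C : ℝ, 0 < C ∧ ∀ n : ℕ, 1 ≤ n → bb d F ρ β q n ≤ C * (n : ℝ) ^ (0.53 : ℝ) := by
  have hρ : EM ρ := S.em
  have hv : ∑ j, |F.v j| ≤ 1 := S.vlt.le
  obtain ⟨C1, hC1, hg⟩ := g_zz_le (F := F) (ρ := ρ) j0 S
  set K : ℝ := Kc β ρ ^ 2 + 1 / q with hK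
  have hK0 : 0 < K := by
    have : 0 < 1 / q := by positivity
    have := sq_nonneg (Kc β ρ)
    linarith
  set G0 : ℝ := |g F ρ β (2 * 0) (zz F 0)| + 1 / q with hG0
  have hG : 0 ≤ G0 := by positivity
  refine ⟨C1 + 2 * K + G0 + 1, by positivity, fun n hn => ?_⟩
  have hn1 : (1 : ℝ) ≤ n := by exact_mod_cast hn
  have hp1 : (1 : ℝ) ≤ (n : ℝ) ^ (0.53 : ℝ) := Real.one_le_rpow hn1 (by norm_num)
  unfold bb
  apply Finset.sup'_le
  intro r hr
  rw [Finset.mem_range] at hr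
  apply max_le
  · have : 1 * 1 ≤ (C1 + 2 * K + G0 + 1) * (n : ℝ) ^ (0.53 : ℝ) :=
      mul_le_mul (by linarith) hp1 (by norm_num) (by positivity)
    linarith
  rcases Nat.eq_zero_or_pos r with h | h
  · subst h
    have h3 : Q d F ρ β q 0 ≤ g F ρ β (2 * 0) (zz F 0) + 1 / q := by
      apply VQuantB_Q_le F j0 hv hρ β h0 h1 0 (t := 1) (by norm_num) (by norm_num)
      have h4 : Kc β ρ ^ 2 * (1 : ℝ) ^ 2 * ((2 * 0 : ℕ) : ℝ) - 1 * (1 / q) = -(1 / q) := by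
        push_cast
        ring
      rw [h4]
      exact VQuantB_exp_lt h0
    have h5 : Q d F ρ β q 0 ≤ G0 := by
      have := le_abs_self (g F ρ β (2 * 0) (zz F 0))
      linarith
    calc Q d F ρ β q 0 ≤ G0 * 1 := by linarith
      _ ≤ (C1 + 2 * K + G0 + 1) * (n : ℝ) ^ (0.53 : ℝ) :=
        mul_le_mul (by linarith) hp1 (by norm_num) (by positivity)
  · have hr1 : (1 : ℝ) ≤ r := by exact_mod_cast h
    have hrn : (r : ℝ) ≤ n := by
      have : r ≤ n := by omega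
      exact_mod_cast this
    have h2r : (0 : ℝ) < 2 * r := by linarith
    have hs : 0 < Real.sqrt (2 * r) := Real.sqrt_pos.2 h2r
    have hs1 : 1 ≤ Real.sqrt (2 * r) := by
      rw [Real.one_le_sqrt]
      linarith
    have h3 : Q d F ρ β q r ≤ g F ρ β (2 * r) (zz F r) + K * Real.sqrt (2 * r) := by
      apply VQuantB_Q_le F j0 hv hρ β h0 h1 r (t := 1 / Real.sqrt (2 * r)) (by positivity)
      · rw [div_le_one hs]
        exact hs1
      · have h4 : Kc β ρ ^ 2 * (1 / Real.sqrt (2 * r)) ^ 2 * ((2 * r : ℕ) : ℝ) -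
            1 / Real.sqrt (2 * r) * (K * Real.sqrt (2 * r)) = -(1 / q) := by
          have h5 : (1 / Real.sqrt (2 * r)) ^ 2 = 1 / (2 * (r : ℝ)) := by
            rw [div_pow, Real.sq_sqrt h2r.le, one_pow]
          rw [h5, hK]
          push_cast
          field_simp
          ring
        rw [h4]
        exact VQuantB_exp_lt h0
    have h6 := hg r h
    have h7 : (r : ℝ) ^ (0.52 : ℝ) ≤ (n : ℝ) ^ (0.53 : ℝ) :=
      (Real.rpow_le_rpow (by linarith) hrn (by norm_num)).trans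
        (Real.rpow_le_rpow_of_exponent_le hn1 (by norm_num))
    have h8 : Real.sqrt (2 * r) ≤ 2 * (n : ℝ) ^ (0.53 : ℝ) := by
      rw [Real.sqrt_mul (by norm_num)]
      have h9 : Real.sqrt 2 ≤ 2 := by
        rw [Real.sqrt_le_left (by norm_num)]
        norm_num
      have h10 : Real.sqrt r ≤ (n : ℝ) ^ (0.53 : ℝ) := by
        rw [Real.sqrt_eq_rpow]
        exact (Real.rpow_le_rpow (by linarith) hrn (by norm_num)).trans
          (Real.rpow_le_rpow_of_exponent_le hn1 (by norm_num))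
      exact mul_le_mul h9 h10 (Real.sqrt_nonneg _) (by norm_num)
    have h11 : C1 * (r : ℝ) ^ (0.52 : ℝ) ≤ C1 * (n : ℝ) ^ (0.53 : ℝ) :=
      mul_le_mul_of_nonneg_left h7 hC1.le
    have h12 : K * Real.sqrt (2 * r) ≤ K * (2 * (n : ℝ) ^ (0.53 : ℝ)) :=
      mul_le_mul_of_nonneg_left h8 hK0.le
    have h13 : 0 ≤ (G0 + 1) * (n : ℝ) ^ (0.53 : ℝ) := by positivity
    calc Q d F ρ β q r ≤ C1 * (n : ℝ) ^ (0.53 : ℝ) + K * (2 * (n : ℝ) ^ (0.53 : ℝ)) := by linarith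
      _ ≤ (C1 + 2 * K + G0 + 1) * (n : ℝ) ^ (0.53 : ℝ) := by nlinarith

end Pool.Agent.W_7d29a1_v
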