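import Pool.Agent.W_7d29a1_v.ConfB
import Pool.Agent.W_7d29a1_v.QuantB

/-!
What sections 7 - 9 use.
-/

namespace Pool.Agent.W_7d29a1_v

open MeasureTheory ProbabilityTheory Filter Topology Pool.Agent.W_MP_7d29a1_pr
  Pool.Agent.W_7d29a1_h46 Pool.Agent.W_7d29a1_h46u Pool.Agent.W_7d29a1_h3

variable {d : ℕ} {F : Fr d} {ρ : Measure ℝ} [IsProbabilityMeasure ρ]

/-- What sections 7 - 9 use. -/
structure Post (d : ℕ) (F : Fr d) (ρ : Measure ℝ) (β : ℝ) (φ : Ix d → Vec d) (c q : ℝ) : Prop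
    extends Setup d F ρ β φ c where
  q0 : 0 < q
  q1 : q ≤ 1 / 16
  low : ∃ c' : ℝ, 0 < c' ∧ ∀ᶠ n : ℕ in atTop, c' * (n : ℝ) ^ c0 d ≤ bb d F ρ β q n
  dd : ∀ A : ℕ, ∃ C : ℝ, 0 < C ∧ ∀ᶠ n : ℕ in atTop, DM F ρ β φ (A * n) ≤ C * bb d F ρ β q n
  lk : ∀ A : ℕ, ∃ C : ℝ, 0 < C ∧ ∀ᶠ n : ℕ in atTop, ∀ N ≤ A * n, ∀ Y : ℝ, 1 ≤ Y →
    (law d ρ).real {η : Env d | ∃ l ≤ N, ∃ (y : Site d) (i : Ix d),
      Real.exp (Y * bb d F ρ β q n - inner ℝ (φ i) (rv F l y)) ≤ Vp F ρ β η l y} ≤ C / Y ∧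
    ∀ z : Site d, (law d ρ).real {η : Env d | ∃ l ≤ N, ∃ (y : Site d) (i : Ix d),
      Real.exp (Y * bb d F ρ β q n - inner ℝ (φ i) (rv F l y)) ≤
        Vp F ρ β (sh (N - l) (z - y) η) l y} ≤ C / Y

private theorem VConfC_small (p : ℕ) {b c θ : ℝ} (hb : 0 < b) (hc : 0 < c) (hθ : 0 < θ) :
    ∀ᶠ n : ℕ in atTop, (n : ℝ) ^ p * Real.exp (-(b * (n : ℝ) ^ c)) ≤ θ := by
  have h1 := (tendsto_rpow_mul_exp_neg_mul_atTop_nhds_zero ((p : ℝ) / c) b hb).comp
    ((tendsto_rpow_atTop hc).comp tendsto_natCast_atTop_atTop)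
  filter_upwards [h1.eventually (gt_mem_nhds hθ)] with n hn
  have h2 : ((n : ℝ) ^ c) ^ ((p : ℝ) / c) = (n : ℝ) ^ p := by
    rw [← Real.rpow_mul (Nat.cast_nonneg n), mul_div_cancel₀ _ hc.ne', Real.rpow_natCast]
  simp only [Function.comp] at hn
  rw [h2] at hn
  have h3 : -(b * (n : ℝ) ^ c) = -b * (n : ℝ) ^ c := by ring
  rw [h3]
  exact hn.le

/-- The low bound. -/
private theorem VConfC_low (j0 : Fin d) {β : ℝ} {φ : Ix d → Vec d} {c : ℝ}
    (S : Setup d F ρ β φ c) {q εF cF : ℝ} (h0 : 0 < q)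
    (h1 : q ≤ 1 / 16) (hc : 0 < cF) (hf : FluctAt ρ β εF cF) (hq : 4 * q ≤ εF) :
    ∃ K : ℝ, 1 ≤ K ∧ ∀ᶠ n : ℕ in atTop, (n : ℝ) ^ c0 d ≤ K * bb d F ρ β q n ∧
      xi' d F ρ β q n ≤ K * bb d F ρ β q n := by
  obtain ⟨C, hC, hconf⟩ := confine (F := F) (ρ := ρ) j0 S h0 h1 hc hf hq
  refine ⟨C + 1, by linarith, ?_⟩
  filter_upwards [hconf, scale (F := F) (ρ := ρ) j0 S h0 h1 hc hf hq] with n h2 h3
  have hb := one_le_bb (d := d) (F := F) (ρ := ρ) β q n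
  have h4 : (xi d F ρ β q n : ℝ) ≤ (C + 1) * bb d F ρ β q n := by nlinarith
  have h5 : bb d F ρ β q n ≤ (C + 1) * bb d F ρ β q n := by nlinarith
  have h6 : (n : ℝ) ^ c0 d ≤ (C + 1) * bb d F ρ β q n := h3.trans (max_le h4 h5)
  exact ⟨h6, max_le h4 h6⟩

/-- The bound for `DM`. -/
private theorem VConfC_dd (j0 : Fin d) {β : ℝ} {φ : Ix d → Vec d} {c : ℝ}
    (S : Setup d F ρ β φ c) {q εF cF : ℝ} (h0 : 0 < q)
    (h1 : q ≤ 1 / 16) (hc : 0 < cF) (hf : FluctAt ρ β εF cF) (hq : 4 * q ≤ εF)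
    (A : ℕ) : ∃ C : ℝ, 0 < C ∧ ∀ᶠ n : ℕ in atTop,
    DM F ρ β φ (A * n) ≤ C * bb d F ρ β q n := by
  have hd : 0 < d := j0.pos
  obtain ⟨K, hK, hlow⟩ := VConfC_low (F := F) (ρ := ρ) j0 S h0 h1 hc hf hq
  have hA : (0 : ℝ) ≤ A := Nat.cast_nonneg A
  have hdR : (0 : ℝ) ≤ d := Nat.cast_nonneg d
  refine ⟨A * (200 * d * (1 + K)) + 1, by positivity, ?_⟩
  filter_upwards [hlow, lanesM (F := F) (ρ := ρ) j0 S h0 h1 (ε := 1) one_pos] with n hn hl
  have hb := one_le_bb (d := d) (F := F) (ρ := ρ) β q n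
  have h2 := DM_mul (F := F) (ρ := ρ) hd S.em β φ A n
  have h3 := DM_mono (F := F) (ρ := ρ) β φ (by omega : n ≤ 2 * n)
  have h4 : DM F ρ β φ n ≤ 200 * d * (1 + K) * bb d F ρ β q n := by
    have h5 := hn.2
    have h6 : 200 * (d : ℝ) * (bb d F ρ β q n + 1 * xi' d F ρ β q n) ≤
        200 * d * (bb d F ρ β q n + K * bb d F ρ β q n) := by
      apply mul_le_mul_of_nonneg_left _ (by positivity)
      linarith
    calc DM F ρ β φ n ≤ _ := h3.trans hl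
      _ ≤ _ := h6
      _ = _ := by ring
  have h5 := mul_le_mul_of_nonneg_left h4 hA
  nlinarith

/-- TASK VConfC. Copy of `W_7d29a1_h3/ConfC.lean`. -/
theorem post (j0 : Fin d) {β : ℝ} {φ : Ix d → Vec d} {c : ℝ} (S : Setup d F ρ β φ c)
    {q εF cF : ℝ} (h0 : 0 < q) (h1 : q ≤ 1 / 16) (hc : 0 < cF) (hf : FluctAt ρ β εF cF)
    (hq : 4 * q ≤ εF) : Post d F ρ β φ c q := by
  have hd : 0 < d := j0.pos
  have hdR : (0 : ℝ) < d := by exact_mod_cast hd
  have hc0 : 0 < c0 d := by unfold c0; positivity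
  obtain ⟨K, hK, hlow⟩ := VConfC_low (F := F) (ρ := ρ) j0 S h0 h1 hc hf hq
  have hK0 : 0 < K := by linarith
  refine { toSetup := S, q0 := h0, q1 := h1, low := ?_, dd := ?_, lk := ?_ }
  · refine ⟨1 / K, by positivity, ?_⟩
    filter_upwards [hlow] with n hn
    have h2 := hn.1
    rw [one_div, inv_mul_le_iff₀ hK0]
    exact h2
  · intro A
    exact VConfC_dd j0 S h0 h1 hc hf hq A
  · intro A
    obtain ⟨C2, hC2, hdd⟩ := VConfC_dd (F := F) (ρ := ρ) j0 S h0 h1 hc hf hq A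
    obtain ⟨C3, hC3, hback⟩ := luck_back (F := F) (ρ := ρ) j0 S
    have hA : (0 : ℝ) ≤ A := Nat.cast_nonneg A
    refine ⟨4 * C2 + 8 * C3, by positivity, ?_⟩
    filter_upwards [hlow, hdd, VConfC_small (d + 1) (b := 1 / (8 * K)) (c := c0 d)
      (θ := 1 / ((A : ℝ) + 1) ^ (d + 1)) (by positivity) hc0 (by positivity),
      eventually_ge_atTop 1] with n hn hD hsm hn1 N hN Y hY
    have hn1R : (1 : ℝ) ≤ n := by exact_mod_cast hn1
    have hb1 := one_le_bb (d := d) (F := F) (ρ := ρ) β q n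
    set b : ℝ := bb d F ρ β q n with hb
    have hb0 : 0 < b := by linarith
    have hY0 : 0 < Y := by linarith
    have hYb : 0 < Y * b := by positivity
    have hD1 : DM F ρ β φ N ≤ C2 * b := (DM_mono (F := F) (ρ := ρ) β φ hN).trans hD
    have hq1 : DM F ρ β φ N / (Y * b) ≤ C2 / Y := by
      rw [div_le_div_iff₀ hYb hY0]
      calc DM F ρ β φ N * Y ≤ C2 * b * Y := mul_le_mul_of_nonneg_right hD1 hY0.le
        _ = C2 * (Y * b) := by ring
    have hE : C3 * ((N : ℝ) + 1) ^ (d + 1) * Real.exp (-(Y * b / 4)) ≤ 8 * C3 / Y := by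
      have hNn : (N : ℝ) + 1 ≤ ((A : ℝ) + 1) * n := by
        have h2 : (N : ℝ) ≤ A * n := by exact_mod_cast hN
        linarith
      have h3 : ((N : ℝ) + 1) ^ (d + 1) ≤ ((A : ℝ) + 1) ^ (d + 1) * (n : ℝ) ^ (d + 1) := by
        rw [← mul_pow]
        exact pow_le_pow_left₀ (by positivity) hNn _
      have h4 : Real.exp (-(b / 8)) ≤ Real.exp (-(1 / (8 * K) * (n : ℝ) ^ c0 d)) := by
        apply Real.exp_le_exp.2
        have h5 := hn.1
        have h6 : 1 / (8 * K) * (n : ℝ) ^ c0 d ≤ 1 / (8 * K) * (K * b) :=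
          mul_le_mul_of_nonneg_left h5 (by positivity)
        have h7 : 1 / (8 * K) * (K * b) = b / 8 := by
          field_simp
        linarith
      have h8 : ((N : ℝ) + 1) ^ (d + 1) * Real.exp (-(b / 8)) ≤ 1 := by
        have hA1 : (0 : ℝ) < ((A : ℝ) + 1) ^ (d + 1) := by positivity
        calc ((N : ℝ) + 1) ^ (d + 1) * Real.exp (-(b / 8))
            ≤ ((A : ℝ) + 1) ^ (d + 1) * (n : ℝ) ^ (d + 1) *
              Real.exp (-(1 / (8 * K) * (n : ℝ) ^ c0 d)) :=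
              mul_le_mul h3 h4 (Real.exp_pos _).le (by positivity)
          _ = ((A : ℝ) + 1) ^ (d + 1) * ((n : ℝ) ^ (d + 1) *
              Real.exp (-(1 / (8 * K) * (n : ℝ) ^ c0 d))) := by ring
          _ ≤ ((A : ℝ) + 1) ^ (d + 1) * (1 / ((A : ℝ) + 1) ^ (d + 1)) :=
              mul_le_mul_of_nonneg_left hsm hA1.le
          _ = 1 := by
              rw [mul_one_div, div_self hA1.ne']
      have h9 : Real.exp (-(Y * b / 8)) ≤ 8 / Y := by
        have h10 : Y / 8 ≤ Real.exp (Y * b / 8) := by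
          have h11 := Real.add_one_le_exp (Y * b / 8)
          have h12 : Y * 1 ≤ Y * b := mul_le_mul_of_nonneg_left hb1 hY0.le
          linarith
        rw [Real.exp_neg]
        have h13 := inv_anti₀ (by positivity : 0 < Y / 8) h10
        calc (Real.exp (Y * b / 8))⁻¹ ≤ (Y / 8)⁻¹ := h13
          _ = 8 / Y := by rw [inv_div]
      have h14 : Real.exp (-(Y * b / 4)) ≤ Real.exp (-(b / 8)) * (8 / Y) := by
        calc Real.exp (-(Y * b / 4)) ≤ Real.exp (-(b / 8) + -(Y * b / 8)) := by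
              apply Real.exp_le_exp.2
              have h12 : 1 * b ≤ Y * b := mul_le_mul_of_nonneg_right hY hb0.le
              linarith
          _ = Real.exp (-(b / 8)) * Real.exp (-(Y * b / 8)) := Real.exp_add _ _
          _ ≤ Real.exp (-(b / 8)) * (8 / Y) := mul_le_mul_of_nonneg_left h9 (Real.exp_pos _).le
      calc C3 * ((N : ℝ) + 1) ^ (d + 1) * Real.exp (-(Y * b / 4))
          ≤ C3 * ((N : ℝ) + 1) ^ (d + 1) * (Real.exp (-(b / 8)) * (8 / Y)) :=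
            mul_le_mul_of_nonneg_left h14 (by positivity)
        _ = C3 * (8 / Y) * (((N : ℝ) + 1) ^ (d + 1) * Real.exp (-(b / 8))) := by ring
        _ ≤ C3 * (8 / Y) * 1 := mul_le_mul_of_nonneg_left h8 (by positivity)
        _ = 8 * C3 / Y := by ring
    constructor
    · refine (luck (F := F) (ρ := ρ) j0 S N hYb).trans ?_
      have h2 : 2 * DM F ρ β φ N / (Y * b) = 2 * (DM F ρ β φ N / (Y * b)) := by ring
      rw [h2]
      have h4 : 2 * (C2 / Y) ≤ (4 * C2 + 8 * C3) / Y := by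
        rw [← mul_div_assoc]
        apply div_le_div_of_nonneg_right _ hY0.le
        linarith
      linarith
    · intro z
      refine (hback N z (Y * b) hYb).trans ?_
      have h2 : 4 * DM F ρ β φ N / (Y * b) = 4 * (DM F ρ β φ N / (Y * b)) := by ring
      rw [h2]
      have h4 : 4 * (C2 / Y) + 8 * C3 / Y = (4 * C2 + 8 * C3) / Y := by ring
      linarith

end Pool.Agent.W_7d29a1_v
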