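import Pool.Agent.W_7d29a1_v.QuantA
import Pool.Agent.W_7d29a1_h3.ContraA

/-!
The bad blocks of one sequence.
-/

namespace Pool.Agent.W_7d29a1_v

open MeasureTheory ProbabilityTheory Filter Topology Pool.Agent.W_MP_7d29a1_pr
  Pool.Agent.W_7d29a1_h46 Pool.Agent.W_7d29a1_h46u Pool.Agent.W_7d29a1_h3

variable {d : ℕ} {F : Fr d} {ρ : Measure ℝ} [IsProbabilityMeasure ρ]

/-- TASK VContraA. Copy of `W_7d29a1_h3/ContraA.lean` (`odds` is from there); `x i` is the starting site of block `i`. -/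
theorem seq_prob (j0 : Fin d) (hv : ∑ j, |F.v j| ≤ 1) {β q : ℝ} (h0 : 0 < q) (h1 : q < 1)
    {m n N1 l : ℕ} (hn : N1 + 2 * l = 2 * n) (hl : 2 * l ≤ N1) (x : ℕ → Site d) :
    (law d ρ).real {η : Env d | (Set.ncard {i | i ∈ odds m ∧
      Vp F ρ β (sh (i * N1 - l) (x i) η) (2 * n) (zz F n) ≤
        Real.exp (-Q d F ρ β q n)} : ℝ) < q / 8 * (odds m).card} ≤
      Real.exp (-(q * (odds m).card / 2)) := by
  have hsh : ∀ (t : ℕ) (x : Site d), Measurable (sh t x : Env d → Env d) := fun t x =>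
    measurable_pi_lambda _ fun p => measurable_pi_apply _
  have hA0 : MeasurableSet {η : Env d | Vp F ρ β η (2 * n) (zz F n) ≤ Real.exp (-Q d F ρ β q n)} :=
    measurableSet_le (measurable_V _) measurable_const
  refine few_events (odds m)
    (fun i => {η : Env d | Vp F ρ β (sh (i * N1 - l) (x i) η) (2 * n) (zz F n) ≤
      Real.exp (-Q d F ρ β q n)})
    (fun i => {p | i * N1 - l < p.1 ∧ p.1 ≤ i * N1 - l + 2 * n}) ?_ ?_ ?_ h0.le ?_
  · intro i _
    exact hsh (i * N1 - l) (x i) hA0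
  · intro i _ η η' hη
    have h := dep_V_sh (F := F) (ρ := ρ) (β := β) (i * N1 - l) (x i) (toP (2 * n) (zz F n)) hη
    have h' : Vp F ρ β (sh (i * N1 - l) (x i) η) (2 * n) (zz F n) =
        Vp F ρ β (sh (i * N1 - l) (x i) η') (2 * n) (zz F n) := h
    simp only [Set.mem_ofPred_eq, h']
  · have key : ∀ i j : ℕ, i ∈ odds m → j ∈ odds m → i < j → i * N1 - l + 2 * n ≤ j * N1 - l := by
      intro i j hi hj hij
      have hi1 : Odd i := (Finset.mem_filter.1 hi).2
      have hj1 : Odd j := (Finset.mem_filter.1 hj).2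
      obtain ⟨a, rfl⟩ := hi1
      obtain ⟨b, rfl⟩ := hj1
      have hab : 2 * a + 1 + 2 ≤ 2 * b + 1 := by omega
      have e1 : (2 * a + 1 + 2) * N1 ≤ (2 * b + 1) * N1 := Nat.mul_le_mul_right _ hab
      have e2 : N1 ≤ (2 * a + 1) * N1 := Nat.le_mul_of_pos_left _ (by omega)
      have e3 : (2 * a + 1 + 2) * N1 = (2 * a + 1) * N1 + 2 * N1 := by ring
      omega
    intro i hi j hj hij
    rw [Set.disjoint_left]
    rintro p ⟨h1, h2⟩ ⟨h3, h4⟩
    rcases Nat.lt_or_gt_of_ne hij with h | h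
    · have := key i j hi hj h
      omega
    · have := key j i hj hi h
      omega
  · intro i _
    have h := real_sh (ρ := ρ) (i * N1 - l) (x i) hA0
    have h' : (law d ρ).real {η : Env d | Vp F ρ β (sh (i * N1 - l) (x i) η) (2 * n) (zz F n) ≤
        Real.exp (-Q d F ρ β q n)} =
        (law d ρ).real {η : Env d | Vp F ρ β η (2 * n) (zz F n) ≤ Real.exp (-Q d F ρ β q n)} := h
    rw [h']
    exact (Q_spec j0 hv β h0 h1 n).2

end Pool.Agent.W_7d29a1_v
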