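import Pool.Agent.W_7d29a1_v.Mom
import Pool.Agent.W_7d29a1_h3.ContraB

/-!
The connectors.
-/

namespace Pool.Agent.W_7d29a1_v

open MeasureTheory ProbabilityTheory Filter Topology Pool.Agent.W_MP_7d29a1_pr
  Pool.Agent.W_7d29a1_h46 Pool.Agent.W_7d29a1_h46u Pool.Agent.W_7d29a1_h3

variable {d : ℕ} {F : Fr d} {ρ : Measure ℝ} [IsProbabilityMeasure ρ]

private theorem ContraB_cz (F : Fr d) {n : ℕ} (hn : Even n) (j : Fin d) :
    |(cz F n j : ℝ) - n * F.v j| ≤ 2 := by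
  obtain ⟨k, hk⟩ := hn
  have h1 : n = 2 * k := by omega
  have h2 := zz_close F k j
  rw [h1, cz_two_mul]
  push_cast
  exact h2

private theorem ContraB_adm {F : Fr d} {l R : ℕ} (hl : Even l)
    (hb : (2 * d * R + 6 * d : ℝ) ≤ l * (1 - ∑ j, |F.v j|)) {u w : Site d} (hu : sn u ≤ 2 * R)
    (he : Even (ln u)) (hw : ∀ j, Even (w j)) (hc : ∀ j, |(w j : ℝ) - l * F.v j| ≤ 6) :
    adm l (u + w) := by
  refine adm_of_even hl (even_ln_add he hw) ?_
  have h1 : (ln (u + w) : ℝ) ≤ l := by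
    rw [ln_cast]
    have h2 : ∀ j, |((u + w) j : ℝ)| ≤ 2 * R + (l * |F.v j| + 6) := by
      intro j
      have h3 : |(u j : ℝ)| ≤ 2 * R := by
        have h4 := sn_le_iff.1 hu j
        exact_mod_cast h4
      have h5 : |(w j : ℝ)| ≤ l * |F.v j| + 6 := by
        have h6 : |(w j : ℝ)| ≤ |(w j : ℝ) - l * F.v j| + |(l : ℝ) * F.v j| := by
          have := abs_add_le ((w j : ℝ) - l * F.v j) ((l : ℝ) * F.v j)
          rwa [sub_add_cancel] at this
        rw [abs_mul, Nat.abs_cast] at h6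
        linarith [hc j]
      rw [Pi.add_apply, Int.cast_add]
      exact (abs_add_le _ _).trans (add_le_add h3 h5)
    calc ∑ j, |((u + w) j : ℝ)| ≤ ∑ j, (2 * R + (l * |F.v j| + 6) : ℝ) :=
          Finset.sum_le_sum fun j _ => h2 j
      _ = 2 * d * R + 6 * d + l * ∑ j, |F.v j| := by
          rw [Finset.sum_add_distrib, Finset.sum_add_distrib, Finset.sum_const,
            Finset.sum_const, Finset.card_univ, Fintype.card_fin, nsmul_eq_mul, nsmul_eq_mul,
            Finset.mul_sum]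
          ring
      _ ≤ l := by linarith
  exact_mod_cast h1

/-- TASK VContraB. Copy of `W_7d29a1_h3/ContraB.lean`: `micro`, `real_sh`, union over `i ≤ m`, `c'`, `u`. The displacements are
admissible (`adm_of_even`): even coordinates of `cz`; `ln ≤ 2 d R + l |v|_1 + 6 d ≤ l` (coordinatewise, `zz_close` for the even times
`i N1`, `i N1 - l`, `N1 + 2 l`, `(i + 1) N1`; `ln_cast`). -/
theorem conn_prob (F : Fr d) (j0 : Fin d) (hρ : EM ρ) (β : ℝ) : ∃ C5 : ℝ, 0 < C5 ∧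
    ∀ (m n N1 R l K' : ℕ), 1 ≤ n → Even l → Even N1 →
    (2 * d * R + 6 * d : ℝ) ≤ l * (1 - ∑ j, |F.v j|) → l ≤ N1 → K' ≤ n → R ≤ n →
    (law d ρ).real {η : Env d | ¬ ((∀ i, 1 ≤ i → i ≤ m → ∀ c' u : Site d, sn c' ≤ K' →
      sn u ≤ 2 * R → Even (ln u) →
      Real.exp (-(C5 * l)) ≤ Vp F ρ β (sh (i * N1 - l) (cz F (i * N1 - l) + c') η) l
        (u + (cz F (i * N1) - cz F (i * N1 - l)))) ∧
      (∀ i, 1 ≤ i → i < m → ∀ c' u : Site d, sn c' ≤ K' → sn u ≤ 2 * R → Even (ln u) →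
      Real.exp (-(C5 * l)) ≤ Vp F ρ β (sh ((i + 1) * N1) (cz F ((i + 1) * N1) + c' + u) η) l
        (-u + (cz F (i * N1 - l) + cz F (N1 + 2 * l) - cz F ((i + 1) * N1)))))} ≤
      2 * m * (3 * (n : ℝ)) ^ d * (5 * (n : ℝ)) ^ d * Real.exp (-(l : ℝ)) := by
  classical
  obtain ⟨C, hC, hmic⟩ := micro (ρ := ρ) F j0 hρ β
  refine ⟨C, hC, ?_⟩
  intro m n N1 R l K' hn hl hN1 hb hlN hK hR
  have hprob : IsProbabilityMeasure (law d ρ) := by
    unfold law
    infer_instance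
  -- the basic bad event
  set B : Site d → Set (Env d) := fun v => {η | ¬ Real.exp (-(C * l)) ≤ Vp F ρ β η l v} with hB
  have hBm : ∀ v, MeasurableSet (B v) := by
    intro v
    have h1 : Measurable fun η : Env d => Vp F ρ β η l v := measurable_V (toP l v)
    exact (measurableSet_le measurable_const h1).compl
  have hBp : ∀ v : Site d, adm l v → (law d ρ).real (B v) ≤ Real.exp (-(l : ℝ)) := fun v hv =>
    hmic l v hv
  have hS : ∀ (t : ℕ) (x v : Site d), adm l v →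
      (law d ρ).real {η | sh t x η ∈ B v} ≤ Real.exp (-(l : ℝ)) := by
    intro t x v hv
    rw [real_sh t x (hBm v)]
    exact hBp v hv
  have ha1 : ∀ (i : ℕ) (u : Site d), 1 ≤ i → sn u ≤ 2 * R → Even (ln u) →
      adm l (u + (cz F (i * N1) - cz F (i * N1 - l))) := by
    intro i u hi hu he
    have hiN : l ≤ i * N1 := le_trans hlN (Nat.le_mul_of_pos_left N1 hi)
    have e1 : Even (i * N1) := hN1.mul_left i
    have e2 : Even (i * N1 - l) := e1.tsub hl
    refine ContraB_adm hl hb hu he (fun j => ?_) fun j => ?_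
    · rw [Pi.sub_apply]
      exact (cz_even F _ j).sub (cz_even F _ j)
    · have h1 := abs_le.1 (ContraB_cz F e1 j)
      have h2 := abs_le.1 (ContraB_cz F e2 j)
      rw [Nat.cast_sub hiN] at h2
      rw [Pi.sub_apply, Int.cast_sub, abs_le]
      constructor <;> linarith
  have ha2 : ∀ (i : ℕ) (u : Site d), 1 ≤ i → sn u ≤ 2 * R → Even (ln u) →
      adm l (-u + (cz F (i * N1 - l) + cz F (N1 + 2 * l) - cz F ((i + 1) * N1))) := by
    intro i u hi hu he
    have hiN : l ≤ i * N1 := le_trans hlN (Nat.le_mul_of_pos_left N1 hi)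
    have e1 : Even (i * N1) := hN1.mul_left i
    have e2 : Even (i * N1 - l) := e1.tsub hl
    have e3 : Even (N1 + 2 * l) := hN1.add (even_two_mul l)
    have e4 : Even ((i + 1) * N1) := hN1.mul_left (i + 1)
    have hn1 : sn (-u) ≤ 2 * R := by rw [sn_neg]; exact hu
    have hn2 : Even (ln (-u)) := by
      have : ln (-u) = ln u := by
        unfold ln
        exact Finset.sum_congr rfl fun j _ => by rw [Pi.neg_apply, Int.natAbs_neg]
      rw [this]
      exact he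
    refine ContraB_adm hl hb hn1 hn2 (fun j => ?_) fun j => ?_
    · rw [Pi.sub_apply, Pi.add_apply]
      exact ((cz_even F _ j).add (cz_even F _ j)).sub (cz_even F _ j)
    · have h2 := abs_le.1 (ContraB_cz F e2 j)
      have h3 := abs_le.1 (ContraB_cz F e3 j)
      have h4 := abs_le.1 (ContraB_cz F e4 j)
      rw [Nat.cast_sub hiN] at h2
      push_cast at h2 h3 h4
      rw [Pi.sub_apply, Pi.add_apply, Int.cast_sub, Int.cast_add, abs_le]
      constructor <;> linarith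
  set I : Finset (ℕ × Site d × Site d) :=
    (Finset.Icc 1 m) ×ˢ (boxF d K' ×ˢ (boxF d (2 * R)).filter fun v => Even (ln v)) with hI
  set S : ℕ × Site d × Site d → Set (Env d) := fun p =>
    {η | sh (p.1 * N1 - l) (cz F (p.1 * N1 - l) + p.2.1) η ∈
      B (p.2.2 + (cz F (p.1 * N1) - cz F (p.1 * N1 - l)))} ∪
    {η | sh ((p.1 + 1) * N1) (cz F ((p.1 + 1) * N1) + p.2.1 + p.2.2) η ∈
      B (-p.2.2 + (cz F (p.1 * N1 - l) + cz F (N1 + 2 * l) - cz F ((p.1 + 1) * N1)))}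
    with hSdef
  have hsub : {η : Env d | ¬ ((∀ i, 1 ≤ i → i ≤ m → ∀ c' u : Site d, sn c' ≤ K' →
      sn u ≤ 2 * R → Even (ln u) →
      Real.exp (-(C * l)) ≤ Vp F ρ β (sh (i * N1 - l) (cz F (i * N1 - l) + c') η) l
        (u + (cz F (i * N1) - cz F (i * N1 - l)))) ∧
      (∀ i, 1 ≤ i → i < m → ∀ c' u : Site d, sn c' ≤ K' → sn u ≤ 2 * R → Even (ln u) →
      Real.exp (-(C * l)) ≤ Vp F ρ β (sh ((i + 1) * N1) (cz F ((i + 1) * N1) + c' + u) η) l
        (-u + (cz F (i * N1 - l) + cz F (N1 + 2 * l) - cz F ((i + 1) * N1)))))} ⊆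
      ⋃ p ∈ I, S p := by
    intro η hη
    rw [Set.mem_setOf_eq, not_and_or] at hη
    simp only [Set.mem_iUnion]
    rcases hη with hη | hη
    · push Not at hη
      obtain ⟨i, h1, h2, c, v, h3, h4, h5, h6⟩ := hη
      refine ⟨(i, c, v), ?_, Or.inl ?_⟩
      · simp only [hI, Finset.mem_product, Finset.mem_Icc, Finset.mem_filter, mem_boxF_iff]
        exact ⟨⟨h1, h2⟩, h3, h4, h5⟩
      · exact not_le.2 h6
    · push Not at hη
      obtain ⟨i, h1, h2, c, v, h3, h4, h5, h6⟩ := hη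
      refine ⟨(i, c, v), ?_, Or.inr ?_⟩
      · simp only [hI, Finset.mem_product, Finset.mem_Icc, Finset.mem_filter, mem_boxF_iff]
        exact ⟨⟨h1, h2.le⟩, h3, h4, h5⟩
      · exact not_le.2 h6
  have hone : ∀ p ∈ I, (law d ρ).real (S p) ≤ 2 * Real.exp (-(l : ℝ)) := by
    intro p hp
    simp only [hI, Finset.mem_product, Finset.mem_Icc, Finset.mem_filter, mem_boxF_iff] at hp
    refine (measureReal_union_le _ _).trans ?_
    have h1 := hS (p.1 * N1 - l) (cz F (p.1 * N1 - l) + p.2.1) _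
      (ha1 p.1 p.2.2 hp.1.1 hp.2.2.1 hp.2.2.2)
    have h2 := hS ((p.1 + 1) * N1) (cz F ((p.1 + 1) * N1) + p.2.1 + p.2.2) _
      (ha2 p.1 p.2.2 hp.1.1 hp.2.2.1 hp.2.2.2)
    linarith
  have hcard : (I.card : ℝ) ≤ m * (3 * (n : ℝ)) ^ d * (5 * (n : ℝ)) ^ d := by
    have h1 : I.card ≤ m * ((3 * n) ^ d * (5 * n) ^ d) := by
      rw [hI, Finset.card_product, Finset.card_product, Nat.card_Icc, card_boxF]
      have h2 : ((boxF d (2 * R)).filter fun v => Even (ln v)).card ≤ (5 * n) ^ d := by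
        refine (Finset.card_filter_le _ _).trans ?_
        rw [card_boxF]
        exact Nat.pow_le_pow_left (by omega) d
      have h3 : (2 * K' + 1) ^ d ≤ (3 * n) ^ d := Nat.pow_le_pow_left (by omega) d
      have h4 : m + 1 - 1 = m := by omega
      rw [h4]
      exact Nat.mul_le_mul_left _ (Nat.mul_le_mul h3 h2)
    have h5 : (I.card : ℝ) ≤ ((m * ((3 * n) ^ d * (5 * n) ^ d) : ℕ) : ℝ) := by exact_mod_cast h1
    refine h5.trans (le_of_eq ?_)
    push_cast
    ring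
  have hfin : (law d ρ).real (⋃ p ∈ I, S p) ≤ ∑ p ∈ I, (law d ρ).real (S p) :=
    measureReal_biUnion_finset_le I S
  calc _ ≤ (law d ρ).real (⋃ p ∈ I, S p) := measureReal_mono hsub (measure_ne_top _ _)
    _ ≤ ∑ p ∈ I, (law d ρ).real (S p) := hfin
    _ ≤ ∑ _p ∈ I, 2 * Real.exp (-(l : ℝ)) := Finset.sum_le_sum hone
    _ = I.card * (2 * Real.exp (-(l : ℝ))) := by rw [Finset.sum_const, nsmul_eq_mul]
    _ ≤ (m * (3 * (n : ℝ)) ^ d * (5 * (n : ℝ)) ^ d) * (2 * Real.exp (-(l : ℝ))) :=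
        mul_le_mul_of_nonneg_right hcard (by positivity)
    _ = 2 * m * (3 * (n : ℝ)) ^ d * (5 * (n : ℝ)) ^ d * Real.exp (-(l : ℝ)) := by ring

end Pool.Agent.W_7d29a1_v
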