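import Pool.Agent.W_7d29a1_v.DecB

/-!
The positions.
-/

namespace Pool.Agent.W_7d29a1_v

open MeasureTheory ProbabilityTheory Filter Topology Pool.Agent.W_MP_7d29a1_pr
  Pool.Agent.W_7d29a1_h46 Pool.Agent.W_7d29a1_h46u Pool.Agent.W_7d29a1_h3

variable {d : ℕ} {F : Fr d} {ρ : Measure ℝ}

/-- The product of consecutive blocks is at most the weight of the joined block. -/
private theorem VDetA_chain (η : Env d) {β : ℝ} (N1 : ℕ) (x : ℕ → Site d) (i : ℕ) {k : ℕ}
    (hk : 1 ≤ k) :
    ∏ j ∈ Finset.range k,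
        Vp F ρ β (sh ((i + j) * N1) (x (i + j)) η) N1 (x (i + j + 1) - x (i + j)) ≤
      Vp F ρ β (sh (i * N1) (x i) η) (k * N1) (x (i + k) - x i) := by
  induction k, hk using Nat.le_induction with
  | base => simp
  | succ k hk ih =>
    rw [Finset.prod_range_succ]
    have h1 : 0 ≤ Vp F ρ β (sh ((i + k) * N1) (x (i + k)) η) N1 (x (i + k + 1) - x (i + k)) :=
      V_nonneg _ _
    refine (mul_le_mul_of_nonneg_right ih h1).trans ?_
    have h2 := Vp_add (F := F) (ρ := ρ) (β := β) (sh (i * N1) (x i) η) (k * N1) N1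
      (x (i + k) - x i) (x (i + k + 1) - x (i + k))
    rw [sh_sh] at h2
    have e1 : k * N1 + i * N1 = (i + k) * N1 := by ring
    have e2 : x (i + k) - x i + x i = x (i + k) := by abel
    have e3 : k * N1 + N1 = (k + 1) * N1 := by ring
    have e4 : x (i + k) - x i + (x (i + k + 1) - x (i + k)) = x (i + (k + 1)) - x i := by
      rw [show i + (k + 1) = i + k + 1 by ring]
      abel
    rw [e1, e2, e3, e4] at h2
    exact h2

private theorem VDetA_adm {N1 : ℕ} {x : ℕ → Site d} {m : ℕ} (h0 : x 0 = 0)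
    (ha : ∀ i < m, adm N1 (x (i + 1) - x i)) : ∀ i ≤ m, adm (i * N1) (x i) := by
  intro i
  induction i with
  | zero =>
    intro _
    rw [h0]
    constructor
    · simp [ln]
    · simp [ln]
  | succ i ih =>
    intro hi
    have h1 := adm_add (ih (by omega)) (ha i (by omega))
    have e1 : i * N1 + N1 = (i + 1) * N1 := by ring
    have e2 : x i + (x (i + 1) - x i) = x (i + 1) := by abel
    rw [e1, e2] at h1
    exact h1

/-- TASK VDetA. (9.1) and (9.2), copy of `W_7d29a1_h3/DetA.lean`. `block_exists`; if `‖rv F (i N1) (x i)‖ > K B` then `h2f`, `h2b` with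
the indices of `hspan` for `rv F (i N1) (x i)` and for `rv F (m N1 - i N1) (cz F (m N1) - x i)` (norm `≥ ‖rv F (i N1) (x i)‖ - 2 d`, `cz_rv`) give
`2 c K B - 2 d c - c K B < 2 M B`, a contradiction. `h3` with `x' = x i - cz F (i N1)`, `p = x (i+1) - cz F (i N1)` and the index of `hspan` for
`rv F N1 (x (i+1) - x i)`. -/
theorem det_path (j0 : Fin d) {β : ℝ} (hv : ∑ j, |F.v j| ≤ 1) {φ : Ix d → Vec d} {c : ℝ}
    (hc : 0 < c) (hspan : ∀ u : Vec d, ∃ i, c * ‖u‖ ≤ inner ℝ (φ i) u) (η : Env d) {m N1 : ℕ}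
    {B K δ M : ℝ} (hB : 1 ≤ B) (hδ : 0 ≤ δ) (hN1 : Even N1) (hMK : 2 * M + 2 * c * d ≤ c * K)
    (hlog : (m : ℝ) * d * Real.log (2 * ((m * N1 : ℕ) : ℝ) + 1) ≤ M * B)
    (h1 : Real.exp (-(M * B)) ≤ Vp F ρ β η (m * N1) (cz F (m * N1)))
    (h2f : ∀ i ≤ m * N1, ∀ (y : Site d) (k : Ix d),
      Vp F ρ β η i y < Real.exp (c * K / 2 * B - inner ℝ (φ k) (rv F i y)))
    (h2b : ∀ i ≤ m * N1, ∀ (y : Site d) (k : Ix d),
      Vp F ρ β (sh (m * N1 - i) (cz F (m * N1) - y) η) i y <
        Real.exp (c * K / 2 * B - inner ℝ (φ k) (rv F i y)))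
    (h3 : ∀ i < m, ∀ (x p : Site d) (k : Ix d), ‖emb x‖ ≤ (K + 2 * d) * B →
      ‖rv F N1 p‖ ≤ (K + 2 * d) * B → Even (ln x) → Even (ln p) →
      Vp F ρ β (sh (i * N1) (cz F (i * N1) + x) η) N1 (p - x) <
        Real.exp (δ * B - inner ℝ (φ k) (rv F N1 (p - x)))) :
    ∃ x : ℕ → Site d, x 0 = 0 ∧
      (∀ i ≤ m, ‖rv F (i * N1) (x i)‖ ≤ K * B ∧ Even (ln (x i))) ∧
      (∀ i < m, adm N1 (x (i + 1) - x i)) ∧
      (∀ i < m, c * ‖rv F N1 (x (i + 1) - x i)‖ - δ * B ≤
        -Real.log (Vp F ρ β (sh (i * N1) (x i) η) N1 (x (i + 1) - x i))) ∧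
      ∑ i ∈ Finset.range m,
        -Real.log (Vp F ρ β (sh (i * N1) (x i) η) N1 (x (i + 1) - x i)) ≤ 2 * M * B := by
  have hmN : Even (m * N1) := hN1.mul_left m
  have hadm0 : adm (m * N1) (cz F (m * N1)) := cz_adm F hv hmN
  obtain ⟨x, hx0, hxm, hadm, hprod⟩ :=
    block_exists (F := F) (ρ := ρ) (β := β) j0 η N1 m hadm0
  set f : ℕ → ℝ := fun i => Vp F ρ β (sh (i * N1) (x i) η) N1 (x (i + 1) - x i) with hf
  have hfpos : ∀ i < m, 0 < f i := fun i hi => Vp_pos j0 _ (hadm i hi)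
  have hB0 : 0 < B := by linarith only [hB]
  have hd0 : (0 : ℝ) ≤ d := Nat.cast_nonneg d
  have hM : 0 ≤ M := by
    have h0 : 0 ≤ (m : ℝ) * d * Real.log (2 * ((m * N1 : ℕ) : ℝ) + 1) := by
      refine mul_nonneg (by positivity) (Real.log_nonneg ?_)
      have : (0 : ℝ) ≤ ((m * N1 : ℕ) : ℝ) := Nat.cast_nonneg _
      linarith only [this]
    have h1 : 0 ≤ M * B := h0.trans hlog
    by_contra hcon
    have h2 : M * B < 0 := mul_neg_of_neg_of_pos (not_le.1 hcon) hB0
    linarith only [h1, h2]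
  have hK2 : 2 * (d : ℝ) ≤ K := by
    have h3 : c * (2 * (d : ℝ)) ≤ c * K := by linarith only [hMK, hM]
    exact le_of_mul_le_mul_left h3 hc
  have hKB2 : 2 * (d : ℝ) ≤ K * B := by
    have h4 : K * 1 ≤ K * B := mul_le_mul_of_nonneg_left hB (by linarith only [hK2, hd0])
    linarith only [h4, hK2]
  have hdB : 2 * (d : ℝ) ≤ 2 * d * B := by
    have h4 : 2 * (d : ℝ) * 1 ≤ 2 * d * B :=
      mul_le_mul_of_nonneg_left hB (by linarith only [hd0])
    linarith only [h4]
  have hP : 0 < ∏ i ∈ Finset.range m, f i :=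
    Finset.prod_pos fun i hi => hfpos i (Finset.mem_range.1 hi)
  have hlogP : Real.log (∏ i ∈ Finset.range m, f i) = ∑ i ∈ Finset.range m, Real.log (f i) :=
    Real.log_prod fun i hi => (hfpos i (Finset.mem_range.1 hi)).ne'
  have hsum : -(2 * M * B) ≤ ∑ i ∈ Finset.range m, Real.log (f i) := by
    have h2 := h1.trans hprod
    have hAp : 0 < ((2 * ((m * N1 : ℕ) : ℝ) + 1) ^ d) ^ m := by positivity
    have h3 := Real.log_le_log (Real.exp_pos _) h2
    rw [Real.log_exp, Real.log_mul hAp.ne' hP.ne', Real.log_pow, Real.log_pow, hlogP] at h3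
    have h4 : (m : ℝ) * ((d : ℝ) * Real.log (2 * ((m * N1 : ℕ) : ℝ) + 1)) ≤ M * B := by
      rw [← mul_assoc]
      exact hlog
    linarith only [h3, h4]
  have hAdm := VDetA_adm hx0 hadm
  have hpos : ∀ i ≤ m, ‖rv F (i * N1) (x i)‖ ≤ K * B := by
    intro i hi
    rcases Nat.eq_zero_or_pos i with h0 | h0
    · rw [h0, hx0, zero_mul, rv_zero, norm_zero]
      linarith only [hKB2, hd0]
    rcases Nat.eq_or_lt_of_le hi with hm | hm
    · rw [hm, hxm]
      exact (cz_rv F hmN).trans hKB2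
    obtain ⟨k1, hk1⟩ := hspan (rv F (i * N1) (x i))
    obtain ⟨k2, hk2⟩ := hspan (rv F ((m - i) * N1) (cz F (m * N1) - x i))
    have hnorm2 : ‖rv F (i * N1) (x i)‖ - 2 * d ≤
        ‖rv F ((m - i) * N1) (cz F (m * N1) - x i)‖ := by
      have e0 : (m - i) * N1 = m * N1 - i * N1 := Nat.sub_mul _ _ _
      rw [e0, rv_sub F (Nat.mul_le_mul_right _ hi)]
      have h5 := norm_sub_norm_le (rv F (i * N1) (x i)) (rv F (m * N1) (cz F (m * N1)))
      rw [norm_sub_rev (rv F (i * N1) (x i))] at h5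
      have h6 := cz_rv F hmN
      linarith only [h5, h6]
    have hP1 : ∏ j ∈ Finset.range i, f j <
        Real.exp (c * K / 2 * B - c * ‖rv F (i * N1) (x i)‖) := by
      have h5 := VDetA_chain (F := F) (ρ := ρ) (β := β) η N1 x 0 (k := i) h0
      simp only [zero_add, zero_mul] at h5
      rw [hx0, sh_zero, sub_zero] at h5
      refine (h5.trans_lt (h2f _ (Nat.mul_le_mul_right _ hi) _ k1)).trans_le ?_
      exact Real.exp_le_exp.2 (by linarith only [hk1])
    have hP2 : ∏ j ∈ Finset.range (m - i), f (i + j) <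
        Real.exp (c * K / 2 * B - c * (‖rv F (i * N1) (x i)‖ - 2 * d)) := by
      have h5 := VDetA_chain (F := F) (ρ := ρ) (β := β) η N1 x i (k := m - i) (by omega)
      have h6 := h2b ((m - i) * N1) (Nat.mul_le_mul_right _ (Nat.sub_le m i))
        (cz F (m * N1) - x i) k2
      have e1 : m * N1 - (m - i) * N1 = i * N1 := by
        rw [← Nat.sub_mul]
        congr 1
        omega
      have e2 : i + (m - i) = m := by omega
      rw [e2, hxm] at h5
      rw [e1, sub_sub_cancel] at h6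
      refine (h5.trans_lt h6).trans_le (Real.exp_le_exp.2 ?_)
      have h7 : c * (‖rv F (i * N1) (x i)‖ - 2 * d) ≤
          c * ‖rv F ((m - i) * N1) (cz F (m * N1) - x i)‖ :=
        mul_le_mul_of_nonneg_left hnorm2 hc.le
      linarith only [h7, hk2]
    have hsplit : (∏ j ∈ Finset.range i, f j) * ∏ j ∈ Finset.range (m - i), f (i + j) =
        ∏ j ∈ Finset.range m, f j := by
      have h7 := Finset.prod_range_add f i (m - i)
      rw [show i + (m - i) = m by omega] at h7
      exact h7.symm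
    have hPp2 : 0 < ∏ j ∈ Finset.range (m - i), f (i + j) :=
      Finset.prod_pos fun j hj => hfpos _ (by have := Finset.mem_range.1 hj; omega)
    have h8 : ∏ j ∈ Finset.range m, f j <
        Real.exp (c * K * B - 2 * (c * ‖rv F (i * N1) (x i)‖) + 2 * c * d) := by
      rw [← hsplit]
      calc (∏ j ∈ Finset.range i, f j) * ∏ j ∈ Finset.range (m - i), f (i + j)
          < Real.exp (c * K / 2 * B - c * ‖rv F (i * N1) (x i)‖) *
              ∏ j ∈ Finset.range (m - i), f (i + j) := mul_lt_mul_of_pos_right hP1 hPp2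
        _ ≤ Real.exp (c * K / 2 * B - c * ‖rv F (i * N1) (x i)‖) *
              Real.exp (c * K / 2 * B - c * (‖rv F (i * N1) (x i)‖ - 2 * d)) :=
            mul_le_mul_of_nonneg_left hP2.le (Real.exp_pos _).le
        _ = Real.exp (c * K * B - 2 * (c * ‖rv F (i * N1) (x i)‖) + 2 * c * d) := by
            rw [← Real.exp_add]
            congr 1
            ring
    have h9 := (Real.log_lt_iff_lt_exp hP).2 h8
    rw [hlogP] at h9
    have h10 : (2 * M + 2 * c * d) * B ≤ c * K * B := mul_le_mul_of_nonneg_right hMK hB0.le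
    have h12 : 2 * c * (d : ℝ) ≤ 2 * c * d * B := by
      have h13 : c * (2 * (d : ℝ)) ≤ c * (2 * d * B) := mul_le_mul_of_nonneg_left hdB hc.le
      have e : 2 * c * (d : ℝ) * B = c * (2 * d * B) := by ring
      rw [e]
      linarith only [h13]
    have h11 : c * ‖rv F (i * N1) (x i)‖ < c * (K * B) := by
      have e : c * (K * B) = c * K * B := by ring
      have e' : (2 * M + 2 * c * d) * B = 2 * M * B + 2 * c * d * B := by ring
      rw [e]
      rw [e'] at h10
      linarith only [h9, h10, hsum, h12]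
    exact (lt_of_mul_lt_mul_left h11 hc.le).le
  have heven : ∀ i ≤ m, Even (ln (x i)) := by
    intro i hi
    exact even_of_adm (hN1.mul_left i) (hAdm i hi)
  refine ⟨x, hx0, fun i hi => ⟨hpos i hi, heven i hi⟩, hadm, ?_, ?_⟩
  · intro i hi
    have hiN : Even (i * N1) := hN1.mul_left i
    obtain ⟨k, hk⟩ := hspan (rv F N1 (x (i + 1) - x i))
    have hcz := cz_rv F hiN
    have hx1 : ‖emb (x i - cz F (i * N1))‖ ≤ (K + 2 * d) * B := by
      rw [← rv_sub_same F (i * N1) (cz F (i * N1)) (x i)]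
      have h5 := norm_sub_le (rv F (i * N1) (x i)) (rv F (i * N1) (cz F (i * N1)))
      have h6 := hpos i hi.le
      have e : (K + 2 * (d : ℝ)) * B = K * B + 2 * d * B := by ring
      rw [e]
      linarith only [h5, h6, hcz, hdB]
    have hx2 : ‖rv F N1 (x (i + 1) - cz F (i * N1))‖ ≤ (K + 2 * d) * B := by
      have e0 : N1 = (i + 1) * N1 - i * N1 := by
        rw [← Nat.sub_mul]
        simp
      have h4 : rv F N1 (x (i + 1) - cz F (i * N1)) =
          rv F ((i + 1) * N1) (x (i + 1)) - rv F (i * N1) (cz F (i * N1)) := by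
        rw [← rv_sub F (Nat.mul_le_mul_right _ (Nat.le_succ i)), ← e0]
      rw [h4]
      have h5 := norm_sub_le (rv F ((i + 1) * N1) (x (i + 1))) (rv F (i * N1) (cz F (i * N1)))
      have h6 := hpos (i + 1) hi
      have e : (K + 2 * (d : ℝ)) * B = K * B + 2 * d * B := by ring
      rw [e]
      linarith only [h5, h6, hcz, hdB]
    have h5 := h3 i hi (x i - cz F (i * N1)) (x (i + 1) - cz F (i * N1)) k hx1 hx2
      (even_ln_sub (heven i hi.le) (cz_even F _)) (even_ln_sub (heven (i + 1) hi) (cz_even F _))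
    have e1 : cz F (i * N1) + (x i - cz F (i * N1)) = x i := by abel
    have e2 : x (i + 1) - cz F (i * N1) - (x i - cz F (i * N1)) = x (i + 1) - x i := by abel
    rw [e1, e2] at h5
    have h6 := (Real.log_lt_iff_lt_exp (hfpos i hi)).2 h5
    have h7 : Real.log (Vp F ρ β (sh (i * N1) (x i) η) N1 (x (i + 1) - x i)) <
      δ * B - inner ℝ (φ k) (rv F N1 (x (i + 1) - x i)) := h6
    linarith only [h7, hk]
  · have h5 : ∑ i ∈ Finset.range m,
        -Real.log (Vp F ρ β (sh (i * N1) (x i) η) N1 (x (i + 1) - x i)) =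
        -∑ i ∈ Finset.range m, Real.log (f i) := by
      rw [← Finset.sum_neg_distrib]
    rw [h5]
    linarith only [hsum]

end Pool.Agent.W_7d29a1_v
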