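import Pool.Agent.W_7d29a1_v.Wt
import Pool.Agent.W_7d29a1_h3.DetB

/-!
The centres.
-/

namespace Pool.Agent.W_7d29a1_v

open MeasureTheory ProbabilityTheory Filter Topology Pool.Agent.W_MP_7d29a1_pr
  Pool.Agent.W_7d29a1_h46 Pool.Agent.W_7d29a1_h46u Pool.Agent.W_7d29a1_h3

variable {d : ℕ} {F : Fr d} {ρ : Measure ℝ}

/-- TASK VDetB. (9.3) and (9.4), copy of `W_7d29a1_h3/DetB.lean`. `centres` for the sequence `xt i = x i - cz F (i N1)`
(`‖emb (xt i)‖ ≤ K B + 2 d`, `sn_le_norm`; `sn (xt (i+1) - xt i) ≤ ‖rv F N1 (x (i+1) - x i)‖ + 4 d`), so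
`c ∑ sn (..) ≤ 2 M B + m δ B + 4 c d m`. For an odd `i` with `cc (i+1) = cc i = c'`: `Vp_add` with the connectors from
`(i N1 - l, cz F (i N1 - l) + c')` to `(i N1, x i)` (`u = xt i - c'`) and from `((i+1) N1, x (i+1))` (`u = xt (i+1) - c'`) to the end
point `cz F (i N1 - l) + c' + cz F (N1 + 2 l)`. The other terms are `≥ - δ B`. -/
theorem det_seq (j0 : Fin d) {β c : ℝ} (hc : 0 < c) (η : Env d) {m N1 R l : ℕ}
    {B K δ M C5 : ℝ} (hB : 1 ≤ B) (hK : 0 ≤ K) (hδ : 0 ≤ δ) (hC5 : 0 ≤ C5) (hM : 0 ≤ M)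
    (hN1 : Even N1) (hR : 0 < R) (hRe : Even R) (hl : Even l) (hlN : l ≤ N1)
    (x : ℕ → Site d) (hx0 : x 0 = 0)
    (hx : ∀ i ≤ m, ‖rv F (i * N1) (x i)‖ ≤ K * B ∧ Even (ln (x i)))
    (hadm : ∀ i < m, adm N1 (x (i + 1) - x i))
    (hlow : ∀ i < m, c * ‖rv F N1 (x (i + 1) - x i)‖ - δ * B ≤
        -Real.log (Vp F ρ β (sh (i * N1) (x i) η) N1 (x (i + 1) - x i)))
    (hsum : ∑ i ∈ Finset.range m,
        -Real.log (Vp F ρ β (sh (i * N1) (x i) η) N1 (x (i + 1) - x i)) ≤ 2 * M * B)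
    (h4a : ∀ i, 1 ≤ i → i ≤ m → ∀ c' u : Site d, (∀ j, (R : ℤ) ∣ c' j) →
      (sn c' : ℝ) ≤ K * B + 2 * d + R → sn u ≤ 2 * R → Even (ln u) →
      Real.exp (-(C5 * l)) ≤ Vp F ρ β (sh (i * N1 - l) (cz F (i * N1 - l) + c') η) l
        (u + (cz F (i * N1) - cz F (i * N1 - l))))
    (h4b : ∀ i, 1 ≤ i → i < m → ∀ c' u : Site d, (∀ j, (R : ℤ) ∣ c' j) →
      (sn c' : ℝ) ≤ K * B + 2 * d + R → sn u ≤ 2 * R → Even (ln u) →
      Real.exp (-(C5 * l)) ≤ Vp F ρ β (sh ((i + 1) * N1) (cz F ((i + 1) * N1) + c' + u) η) l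
        (-u + (cz F (i * N1 - l) + cz F (N1 + 2 * l) - cz F ((i + 1) * N1)))) :
    ∃ cc : ℕ → Site d, cc 0 = 0 ∧ (∀ i ≤ m, ∀ j, (R : ℤ) ∣ cc i j) ∧
      (∀ i ≤ m, (sn (cc i) : ℝ) ≤ K * B + 2 * d + R) ∧
      c * (chg m cc * R) ≤ (2 * M + m * δ) * B + 4 * c * d * m ∧
      ∑ i ∈ (Finset.range m).filter (fun i => Odd i ∧ cc (i + 1) = cc i),
        -Real.log (Vp F ρ β (sh (i * N1 - l) (cz F (i * N1 - l) + cc i) η) (N1 + 2 * l)
          (cz F (N1 + 2 * l))) ≤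
        (2 * M + m * δ) * B + 2 * C5 * l * m := by
  obtain ⟨xt, hxt⟩ : ∃ xt : ℕ → Site d, ∀ i, xt i = x i - cz F (i * N1) := ⟨_, fun i => rfl⟩
  have hxt0 : xt 0 = 0 := by
    rw [hxt, hx0, Nat.zero_mul, cz_zero, sub_zero]
  have hiN : ∀ i : ℕ, Even (i * N1) := fun i => hN1.mul_left i
  have hemb : ∀ i, emb (xt i) = rv F (i * N1) (x i) - rv F (i * N1) (cz F (i * N1)) := by
    intro i
    rw [rv_sub_same, hxt]
  have hnx : ∀ i ≤ m, (sn (xt i) : ℝ) ≤ K * B + 2 * d := by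
    intro i hi
    refine (sn_le_norm _).trans ?_
    rw [hemb]
    have h1 := norm_sub_le (rv F (i * N1) (x i)) (rv F (i * N1) (cz F (i * N1)))
    have h2 := cz_rv F (hiN i)
    have h3 := (hx i hi).1
    linarith
  have hstep : ∀ i, (sn (xt (i + 1) - xt i) : ℝ) ≤ ‖rv F N1 (x (i + 1) - x i)‖ + 4 * d := by
    intro i
    refine (sn_le_norm _).trans ?_
    have e1 : (i + 1) * N1 - i * N1 = N1 := by
      rw [Nat.succ_mul]
      omega
    have h0 : i * N1 ≤ (i + 1) * N1 := Nat.mul_le_mul_right _ (Nat.le_succ i)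
    have h1 := rv_sub F h0 (x i) (x (i + 1))
    rw [e1] at h1
    rw [emb_sub, hemb, hemb, h1]
    have h2 := cz_rv F (hiN i)
    have h3 := cz_rv F (hiN (i + 1))
    have e2 : rv F ((i + 1) * N1) (x (i + 1)) - rv F ((i + 1) * N1) (cz F ((i + 1) * N1)) -
        (rv F (i * N1) (x i) - rv F (i * N1) (cz F (i * N1))) =
        (rv F ((i + 1) * N1) (x (i + 1)) - rv F (i * N1) (x i)) +
        (rv F (i * N1) (cz F (i * N1)) - rv F ((i + 1) * N1) (cz F ((i + 1) * N1))) := by abel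
    rw [e2]
    have h4 := norm_add_le (rv F ((i + 1) * N1) (x (i + 1)) - rv F (i * N1) (x i))
      (rv F (i * N1) (cz F (i * N1)) - rv F ((i + 1) * N1) (cz F ((i + 1) * N1)))
    have h5 := norm_sub_le (rv F (i * N1) (cz F (i * N1)))
      (rv F ((i + 1) * N1) (cz F ((i + 1) * N1)))
    linarith
  obtain ⟨cc, hc0, hc1, hc2, hc3, hc4⟩ := centres xt m hR hxt0 (K := ⌊K * B + 2 * d⌋₊)
    (fun i hi => Nat.le_floor (hnx i hi))
  obtain ⟨τ, hτ⟩ : ∃ τ : ℕ → ℝ, ∀ i, τ i =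
    -Real.log (Vp F ρ β (sh (i * N1) (x i) η) N1 (x (i + 1) - x i)) := ⟨_, fun i => rfl⟩
  simp only [← hτ] at hlow hsum
  have hd : (0 : ℝ) ≤ d := Nat.cast_nonneg d
  have hKB : 0 ≤ K * B + 2 * d := by
    have := mul_nonneg hK (by linarith : (0 : ℝ) ≤ B)
    linarith
  have hδB : 0 ≤ δ * B := mul_nonneg hδ (by linarith)
  have hfl : ((⌊K * B + 2 * d⌋₊ : ℕ) : ℝ) ≤ K * B + 2 * d := Nat.floor_le hKB
  have hcn : ∀ i ≤ m, (sn (cc i) : ℝ) ≤ K * B + 2 * d + R := fun i hi => by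
    have h2 : (sn (cc i) : ℝ) ≤ ((⌊K * B + 2 * d⌋₊ : ℕ) : ℝ) + R := by exact_mod_cast hc3 i hi
    linarith
  have hpar : ∀ i ≤ m, ∀ c' : Site d, (∀ j, (R : ℤ) ∣ c' j) → Even (ln (xt i - c')) := by
    intro i hi c' hc'
    refine det_even_ln_sub hRe hc' ?_
    rw [hxt]
    exact even_ln_sub (hx i hi).2 (cz_even F _)
  refine ⟨cc, hc0, hc2, hcn, ?_, ?_⟩
  · have h1 : ((chg m cc * R : ℕ) : ℝ) ≤
        ((∑ i ∈ Finset.range m, sn (xt (i + 1) - xt i) : ℕ) : ℝ) := by exact_mod_cast hc4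
    have h2 : ∑ i ∈ Finset.range m, (c * ‖rv F N1 (x (i + 1) - x i)‖ - δ * B) ≤
        ∑ i ∈ Finset.range m, τ i :=
      Finset.sum_le_sum fun i hi => hlow i (Finset.mem_range.mp hi)
    rw [Finset.sum_sub_distrib, ← Finset.mul_sum, Finset.sum_const, Finset.card_range,
      nsmul_eq_mul] at h2
    push_cast at h1
    have h3 : ∑ i ∈ Finset.range m, (sn (xt (i + 1) - xt i) : ℝ) ≤
        ∑ i ∈ Finset.range m, (‖rv F N1 (x (i + 1) - x i)‖ + 4 * d) :=
      Finset.sum_le_sum fun i _ => hstep i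
    rw [Finset.sum_add_distrib, Finset.sum_const, Finset.card_range, nsmul_eq_mul] at h3
    have h4 := mul_le_mul_of_nonneg_left (h1.trans h3) hc.le
    nlinarith
  · have key : ∀ i ∈ (Finset.range m).filter (fun i => Odd i ∧ cc (i + 1) = cc i),
        -Real.log (Vp F ρ β (sh (i * N1 - l) (cz F (i * N1 - l) + cc i) η) (N1 + 2 * l)
          (cz F (N1 + 2 * l))) ≤ τ i + 2 * C5 * l := by
      intro i hi
      rw [Finset.mem_filter, Finset.mem_range] at hi
      obtain ⟨him, ho, hci⟩ := hi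
      have hi1 : 1 ≤ i := ho.pos
      have hiN' : l ≤ i * N1 := le_trans hlN (Nat.le_mul_of_pos_left N1 hi1)
      obtain ⟨v, hv⟩ : ∃ v, v = xt i - cc i := ⟨_, rfl⟩
      obtain ⟨v', hv'⟩ : ∃ v', v' = xt (i + 1) - cc i := ⟨_, rfl⟩
      have hva := h4a i hi1 him.le (cc i) v (hc2 i him.le) (hcn i him.le)
          (by rw [hv]; exact hc1 i him.le)
          (by rw [hv]; exact hpar i him.le _ (hc2 i him.le))
      have hvb := h4b i hi1 him (cc i) v' (hc2 i him.le) (hcn i him.le)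
          (by rw [hv', ← hci]; exact hc1 (i + 1) him)
          (by rw [hv']; exact hpar (i + 1) him _ (hc2 i him.le))
      have hmid : 0 < Vp F ρ β (sh (i * N1) (x i) η) N1 (x (i + 1) - x i) :=
        Vp_pos j0 _ (hadm i him)
      obtain ⟨a, ha⟩ : ∃ a, a = cz F (i * N1 - l) := ⟨_, rfl⟩
      obtain ⟨b, hb⟩ : ∃ b, b = cz F (i * N1) := ⟨_, rfl⟩
      obtain ⟨e, he⟩ : ∃ e, e = cz F ((i + 1) * N1) := ⟨_, rfl⟩
      obtain ⟨f, hf⟩ : ∃ f, f = cz F (N1 + 2 * l) := ⟨_, rfl⟩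
      have hxi : xt i = x i - b := by rw [hxt, hb]
      have hxi' : xt (i + 1) = x (i + 1) - e := by rw [hxt, he]
      rw [← ha, ← hb] at hva
      rw [← ha, ← he, ← hf] at hvb
      rw [← ha, ← hf]
      have h1 := Vp_add (F := F) (ρ := ρ) (β := β) (sh (i * N1 - l) (a + cc i) η) l N1
        (v + (b - a)) (x (i + 1) - x i)
      have e1 : l + (i * N1 - l) = i * N1 := by omega
      have e2 : v + (b - a) + (a + cc i) = x i := by
        rw [hv, hxi]
        abel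
      rw [sh_sh, e1, e2] at h1
      have h2 := Vp_add (F := F) (ρ := ρ) (β := β) (sh (i * N1 - l) (a + cc i) η) (l + N1) l
        (v + (b - a) + (x (i + 1) - x i)) (-v' + (a + f - e))
      have e3 : l + N1 + (i * N1 - l) = (i + 1) * N1 := by
        rw [Nat.succ_mul]
        omega
      have e4 : v + (b - a) + (x (i + 1) - x i) + (a + cc i) = e + cc i + v' := by
        rw [hv, hv', hxi, hxi']
        abel
      have e5 : l + N1 + l = N1 + 2 * l := by ring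
      have e6 : v + (b - a) + (x (i + 1) - x i) + (-v' + (a + f - e)) = f := by
        rw [hv, hv', hxi, hxi']
        abel
      rw [sh_sh, e3, e4, e5, e6] at h2
      have hE := Real.exp_pos (-(C5 * l))
      have h3 : Real.exp (-(C5 * l)) * Vp F ρ β (sh (i * N1) (x i) η) N1 (x (i + 1) - x i) *
          Real.exp (-(C5 * l)) ≤ Vp F ρ β (sh (i * N1 - l) (a + cc i) η) (N1 + 2 * l) f := by
        refine le_trans ?_ h2
        refine mul_le_mul ?_ hvb hE.le (le_trans (mul_nonneg (hE.le.trans hva) hmid.le) h1)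
        exact le_trans (mul_le_mul_of_nonneg_right hva hmid.le) h1
      have h4 : 0 < Real.exp (-(C5 * l)) *
          Vp F ρ β (sh (i * N1) (x i) η) N1 (x (i + 1) - x i) * Real.exp (-(C5 * l)) :=
        mul_pos (mul_pos hE hmid) hE
      have h5 := Real.log_le_log h4 h3
      rw [Real.log_mul (mul_pos hE hmid).ne' hE.ne', Real.log_mul hE.ne' hmid.ne',
        Real.log_exp] at h5
      rw [hτ i]
      linarith
    have h1 := Finset.sum_le_sum key
    rw [Finset.sum_add_distrib, Finset.sum_const, nsmul_eq_mul] at h1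
    have h2 := Finset.sum_filter_add_sum_filter_not (Finset.range m)
      (fun i => Odd i ∧ cc (i + 1) = cc i) τ
    have h3 : ∑ i ∈ (Finset.range m).filter (fun i => ¬ (Odd i ∧ cc (i + 1) = cc i)), (-(δ * B)) ≤
        ∑ i ∈ (Finset.range m).filter (fun i => ¬ (Odd i ∧ cc (i + 1) = cc i)), τ i := by
      refine Finset.sum_le_sum fun i hi => ?_
      have h4 := hlow i (Finset.mem_range.mp (Finset.mem_filter.mp hi).1)
      have h5 : 0 ≤ c * ‖rv F N1 (x (i + 1) - x i)‖ := mul_nonneg hc.le (norm_nonneg _)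
      linarith
    rw [Finset.sum_const, nsmul_eq_mul] at h3
    have h6 : ((((Finset.range m).filter
        (fun i => ¬ (Odd i ∧ cc (i + 1) = cc i))).card : ℕ) : ℝ) ≤ m := by
      have := Finset.card_filter_le (Finset.range m) (fun i => ¬ (Odd i ∧ cc (i + 1) = cc i))
      rw [Finset.card_range] at this
      exact_mod_cast this
    have h7 : ((((Finset.range m).filter
        (fun i => Odd i ∧ cc (i + 1) = cc i)).card : ℕ) : ℝ) ≤ m := by
      have := Finset.card_filter_le (Finset.range m) (fun i => Odd i ∧ cc (i + 1) = cc i)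
      rw [Finset.card_range] at this
      exact_mod_cast this
    have h8 := mul_le_mul_of_nonneg_right h6 hδB
    have h9 := mul_le_mul_of_nonneg_right h7
      (mul_nonneg (mul_nonneg zero_le_two hC5) (Nat.cast_nonneg l))
    nlinarith

end Pool.Agent.W_7d29a1_v
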