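import Pool.Agent.W_7d29a1_v.Thin
import Pool.Agent.W_7d29a1_v.Good
import Pool.Agent.W_7d29a1_v.DetA
import Pool.Agent.W_7d29a1_v.DetB
import Pool.Agent.W_7d29a1_v.ContraA
import Pool.Agent.W_7d29a1_v.ContraB
import Pool.Agent.W_7d29a1_h3.ContraC
import Pool.Agent.W_7d29a1_h3.CentreB

/-!
Section 9.
-/

namespace Pool.Agent.W_7d29a1_v

open MeasureTheory ProbabilityTheory Filter Topology Pool.Agent.W_MP_7d29a1_pr
  Pool.Agent.W_7d29a1_h46 Pool.Agent.W_7d29a1_h46u Pool.Agent.W_7d29a1_h3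

variable {d : ℕ} {F : Fr d} {ρ : Measure ℝ} [IsProbabilityMeasure ρ]

private theorem VContra_ev_real {q a b : ℝ} (hq : 0 < q) (_ha : 0 ≤ a) (hb : 0 ≤ b) (d : ℕ) :
    ∀ᶠ x : ℝ in atTop, 1 ≤ x ∧
      (b * x ^ (0.7 : ℝ)) * ((d + 1 : ℝ) * (Real.log (a + 4) + Real.log x)) + Real.log (8 / q) ≤
        q * x / 4 ∧
      4 * x ^ (0.7 : ℝ) + b * x ^ (0.7 : ℝ) < 3 * q / 64 * x := by
  have hc : 0 < q / (48 * (b * (d + 1) + b + 4 + 1)) := by positivity
  have h1 := (isLittleO_log_rpow_atTop (show (0 : ℝ) < 0.3 by norm_num)).bound hc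
  have h2 : ∀ᶠ x : ℝ in atTop, max 1 (Real.log (a + 4)) ≤ Real.log x :=
    Real.tendsto_log_atTop.eventually_ge_atTop _
  filter_upwards [h1, h2, eventually_ge_atTop (1 : ℝ),
    eventually_ge_atTop (12 * Real.log (8 / q) / q)] with x h1 h2 h3 h4
  have hx : 0 < x := by linarith
  have hl1 : 1 ≤ Real.log x := (le_max_left _ _).trans h2
  have hl2 : Real.log (a + 4) ≤ Real.log x := (le_max_right _ _).trans h2
  rw [Real.norm_of_nonneg (by linarith), Real.norm_of_nonneg (by positivity)] at h1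
  have h5 : x ^ (0.7 : ℝ) * x ^ (0.3 : ℝ) = x := by
    rw [← Real.rpow_add hx]
    norm_num
  have h7 : (0 : ℝ) < x ^ (0.7 : ℝ) := by positivity
  have h6 : x ^ (0.7 : ℝ) * Real.log x ≤ q / (48 * (b * (d + 1) + b + 4 + 1)) * x := by
    calc x ^ (0.7 : ℝ) * Real.log x ≤
        x ^ (0.7 : ℝ) * (q / (48 * (b * (d + 1) + b + 4 + 1)) * x ^ (0.3 : ℝ)) :=
          mul_le_mul_of_nonneg_left h1 h7.le
      _ = q / (48 * (b * (d + 1) + b + 4 + 1)) * x := by
          rw [← mul_assoc, mul_comm (x ^ (0.7 : ℝ)), mul_assoc, h5]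
  have h8 : (b * (d + 1) + b + 4 + 1) * (x ^ (0.7 : ℝ) * Real.log x) ≤ q * x / 48 := by
    have hpos : (0 : ℝ) < b * (d + 1) + b + 4 + 1 := by positivity
    calc (b * (d + 1) + b + 4 + 1) * (x ^ (0.7 : ℝ) * Real.log x) ≤
        (b * (d + 1) + b + 4 + 1) * (q / (48 * (b * (d + 1) + b + 4 + 1)) * x) :=
          mul_le_mul_of_nonneg_left h6 hpos.le
      _ = q * x / 48 := by field_simp
  have h9 : x ^ (0.7 : ℝ) ≤ x ^ (0.7 : ℝ) * Real.log x := by
    nlinarith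
  have h10 : 0 ≤ x ^ (0.7 : ℝ) * Real.log x := by positivity
  have h12 : Real.log (8 / q) ≤ q * x / 12 := by
    rw [div_le_iff₀ hq] at h4
    linarith
  refine ⟨h3, ?_, ?_⟩
  · have h11 : (b * x ^ (0.7 : ℝ)) * ((d + 1 : ℝ) * (Real.log (a + 4) + Real.log x)) ≤
        2 * ((b * (d + 1)) * (x ^ (0.7 : ℝ) * Real.log x)) := by
      have : (b * x ^ (0.7 : ℝ)) * ((d + 1 : ℝ) * (Real.log (a + 4) + Real.log x)) ≤
        (b * x ^ (0.7 : ℝ)) * ((d + 1 : ℝ) * (Real.log x + Real.log x)) := by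
        gcongr
      refine this.trans (le_of_eq (by ring))
    have h13 : (b * (d + 1)) * (x ^ (0.7 : ℝ) * Real.log x) ≤
        (b * (d + 1) + b + 4 + 1) * (x ^ (0.7 : ℝ) * Real.log x) := by
      refine mul_le_mul_of_nonneg_right ?_ h10
      linarith
    have h20 : 0 < q * x := by positivity
    linarith
  · have h14 : 4 * x ^ (0.7 : ℝ) + b * x ^ (0.7 : ℝ) ≤ (b + 4) * (x ^ (0.7 : ℝ) * Real.log x) := by
      have := mul_le_mul_of_nonneg_left h9 (show 0 ≤ b + 4 by linarith)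
      linarith
    have h15 : (b + 4) * (x ^ (0.7 : ℝ) * Real.log x) ≤
        (b * (d + 1) + b + 4 + 1) * (x ^ (0.7 : ℝ) * Real.log x) := by
      refine mul_le_mul_of_nonneg_right ?_ h10
      have : 0 ≤ b * (d + 1) := by positivity
      linarith
    have : 0 < q * x := by positivity
    linarith

private theorem VContra_pick {q a b : ℝ} (hq : 0 < q) (ha : 0 ≤ a) (hb : 0 ≤ b) (d : ℕ) :
    ∃ p : ℕ, 1 ≤ p ∧
      (((2 * p : ℕ) : ℝ) * (a * ((2 * p : ℕ) : ℝ) + 3) ^ d + 1) ^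
        ⌊b * ((2 * p : ℕ) : ℝ) ^ (0.7 : ℝ)⌋₊ * Real.exp (-(q * p / 2)) ≤ q / 8 ∧
      4 * ((2 * p : ℕ) : ℝ) ^ (0.7 : ℝ) + b * ((2 * p : ℕ) : ℝ) ^ (0.7 : ℝ) < 3 * q / 32 * p := by
  obtain ⟨X, hX⟩ := eventually_atTop.1 (VContra_ev_real hq ha hb d)
  obtain ⟨p, hp⟩ := exists_nat_ge X
  have hx := hX (((2 * (p + 1) : ℕ) : ℝ)) (by push_cast; linarith [Nat.cast_nonneg (α := ℝ) p])
  set x : ℝ := ((2 * (p + 1) : ℕ) : ℝ) with hxdef
  obtain ⟨h1, h2, h3⟩ := hx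
  have hxp : x = 2 * ((p + 1 : ℕ) : ℝ) := by rw [hxdef]; push_cast; ring
  refine ⟨p + 1, by omega, ?_, ?_⟩
  · rw [← hxdef]
    have hx0 : 0 < x := by linarith
    have hbase : 1 ≤ x * (a * x + 3) ^ d + 1 := by
      have : 0 ≤ x * (a * x + 3) ^ d := by positivity
      linarith
    have hle : x * (a * x + 3) ^ d + 1 ≤ ((a + 4) * x) ^ (d + 1) := by
      have e1 : a * x + 3 ≤ (a + 3) * x := by nlinarith
      have e2 : (a * x + 3) ^ d ≤ ((a + 3) * x) ^ d := by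
        gcongr
      have e3 : ((a + 3) * x) ^ d ≤ ((a + 4) * x) ^ d := by
        gcongr
        linarith
      have e4 : 1 ≤ ((a + 3) * x) ^ d := one_le_pow₀ (by nlinarith)
      rw [pow_succ]
      nlinarith [mul_le_mul_of_nonneg_left e2 hx0.le, mul_le_mul_of_nonneg_right e3 (show 0 ≤ (a + 4) * x by positivity), mul_le_mul_of_nonneg_left e4 (show 0 ≤ (a + 3) * x by positivity), mul_nonneg (show (0:ℝ) ≤ (a+3) by linarith) (show 0 ≤ ((a + 3) * x) ^ d by positivity)]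
    have hlog : Real.log (x * (a * x + 3) ^ d + 1) ≤ (d + 1 : ℝ) * (Real.log (a + 4) + Real.log x) := by
      calc Real.log (x * (a * x + 3) ^ d + 1) ≤ Real.log (((a + 4) * x) ^ (d + 1)) :=
            Real.log_le_log (by linarith) hle
        _ = (d + 1 : ℝ) * (Real.log (a + 4) + Real.log x) := by
            rw [Real.log_pow, Real.log_mul (by linarith) hx0.ne']
            push_cast
            ring
    have hfl : ((⌊b * x ^ (0.7 : ℝ)⌋₊ : ℕ) : ℝ) ≤ b * x ^ (0.7 : ℝ) :=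
      Nat.floor_le (by positivity)
    have hl0 : 0 ≤ Real.log (x * (a * x + 3) ^ d + 1) := Real.log_nonneg hbase
    rw [← Real.exp_log (show 0 < x * (a * x + 3) ^ d + 1 by linarith), ← Real.exp_nat_mul,
      ← Real.exp_add]
    have h4 : (⌊b * x ^ (0.7 : ℝ)⌋₊ : ℝ) * Real.log (x * (a * x + 3) ^ d + 1) +
        -(q * ((p + 1 : ℕ) : ℝ) / 2) ≤ -Real.log (8 / q) := by
      have h5 : (⌊b * x ^ (0.7 : ℝ)⌋₊ : ℝ) * Real.log (x * (a * x + 3) ^ d + 1) ≤
          (b * x ^ (0.7 : ℝ)) * ((d + 1 : ℝ) * (Real.log (a + 4) + Real.log x)) := by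
        refine mul_le_mul hfl hlog hl0 (by positivity)
      have h6 : q * ((p + 1 : ℕ) : ℝ) / 2 = q * x / 4 := by rw [hxp]; ring
      linarith
    refine (Real.exp_le_exp.2 h4).trans (le_of_eq ?_)
    rw [Real.exp_neg, Real.exp_log (by positivity), inv_div]
  · rw [← hxdef]
    have : 3 * q / 32 * ((p + 1 : ℕ) : ℝ) = 3 * q / 64 * x := by rw [hxp]; ring
    rw [this]
    exact h3

private theorem VContra_evn {q c C K1 M ε e D : ℝ} (hq : 0 < q) (hc : 0 < c) (hM : 0 < M)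
    (hε : 0 < ε) (he : 0 < e) (m d : ℕ) (hm : 1 ≤ m) :
    ∀ᶠ n : ℕ in atTop, 1 ≤ n ∧ K1 * (C * (n : ℝ) ^ (0.53 : ℝ)) ≤ n ∧
      (m : ℝ) * d * Real.log (4 * ((m * n : ℕ) : ℝ) + 1) ≤ M * (c * (n : ℝ) ^ e) ∧
      D ≤ c * (n : ℝ) ^ e ∧
      2 * (m : ℝ) * (3 * (n : ℝ)) ^ d * (5 * (n : ℝ)) ^ d *
        Real.exp (-(2 * ε * (c * (n : ℝ) ^ e))) ≤ q / 8 := by
  have t1 : Tendsto (fun n : ℕ => (n : ℝ) ^ (0.47 : ℝ)) atTop atTop :=
    (tendsto_rpow_atTop (by norm_num)).comp tendsto_natCast_atTop_atTop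
  have t2 : Tendsto (fun n : ℕ => (n : ℝ) ^ e) atTop atTop :=
    (tendsto_rpow_atTop he).comp tendsto_natCast_atTop_atTop
  have hη : 0 < min (M * c / (2 * (m * d + 1))) (ε * c / (2 * (d + 1))) := by
    refine lt_min (by positivity) (by positivity)
  have h1 := tendsto_natCast_atTop_atTop (R := ℝ) |>.eventually
    ((isLittleO_log_rpow_atTop he).bound hη)
  filter_upwards [h1, eventually_ge_atTop 1, eventually_ge_atTop (5 * m),
    t1.eventually_ge_atTop (K1 * C), t2.eventually_ge_atTop (D / c),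
    t2.eventually_ge_atTop ((Real.log (2 * m * 15 ^ d) + Real.log (8 / q)) / (ε * c))]
    with n h1 h2 h3 h4 h5 h6
  have hn : (1 : ℝ) ≤ n := by exact_mod_cast h2
  have hn0 : (0 : ℝ) < n := by linarith
  have hm1 : (1 : ℝ) ≤ m := by exact_mod_cast hm
  have hlog0 : 0 ≤ Real.log n := Real.log_nonneg hn
  have hne : 0 < (n : ℝ) ^ e := by positivity
  rw [Real.norm_of_nonneg hlog0, Real.norm_of_nonneg hne.le] at h1
  have h1a : Real.log n ≤ M * c / (2 * (m * d + 1)) * (n : ℝ) ^ e :=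
    h1.trans (mul_le_mul_of_nonneg_right (min_le_left _ _) hne.le)
  have h1b : Real.log n ≤ ε * c / (2 * (d + 1)) * (n : ℝ) ^ e :=
    h1.trans (mul_le_mul_of_nonneg_right (min_le_right _ _) hne.le)
  refine ⟨h2, ?_, ?_, ?_, ?_⟩
  · have h7 : (n : ℝ) ^ (0.47 : ℝ) * (n : ℝ) ^ (0.53 : ℝ) = n := by
      rw [← Real.rpow_add hn0]
      norm_num
    have h8 : (0 : ℝ) ≤ (n : ℝ) ^ (0.53 : ℝ) := by positivity
    calc K1 * (C * (n : ℝ) ^ (0.53 : ℝ)) = (K1 * C) * (n : ℝ) ^ (0.53 : ℝ) := by ring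
      _ ≤ (n : ℝ) ^ (0.47 : ℝ) * (n : ℝ) ^ (0.53 : ℝ) := mul_le_mul_of_nonneg_right h4 h8
      _ = n := h7
  · have h7 : Real.log (4 * ((m * n : ℕ) : ℝ) + 1) ≤ 2 * Real.log n := by
      have h8 : 4 * ((m * n : ℕ) : ℝ) + 1 ≤ (n : ℝ) ^ 2 := by
        have h9 : 4 * (m * n) + 1 ≤ n ^ 2 := by nlinarith
        exact_mod_cast h9
      have h10 := Real.log_le_log (by positivity) h8
      rwa [Real.log_pow, Nat.cast_ofNat] at h10
    have h8 : (m : ℝ) * d * Real.log (4 * ((m * n : ℕ) : ℝ) + 1) ≤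
        (m * d) * (2 * (M * c / (2 * (m * d + 1)) * (n : ℝ) ^ e)) := by
      have : Real.log (4 * ((m * n : ℕ) : ℝ) + 1) ≤
          2 * (M * c / (2 * (m * d + 1)) * (n : ℝ) ^ e) := by linarith
      exact mul_le_mul_of_nonneg_left this (by positivity)
    refine h8.trans ?_
    have h9 : (m * d : ℝ) * (2 * (M * c / (2 * (m * d + 1)) * (n : ℝ) ^ e)) =
        ((m * d : ℝ) / (m * d + 1)) * (M * (c * (n : ℝ) ^ e)) := by
      field_simp
    rw [h9]
    have h10 : (m * d : ℝ) / (m * d + 1) ≤ 1 := by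
      rw [div_le_one (by positivity)]
      linarith
    have h11 : 0 ≤ M * (c * (n : ℝ) ^ e) := by positivity
    nlinarith
  · rw [div_le_iff₀ hc] at h5
    linarith
  · have h7 : (3 * (n : ℝ)) ^ d * (5 * (n : ℝ)) ^ d = 15 ^ d * (n : ℝ) ^ (2 * d) := by
      rw [← mul_pow, pow_mul, ← mul_pow]
      congr 1
      ring
    have h8 : 2 * (m : ℝ) * (3 * (n : ℝ)) ^ d * (5 * (n : ℝ)) ^ d =
        Real.exp (Real.log (2 * m * 15 ^ d) + 2 * d * Real.log n) := by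
      rw [Real.exp_add, Real.exp_log (by positivity), mul_assoc (2 * (m : ℝ)), h7]
      have : Real.exp (2 * d * Real.log n) = (n : ℝ) ^ (2 * d) := by
        have e1 : 2 * (d : ℝ) * Real.log n = ((2 * d : ℕ) : ℝ) * Real.log n := by push_cast; ring
        rw [e1, Real.exp_nat_mul, Real.exp_log hn0]
      rw [this]
      ring
    rw [h8, ← Real.exp_add]
    have h9 : Real.log (2 * m * 15 ^ d) + 2 * d * Real.log n + -(2 * ε * (c * (n : ℝ) ^ e)) ≤
        -Real.log (8 / q) := by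
      have h10 : 2 * d * Real.log n ≤ ε * c * (n : ℝ) ^ e := by
        calc 2 * d * Real.log n ≤ 2 * d * (ε * c / (2 * (d + 1)) * (n : ℝ) ^ e) := by
              gcongr
          _ = (d / (d + 1) : ℝ) * (ε * c * (n : ℝ) ^ e) := by field_simp
          _ ≤ 1 * (ε * c * (n : ℝ) ^ e) := by
              gcongr
              rw [div_le_one (by positivity)]
              linarith
          _ = ε * c * (n : ℝ) ^ e := one_mul _
      rw [div_le_iff₀ (by positivity)] at h6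
      nlinarith
    refine (Real.exp_le_exp.2 h9).trans (le_of_eq ?_)
    rw [Real.exp_neg, Real.exp_log (by positivity), inv_div]

private theorem VContra_Win_meas {β q K δ : ℝ} {φ : Ix d → Vec d} {n N : ℕ} :
    MeasurableSet (Win F ρ β φ q K δ n N) := by
  have h : Win F ρ β φ q K δ n N = ⋃ x : Site d, ⋃ p : Site d, ⋃ i : Ix d,
      {η | ‖emb x‖ ≤ K * bb d F ρ β q n ∧ ‖rv F N p‖ ≤ K * bb d F ρ β q n ∧
        Even (ln x) ∧ Even (ln p) ∧
        Real.exp (δ * bb d F ρ β q n - inner ℝ (φ i) (rv F N (p - x))) ≤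
          Vp F ρ β (sh 0 x η) N (p - x)} := by
    ext η
    simp only [Win, Set.mem_ofPred_eq, Set.mem_iUnion]
  rw [h]
  refine MeasurableSet.iUnion fun x => MeasurableSet.iUnion fun p => MeasurableSet.iUnion fun i => ?_
  have hm : MeasurableSet {η : Env d |
      Real.exp (δ * bb d F ρ β q n - inner ℝ (φ i) (rv F N (p - x))) ≤
        Vp F ρ β (sh 0 x η) N (p - x)} :=
    measurableSet_le measurable_const ((measurable_V (toP N (p - x))).comp (measurable_sh 0 x))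
  exact (MeasurableSet.const _).inter ((MeasurableSet.const _).inter ((MeasurableSet.const _).inter
    ((MeasurableSet.const _).inter hm)))

private theorem VContra_Win_sh {β q K δ p0 : ℝ} {φ : Ix d → Vec d} {n N : ℕ}
    (h : (law d ρ).real (Win F ρ β φ q K δ n N) ≤ p0) (t : ℕ) (x : Site d) :
    (law d ρ).real {η : Env d | sh t x η ∈ Win F ρ β φ q K δ n N} ≤ p0 := by
  rw [real_sh t x VContra_Win_meas]
  exact h

private theorem VContra_range_union (m : ℕ) {p0 : ℝ} (A : ℕ → Set (Env d))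
    (h : ∀ i < m, (law d ρ).real (A i) ≤ p0) :
    (law d ρ).real {η : Env d | ∃ i < m, η ∈ A i} ≤ m * p0 := by
  have h1 : {η : Env d | ∃ i < m, η ∈ A i} = ⋃ i ∈ Finset.range m, A i := by
    ext η
    simp
  rw [h1]
  refine (measureReal_biUnion_finset_le _ _).trans ?_
  refine (Finset.sum_le_sum fun i hi => h i (Finset.mem_range.1 hi)).trans (le_of_eq ?_)
  simp

private theorem VContra_odds_card (p : ℕ) : (odds (2 * p)).card = p := by
  induction p with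
  | zero => simp [odds]
  | succ p ih =>
    have h1 : odds (2 * (p + 1)) = insert (2 * p + 1) (odds (2 * p)) := by
      ext i
      simp only [odds, Finset.mem_filter, Finset.mem_range, Finset.mem_insert]
      constructor
      · rintro ⟨h1, h2⟩
        rcases Nat.lt_or_ge i (2 * p) with h3 | h3
        · exact Or.inr ⟨h3, h2⟩
        · left
          obtain ⟨r, hr⟩ := h2
          omega
      · rintro (h1 | ⟨h1, h2⟩)
        · subst h1
          exact ⟨by omega, ⟨p, rfl⟩⟩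
        · exact ⟨by omega, h2⟩
    rw [h1, Finset.card_insert_of_notMem, ih]
    simp [odds]

/-- The probabilistic part: some environment avoids all bad events. -/
private theorem VContra_avoid {q : ℝ} (hq : 0 < q) (hq1 : q ≤ 1 / 16) {b1 b2 b3 b4 b5 b6 b7 : Set (Env d)}
    (h1 : (law d ρ).real b1 ≤ q) (h2 : (law d ρ).real b2 ≤ q / 8)
    (h3 : (law d ρ).real b3 ≤ q / 8) (h4 : (law d ρ).real b4 ≤ q / 8)
    (h5 : (law d ρ).real b5 ≤ q / 8) (h6 : (law d ρ).real b6 ≤ q / 8)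
    (h7 : (law d ρ).real b7 ≤ q / 8) :
    ∃ η : Env d, η ∉ b1 ∧ η ∉ b2 ∧ η ∉ b3 ∧ η ∉ b4 ∧ η ∉ b5 ∧ η ∉ b6 ∧ η ∉ b7 := by
  by_contra hcon
  push Not at hcon
  have hU : (b1 ∪ (b2 ∪ (b3 ∪ (b4 ∪ (b5 ∪ (b6 ∪ b7)))))) = Set.univ := by
    ext η
    simp only [Set.mem_union, Set.mem_univ, iff_true]
    by_contra hn
    simp only [not_or] at hn
    obtain ⟨e1, e2, e3, e4, e5, e6, e7⟩ := hn
    exact e7 (hcon η e1 e2 e3 e4 e5 e6)
  have hle : (law d ρ).real (b1 ∪ (b2 ∪ (b3 ∪ (b4 ∪ (b5 ∪ (b6 ∪ b7)))))) ≤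
      (law d ρ).real b1 + ((law d ρ).real b2 + ((law d ρ).real b3 + ((law d ρ).real b4 +
        ((law d ρ).real b5 + ((law d ρ).real b6 + (law d ρ).real b7))))) := by
    refine (measureReal_union_le _ _).trans (add_le_add le_rfl ?_)
    refine (measureReal_union_le _ _).trans (add_le_add le_rfl ?_)
    refine (measureReal_union_le _ _).trans (add_le_add le_rfl ?_)
    refine (measureReal_union_le _ _).trans (add_le_add le_rfl ?_)
    refine (measureReal_union_le _ _).trans (add_le_add le_rfl ?_)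
    exact measureReal_union_le _ _
  rw [hU, probReal_univ] at hle
  linarith

private theorem VContra_even_ln {R : ℕ} (hR : Even R) {c : Site d} (h : ∀ j, (R : ℤ) ∣ c j) :
    Even (ln c) := by
  refine Finset.even_sum _ fun j _ => ?_
  rw [Int.natAbs_even]
  obtain ⟨r, hr⟩ := hR
  refine even_iff_two_dvd.2 (dvd_trans ?_ (h j))
  exact ⟨r, by rw [hr]; push_cast; ring⟩


private theorem VContra_eps {q C5 A : ℝ} (hq : 0 < q) (hC : 0 < C5) (hq1 : q ≤ 1 / 16)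
    (hA : (1 : ℝ) ≤ A) : ∃ ε : ℝ, 0 < ε ∧ ε ≤ 1 ∧ 2 * A * C5 * ε ≤ q / 64 := by
  refine ⟨q / (128 * A * (C5 + 1)), by positivity, ?_, ?_⟩
  · rw [div_le_one (by positivity)]
    nlinarith
  · have : 2 * A * C5 * (q / (128 * A * (C5 + 1))) = (C5 / (C5 + 1)) * (q / 64) := by
      field_simp
      ring
    rw [this]
    have h1 : C5 / (C5 + 1) ≤ 1 := by
      rw [div_le_one (by positivity)]
      linarith
    nlinarith

/-- The constant of the connectors. -/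
private theorem VContra_Cv {s : ℝ} (hs : 0 < s) (hs1 : s ≤ 1) : ∃ Cv : ℕ, 5 ≤ Cv ∧ 5 ≤ Cv * s := by
  obtain ⟨k, hk⟩ := exists_nat_ge (5 / s)
  have h1 : 5 ≤ (k : ℝ) * s := (div_le_iff₀ hs).1 hk
  have h2 : (k : ℝ) * s ≤ k := mul_le_of_le_one_right (Nat.cast_nonneg k) hs1
  refine ⟨k, ?_, h1⟩
  have h3 : (5 : ℝ) ≤ (k : ℝ) := h1.trans h2
  exact_mod_cast h3

private theorem VContra_lens {ε B K s : ℝ} {n d Cv : ℕ} (hε : 0 < ε) (hε1 : ε ≤ 1) (hB : 1 ≤ B)
    (hεB : 4 ≤ ε * B) (hK : 0 < K) (hd : (1 : ℝ) ≤ d) (hs : 5 ≤ Cv * s)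
    (hBn : (K + 2 * d + 1 + 2 * Cv * d) * B ≤ n) :
    ∃ R l N1 K' : ℕ, Even R ∧ (R : ℝ) ≤ ε * B ∧ ε * B / 2 ≤ R ∧ (2 : ℝ) ≤ R ∧ (R : ℝ) ≤ B ∧
      R ≤ n ∧ l = Cv * d * R ∧ Even l ∧ N1 = 2 * (n - l) ∧ Even N1 ∧ N1 + 2 * l = 2 * n ∧
      2 * l ≤ N1 ∧ n ≤ N1 ∧ N1 ≤ 2 * n ∧ K' = ⌊K * B + 2 * d + R⌋₊ ∧
      (K' : ℝ) ≤ K * B + 2 * d + R ∧ K' ≤ n ∧ (2 * d * R + 6 * d : ℝ) ≤ l * s := by
  have hB0 : 0 < B := by linarith
  have hd0 : (0 : ℝ) ≤ d := by linarith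
  have hCv0 : (0 : ℝ) ≤ Cv := Nat.cast_nonneg _
  have hdB : 2 * (d : ℝ) ≤ 2 * d * B := by
    have := mul_le_mul_of_nonneg_left hB (show (0 : ℝ) ≤ 2 * d by linarith)
    linarith
  have hKBn : K * B + 2 * d * B + B ≤ n := by
    have : 0 ≤ 2 * (Cv : ℝ) * d * B := by positivity
    linarith
  have hdBn : 2 * Cv * d * B ≤ n := by
    have : 0 ≤ (K + 2 * d + 1) * B := by positivity
    linarith
  have hRle : (((2 * ⌊ε * B / 2⌋₊ : ℕ)) : ℝ) ≤ ε * B := by
    push_cast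
    have := Nat.floor_le (show 0 ≤ ε * B / 2 by positivity)
    linarith
  have hRge : ε * B / 2 ≤ (((2 * ⌊ε * B / 2⌋₊ : ℕ)) : ℝ) := by
    push_cast
    have := Nat.lt_floor_add_one (ε * B / 2)
    linarith
  obtain ⟨R, hRdef⟩ : ∃ R : ℕ, R = 2 * ⌊ε * B / 2⌋₊ := ⟨_, rfl⟩
  rw [← hRdef] at hRle hRge
  have hRe : Even R := ⟨⌊ε * B / 2⌋₊, by omega⟩
  have hR2 : (2 : ℝ) ≤ R := by linarith
  have hεBB : ε * B ≤ B := mul_le_of_le_one_left hB0.le hε1
  have hRB : (R : ℝ) ≤ B := hRle.trans hεBB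
  have hBn' : B ≤ n := by
    have h1 : 0 ≤ K * B := by positivity
    have h2 : 0 ≤ 2 * (d : ℝ) * B := by positivity
    linarith
  have hl : (2 : ℝ) * (Cv * d * R) ≤ n := by
    have : (Cv : ℝ) * d * R ≤ Cv * d * B := mul_le_mul_of_nonneg_left hRB (by positivity)
    linarith
  have hl2n : 2 * (Cv * d * R) ≤ n := by exact_mod_cast hl
  have h1 : ((⌊K * B + 2 * d + R⌋₊ : ℕ) : ℝ) ≤ n := by
    refine (Nat.floor_le (by positivity)).trans ?_
    linarith
  refine ⟨R, Cv * d * R, 2 * (n - Cv * d * R), ⌊K * B + 2 * d + R⌋₊, hRe, hRle, hRge, hR2,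
    hRB, by exact_mod_cast hRB.trans hBn', rfl, hRe.mul_left _, rfl, even_two_mul _, by omega,
    by omega, by omega, by omega, rfl, Nat.floor_le (by positivity), by exact_mod_cast h1, ?_⟩
  have h2 : (5 : ℝ) * (d * R) ≤ Cv * s * (d * R) := mul_le_mul_of_nonneg_right hs (by positivity)
  have h3 : (d : ℝ) * 2 ≤ d * R := mul_le_mul_of_nonneg_left hR2 hd0
  push_cast
  have h4 : (Cv : ℝ) * d * R * s = Cv * s * (d * R) := by ring
  rw [h4]
  linarith

private theorem VContra_grid {a ε B K Y κ M : ℝ} {m R K' k : ℕ} (hε : 0 < ε) (hB : 0 < B)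
    (hY : 0 < Y) (hκ : 0 < κ) (hM : 0 < M) (hMm : M ≤ m) (hm : (1 : ℝ) ≤ m)
    (ha : a = 4 * (2 * Y / κ + 2 * d) / ε + 2 * d)
    (hK : K = 2 * Y * M / κ + 2 * d) (hR : (2 : ℝ) ≤ R) (hRge : ε * B / 2 ≤ R)
    (hK' : (K' : ℝ) ≤ K * B + 2 * d + R) :
    ∃ F : Finset (ℕ → Site d), (F.card : ℝ) ≤ ((m : ℝ) * (a * m + 3) ^ d + 1) ^ k ∧
      ∀ c : ℕ → Site d, c 0 = 0 → (∀ i ≤ m, ∀ j, (R : ℤ) ∣ c i j) → (∀ i ≤ m, sn (c i) ≤ K') →
        chg m c ≤ k → ∃ c' ∈ F, ∀ i ≤ m, c' i = c i := by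
  have hR0 : (0 : ℝ) < R := by linarith
  have hRN : 0 < R := by exact_mod_cast hR0
  have hd0 : (0 : ℝ) ≤ d := Nat.cast_nonneg _
  have hK0 : 0 < K := by rw [hK]; positivity
  have ha0 : 0 ≤ a := by rw [ha]; positivity
  obtain ⟨G, hG1, hG2⟩ := card_grid (d := d) (K := K') hRN
  obtain ⟨F, hF1, hF2⟩ := count_seq G (0 : Site d) m k
  have hq : ((2 * K' / R : ℕ) : ℝ) ≤ a * m + 2 := by
    have h2 : ((2 * K' / R : ℕ) : ℝ) ≤ ((2 * K' : ℕ) : ℝ) / R := Nat.cast_div_le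
    have h3 : ((2 * K' : ℕ) : ℝ) / R ≤ 4 * K / ε + 2 * d + 2 := by
      rw [div_le_iff₀ hR0]
      push_cast
      have h4 : 4 * K / ε * (ε * B / 2) = 2 * K * B := by field_simp; ring
      have h5 : 4 * K / ε * (ε * B / 2) ≤ 4 * K / ε * R :=
        mul_le_mul_of_nonneg_left hRge (by positivity)
      have h6 : (2 : ℝ) * d * 2 ≤ 2 * d * R := mul_le_mul_of_nonneg_left hR (by positivity)
      linarith
    have h4 : 4 * K / ε + 2 * d ≤ a * m := by
      have h5 : K ≤ (2 * Y / κ + 2 * d) * m := by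
        rw [hK]
        have h6 : 2 * Y * M / κ = 2 * Y / κ * M := by ring
        rw [h6]
        have h7 : 2 * Y / κ * M ≤ 2 * Y / κ * m := mul_le_mul_of_nonneg_left hMm (by positivity)
        have h8 : 2 * (d : ℝ) * 1 ≤ 2 * d * m := mul_le_mul_of_nonneg_left hm (by positivity)
        linarith
      have h6 : 4 * K / ε ≤ 4 * ((2 * Y / κ + 2 * d) * m) / ε := by
        gcongr
      have h8 : 2 * (d : ℝ) * 1 ≤ 2 * d * m := mul_le_mul_of_nonneg_left hm (by positivity)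
      have h9 : a * m = 4 * ((2 * Y / κ + 2 * d) * m) / ε + 2 * d * m := by
        rw [ha]
        ring
      rw [h9]
      linarith
    linarith
  have hGr : (G.card : ℝ) ≤ (a * m + 3) ^ d := by
    have h1 : ((G.card : ℕ) : ℝ) ≤ (((2 * K' / R + 1) ^ d : ℕ) : ℝ) := by exact_mod_cast hG1
    refine h1.trans ?_
    rw [Nat.cast_pow, Nat.cast_add, Nat.cast_one]
    refine pow_le_pow_left₀ (by positivity) ?_ d
    linarith
  refine ⟨F, ?_, fun c hc0 hc1 hc2 hc3 => hF2 c hc0 (fun i hi => hG2 (c i) (hc1 i hi) (hc2 i hi)) hc3⟩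
  have h1 : ((F.card : ℕ) : ℝ) ≤ (((m * G.card + 1) ^ k : ℕ) : ℝ) := by exact_mod_cast hF1
  refine h1.trans ?_
  rw [Nat.cast_pow, Nat.cast_add, Nat.cast_one, Nat.cast_mul]
  refine pow_le_pow_left₀ (by positivity) ?_ k
  have := mul_le_mul_of_nonneg_left hGr (Nat.cast_nonneg (α := ℝ) m)
  linarith

private theorem VContra_chg {κ ε B M δ b : ℝ} {m R x d : ℕ} (hκ : 0 < κ) (hε : 0 < ε) (hB : 0 < B)
    (hmδ : m * δ = M) (hb : b = 8 / (κ * ε)) (hRge : ε * B / 2 ≤ R)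
    (hδB : 4 * κ * d ≤ δ * B)
    (h : κ * ((x : ℝ) * R) ≤ (2 * M + m * δ) * B + 4 * κ * d * m) : x ≤ ⌊b * M⌋₊ := by
  refine Nat.le_floor ?_
  have h0 : 4 * κ * d * m ≤ M * B := by
    have h1 : 4 * κ * (d : ℝ) * m ≤ δ * B * m := mul_le_mul_of_nonneg_right hδB (Nat.cast_nonneg _)
    have h2 : δ * B * m = M * B := by rw [← hmδ]; ring
    rwa [h2] at h1
  have h1 : (2 * M + m * δ) * B = 3 * M * B := by rw [hmδ]; ring
  rw [h1] at h
  have h2 : κ * ((x : ℝ) * (ε * B / 2)) ≤ 4 * M * B := by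
    have h3 : κ * ((x : ℝ) * (ε * B / 2)) ≤ κ * ((x : ℝ) * R) := by
      refine mul_le_mul_of_nonneg_left ?_ hκ.le
      exact mul_le_mul_of_nonneg_left hRge (Nat.cast_nonneg _)
    linarith
  have h3 : (x : ℝ) * (κ * ε) ≤ 8 * M := by
    have h4 : ((x : ℝ) * (κ * ε)) * B ≤ (8 * M) * B := by linarith
    exact le_of_mul_le_mul_right h4 hB
  rw [hb, div_mul_eq_mul_div, le_div_iff₀ (by positivity)]
  exact h3

private theorem VContra_end {q C5 ε B M δ b : ℝ} {m p k l R d Cv : ℕ} (hB : 0 < B)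
    (hC5 : 0 < C5) (hεC : 2 * (Cv * d) * C5 * ε ≤ q / 64) (hRle : (R : ℝ) ≤ ε * B)
    (hl : l = Cv * d * R) (hm : m = 2 * p) (hmδ : m * δ = M) (hk : (k : ℝ) ≤ b * M)
    (hpick2 : 4 * M + b * M < 3 * q / 32 * p)
    (h : (q / 8 * p - k) * B - m * δ * B ≤ (2 * M + m * δ) * B + 2 * C5 * l * m) : False := by
  rw [hmδ] at h
  have h1 : 2 * C5 * l * m ≤ q * p / 32 * B := by
    have h2 : (m : ℝ) = 2 * p := by rw [hm]; push_cast; ring
    have hlreal : (l : ℝ) = Cv * d * R := by rw [hl]; push_cast; ring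
    have h3 : 2 * C5 * (l : ℝ) ≤ 2 * (Cv * d) * C5 * ε * B := by
      rw [hlreal]
      have h5 : 2 * C5 * ((Cv : ℝ) * d * R) = 2 * (Cv * d) * C5 * R := by ring
      have h6 : 2 * ((Cv : ℝ) * d) * C5 * ε * B = 2 * (Cv * d) * C5 * (ε * B) := by ring
      rw [h5, h6]
      exact mul_le_mul_of_nonneg_left hRle (by positivity)
    have h4 : 2 * C5 * (l : ℝ) ≤ q / 64 * B :=
      h3.trans (mul_le_mul_of_nonneg_right hεC hB.le)
    rw [h2]
    have h7 : 2 * C5 * (l : ℝ) * (2 * p) ≤ q / 64 * B * (2 * p) :=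
      mul_le_mul_of_nonneg_right h4 (by positivity)
    refine h7.trans (le_of_eq ?_)
    ring
  have h3 : (q / 8 * p - k - M) * B ≤ (3 * M + q * p / 32) * B := by
    have e1 : (q / 8 * p - k - M) * B = (q / 8 * p - k) * B - M * B := by ring
    have e2 : (3 * M + q * p / 32) * B = (2 * M + M) * B + q * p / 32 * B := by ring
    rw [e1, e2]
    linarith
  have h4 := le_of_mul_le_mul_right h3 hB
  linarith

/-- TASK VContra. Section 9 with all constants, copy of `W_7d29a1_h3/Contra.lean`: `κ` is replaced by `c`, `l = C_v d R` with an even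
`C_v` so large that `2 d R + 6 d ≤ l (1 - |v|_1)` for `R ≥ 2`; the windows are `K + 2 d` (`thin` for `N = N1` and `N = 2 n`, `n` large); the additional
term `4 c d m` is `≤ m δ B` for large `n`; every extended block has `-log Vp ≥ - δ B` (`thin` for `2 n` and an index of `P.span` with
nonnegative functional, `Setup.exists_nonneg`). -/
theorem contra (j0 : Fin d) {β : ℝ} {φ : Ix d → Vec d} {c q : ℝ} (P : Post d F ρ β φ c q) :
    False := by
  classical
  have hd : 1 ≤ d := Nat.succ_le_of_lt j0.pos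
  have hd1 : (1 : ℝ) ≤ d := by exact_mod_cast hd
  have hd0 : (0 : ℝ) ≤ d := by linarith
  have hq0 := P.q0
  have hq1 := P.q1
  have hq2 : q < 1 := by linarith
  have hc := P.cpos
  have hv : ∑ j, |F.v j| ≤ 1 := P.vlt.le
  obtain ⟨s, hsdef⟩ : ∃ s : ℝ, s = 1 - ∑ j, |F.v j| := ⟨_, rfl⟩
  have hs0 : 0 < s := by
    rw [hsdef]
    linarith [P.vlt]
  have hs1 : s ≤ 1 := by
    rw [hsdef]
    have : 0 ≤ ∑ j, |F.v j| := Finset.sum_nonneg fun j _ => abs_nonneg _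
    linarith
  obtain ⟨Cv, hCv5, hCvs⟩ := VContra_Cv hs0 hs1
  have hCv5r : (5 : ℝ) ≤ Cv := by exact_mod_cast hCv5
  have hCvd : (1 : ℝ) ≤ Cv * d := by
    have : (1 : ℝ) * 1 ≤ Cv * d := mul_le_mul (by linarith) hd1 (by norm_num) (by linarith)
    linarith
  obtain ⟨C5, hC5, hconn⟩ := conn_prob (ρ := ρ) F j0 P.em β
  rw [← hsdef] at hconn
  obtain ⟨C, hC, hlk⟩ := P.lk 2
  obtain ⟨Cb, hCb, hbb⟩ := bb_le j0 P.toSetup hq0 hq2
  obtain ⟨cl, hcl, hlow⟩ := P.low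
  obtain ⟨ε, hε, hε1, hεC⟩ := VContra_eps hq0 hC5 hq1 hCvd
  obtain ⟨Y, hY1, hCY⟩ : ∃ Y : ℝ, 1 ≤ Y ∧ C / Y ≤ q / 8 := by
    refine ⟨max 1 (8 * C / q), le_max_left _ _, ?_⟩
    have h1 : 8 * C / q ≤ max 1 (8 * C / q) := le_max_right _ _
    have h2 : (0 : ℝ) < max 1 (8 * C / q) := lt_of_lt_of_le one_pos (le_max_left _ _)
    rw [div_le_iff₀ h2]
    have h3 := (div_le_iff₀ hq0).1 h1
    linarith
  have hY0 : 0 < Y := by linarith
  obtain ⟨a, hadef⟩ : ∃ a : ℝ, a = 4 * (2 * Y / c + 2 * d) / ε + 2 * d := ⟨_, rfl⟩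
  obtain ⟨b, hbdef⟩ : ∃ b : ℝ, b = 8 / (c * ε) := ⟨_, rfl⟩
  have ha : 0 ≤ a := by rw [hadef]; positivity
  have hb : 0 ≤ b := by rw [hbdef]; positivity
  obtain ⟨p, hp, hpick1, hpick2⟩ := VContra_pick hq0 ha hb d
  obtain ⟨m, hmdef⟩ : ∃ m : ℕ, m = 2 * p := ⟨_, rfl⟩
  rw [← hmdef] at hpick1 hpick2
  have hm2 : 2 ≤ m := by omega
  have hm1 : (1 : ℝ) ≤ m := by exact_mod_cast (by omega : 1 ≤ m)
  have hm0 : (0 : ℝ) < m := by linarith
  obtain ⟨M, hMdef⟩ : ∃ M : ℝ, M = (m : ℝ) ^ (0.7 : ℝ) := ⟨_, rfl⟩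
  rw [← hMdef] at hpick1 hpick2
  have hM : 0 < M := by rw [hMdef]; positivity
  have hMm : M ≤ m := by
    rw [hMdef]
    calc (m : ℝ) ^ (0.7 : ℝ) ≤ (m : ℝ) ^ (1 : ℝ) := Real.rpow_le_rpow_of_exponent_le hm1 (by norm_num)
      _ = m := Real.rpow_one _
  obtain ⟨K, hKdef⟩ : ∃ K : ℝ, K = 2 * Y * M / c + 2 * d := ⟨_, rfl⟩
  have hK : 0 < K := by rw [hKdef]; positivity
  have hcK : c * K = 2 * (Y * M) + 2 * c * d := by rw [hKdef]; field_simp
  obtain ⟨KW, hKWdef⟩ : ∃ KW : ℝ, KW = d * (K + 2 * d + 1) + 2 * d := ⟨_, rfl⟩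
  have hKW : 0 < KW := by rw [hKWdef]; positivity
  have hKWge : K + 2 * d ≤ KW := by
    rw [hKWdef]
    have h1 : 1 * (K + 2 * d + 1) ≤ d * (K + 2 * d + 1) :=
      mul_le_mul_of_nonneg_right hd1 (by positivity)
    linarith
  obtain ⟨δ, hδdef⟩ : ∃ δ : ℝ, δ = M / m := ⟨_, rfl⟩
  have hδ : 0 < δ := by rw [hδdef]; positivity
  have hmδ : m * δ = M := by rw [hδdef]; field_simp
  have hp0 : 0 < q / (8 * m) := by positivity
  have hthinE := thin j0 P (K := KW) hKW hδ hp0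
  have hevn := VContra_evn (C := Cb) (K1 := K + 2 * d + 1 + 2 * Cv * d)
    (D := max (4 / ε) (4 * c * d / δ)) hq0 hcl hM hε
    (show 0 < c0 d by unfold c0; positivity) m d (by omega)
  obtain ⟨n1, hn1⟩ := eventually_atTop.1 hlk
  obtain ⟨n2, hn2⟩ := eventually_atTop.1 ((hthinE.and hevn).and hlow)
  obtain ⟨n, hn, hQn, hBm⟩ := good_scale j0 P hm2 (max n1 n2)
  obtain ⟨⟨hthin, hn_1, hev2, hev3, hev4, hev5⟩, hBlow⟩ := hn2 n ((le_max_right _ _).trans hn)
  have hmn : n ≤ m * n := Nat.le_mul_of_pos_left n (by omega)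
  have hlkn := hn1 (m * n) (((le_max_left _ _).trans hn).trans hmn)
  have hbbn := hbb n hn_1
  have hB1 : 1 ≤ bb d F ρ β q n := one_le_bb β q n
  rw [← hMdef] at hBm
  obtain ⟨B, hBdef⟩ : ∃ B : ℝ, B = bb d F ρ β q n := ⟨_, rfl⟩
  rw [← hBdef] at hQn hBm hBlow hbbn hB1
  clear hlk hbb hlow hthinE hevn hn1 hn2
  have hB0 : 0 < B := by linarith
  have hBn : (K + 2 * d + 1 + 2 * Cv * d) * B ≤ n :=
    (mul_le_mul_of_nonneg_left hbbn (by positivity)).trans hev2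
  have hεB : 4 ≤ ε * B := by
    have h1 : 4 / ε ≤ B := ((le_max_left _ _).trans hev4).trans hBlow
    have h2 := (div_le_iff₀ hε).1 h1
    linarith
  have hδB : 4 * c * d ≤ δ * B := by
    have h1 : 4 * c * d / δ ≤ B := ((le_max_right _ _).trans hev4).trans hBlow
    have h2 := (div_le_iff₀ hδ).1 h1
    linarith
  obtain ⟨R, l, N1, K', hRe, hRle, hRge, hR2, hRB, hRn, hldef, hle, hN1def, hN1e, hN1l, hl2N, hnN1,
    hN12, hK'def, hK'le, hK'n, hls⟩ := VContra_lens hε hε1 hB1 hεB hK hd1 hCvs hBn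
  have hR : 0 < R := by
    have : (0 : ℝ) < R := by linarith
    exact_mod_cast this
  obtain ⟨k, hkdef⟩ : ∃ k : ℕ, k = ⌊b * M⌋₊ := ⟨_, rfl⟩
  have hkle : (k : ℝ) ≤ b * M := by
    rw [hkdef]
    exact Nat.floor_le (by positivity)
  rw [← hkdef] at hpick1
  obtain ⟨G, hFr, hF2⟩ := VContra_grid (d := d) (k := k) hε hB0 hY0 hc hM hMm hm1 hadef hKdef hR2
    hRge hK'le
  clear hev2 hev4 hbbn hBn hεB
  -- the bad events
  have e1 := bb_spec (F := F) (ρ := ρ) j0 hv β hq0 hq2 (r := m * (n - l)) (n := m * n)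
    (Nat.mul_le_mul_left m (Nat.sub_le n l))
  have hN2 : m * N1 ≤ 2 * (m * n) := by
    calc m * N1 ≤ m * (2 * n) := Nat.mul_le_mul_left m hN12
      _ = 2 * (m * n) := by ring
  obtain ⟨e2, e3⟩ := hlkn (m * N1) hN2 Y hY1
  have e3 := e3 (cz F (m * N1))
  have e4 := VContra_range_union (ρ := ρ) m (p0 := q / (8 * m))
    (fun i => {η : Env d | sh (i * N1) (cz F (i * N1)) η ∈ Win F ρ β φ q KW δ n N1})
    (fun i _ => VContra_Win_sh (hthin N1 hN1e hnN1 hN12) _ _)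
  have e5 := VContra_range_union (ρ := ρ) m (p0 := q / (8 * m))
    (fun i => {η : Env d | sh (i * N1 - l) (cz F (i * N1 - l)) η ∈
      Win F ρ β φ q KW δ n (2 * n)})
    (fun i _ => VContra_Win_sh (hthin (2 * n) (even_two_mul n) (by omega) le_rfl) _ _)
  have e6 := hconn m n N1 R l K' hn_1 hle hN1e hls (by omega) hK'n hRn
  clear hlkn hthin hconn
  have e7 : (law d ρ).real {η : Env d | ∃ cc ∈ G, (Set.ncard {i | i ∈ odds m ∧
      Vp F ρ β (sh (i * N1 - l) (cz F (i * N1 - l) + cc i) η) (2 * n) (zz F n) ≤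
        Real.exp (-Q d F ρ β q n)} : ℝ) <
        q / 8 * (odds m).card} ≤ q / 8 := by
    have h1 : {η : Env d | ∃ cc ∈ G, (Set.ncard {i | i ∈ odds m ∧
      Vp F ρ β (sh (i * N1 - l) (cz F (i * N1 - l) + cc i) η) (2 * n) (zz F n) ≤
        Real.exp (-Q d F ρ β q n)} : ℝ) <
        q / 8 * (odds m).card} = ⋃ cc ∈ G, {η : Env d | (Set.ncard {i | i ∈ odds m ∧
      Vp F ρ β (sh (i * N1 - l) (cz F (i * N1 - l) + cc i) η) (2 * n) (zz F n) ≤
        Real.exp (-Q d F ρ β q n)} : ℝ) <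
        q / 8 * (odds m).card} := by
      ext η
      simp only [Set.mem_ofPred_eq, Set.mem_iUnion, exists_prop]
    rw [h1]
    refine (measureReal_biUnion_finset_le _ _).trans ?_
    refine (Finset.sum_le_sum fun cc _ =>
      seq_prob (F := F) (ρ := ρ) j0 hv (β := β) hq0 hq2 hN1l hl2N
        (fun i => cz F (i * N1 - l) + cc i)).trans ?_
    rw [Finset.sum_const, nsmul_eq_mul, hmdef, VContra_odds_card]
    exact (mul_le_mul_of_nonneg_right hFr (Real.exp_pos _).le).trans hpick1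
  have hmp : (m : ℝ) * (q / (8 * m)) = q / 8 := by field_simp
  have e6' : 2 * (m : ℝ) * (3 * (n : ℝ)) ^ d * (5 * (n : ℝ)) ^ d * Real.exp (-(l : ℝ)) ≤ q / 8 := by
    refine le_trans ?_ hev5
    refine mul_le_mul_of_nonneg_left ?_ (by positivity)
    refine Real.exp_le_exp.2 (neg_le_neg ?_)
    have hlreal : (l : ℝ) = Cv * d * R := by rw [hldef]; push_cast; ring
    rw [hlreal]
    have h1 : 2 * ε * (cl * (n : ℝ) ^ c0 d) ≤ 2 * ε * B :=
      mul_le_mul_of_nonneg_left hBlow (by positivity)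
    have h4 : (5 : ℝ) * 1 ≤ Cv * d := mul_le_mul hCv5r hd1 (by norm_num) (by linarith)
    have h3 : (5 * 1 : ℝ) * R ≤ Cv * d * R := mul_le_mul_of_nonneg_right h4 (Nat.cast_nonneg _)
    have h5 : (0 : ℝ) ≤ R := Nat.cast_nonneg _
    linarith
  obtain ⟨η, g1, g2, g3, g4, g5, g6, g7⟩ := VContra_avoid hq0 hq1 e1 (e2.trans hCY)
    (e3.trans hCY) (e4.trans (le_of_eq hmp)) (e5.trans (le_of_eq hmp)) (e6.trans e6') e7
  clear e1 e2 e3 e4 e5 e6 e6' e7 hev5 hFr hpick1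
  -- the deterministic part
  have hbm : Y * bb d F ρ β q (m * n) ≤ c * K / 2 * B := by
    have h1 : Y * bb d F ρ β q (m * n) ≤ Y * (M * B) :=
      mul_le_mul_of_nonneg_left hBm hY0.le
    have h2 : c * K / 2 * B = Y * (M * B) + c * d * B := by rw [hcK]; ring
    have h3 : 0 ≤ c * d * B := by positivity
    rw [h2]
    linarith
  have d1 : Real.exp (-(M * B)) ≤ Vp F ρ β η (m * N1) (cz F (m * N1)) := by
    have h1 : Real.exp (-bb d F ρ β q (m * n)) ≤
        Vp F ρ β η (2 * (m * (n - l))) (zz F (m * (n - l))) := not_not.1 g1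
    have h2 : m * N1 = 2 * (m * (n - l)) := by rw [hN1def]; ring
    rw [h2, cz_two_mul]
    exact (Real.exp_le_exp.2 (neg_le_neg hBm)).trans h1
  have d2f : ∀ i ≤ m * N1, ∀ (y : Site d) (k : Ix d),
      Vp F ρ β η i y < Real.exp (c * K / 2 * B - inner ℝ (φ k) (rv F i y)) := by
    intro i hi y k
    have h1 : ¬ Real.exp (Y * bb d F ρ β q (m * n) - inner ℝ (φ k) (rv F i y)) ≤
        Vp F ρ β η i y := fun h => g2 ⟨i, hi, y, k, h⟩
    exact (not_le.1 h1).trans_le (Real.exp_le_exp.2 (sub_le_sub_right hbm _))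
  have d2b : ∀ i ≤ m * N1, ∀ (y : Site d) (k : Ix d),
      Vp F ρ β (sh (m * N1 - i) (cz F (m * N1) - y) η) i y <
        Real.exp (c * K / 2 * B - inner ℝ (φ k) (rv F i y)) := by
    intro i hi y k
    have h1 : ¬ Real.exp (Y * bb d F ρ β q (m * n) - inner ℝ (φ k) (rv F i y)) ≤
        Vp F ρ β (sh (m * N1 - i) (cz F (m * N1) - y) η) i y := fun h => g3 ⟨i, hi, y, k, h⟩
    exact (not_le.1 h1).trans_le (Real.exp_le_exp.2 (sub_le_sub_right hbm _))
  have hK1 : (K + 2 * d) * B ≤ KW * B := mul_le_mul_of_nonneg_right hKWge hB0.le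
  have d3 : ∀ i < m, ∀ (x p : Site d) (k : Ix d), ‖emb x‖ ≤ (K + 2 * d) * B →
      ‖rv F N1 p‖ ≤ (K + 2 * d) * B → Even (ln x) → Even (ln p) →
      Vp F ρ β (sh (i * N1) (cz F (i * N1) + x) η) N1 (p - x) <
        Real.exp (δ * B - inner ℝ (φ k) (rv F N1 (p - x))) := by
    intro i hi x p k hx hp hxe hpe
    by_contra hcon
    refine g4 ⟨i, hi, x, p, k, ?_, ?_, hxe, hpe, ?_⟩
    · rw [← hBdef]; exact hx.trans hK1
    · rw [← hBdef]; exact hp.trans hK1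
    · rw [← hBdef, sh_sh, Nat.zero_add, add_comm x]
      exact not_lt.1 hcon
  have hlog : (m : ℝ) * d * Real.log (2 * ((m * N1 : ℕ) : ℝ) + 1) ≤ M * B := by
    have h1 : (2 * ((m * N1 : ℕ) : ℝ) + 1) ≤ 4 * ((m * n : ℕ) : ℝ) + 1 := by
      have : ((m * N1 : ℕ) : ℝ) ≤ ((2 * (m * n) : ℕ) : ℝ) := by exact_mod_cast hN2
      rw [Nat.cast_mul 2 (m * n)] at this
      push_cast at this ⊢
      linarith
    have h2 : Real.log (2 * ((m * N1 : ℕ) : ℝ) + 1) ≤ Real.log (4 * ((m * n : ℕ) : ℝ) + 1) :=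
      Real.log_le_log (by positivity) h1
    have h3 : (m : ℝ) * d * Real.log (2 * ((m * N1 : ℕ) : ℝ) + 1) ≤
        (m : ℝ) * d * Real.log (4 * ((m * n : ℕ) : ℝ) + 1) :=
      mul_le_mul_of_nonneg_left h2 (by positivity)
    exact (h3.trans hev3).trans (mul_le_mul_of_nonneg_left hBlow hM.le)
  have hMK : 2 * M + 2 * c * d ≤ c * K := by
    rw [hcK]
    have : 1 * M ≤ Y * M := mul_le_mul_of_nonneg_right hY1 hM.le
    linarith
  obtain ⟨x, hx0, hx1, hx2, hx3, hx4⟩ := det_path j0 hv hc P.span η hB1 hδ.le hN1e hMK hlog d1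
    d2f d2b d3
  clear d1 d2f d2b d3 g1 g2 g3 g4 hlog hMK hbm
  have g6' := not_not.1 g6
  obtain ⟨cc, hc0, hc1, hc2, hc3, hc4⟩ := det_seq j0 hc η (C5 := C5) (l := l) (R := R) hB1 hK.le
    hδ.le hC5.le hM.le hN1e hR hRe hle (by omega) x hx0 hx1 hx2 hx3 hx4
    (fun i hi1 hi2 c' v _ hc' hv' hve => g6'.1 i hi1 hi2 c' v
      (by rw [hK'def]; exact Nat.le_floor hc') hv' hve)
    (fun i hi1 hi2 c' v _ hc' hv' hve => g6'.2 i hi1 hi2 c' v
      (by rw [hK'def]; exact Nat.le_floor hc') hv' hve)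
  clear g6 g6' hx0 hx1 hx2 hx3 hx4 x
  have hsnK : ∀ i ≤ m, sn (cc i) ≤ K' := fun i hi => by
    rw [hK'def]; exact Nat.le_floor (hc2 i hi)
  have hchg : chg m cc ≤ k := by
    rw [hkdef]
    exact VContra_chg hc hε hB0 hmδ hbdef hRge hδB hc3
  obtain ⟨c', hc'F, hc'⟩ := hF2 cc hc0 hc1 hsnK hchg
  have hVpos : ∀ (t : ℕ) (y : Site d), 0 < Vp F ρ β (sh t y η) (2 * n) (zz F n) := fun t y =>
    Vp_pos j0 _ (zz_adm F hv n)
  have hodds : ∀ i ∈ odds m, i < m := fun i hi => by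
    simp only [odds, Finset.mem_filter, Finset.mem_range] at hi
    exact hi.1
  have hcz : cz F (N1 + 2 * l) = zz F n := by rw [hN1l, cz_two_mul]
  rw [hcz, hN1l] at hc4
  obtain ⟨i0, hi0⟩ := P.toSetup.exists_nonneg (rv F (2 * n) (zz F n))
  have hembc : ∀ i ≤ m, ‖emb (cc i)‖ ≤ d * (K + 2 * d + 1) * B := by
    intro i hi
    refine (norm_emb_le_sn _).trans ?_
    have h1 : (sn (cc i) : ℝ) ≤ (K + 2 * d + 1) * B := by
      have h2 := hc2 i hi
      have h3 : 2 * (d : ℝ) * 1 ≤ 2 * d * B := mul_le_mul_of_nonneg_left hB1 (by positivity)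
      have h4 : (K + 2 * d + 1) * B = K * B + 2 * d * B + B := by ring
      rw [h4]
      linarith
    have h2 := mul_le_mul_of_nonneg_left h1 hd0
    rw [← mul_assoc] at h2
    exact h2
  have hKWB : KW * B = d * (K + 2 * d + 1) * B + 2 * d * B := by rw [hKWdef]; ring
  have hdB : 2 * (d : ℝ) ≤ 2 * d * B := by
    have h3 : 2 * (d : ℝ) * 1 ≤ 2 * d * B := mul_le_mul_of_nonneg_left hB1 (by positivity)
    linarith
  have hτlow : ∀ i ∈ odds m, -(δ * B) ≤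
      -Real.log (Vp F ρ β (sh (i * N1 - l) (cz F (i * N1 - l) + cc i) η) (2 * n) (zz F n)) := by
    intro i hi
    have him := hodds i hi
    have hce : Even (ln (cc i)) := VContra_even_ln hRe (hc1 i him.le)
    have h1 : ¬ Real.exp (δ * B - inner ℝ (φ i0) (rv F (2 * n) (zz F n))) ≤
        Vp F ρ β (sh (i * N1 - l) (cz F (i * N1 - l) + cc i) η) (2 * n) (zz F n) := by
      intro hcon
      refine g5 ⟨i, him, cc i, zz F n + cc i, i0, ?_, ?_, hce, ?_, ?_⟩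
      · rw [← hBdef, hKWB]
        have h2 := hembc i him.le
        linarith
      · rw [← hBdef, hKWB]
        have h4 := rv_add F (2 * n) 0 (zz F n) (cc i)
        rw [add_zero, rv_zero_left] at h4
        rw [h4]
        have h2 := hembc i him.le
        have h3 := zz_rv F n
        have h5 := norm_add_le (rv F (2 * n) (zz F n)) (emb (cc i))
        linarith
      · rw [add_comm]
        exact even_ln_add hce (zz_even F n)
      · rw [← hBdef, sh_sh, Nat.zero_add, add_sub_cancel_right, add_comm (cc i)]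
        exact hcon
    have h2 := Real.log_le_log (hVpos _ _) (not_le.1 h1).le
    rw [Real.log_exp] at h2
    linarith
  have hmany : q / 8 * (odds m).card ≤ (Set.ncard {i | i ∈ odds m ∧
      B ≤ -Real.log (Vp F ρ β (sh (i * N1 - l) (cz F (i * N1 - l) + cc i) η) (2 * n)
        (zz F n))} : ℝ) := by
    have h1 : ¬ ((Set.ncard {i | i ∈ odds m ∧
      Vp F ρ β (sh (i * N1 - l) (cz F (i * N1 - l) + c' i) η) (2 * n) (zz F n) ≤
        Real.exp (-Q d F ρ β q n)} : ℝ) <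
        q / 8 * (odds m).card) := fun h => g7 ⟨c', hc'F, h⟩
    have h2 : {i | i ∈ odds m ∧
        Vp F ρ β (sh (i * N1 - l) (cz F (i * N1 - l) + c' i) η) (2 * n) (zz F n) ≤
          Real.exp (-Q d F ρ β q n)} =
        {i | i ∈ odds m ∧
          B ≤ -Real.log (Vp F ρ β (sh (i * N1 - l) (cz F (i * N1 - l) + cc i) η) (2 * n)
            (zz F n))} := by
      ext i
      simp only [Set.mem_ofPred_eq, and_congr_right_iff]
      intro hi
      have him := hodds i hi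
      rw [hc' i him.le, hQn, ← Real.log_le_iff_le_exp (hVpos _ _)]
      exact le_neg
    rw [h2] at h1
    exact not_lt.1 h1
  have hfin := contra_num (q := q) (c := cc)
    (τ := fun i => -Real.log (Vp F ρ β (sh (i * N1 - l) (cz F (i * N1 - l) + cc i) η) (2 * n)
      (zz F n))) hB1 hδ.le hchg hτlow hmany hc4
  have hcard : ((odds m).card : ℝ) = p := by rw [hmdef, VContra_odds_card]
  rw [hcard] at hfin
  exact VContra_end hB0 hC5 hεC hRle hldef hmdef hmδ hkle hpick2 hfin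

end Pool.Agent.W_7d29a1_v
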