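import Pool.Agent.W_7d29a1_v.Wt
import Pool.Agent.W_7d29a1_h3.Ind

/-!
The critical scale: one step.
-/

namespace Pool.Agent.W_7d29a1_v

open MeasureTheory ProbabilityTheory Filter Topology Pool.Agent.W_MP_7d29a1_pr
  Pool.Agent.W_7d29a1_h46 Pool.Agent.W_7d29a1_h46u Pool.Agent.W_7d29a1_h3

variable {d : ℕ} {F : Fr d} {ρ : Measure ℝ} [IsProbabilityMeasure ρ]

private theorem CritA_half (j0 : Fin d) {β : ℝ} (h v : Vec d) (η : Env d) {n : ℕ} {r R : ℝ} (hR : R ≤ r)
    (hP : 1 / 2 ≤ PolT β h η (tube d n v R)) :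
    1 / 2 * ZT β h η (Set.univ : Set (Fin n → Step d)) ≤ ZT β h η (tube d n v r) := by
  have hne : (Set.univ : Set (Fin n → Step d)).Nonempty := ⟨fun _ => (j0, true), Set.mem_univ _⟩
  have h0 := ZT_pos β h η hne
  unfold PolT at hP
  rw [le_div_iff₀ h0] at hP
  exact hP.trans (ZT_mono β h η fun s hs i hi => (hs i hi).trans hR)

private theorem CritA_dep (F : Fr d) (ρ : Measure ℝ) (β : ℝ) (n : ℕ) (r : ℝ) {η η' : Env d}
    (h : ∀ p : ℕ × Site d, ‖rv F p.1 p.2‖ ≤ r → η p = η' p) :
    V F ρ β η (tube d n F.v r) = V F ρ β η' (tube d n F.v r) := by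
  unfold V ZT
  congr 1
  refine Finset.sum_congr rfl fun s _ => ?_
  by_cases hs : s ∈ tube d n F.v r
  · rw [if_pos hs, if_pos hs]
    have h1 : energy η s = energy η' s := by
      unfold energy
      refine Finset.sum_congr rfl fun i _ => h _ ?_
      exact hs _ i.2
    unfold wgt
    rw [h1]
  · rw [if_neg hs, if_neg hs]

/-- TASK VCritA. Deterministic, compare `W_7d29a1_h3/CritA.lean`: climb to `x` in time `t`, then stay in the moving ball around it
(`V_append` into all walks); the polymer of length `t + m` is in the tube of radius `R` with mass `≥ 1/2`. -/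
theorem crit_det (j0 : Fin d) {β : ℝ} (η : Env d) {t m : ℕ} {x : Site d} {r R u : ℝ} (hR : R ≤ r)
    (hclimb : Real.exp (-u) ≤ Vp F ρ β η t x)
    (hP : 1 / 2 ≤ PolT β F.θ η (tube d (t + m) F.v R)) :
    1 / 2 * (Real.exp (-u) * V F ρ β (sh t x η) (tube d m F.v r)) ≤
      V F ρ β η (tube d (t + m) F.v r) := by
  have h1 := CritA_half j0 F.θ F.v η hR hP
  have h2 : 1 / 2 * V F ρ β η (Set.univ : Set (Fin (t + m) → Step d)) ≤
      V F ρ β η (tube d (t + m) F.v r) := by
    unfold V
    calc 1 / 2 * (Real.exp (-(((t + m : ℕ) : ℝ) * lam ρ β F.θ)) *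
          ZT β F.θ η (Set.univ : Set (Fin (t + m) → Step d)))
        = Real.exp (-(((t + m : ℕ) : ℝ) * lam ρ β F.θ)) *
          (1 / 2 * ZT β F.θ η (Set.univ : Set (Fin (t + m) → Step d))) := by ring
      _ ≤ _ := mul_le_mul_of_nonneg_left h1 (Real.exp_pos _).le
  have h3 := V_append (F := F) (ρ := ρ) (β := β) η (m := t) (n := m) (x := x)
    (E1 := toP t x) (E2 := tube d m F.v r) (E := Set.univ) (fun s hs => hs)
    fun s _ q _ => Set.mem_univ _
  have h4 : Real.exp (-u) * V F ρ β (sh t x η) (tube d m F.v r) ≤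
      V F ρ β η (toP t x) * V F ρ β (sh t x η) (tube d m F.v r) :=
    mul_le_mul_of_nonneg_right hclimb (V_nonneg _ _)
  linarith

/-- The quantile step: the two tube weights depend on disjoint sets of sites (`2 r < ‖rv F t x‖`), so with probability `≥ ε²` both events
hold, and `μ(not hclimb) + μ(not hP) ≤ 2 δ < ε²`. -/
theorem crit_step (j0 : Fin d) (β : ℝ) {t m : ℕ} {x : Site d} {r R u δ ε α γ : ℝ}
    (hx : 2 * r < ‖rv F t x‖) (hR : R ≤ r) (hε : 0 < ε) (hδ : 2 * δ < ε ^ 2)
    (hP : (law d ρ).real {η : Env d | ¬ (1 / 2 ≤ PolT β F.θ η (tube d (t + m) F.v R))} ≤ δ)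
    (hclimb : (law d ρ).real {η : Env d | ¬ Real.exp (-u) ≤ Vp F ρ β η t x} ≤ δ)
    (hα : ε ≤ (law d ρ).real {η : Env d | V F ρ β η (tube d (t + m) F.v r) ≤ Real.exp α})
    (hγ : ε ≤ (law d ρ).real {η : Env d | Real.exp γ ≤ V F ρ β η (tube d m F.v r)}) :
    γ - u - Real.log 2 ≤ α := by
  classical
  by_contra hcon
  push Not at hcon
  set A : Bool → Set (Env d) := fun b => if b then {η | V F ρ β η (tube d (t + m) F.v r) ≤ Real.exp α}
    else {η | sh t x η ∈ {η' : Env d | Real.exp γ ≤ V F ρ β η' (tube d m F.v r)}} with hA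
  set S : Bool → Set (ℕ × Site d) := fun b => if b then {p | ‖rv F p.1 p.2‖ ≤ r}
    else {p | ‖rv F p.1 p.2 - rv F t x‖ ≤ r} with hS
  have hAt : A true = {η | V F ρ β η (tube d (t + m) F.v r) ≤ Real.exp α} := if_pos rfl
  have hAf : A false = {η | sh t x η ∈ {η' : Env d | Real.exp γ ≤ V F ρ β η' (tube d m F.v r)}} :=
    if_neg Bool.false_ne_true
  have hSt : S true = {p | ‖rv F p.1 p.2‖ ≤ r} := if_pos rfl
  have hSf : S false = {p | ‖rv F p.1 p.2 - rv F t x‖ ≤ r} := if_neg Bool.false_ne_true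
  have hB : MeasurableSet {η' : Env d | Real.exp γ ≤ V F ρ β η' (tube d m F.v r)} :=
    measurableSet_le measurable_const (measurable_V _)
  have hdisj : Disjoint (S true) (S false) := by
    rw [hSt, hSf, Set.disjoint_left]
    intro p hp hp'
    have h1 : ‖rv F p.1 p.2‖ ≤ r := hp
    have h2 : ‖rv F p.1 p.2 - rv F t x‖ ≤ r := hp'
    have h3 : ‖rv F t x‖ ≤ ‖rv F p.1 p.2‖ + ‖rv F p.1 p.2 - rv F t x‖ := by
      have := norm_sub_le (rv F p.1 p.2) (rv F p.1 p.2 - rv F t x)
      rwa [sub_sub_cancel] at this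
    linarith
  have hind := indep_events (ρ := ρ) (Finset.univ : Finset Bool) A S (by
      intro b _
      cases b
      · rw [hAf]
        exact hB.preimage (mp_sh (ρ := ρ) t x).measurable
      · rw [hAt]
        exact measurableSet_le (measurable_V _) measurable_const) (by
      intro b _ η η' h
      cases b
      · rw [hAf]
        rw [hSf] at h
        have h1 : V F ρ β (sh t x η) (tube d m F.v r) = V F ρ β (sh t x η') (tube d m F.v r) := by
          refine CritA_dep F ρ β m r fun p hp => h _ ?_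
          change ‖rv F (p.1 + t) (p.2 + x) - rv F t x‖ ≤ r
          rw [rv_add, add_sub_cancel_right]
          exact hp
        change Real.exp γ ≤ V F ρ β (sh t x η) (tube d m F.v r) ↔
          Real.exp γ ≤ V F ρ β (sh t x η') (tube d m F.v r)
        rw [h1]
      · rw [hAt]
        rw [hSt] at h
        have h1 : V F ρ β η (tube d (t + m) F.v r) = V F ρ β η' (tube d (t + m) F.v r) :=
          CritA_dep F ρ β (t + m) r fun p hp => h p hp
        change V F ρ β η (tube d (t + m) F.v r) ≤ Real.exp α ↔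
          V F ρ β η' (tube d (t + m) F.v r) ≤ Real.exp α
        rw [h1]) (by
      intro b _ c _ hbc
      cases b <;> cases c
      · exact absurd rfl hbc
      · exact hdisj.symm
      · exact hdisj
      · exact absurd rfl hbc)
  rw [Fintype.prod_bool, hAt, hAf, real_sh t x hB] at hind
  have h5 : ε ^ 2 ≤ (law d ρ).real {η : Env d | ∀ i ∈ (Finset.univ : Finset Bool), η ∈ A i} := by
    rw [hind, sq]
    exact mul_le_mul hα hγ hε.le measureReal_nonneg
  have hsub : {η : Env d | ∀ i ∈ (Finset.univ : Finset Bool), η ∈ A i} ⊆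
      {η : Env d | ¬ (1 / 2 ≤ PolT β F.θ η (tube d (t + m) F.v R))} ∪
        {η : Env d | ¬ Real.exp (-u) ≤ Vp F ρ β η t x} := by
    intro η hη
    have h1 : V F ρ β η (tube d (t + m) F.v r) ≤ Real.exp α := by
      have := hη true (Finset.mem_univ _)
      rw [hAt] at this
      exact this
    have h2 : Real.exp γ ≤ V F ρ β (sh t x η) (tube d m F.v r) := by
      have := hη false (Finset.mem_univ _)
      rw [hAf] at this
      exact this
    by_contra h
    rw [Set.mem_union, not_or] at h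
    have h3 : 1 / 2 ≤ PolT β F.θ η (tube d (t + m) F.v R) := not_not.1 h.1
    have h4 : Real.exp (-u) ≤ Vp F ρ β η t x := not_not.1 h.2
    have h6 := crit_det j0 η hR h4 h3
    have h7 : 1 / 2 * (Real.exp (-u) * Real.exp γ) ≤ Real.exp α := by
      have h8 : Real.exp (-u) * Real.exp γ ≤ Real.exp (-u) * V F ρ β (sh t x η) (tube d m F.v r) :=
        mul_le_mul_of_nonneg_left h2 (Real.exp_pos _).le
      linarith
    have h8 : 1 / 2 * (Real.exp (-u) * Real.exp γ) = Real.exp (γ - u - Real.log 2) := by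
      rw [sub_eq_add_neg (γ - u) (Real.log 2), Real.exp_add, Real.exp_neg (Real.log 2),
        Real.exp_log two_pos, sub_eq_add_neg γ u, Real.exp_add]
      ring
    rw [h8, Real.exp_le_exp] at h7
    linarith
  have h9 := (measureReal_mono (μ := law d ρ) hsub).trans (measureReal_union_le _ _)
  linarith

end Pool.Agent.W_7d29a1_v
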