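import Pool.Agent.W_7d29a1_v.QuantA
import Pool.Agent.W_7d29a1_h3.ScaleA

/-!
Fluctuations in a moving tube.
-/

namespace Pool.Agent.W_7d29a1_v

open MeasureTheory ProbabilityTheory Filter Topology Pool.Agent.W_MP_7d29a1_pr
  Pool.Agent.W_7d29a1_h46 Pool.Agent.W_7d29a1_h46u Pool.Agent.W_7d29a1_h3

variable {d : ℕ} {F : Fr d} {ρ : Measure ℝ} [IsProbabilityMeasure ρ]

omit [IsProbabilityMeasure ρ] in
private theorem VScaleA_log {n : ℕ} {β : ℝ} {η : Env d} {E : Set (Fin n → Step d)}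
    (hE : E.Nonempty) :
    Real.log (V F ρ β η E) = Real.log (ZT β F.θ η E) - n * lam ρ β F.θ := by
  have hZ : 0 < ZT β F.θ η E := ZT_pos _ _ _ hE
  unfold V
  rw [Real.log_mul (Real.exp_pos _).ne' hZ.ne', Real.log_exp]
  ring

/-- TASK VScaleA. FLUCT in the tube, copy of `W_7d29a1_h3/ScaleA.lean`: `cond_fluct` with the tilt `F.θ`, `B = ∅`,
the finite set of sites `V` = all `(i, y)`, `1 ≤ i ≤ n`, `‖rv F i y‖ ≤ Y` (`card_ball` for each `i`, so at most
`n (2 Y + 1) ^ d` sites), `T = E`, `N = n`. -/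
theorem tube_fluct (j0 : Fin d) {β εF cF : ℝ} (hf : FluctAt ρ β εF cF) (hc : 0 ≤ cF) {n Y : ℕ}
    {E : Set (Fin n → Step d)} (hne : E.Nonempty)
    (hE : ∀ s ∈ E, ∀ i ≤ n, ‖rv F i (pos s i)‖ ≤ Y) {u v : ℝ}
    (hbad : (law d ρ).real {η : Env d | ¬ Real.exp (-u) ≤ V F ρ β η E} +
      (law d ρ).real {η : Env d | Real.exp v ≤ V F ρ β η E} ≤ εF) (huv : 0 ≤ u + v) :
    cF * n ≤ (u + v) * Real.sqrt (n * (2 * (Y : ℝ) + 1) ^ d) := by
  classical
  choose G hGc hG using fun i : ℕ => card_ball F i Y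
  let VV : Finset (ℕ × Site d) := (Finset.Icc 1 n).biUnion fun i => (G i).image fun y => (i, y)
  have hVc : VV.card ≤ n * (2 * Y + 1) ^ d := by
    calc VV.card ≤ ∑ i ∈ Finset.Icc 1 n, ((G i).image fun y => (i, y)).card :=
          Finset.card_biUnion_le
      _ ≤ ∑ _i ∈ Finset.Icc 1 n, (2 * Y + 1) ^ d :=
          Finset.sum_le_sum fun i _ => Finset.card_image_le.trans (hGc i)
      _ = n * (2 * Y + 1) ^ d := by
          rw [Finset.sum_const, Nat.card_Icc, smul_eq_mul, Nat.add_sub_cancel]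
  have hsub : ∀ s ∈ E, sites s ⊆ VV := by
    intro s hs p hp
    unfold sites at hp
    obtain ⟨i, -, rfl⟩ := Finset.mem_image.1 hp
    refine Finset.mem_biUnion.2 ⟨(i : ℕ) + 1, Finset.mem_Icc.2 ⟨by omega, i.2⟩,
      Finset.mem_image.2 ⟨pos s ((i : ℕ) + 1), hG _ _ (hE s hs _ i.2), rfl⟩⟩
  have key := cond_fluct (d := d) (n := n) (FreeV_iid (d := d) (ρ := ρ)) hf F.θ
    (V := VV) (B := ∅) (Finset.disjoint_empty_right _) (T := E) hne
    (fun s hs => (hsub s hs).trans Finset.subset_union_left) (N := n)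
    (fun s hs => by
      rw [Finset.filter_true_of_mem fun p hp => hsub s hs hp, card_sites])
    (F := fun _ => 0) measurable_const (fun _ _ _ => rfl)
    ((n : ℝ) * lam ρ β F.θ - u) ((n : ℝ) * lam ρ β F.θ + v)
    (by
      have h1 : {η : Env d | Real.log (ZT β F.θ (fun p => η p) E) - 0 ∉
          Set.Icc ((n : ℝ) * lam ρ β F.θ - u) ((n : ℝ) * lam ρ β F.θ + v)} ⊆
          {η : Env d | ¬ Real.exp (-u) ≤ V F ρ β η E} ∪
            {η : Env d | Real.exp v ≤ V F ρ β η E} := by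
        intro η hη
        have hV : 0 < V F ρ β η E := V_pos η hne
        have hlog := VScaleA_log (F := F) (ρ := ρ) (β := β) (η := η) hne
        by_contra hcon
        rw [Set.mem_union, not_or] at hcon
        obtain ⟨h2, h3⟩ := hcon
        rw [Set.mem_ofPred_eq, not_not] at h2
        rw [Set.mem_ofPred_eq, not_le] at h3
        apply hη
        have h4 := Real.log_le_log (Real.exp_pos _) h2
        have h5 := Real.log_lt_log hV h3
        rw [Real.log_exp] at h4 h5
        rw [hlog] at h4 h5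
        rw [Set.mem_Icc]
        constructor
        · linarith
        · linarith
      refine (measure_mono h1).trans ((measure_union_le _ _).trans ?_)
      rw [← ENNReal.ofReal_toReal (measure_ne_top (law d ρ)
          {η : Env d | ¬ Real.exp (-u) ≤ V F ρ β η E}),
        ← ENNReal.ofReal_toReal (measure_ne_top (law d ρ)
          {η : Env d | Real.exp v ≤ V F ρ β η E}),
        ← ENNReal.ofReal_add ENNReal.toReal_nonneg ENNReal.toReal_nonneg]
      exact ENNReal.ofReal_le_ofReal hbad)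
  have e : (n : ℝ) * lam ρ β F.θ + v - ((n : ℝ) * lam ρ β F.θ - u) = u + v := by ring
  rw [e] at key
  refine key.trans (mul_le_mul_of_nonneg_left (Real.sqrt_le_sqrt ?_) huv)
  exact_mod_cast hVc

end Pool.Agent.W_7d29a1_v
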