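import Pool.Agent.W_7d29a1_v.CritA
import Pool.Agent.W_7d29a1_v.CheapC
import Pool.Agent.W_7d29a1_v.ScaleA
import Pool.Agent.W_7d29a1_h3.CritB

/-!
The critical scale.
-/

namespace Pool.Agent.W_7d29a1_v

open MeasureTheory ProbabilityTheory Filter Topology Pool.Agent.W_MP_7d29a1_pr
  Pool.Agent.W_7d29a1_h46 Pool.Agent.W_7d29a1_h46u Pool.Agent.W_7d29a1_h3

variable {d : ℕ} {F : Fr d} {ρ : Measure ℝ} [IsProbabilityMeasure ρ]

private theorem VCritB_univ (j0 : Fin d) (F : Fr d) (ρ : Measure ℝ) (β : ℝ) (η : Env d) (n : ℕ) :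
    Real.log (V F ρ β η (Set.univ : Set (Fin n → Step d))) =
      X β F.θ η n - n * lam ρ β F.θ := by
  have hd := Fin.pos j0
  have h0 := ZT_univ_pos (n := n) hd β F.θ η
  unfold V
  rw [Real.log_mul (Real.exp_pos _).ne' h0.ne', Real.log_exp]
  unfold X Z
  ring

private theorem VCritB_dev (j0 : Fin d) (hρ : EM ρ) (β : ℝ) (h : Vec d) {δ θ : ℝ} (hδ : 0 < δ) (hθ : 0 < θ) :
    ∃ N : ℕ, ∀ m ≥ N, (law d ρ).real {η : Env d | θ * m < |X β h η m - m * lam ρ β h|} ≤ δ := by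
  have hd := Fin.pos j0
  obtain ⟨C, hC0, hC⟩ := momU (ρ := ρ) hd hρ β 2
  have h1 := tendsto_A (ρ := ρ) hd hρ β h
  have h2 := (Metric.tendsto_atTop.1 h1) (θ / 2) (by linarith)
  obtain ⟨N1, hN1⟩ := h2
  obtain ⟨N2, hN2⟩ := exists_nat_ge (C / (δ * (θ / 2) ^ 2))
  refine ⟨max 1 (max N1 N2), fun m hm => ?_⟩
  have hm1 : 1 ≤ m := (le_max_left _ _).trans hm
  have hmN1 : N1 ≤ m := ((le_max_left _ _).trans (le_max_right _ _)).trans hm
  have hmN2 : N2 ≤ m := ((le_max_right _ _).trans (le_max_right _ _)).trans hm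
  have hm0 : (0 : ℝ) < m := by exact_mod_cast hm1
  have h3 := hN1 m hmN1
  rw [Real.dist_eq] at h3
  have h4 : |A ρ β h m - m * lam ρ β h| ≤ θ / 2 * m := by
    have e1 : A ρ β h m - m * lam ρ β h =
        (A ρ β h m / m - lam ρ β h) * m := by
      field_simp
    rw [e1, abs_mul, abs_of_pos hm0]
    exact mul_le_mul_of_nonneg_right h3.le hm0.le
  obtain ⟨h5, h6⟩ := hC h m hm1
  have e2 : ((m : ℝ)) ^ ((1 / 2 : ℝ) * ((2 : ℕ) : ℝ)) = m := by
    rw [show ((1 / 2 : ℝ) * ((2 : ℕ) : ℝ)) = 1 by norm_num, Real.rpow_one]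
  rw [e2] at h6
  have h7 := mul_meas_ge_le_integral_of_nonneg
    (Filter.Eventually.of_forall fun η : Env d => sq_nonneg |X β h η m - A ρ β h m|) h5
    ((θ / 2 * m) ^ 2)
  have h8 : (law d ρ).real {η : Env d | θ * m < |X β h η m - m * lam ρ β h|} ≤
      (law d ρ).real {η : Env d | (θ / 2 * m) ^ 2 ≤ |X β h η m - A ρ β h m| ^ 2} := by
    refine measureReal_mono fun η hη => ?_
    simp only [Set.mem_ofPred_eq] at hη ⊢
    refine pow_le_pow_left₀ (by positivity) ?_ 2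
    have e3 : X β h η m - m * lam ρ β h =
        (X β h η m - A ρ β h m) + (A ρ β h m - m * lam ρ β h) := by ring
    rw [e3] at hη
    have e4 := abs_add_le (X β h η m - A ρ β h m) (A ρ β h m - m * lam ρ β h)
    linarith
  refine h8.trans ?_
  have h9 : (θ / 2 * m) ^ 2 * (law d ρ).real {η : Env d | (θ / 2 * m) ^ 2 ≤ |X β h η m - A ρ β h m| ^ 2} ≤
      C * m := h7.trans h6
  have h10 : C * m ≤ (θ / 2 * m) ^ 2 * δ := by
    have e5 : C / (δ * (θ / 2) ^ 2) ≤ m := hN2.trans (by exact_mod_cast hmN2)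
    rw [div_le_iff₀ (by positivity)] at e5
    have e6 : C * m ≤ (m * (δ * (θ / 2) ^ 2)) * m := mul_le_mul_of_nonneg_right e5 hm0.le
    calc C * m ≤ (m * (δ * (θ / 2) ^ 2)) * m := e6
      _ = (θ / 2 * m) ^ 2 * δ := by ring
  exact le_of_mul_le_mul_left (h9.trans h10) (by positivity)

private theorem VCritB_up (j0 : Fin d) (hρ : EM ρ) (F : Fr d) (β : ℝ) {ε θ : ℝ} (hε : ε ≤ 1 / 4) (hθ : 0 < θ) :
    ∃ N : ℕ, ∀ m ≥ N, ∀ r α : ℝ, (tube d m F.v r).Nonempty →
      (law d ρ).real {η : Env d | Real.log (V F ρ β η (tube d m F.v r)) < α} ≤ ε → α ≤ θ * m := by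
  obtain ⟨N, hN⟩ := VCritB_dev (ρ := ρ) j0 hρ β F.θ (show (0 : ℝ) < 1 / 2 by norm_num) hθ
  refine ⟨N, fun m hm r α hne hα => ?_⟩
  by_contra hcon
  push Not at hcon
  have h1 := hN m hm
  have h2 : (Set.univ : Set (Env d)) ⊆ {η : Env d | Real.log (V F ρ β η (tube d m F.v r)) < α} ∪
      {η : Env d | θ * m < |X β F.θ η m - m * lam ρ β F.θ|} := by
    intro η _
    by_cases h3 : Real.log (V F ρ β η (tube d m F.v r)) < α
    · exact Or.inl h3
    · right
      push Not at h3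
      have h4 : Real.log (V F ρ β η (tube d m F.v r)) ≤ X β F.θ η m - m * lam ρ β F.θ := by
        rw [← VCritB_univ j0]
        exact Real.log_le_log (V_pos η hne) (V_mono η (Set.subset_univ _))
      rw [Set.mem_ofPred_eq]
      have h5 := le_abs_self (X β F.θ η m - m * lam ρ β F.θ)
      linarith
  have h3 := (measureReal_mono (μ := law d ρ) h2).trans (measureReal_union_le _ _)
  rw [probReal_univ] at h3
  linarith

private theorem VCritB_low (j0 : Fin d) (hρ : EM ρ) (F : Fr d) (β : ℝ) {ε δ θ : ℝ} (hδ : δ < ε) (hθ : 0 < θ) :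
    ∃ N : ℕ, ∀ m ≥ N, ∀ r R α : ℝ, R ≤ r →
      (law d ρ).real {η : Env d | ¬ (1 / 2 ≤ PolT β F.θ η (tube d m F.v R))} ≤ δ →
      ε ≤ (law d ρ).real {η : Env d | Real.log (V F ρ β η (tube d m F.v r)) ≤ α} → - (θ * m) ≤ α := by
  have hd := Fin.pos j0
  obtain ⟨N, hN⟩ := VCritB_dev (ρ := ρ) j0 hρ β F.θ (show (0 : ℝ) < (ε - δ) / 2 by linarith)
    (show (0 : ℝ) < θ / 2 by linarith)
  obtain ⟨N2, hN2⟩ := exists_nat_ge (Real.log 2 / (θ / 2))
  refine ⟨max N N2, fun m hm r R α hR hP hα => ?_⟩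
  have hmN : N ≤ m := (le_max_left _ _).trans hm
  have hmN2 : N2 ≤ m := (le_max_right _ _).trans hm
  have hlog : Real.log 2 ≤ θ / 2 * m := by
    have e1 : Real.log 2 / (θ / 2) ≤ m := hN2.trans (by exact_mod_cast hmN2)
    rw [div_le_iff₀ (by linarith)] at e1
    linarith
  by_contra hcon
  push Not at hcon
  have h1 := hN m hmN
  have h2 : {η : Env d | Real.log (V F ρ β η (tube d m F.v r)) ≤ α} ⊆
      {η : Env d | ¬ (1 / 2 ≤ PolT β F.θ η (tube d m F.v R))} ∪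
      {η : Env d | θ / 2 * m < |X β F.θ η m - m * lam ρ β F.θ|} := by
    intro η hη
    by_cases h3 : 1 / 2 ≤ PolT β F.θ η (tube d m F.v R)
    · right
      have hη : Real.log (V F ρ β η (tube d m F.v r)) ≤ α := hη
      have h4 := le_ZT_of_PolT hd h3
      have h4' := h4.trans (ZT_mono β F.θ η (tube_mono F.v hR))
      have h0 : 0 < V F ρ β η (Set.univ : Set (Fin m → Step d)) :=
        V_pos η ⟨fun _ => (j0, true), Set.mem_univ _⟩
      have h5 : 1 / 2 * V F ρ β η (Set.univ : Set (Fin m → Step d)) ≤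
          V F ρ β η (tube d m F.v r) := by
        unfold V
        have := mul_le_mul_of_nonneg_left h4' (Real.exp_pos (-((m : ℝ) * lam ρ β F.θ))).le
        linarith
      have h6 := Real.log_le_log (mul_pos (by norm_num) h0) h5
      rw [Real.log_mul (by norm_num) h0.ne', one_div, Real.log_inv, VCritB_univ j0] at h6
      rw [Set.mem_ofPred_eq]
      have h7 := neg_abs_le (X β F.θ η m - m * lam ρ β F.θ)
      linarith
    · exact Or.inl h3
  have h3 := (measureReal_mono (μ := law d ρ) h2).trans (measureReal_union_le _ _)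
  linarith

private theorem VCritB_pow (d : ℕ) {a : ℝ} (ha : a = 1 / ((d : ℝ) + 2)) (n : ℕ) :
    ((n : ℝ) ^ a) ^ (d + 2) = n := by
  have hd2 : (0 : ℝ) < (d : ℝ) + 2 := by positivity
  rw [← Real.rpow_natCast, ← Real.rpow_mul (Nat.cast_nonneg n)]
  have h1 : a * ((d + 2 : ℕ) : ℝ) = 1 := by
    rw [ha]
    push_cast
    field_simp
  rw [h1, Real.rpow_one]

/-- TASK VCritB. Copy of `W_7d29a1_h3/CritB.lean` with moving tubes: `travel0` with `φ₀ = 0` and small `ε'` (cost `6 ε' i a`), `i` least with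
`i a > 2 r` (`rv_mul`), `tube_fluct` with `E = tube d m F.v r` (the quantiles of `V F ρ β η (tube d m F.v r)`). `Steep` at `0` is all that is
used about the frame. -/
theorem crit (j0 : Fin d) (hρ : EM ρ) (hnc : ∀ c : ℝ, ρ {c} ≠ 1) {β : ℝ} (hβ : 0 < β)
    (hst : Steep F ρ β 0) (K : ℝ) :
    ∫ η, liminf (fun n : ℕ => PolT β F.θ η
      (tube d n F.v (K * (n : ℝ) ^ (1 / ((d : ℝ) + 2))))) atTop ∂(law d ρ) < 1 := by
  by_contra hcon
  push Not at hcon
  have hd := Fin.pos j0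
  have hd2 : (0 : ℝ) < (d : ℝ) + 2 := by positivity
  obtain ⟨a, ha⟩ : ∃ a : ℝ, a = 1 / ((d : ℝ) + 2) := ⟨_, rfl⟩
  rw [← ha] at hcon
  have ha0 : 0 < a := by
    rw [ha]
    positivity
  have ha1 : a ≤ 1 := by
    rw [ha, div_le_one hd2]
    have : (0 : ℝ) ≤ d := Nat.cast_nonneg d
    linarith
  have hu0 : ∀ (n : ℕ) (η : Env d), 0 ≤ PolT β F.θ η (tube d n F.v (K * (n : ℝ) ^ a)) :=
    fun n η => PolT_nonneg _ _ _ _
  have hu1 : ∀ (n : ℕ) (η : Env d), PolT β F.θ η (tube d n F.v (K * (n : ℝ) ^ a)) ≤ 1 :=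
    fun n η => PolT_le_one _ _ _ _
  have hI : ∫ η, liminf (fun n : ℕ => PolT β F.θ η (tube d n F.v (K * (n : ℝ) ^ a))) atTop ∂(law d ρ) = 1 := by
    refine le_antisymm ?_ hcon
    have h1 : ∀ η : Env d, 0 ≤ liminf (fun n : ℕ => PolT β F.θ η (tube d n F.v (K * (n : ℝ) ^ a))) atTop := by
      intro η
      refine le_liminf_of_le ?_ (Filter.Eventually.of_forall fun n => hu0 n η)
      exact (isBoundedUnder_of ⟨1, fun n => hu1 n η⟩).isCoboundedUnder_ge
    have h2 : ∀ η : Env d, liminf (fun n : ℕ => PolT β F.θ η (tube d n F.v (K * (n : ℝ) ^ a))) atTop ≤ 1 :=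
      fun η => liminf_le_one (fun n => hu0 n η) (fun n => hu1 n η)
    have h3 := integral_mono_of_nonneg (μ := law d ρ) (Filter.Eventually.of_forall h1)
      (integrable_const (1 : ℝ)) (Filter.Eventually.of_forall h2)
    refine h3.trans (le_of_eq ?_)
    simp
  obtain ⟨ε₀, hε₀, c, hc, hf⟩ := fluct ρ hnc β hβ (hρ β)
  obtain ⟨ε, hεdef⟩ : ∃ ε : ℝ, ε = min (ε₀ / 2) (1 / 4) := ⟨_, rfl⟩
  have hε : 0 < ε := by
    rw [hεdef]
    exact lt_min (by linarith) (by norm_num)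
  have hε4 : ε ≤ 1 / 4 := by
    rw [hεdef]
    exact min_le_right _ _
  have hε2 : 2 * ε ≤ ε₀ := by
    have := min_le_left (ε₀ / 2) (1 / 4)
    rw [← hεdef] at this
    linarith
  have hε1 : ε < 1 := by linarith
  obtain ⟨δ, hδdef⟩ : ∃ δ : ℝ, δ = ε ^ 2 / 4 := ⟨_, rfl⟩
  have hδ : 0 < δ := by
    rw [hδdef]
    positivity
  have hδ2 : 2 * δ < ε ^ 2 := by
    rw [hδdef]
    nlinarith
  have hδ1 : δ < ε := by
    rw [hδdef]
    nlinarith
  obtain ⟨n0, hn0⟩ := exists_bad_small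
    (u := fun n (η : Env d) => PolT β F.θ η (tube d n F.v (K * (n : ℝ) ^ a)))
    (fun n => measurable_PolT β F.θ _) (fun n η => hu0 n η) (fun n η => hu1 n η) hI hδ
  obtain ⟨C2, hC2⟩ : ∃ C2 : ℝ, C2 = 2 * (|K| + 1) + 1 := ⟨_, rfl⟩
  have hK0 := abs_nonneg K
  have hC21 : 1 ≤ C2 := by
    rw [hC2]
    linarith
  obtain ⟨B, hB⟩ : ∃ B : ℝ, B = 2 * C2 + 1 := ⟨_, rfl⟩
  have hB1 : 1 ≤ B := by
    rw [hB]
    linarith
  have hBd : 0 < Real.sqrt (B ^ d) := Real.sqrt_pos.2 (by positivity)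
  obtain ⟨c', hc'⟩ : ∃ c' : ℝ, c' = c / Real.sqrt (B ^ d) := ⟨_, rfl⟩
  have hc'0 : 0 < c' := by
    rw [hc']
    positivity
  obtain ⟨L, w, hL, -, -, hRw, ct, hct, htr⟩ := travel0 (F := F) j0 hρ hst
    (show (0 : ℝ) < c' / (48 * C2) by positivity) 1
  obtain ⟨a', ha'def⟩ : ∃ a' : ℝ, a' = ‖rv F L w‖ := ⟨_, rfl⟩
  rw [← ha'def] at hRw
  have hL0 : (0 : ℝ) < L := by exact_mod_cast hL
  have hL1 : (1 : ℝ) ≤ L := by exact_mod_cast hL
  have ha'0 : (0 : ℝ) < a' := by linarith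
  obtain ⟨θ, hθ⟩ : ∃ θ : ℝ, θ = c' / (32 * B * L) := ⟨_, rfl⟩
  have hθ0 : 0 < θ := by
    rw [hθ]
    positivity
  obtain ⟨Nu, hNu⟩ := VCritB_up (ρ := ρ) j0 hρ F β hε4 hθ0
  obtain ⟨Nl, hNl⟩ := VCritB_low (ρ := ρ) j0 hρ F β hδ1 hθ0
  have htd := (tendsto_rpow_atTop ha0).comp (tendsto_natCast_atTop_atTop (R := ℝ))
  obtain ⟨n, ⟨⟨hx1, hx2⟩, hx3⟩, ⟨hnn0, hnNu⟩, hnNl, hn1⟩ :=
    ((((htd.eventually_ge_atTop ((6 * (c' / (48 * C2)) * a' + Real.log 2 + 1) / (c' / 4))).and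
      (htd.eventually_ge_atTop (B * L))).and (htd.eventually_ge_atTop (a' / (2 * ct * δ)))).and
      (((eventually_ge_atTop n0).and (eventually_ge_atTop Nu)).and
        ((eventually_ge_atTop Nl).and (eventually_ge_atTop 1)))).exists
  simp only [Function.comp_apply] at hx1 hx2 hx3
  have hxn := VCritB_pow d ha n
  have hn1' : (1 : ℝ) ≤ n := by exact_mod_cast hn1
  have hx0 : 1 ≤ (n : ℝ) ^ a := Real.one_le_rpow hn1' ha0.le
  have h2n : (2 * (n : ℝ)) ^ a ≤ 2 * (n : ℝ) ^ a := by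
    rw [Real.mul_rpow (by norm_num) (Nat.cast_nonneg n)]
    refine mul_le_mul_of_nonneg_right ?_ (by positivity)
    calc (2 : ℝ) ^ a ≤ (2 : ℝ) ^ (1 : ℝ) := Real.rpow_le_rpow_of_exponent_le (by norm_num) ha1
      _ = 2 := Real.rpow_one 2
  have h2n' : (n : ℝ) ^ a ≤ (2 * (n : ℝ)) ^ a :=
    Real.rpow_le_rpow (Nat.cast_nonneg n) (by linarith) ha0.le
  obtain ⟨r, hr⟩ : ∃ r : ℕ, r = ⌈(|K| + 1) * (2 * (n : ℝ)) ^ a⌉₊ := ⟨_, rfl⟩
  have hr0 : (|K| + 1) * (2 * (n : ℝ)) ^ a ≤ r := by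
    rw [hr]
    exact Nat.le_ceil _
  have hR : ∀ N : ℕ, N ≤ 2 * n → K * (N : ℝ) ^ a ≤ r := by
    intro N hN
    have hN' : (N : ℝ) ≤ 2 * n := by exact_mod_cast hN
    have e1 : (N : ℝ) ^ a ≤ (2 * (n : ℝ)) ^ a := Real.rpow_le_rpow (Nat.cast_nonneg _) hN' ha0.le
    have e2 : 0 ≤ (N : ℝ) ^ a := by positivity
    have e3 : K * (N : ℝ) ^ a ≤ |K| * (N : ℝ) ^ a := mul_le_mul_of_nonneg_right (le_abs_self K) e2
    have e4 : |K| * (N : ℝ) ^ a ≤ |K| * (2 * (n : ℝ)) ^ a := mul_le_mul_of_nonneg_left e1 hK0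
    have e5 : 0 ≤ (2 * (n : ℝ)) ^ a := by positivity
    linarith
  have hr3 : (r : ℝ) ≤ C2 * (n : ℝ) ^ a := by
    have e1 : (r : ℝ) < (|K| + 1) * (2 * (n : ℝ)) ^ a + 1 := by
      rw [hr]
      exact Nat.ceil_lt_add_one (by positivity)
    have e2 : (|K| + 1) * (2 * (n : ℝ)) ^ a ≤ (|K| + 1) * (2 * (n : ℝ) ^ a) :=
      mul_le_mul_of_nonneg_left h2n (by linarith)
    rw [hC2]
    linarith
  have hr2 : (n : ℝ) ^ a ≤ r := by
    have e1 : 0 ≤ |K| * (2 * (n : ℝ)) ^ a := by positivity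
    linarith
  have hrB : 2 * (r : ℝ) + 1 ≤ B * (n : ℝ) ^ a := by
    rw [hB]
    linarith
  -- the climb
  obtain ⟨i, hi⟩ : ∃ i : ℕ, i = ⌊2 * (r : ℝ) / a'⌋₊ + 1 := ⟨_, rfl⟩
  have hq0 : 0 ≤ 2 * (r : ℝ) / a' := by positivity
  have hi1' : 2 * (r : ℝ) < i * a' := by
    have := Nat.lt_floor_add_one (2 * (r : ℝ) / a')
    rw [div_lt_iff₀ ha'0] at this
    rw [hi]
    push_cast
    exact this
  have hi2' : (i : ℝ) * a' ≤ 2 * r + a' := by
    have := Nat.floor_le hq0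
    rw [le_div_iff₀ ha'0] at this
    rw [hi]
    push_cast
    linarith
  have hi4 : 1 ≤ i := by
    rw [hi]
    exact Nat.le_add_left 1 _
  have hi3' : (i : ℝ) ≤ 2 * r + 1 := by
    have := Nat.floor_le hq0
    have e1 : 2 * (r : ℝ) / a' ≤ 2 * r := by
      rw [div_le_iff₀ ha'0]
      have : 0 ≤ 2 * (r : ℝ) := by positivity
      nlinarith
    rw [hi]
    push_cast
    linarith
  have hi4' : (1 : ℝ) ≤ i := by exact_mod_cast hi4
  have hu : 6 * (c' / (48 * C2)) * (i * a') + Real.log 2 + 1 ≤ c' / 2 * (n : ℝ) ^ a := by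
    rw [div_le_iff₀ (by linarith)] at hx1
    have e1 : 6 * (c' / (48 * C2)) * (i * a') ≤ 6 * (c' / (48 * C2)) * (2 * (C2 * (n : ℝ) ^ a) + a') :=
      mul_le_mul_of_nonneg_left (by linarith) (by positivity)
    have e2 : 6 * (c' / (48 * C2)) * (2 * (C2 * (n : ℝ) ^ a) + a') =
        c' / 4 * (n : ℝ) ^ a + 6 * (c' / (48 * C2)) * a' := by
      field_simp
      ring
    linarith
  have hclimb : (law d ρ).real {η : Env d | ¬ Real.exp (-(6 * (c' / (48 * C2)) * (i * a'))) ≤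
      Vp F ρ β η (i * L) (i • w)} ≤ δ := by
    have e0 := htr i hi4
    rw [inner_zero_left, zero_add, ← ha'def] at e0
    refine e0.trans ?_
    have e1 : 1 / δ ≤ ct * i := by
      rw [div_le_iff₀ (by positivity)] at hx3
      rw [div_le_iff₀ hδ]
      have e2 : a' ≤ ct * (i * a') * δ := by
        have e3 : (n : ℝ) ^ a * (2 * ct * δ) ≤ ct * (i * a') * δ := by
          have e4 : 2 * (n : ℝ) ^ a ≤ i * a' := by linarith
          have e5 : (2 * (n : ℝ) ^ a) * (ct * δ) ≤ (i * a') * (ct * δ) :=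
            mul_le_mul_of_nonneg_right e4 (by positivity)
          linarith
        linarith
      have e6 : a' * 1 ≤ a' * (ct * i * δ) := by linarith
      exact le_of_mul_le_mul_left e6 ha'0
    have e7 := Real.add_one_le_exp (ct * i)
    rw [Real.exp_neg, inv_le_comm₀ (Real.exp_pos _) hδ]
    rw [one_div] at e1
    linarith
  obtain ⟨t, ht⟩ : ∃ t : ℕ, t = i * L := ⟨_, rfl⟩
  have hxt : 2 * (r : ℝ) < ‖rv F t (i • w)‖ := by
    rw [ht, rv_mul, norm_smul, Real.norm_eq_abs, Nat.abs_cast, ← ha'def]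
    exact hi1'
  rw [← ht] at hclimb
  have ht0 : 0 < t := by
    rw [ht]
    exact Nat.mul_pos (by omega) hL
  have ht1 : (t : ℝ) ≤ B * L * (n : ℝ) ^ a := by
    rw [ht]
    push_cast
    have e1 : (i : ℝ) * L ≤ (B * (n : ℝ) ^ a) * L := mul_le_mul_of_nonneg_right (by linarith) hL0.le
    linarith
  have ht2 : t ≤ n := by
    have e1 : (t : ℝ) ≤ n := by
      have e2 : B * L * (n : ℝ) ^ a ≤ (n : ℝ) ^ a * (n : ℝ) ^ a := mul_le_mul_of_nonneg_right hx2 (by linarith)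
      have e3 : (n : ℝ) ^ a * (n : ℝ) ^ a ≤ ((n : ℝ) ^ a) ^ (d + 2) := by
        rw [← sq]
        exact pow_le_pow_right₀ hx0 (by omega)
      linarith
    exact_mod_cast e1
  -- quantiles
  have hPol : ∀ N : ℕ, n ≤ N → (law d ρ).real {η : Env d | ¬ (1 / 2 ≤ PolT β F.θ η
      (tube d N F.v (K * (N : ℝ) ^ a)))} ≤ δ := fun N hN => hn0 N (hnn0.trans hN)
  have hne : ∀ N : ℕ, n ≤ N → N ≤ 2 * n → (tube d N F.v (r : ℝ)).Nonempty := by
    intro N hN hN2
    have hex : ∃ η : Env d, 1 / 2 ≤ PolT β F.θ η (tube d N F.v (K * (N : ℝ) ^ a)) := by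
      by_contra hno
      push Not at hno
      have h1 : {η : Env d | ¬ (1 / 2 ≤ PolT β F.θ η (tube d N F.v (K * (N : ℝ) ^ a)))} = Set.univ := by
        ext x
        simp only [Set.mem_univ, iff_true]
        exact not_le.2 (hno x)
      have h2 := hPol N hN
      rw [h1, probReal_univ] at h2
      linarith
    obtain ⟨η, hη⟩ := hex
    have h3 : (tube d N F.v (K * (N : ℝ) ^ a)).Nonempty := nonempty_of_PolT (lt_of_lt_of_le (by norm_num) hη)
    exact h3.mono (tube_mono F.v (hR N hN2))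
  have hXm : ∀ m : ℕ, Measurable fun η : Env d => Real.log (V F ρ β η (tube d m F.v (r : ℝ))) :=
    fun m => Real.measurable_log.comp (measurable_V _)
  choose αf hα1 hα2 using fun m : ℕ => exists_lower_quantile (law d ρ) (hXm m) hε hε1
  choose γf hγ1 hγ2 using fun m : ℕ => exists_upper_quantile (law d ρ) (hXm m) hε hε1
  have fact1 : ∀ m : ℕ, n ≤ m → m ≤ 2 * n → c' * (n : ℝ) ^ a ≤ -αf m + (γf m + 1) := by
    intro m hm hm2
    have hm1 : (1 : ℝ) ≤ m := by exact_mod_cast hn1.trans hm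
    have hαγ : αf m ≤ γf m := by
      by_contra hlt
      push Not at hlt
      have h1 : (Set.univ : Set (Env d)) ⊆
          {η : Env d | Real.log (V F ρ β η (tube d m F.v (r : ℝ))) < αf m} ∪
            {η : Env d | γf m < Real.log (V F ρ β η (tube d m F.v (r : ℝ)))} := by
        intro η _
        rcases lt_or_ge (Real.log (V F ρ β η (tube d m F.v (r : ℝ)))) (αf m) with h | h
        · exact Or.inl h
        · exact Or.inr (hlt.trans_le h)
      have h2 := (measureReal_mono (μ := law d ρ) h1).trans (measureReal_union_le _ _)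
      rw [probReal_univ] at h2
      have h3 := hα1 m
      have h4 := hγ1 m
      linarith
    have hbad : (law d ρ).real {η : Env d | ¬ Real.exp (-(-αf m)) ≤ V F ρ β η (tube d m F.v (r : ℝ))} +
        (law d ρ).real {η : Env d | Real.exp (γf m + 1) ≤ V F ρ β η (tube d m F.v (r : ℝ))} ≤ ε₀ := by
      have h1 : (law d ρ).real {η : Env d | ¬ Real.exp (-(-αf m)) ≤ V F ρ β η (tube d m F.v (r : ℝ))} ≤
          (law d ρ).real {η : Env d | Real.log (V F ρ β η (tube d m F.v (r : ℝ))) < αf m} := by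
        refine measureReal_mono fun η hη => ?_
        rw [Set.mem_ofPred_eq, not_le, neg_neg] at hη
        rw [Set.mem_ofPred_eq]
        have := Real.log_lt_log (V_pos η (hne m hm hm2)) hη
        rwa [Real.log_exp] at this
      have h2 : (law d ρ).real {η : Env d | Real.exp (γf m + 1) ≤ V F ρ β η (tube d m F.v (r : ℝ))} ≤
          (law d ρ).real {η : Env d | γf m < Real.log (V F ρ β η (tube d m F.v (r : ℝ)))} := by
        refine measureReal_mono fun η hη => ?_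
        rw [Set.mem_ofPred_eq] at hη
        rw [Set.mem_ofPred_eq]
        have := Real.log_le_log (Real.exp_pos _) hη
        rw [Real.log_exp] at this
        linarith
      have h3 := hα1 m
      have h4 := hγ1 m
      linarith
    have h1 := tube_fluct (F := F) (ρ := ρ) (n := m) (Y := r) j0 hf hc.le (hne m hm hm2)
      (fun s hs i hi => hs i hi) hbad (by linarith)
    obtain ⟨G, hG⟩ : ∃ G : ℝ, G = -αf m + (γf m + 1) := ⟨_, rfl⟩
    rw [← hG] at h1 ⊢
    have hG0 : 0 ≤ G := by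
      rw [hG]
      linarith
    rw [Real.sqrt_mul (Nat.cast_nonneg m)] at h1
    have hsm : 0 < Real.sqrt m := Real.sqrt_pos.2 (by linarith)
    have h2 : Real.sqrt m * Real.sqrt m = m := Real.mul_self_sqrt (by linarith)
    obtain ⟨Kd, hKd⟩ : ∃ Kd : ℝ, Kd = Real.sqrt ((2 * (r : ℝ) + 1) ^ d) := ⟨_, rfl⟩
    rw [← hKd] at h1
    have h3 : Real.sqrt m * (c * Real.sqrt m) ≤ Real.sqrt m * (G * Kd) := by
      calc Real.sqrt m * (c * Real.sqrt m) = c * (Real.sqrt m * Real.sqrt m) := by ring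
        _ = c * m := by rw [h2]
        _ ≤ G * (Real.sqrt m * Kd) := h1
        _ = _ := by ring
    have h4 := le_of_mul_le_mul_left h3 hsm
    have h5 : Real.sqrt n ≤ Real.sqrt m := Real.sqrt_le_sqrt (by exact_mod_cast hm)
    have h6 : c * Real.sqrt n ≤ G * Kd := (mul_le_mul_of_nonneg_left h5 hc.le).trans h4
    have hxd : 0 < Real.sqrt (((n : ℝ) ^ a) ^ d) := Real.sqrt_pos.2 (by positivity)
    have h7 : Kd ≤ Real.sqrt (B ^ d) * Real.sqrt (((n : ℝ) ^ a) ^ d) := by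
      rw [hKd, ← Real.sqrt_mul (by positivity), ← mul_pow]
      exact Real.sqrt_le_sqrt (pow_le_pow_left₀ (by positivity) hrB d)
    have h8 : Real.sqrt n = Real.sqrt (((n : ℝ) ^ a) ^ d) * (n : ℝ) ^ a := by
      have e1 : (n : ℝ) = ((n : ℝ) ^ a) ^ d * ((n : ℝ) ^ a) ^ 2 := by
        rw [← pow_add]
        exact hxn.symm
      rw [show Real.sqrt (n : ℝ) = Real.sqrt (((n : ℝ) ^ a) ^ d * ((n : ℝ) ^ a) ^ 2) by rw [← e1],
        Real.sqrt_mul (by positivity), Real.sqrt_sq (by positivity)]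
    have h10 : c * (Real.sqrt (((n : ℝ) ^ a) ^ d) * (n : ℝ) ^ a) ≤
        G * (Real.sqrt (B ^ d) * Real.sqrt (((n : ℝ) ^ a) ^ d)) := by
      rw [← h8]
      exact h6.trans (mul_le_mul_of_nonneg_left h7 hG0)
    have h11 : Real.sqrt (((n : ℝ) ^ a) ^ d) * (c * (n : ℝ) ^ a) ≤
        Real.sqrt (((n : ℝ) ^ a) ^ d) * (G * Real.sqrt (B ^ d)) := by
      linarith
    have h12 := le_of_mul_le_mul_left h11 hxd
    rw [hc', div_mul_eq_mul_div, div_le_iff₀ hBd]
    exact h12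
  have fact2 : ∀ m : ℕ, n ≤ m → t + m ≤ 2 * n →
      αf m + c' / 2 * (n : ℝ) ^ a ≤ αf (t + m) := by
    intro m hm hm2
    have h1 := fact1 m hm (by omega)
    have hα' : ε ≤ (law d ρ).real {η : Env d | V F ρ β η (tube d (t + m) F.v (r : ℝ)) ≤
        Real.exp (αf (t + m))} := by
      refine (hα2 (t + m)).trans (measureReal_mono fun η hη => ?_)
      have hη : Real.log (V F ρ β η (tube d (t + m) F.v (r : ℝ))) ≤ αf (t + m) := hη
      exact (Real.log_le_iff_le_exp (V_pos η (hne (t + m) (by omega) hm2))).1 hη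
    have hγ' : ε ≤ (law d ρ).real {η : Env d | Real.exp (γf m) ≤
        V F ρ β η (tube d m F.v (r : ℝ))} := by
      refine (hγ2 m).trans (measureReal_mono fun η hη => ?_)
      have hη : γf m ≤ Real.log (V F ρ β η (tube d m F.v (r : ℝ))) := hη
      exact (Real.le_log_iff_exp_le (V_pos η (hne m hm (by omega)))).1 hη
    have h2 := crit_step (F := F) (ρ := ρ) j0 β (t := t) (m := m) (r := r) (x := i • w) hxt
      (hR (t + m) hm2) hε hδ2 (hPol (t + m) (by omega)) hclimb hα' hγ'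
    linarith
  have hind : ∀ j : ℕ, n + j * t ≤ 2 * n →
      αf n + j * (c' / 2 * (n : ℝ) ^ a) ≤ αf (n + j * t) := by
    intro j
    induction j with
    | zero => intro _; simp
    | succ j ih =>
      intro hj
      have e1 : n + (j + 1) * t = t + (n + j * t) := by ring
      rw [e1] at hj ⊢
      have h1 := ih (by omega)
      have h2 := fact2 (n + j * t) (by omega) hj
      push_cast at h1 h2 ⊢
      linarith
  obtain ⟨J, hJ⟩ : ∃ J : ℕ, J = n / t := ⟨_, rfl⟩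
  have hJk : J * t ≤ n := by
    rw [hJ]
    exact Nat.div_mul_le_self n t
  have h1 := hind J (by omega)
  have h2 := hNu (n + J * t) (by omega) r (αf (n + J * t)) (hne (n + J * t) (by omega) (by omega))
    (hα1 (n + J * t))
  have h3 := hNl n hnNl r _ (αf n) (hR n (by omega)) (hPol n le_rfl) (hα2 n)
  have hnJ : ((n + J * t : ℕ) : ℝ) ≤ 2 * n := by exact_mod_cast (show n + J * t ≤ 2 * n by omega)
  have h4 : θ * ((n + J * t : ℕ) : ℝ) ≤ θ * (2 * n) := mul_le_mul_of_nonneg_left hnJ hθ0.le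
  have h5 : (J : ℝ) * (c' / 2 * (n : ℝ) ^ a) ≤ 3 * θ * n := by linarith
  have hn2 : (n : ℝ) ≤ 2 * t * J := by
    have hJ1 : 1 ≤ J := by
      rw [hJ]
      exact Nat.div_pos ht2 ht0
    have h6 : n < t * (J + 1) := by
      rw [hJ]
      exact Nat.lt_mul_div_succ n ht0
    have h7 : n ≤ 2 * t * J := by nlinarith
    exact_mod_cast h7
  have h6 : (n : ℝ) * (c' / 2 * (n : ℝ) ^ a) ≤ (2 * t * J) * (c' / 2 * (n : ℝ) ^ a) :=
    mul_le_mul_of_nonneg_right hn2 (by positivity)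
  have h7 : 2 * (t : ℝ) * ((J : ℝ) * (c' / 2 * (n : ℝ) ^ a)) ≤ 2 * t * (3 * θ * n) :=
    mul_le_mul_of_nonneg_left h5 (by positivity)
  have h8 : 2 * (t : ℝ) * (3 * θ * n) ≤ 2 * (B * L * (n : ℝ) ^ a) * (3 * θ * n) :=
    mul_le_mul_of_nonneg_right (by linarith) (by positivity)
  have h9 : 2 * (B * L * (n : ℝ) ^ a) * (3 * θ * n) = (n : ℝ) * (3 / 16 * c' * (n : ℝ) ^ a) := by
    rw [hθ]
    field_simp
    ring
  have h10 : 0 < (n : ℝ) * (c' * (n : ℝ) ^ a) := by positivity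
  have e11 : (2 * (t : ℝ) * J) * (c' / 2 * (n : ℝ) ^ a) = 2 * (t : ℝ) * ((J : ℝ) * (c' / 2 * (n : ℝ) ^ a)) := by ring
  have e12 : (n : ℝ) * (c' / 2 * (n : ℝ) ^ a) = 1 / 2 * ((n : ℝ) * (c' * (n : ℝ) ^ a)) := by ring
  have e13 : (n : ℝ) * (3 / 16 * c' * (n : ℝ) ^ a) = 3 / 16 * ((n : ℝ) * (c' * (n : ℝ) ^ a)) := by ring
  linarith

end Pool.Agent.W_7d29a1_v
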