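import Pool.Agent.W_7d29a1_v.Contra
import Pool.Agent.W_7d29a1_v.CheapA

/-!
Theorem (V1): `J` has no vertex.
-/

namespace Pool.Agent.W_7d29a1_v

open MeasureTheory ProbabilityTheory Filter Topology Pool.Agent.W_MP_7d29a1_pr
  Pool.Agent.W_7d29a1_h46 Pool.Agent.W_7d29a1_h46u Pool.Agent.W_7d29a1_h3

variable {d : ℕ} {ρ : Measure ℝ} [IsProbabilityMeasure ρ]

/-- For every velocity `v` with `|v|_1 < 1` the set of the tilts at which the affine functions with slope `v` support `lam` has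
empty interior. -/
theorem no_vertex (hρ : EM ρ) (hnc : ∀ c : ℝ, ρ {c} ≠ 1) {β : ℝ} (hβ : 0 < β) (hd : 0 < d)
    {v : Vec d} (hv : ∑ j, |v j| < 1) :
    interior {h : Vec d | ∀ h' : Vec d, lam ρ β h + inner ℝ (h' - h) v ≤ lam ρ β h'} = ∅ := by
  by_contra hcon
  obtain ⟨θ, hθ⟩ := Set.nonempty_iff_ne_empty.2 hcon
  obtain ⟨φ, c, S⟩ := setup_of hρ hnc hβ hd hv hθ
  obtain ⟨εF, hε, cF, hc, hf⟩ := fluct ρ hnc β hβ (hρ β)
  have h0 : 0 < min (εF / 4) (1 / 16) := lt_min (by linarith) (by norm_num)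
  refine contra ⟨0, hd⟩ (post ⟨0, hd⟩ S h0 (min_le_right _ _) hc hf ?_)
  linarith [min_le_left (εF / 4) (1 / 16)]

end Pool.Agent.W_7d29a1_v
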