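import Pool.Agent.W_7d29a1_v.CritB
import Pool.Agent.W_7d29a1_v.Main
import Pool.Agent.W_7d29a1_h3.AeX

/-!
Theorem (V2).
-/

namespace Pool.Agent.W_7d29a1_v

open MeasureTheory ProbabilityTheory Filter Topology Pool.Agent.W_MP_7d29a1_pr
  Pool.Agent.W_7d29a1_h46 Pool.Agent.W_7d29a1_h46u Pool.Agent.W_7d29a1_h3

variable {d : ℕ} {ρ : Measure ℝ} [IsProbabilityMeasure ρ]

private theorem CritC_pt (hd : 0 < d) (β : ℝ) (θ v h' : Vec d) (η : Env d) (n : ℕ) {R : ℝ}
    (hP : 1 / 2 ≤ PolT β θ η (tube d n v R)) :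
    X β θ η n + ((n : ℝ) * inner ℝ (h' - θ) v - ‖h' - θ‖ * R) - Real.log 2 ≤ X β h' η n := by
  have h1 := le_ZT_of_PolT hd hP
  have h2 := ZT_tilt_ge β θ h' η (E := tube d n v R)
    (A := (n : ℝ) * inner ℝ (h' - θ) v - ‖h' - θ‖ * R) (fun s hs => by
      have h3 : ‖emb (pos s n) - (n : ℝ) • v‖ ≤ R := hs n le_rfl
      have h4 : emb (pos s n) = (n : ℝ) • v + (emb (pos s n) - (n : ℝ) • v) := by abel
      rw [h4, inner_add_right, real_inner_smul_right]
      have h5 := abs_real_inner_le_norm (h' - θ) (emb (pos s n) - (n : ℝ) • v)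
      have h6 := (abs_le.1 h5).1
      have h7 := mul_le_mul_of_nonneg_left h3 (norm_nonneg (h' - θ))
      linarith)
  have h3 : ZT β h' η (tube d n v R) ≤ Z β h' η n := ZT_mono β h' η (Set.subset_univ _)
  have h0 := Z_pos hd β θ η n
  have h4 : Real.exp ((n : ℝ) * inner ℝ (h' - θ) v - ‖h' - θ‖ * R) * (1 / 2 * Z β θ η n) ≤
      Z β h' η n := (mul_le_mul_of_nonneg_left h1 (Real.exp_pos _).le).trans (h2.trans h3)
  have h5 := Real.log_le_log (mul_pos (Real.exp_pos _) (mul_pos (by norm_num) h0)) h4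
  rw [Real.log_mul (Real.exp_pos _).ne' (mul_pos (by norm_num) h0).ne', Real.log_exp,
    Real.log_mul (by norm_num) h0.ne', one_div, Real.log_inv] at h5
  unfold X
  linarith

/-- TASK VCritC. If the polymer with tilt `θ` stays near `i v` then `v` is a subgradient of `lam` at `θ`: the integral is `≥ 1`, so the liminf
is `1` almost surely; on the event `1/2 ≤ PolT β θ η (tube d n v (K n^a))` one has
`X β h' η n ≥ n (h' - θ).v - ‖h' - θ‖ K n^a - log 2 + X β θ η n` (`ZT_tilt_ge`, `le_ZT_of_PolT`), divide by `n` and use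
`W_7d29a1_h3.ae_X` for `h'` and `θ`. -/
theorem supp_of_conf (hd : 0 < d) (hρ : EM ρ) (β : ℝ) (θ v : Vec d) (K : ℝ)
    (h : 1 ≤ ∫ η, liminf (fun n : ℕ => PolT β θ η
      (tube d n v (K * (n : ℝ) ^ (1 / ((d : ℝ) + 2))))) atTop ∂(law d ρ)) (h' : Vec d) :
    lam ρ β θ + inner ℝ (h' - θ) v ≤ lam ρ β h' := by
  obtain ⟨f, hf⟩ : ∃ f : Env d → ℝ, f = fun η => liminf (fun n : ℕ => PolT β θ η
    (tube d n v (K * (n : ℝ) ^ (1 / ((d : ℝ) + 2))))) atTop := ⟨_, rfl⟩
  have hu0 : ∀ (n : ℕ) (η : Env d), 0 ≤ PolT β θ η (tube d n v (K * (n : ℝ) ^ (1 / ((d : ℝ) + 2)))) :=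
    fun n η => PolT_nonneg _ _ _ _
  have hu1 : ∀ (n : ℕ) (η : Env d), PolT β θ η (tube d n v (K * (n : ℝ) ^ (1 / ((d : ℝ) + 2)))) ≤ 1 :=
    fun n η => PolT_le_one _ _ _ _
  have hf1 : ∀ η, f η ≤ 1 := fun η => by
    rw [hf]
    exact liminf_le_one (fun n => hu0 n η) (fun n => hu1 n η)
  have hf0 : ∀ η, 0 ≤ f η := fun η => by
    rw [hf]
    refine le_liminf_of_le ?_ (Filter.Eventually.of_forall fun n => hu0 n η)
    exact (isBoundedUnder_of ⟨1, fun n => hu1 n η⟩).isCoboundedUnder_ge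
  have hfm : Measurable f := by
    rw [hf]
    exact Measurable.liminf fun n => measurable_PolT β θ _
  have hfi : Integrable f (law d ρ) := by
    refine (integrable_const (1 : ℝ)).mono' hfm.aestronglyMeasurable (Eventually.of_forall fun η => ?_)
    rw [Real.norm_eq_abs, abs_of_nonneg (hf0 η)]
    exact hf1 η
  have hint : 1 ≤ ∫ η, f η ∂(law d ρ) := by
    rw [hf]
    exact h
  have hae : ∀ᵐ η ∂(law d ρ), f η = 1 := by
    have h1 : ∫ η, (1 - f η) ∂(law d ρ) = 0 := by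
      have h2 : 0 ≤ ∫ η, (1 - f η) ∂(law d ρ) := integral_nonneg fun η => sub_nonneg.2 (hf1 η)
      have h3 : ∫ η, (1 - f η) ∂(law d ρ) = 1 - ∫ η, f η ∂(law d ρ) := by
        rw [integral_sub (integrable_const _) hfi]
        simp
      linarith
    have h2 := (integral_eq_zero_iff_of_nonneg (fun η => sub_nonneg.2 (hf1 η))
      ((integrable_const (1 : ℝ)).sub hfi)).1 h1
    filter_upwards [h2] with η hη
    have h3 : 1 - f η = 0 := hη
    linarith
  have hd2 : (0 : ℝ) < (d : ℝ) + 2 := by positivity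
  have ha1 : 1 / ((d : ℝ) + 2) < 1 := by
    rw [div_lt_one hd2]
    have : (0 : ℝ) ≤ d := Nat.cast_nonneg d
    linarith
  obtain ⟨η, h1, h2, h3⟩ := (hae.and ((ae_X (ρ := ρ) hd hρ β h').and
    (ae_X (ρ := ρ) hd hρ β θ))).exists
  have h4 : ∀ᶠ n : ℕ in atTop, 1 / 2 < PolT β θ η
      (tube d n v (K * (n : ℝ) ^ (1 / ((d : ℝ) + 2)))) := by
    refine eventually_lt_of_lt_liminf ?_ (isBoundedUnder_of ⟨0, fun n => hu0 n η⟩)
    have h5 : liminf (fun n : ℕ => PolT β θ η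
      (tube d n v (K * (n : ℝ) ^ (1 / ((d : ℝ) + 2))))) atTop = 1 := by
      rw [hf] at h1
      exact h1
    rw [h5]
    norm_num
  have h5 : Tendsto (fun n : ℕ => (n : ℝ) ^ (1 / ((d : ℝ) + 2) - 1)) atTop (𝓝 0) := by
    have h6 := (tendsto_rpow_neg_atTop (show 0 < 1 - 1 / ((d : ℝ) + 2) by linarith)).comp
      (tendsto_natCast_atTop_atTop (R := ℝ))
    refine h6.congr fun n => ?_
    simp only [Function.comp_apply]
    congr 1
    ring
  have h6 : Tendsto (fun n : ℕ => Real.log 2 / (n : ℝ)) atTop (𝓝 0) :=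
    tendsto_const_nhds.div_atTop tendsto_natCast_atTop_atTop
  have h7 : Tendsto (fun n : ℕ => X β θ η n / n + (inner ℝ (h' - θ) v -
      ‖h' - θ‖ * K * (n : ℝ) ^ (1 / ((d : ℝ) + 2) - 1)) - Real.log 2 / n) atTop
      (𝓝 (lam ρ β θ + (inner ℝ (h' - θ) v - ‖h' - θ‖ * K * 0) - 0)) :=
    (h3.add (tendsto_const_nhds.sub (h5.const_mul _))).sub h6
  rw [mul_zero, sub_zero, sub_zero] at h7
  refine le_of_tendsto_of_tendsto h7 h2 ?_
  filter_upwards [h4, eventually_ge_atTop 1] with n hn hn1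
  have hn0 : (0 : ℝ) < n := by exact_mod_cast hn1
  have h8 := CritC_pt hd β θ v h' η n hn.le
  have h9 : X β θ η n / n + (inner ℝ (h' - θ) v -
      ‖h' - θ‖ * K * (n : ℝ) ^ (1 / ((d : ℝ) + 2) - 1)) - Real.log 2 / n =
      (X β θ η n + ((n : ℝ) * inner ℝ (h' - θ) v - ‖h' - θ‖ *
        (K * (n : ℝ) ^ (1 / ((d : ℝ) + 2)))) - Real.log 2) / n := by
    rw [Real.rpow_sub hn0, Real.rpow_one]
    field_simp
  rw [h9]
  exact div_le_div_of_nonneg_right h8 hn0.le

/-- (V2). By contradiction: `supp_of_conf`, `no_vertex` (`θ` is not interior), so `Steep ⟨θ, v⟩ ρ β 0`: near `θ` there is a tilt outside the set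
of `no_vertex`, and at such a tilt `lam` is above the affine function. Then `crit`. -/
theorem crit_all (hρ : EM ρ) (hnc : ∀ c : ℝ, ρ {c} ≠ 1) {β : ℝ} (hβ : 0 < β) (hd : 0 < d)
    (θ : Vec d) {v : Vec d} (hv : ∑ j, |v j| < 1) (K : ℝ) :
    ∫ η, liminf (fun n : ℕ => PolT β θ η
      (tube d n v (K * (n : ℝ) ^ (1 / ((d : ℝ) + 2))))) atTop ∂(law d ρ) < 1 := by
  by_contra hcon
  have hcon' := not_lt.1 hcon
  have hs := supp_of_conf hd hρ β θ v K hcon'
  have hi := no_vertex hρ hnc hβ hd hv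
  have hst : Steep (⟨θ, v⟩ : Fr d) ρ β 0 := by
    intro ε hε
    by_contra hno
    push Not at hno
    have h1 : θ ∈ interior {h : Vec d | ∀ h' : Vec d, lam ρ β h + inner ℝ (h' - h) v ≤ lam ρ β h'} := by
      refine mem_interior.2 ⟨Metric.ball θ ε, fun x hx h' => ?_, Metric.isOpen_ball,
        Metric.mem_ball_self hε⟩
      have h2 : ‖x - θ - 0‖ ≤ ε := by
        rw [sub_zero, ← dist_eq_norm]
        exact (Metric.mem_ball.1 hx).le
      have h3 := hno (x - θ) h2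
      rw [add_sub_cancel] at h3
      have h4 := hs h'
      have h5 : inner ℝ (h' - θ) v = inner ℝ (h' - x) v + inner ℝ (x - θ) v := by
        rw [← inner_add_left]
        congr 1
        abel
      linarith
    rw [hi] at h1
    exact h1
  exact hcon (crit (F := ⟨θ, v⟩) ⟨0, hd⟩ hρ hnc hβ hst K)

end Pool.Agent.W_7d29a1_v
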