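import Pool.Agent.W_7d29a1_v.Wt
import Pool.Agent.W_7d29a1_h3.DecA

/-!
Decomposition at the first exit from a moving strip.
-/

namespace Pool.Agent.W_7d29a1_v

open MeasureTheory ProbabilityTheory Filter Topology Pool.Agent.W_MP_7d29a1_pr
  Pool.Agent.W_7d29a1_h46 Pool.Agent.W_7d29a1_h46u Pool.Agent.W_7d29a1_h3

variable {d : ℕ} {F : Fr d} {ρ : Measure ℝ} {β : ℝ}

/-- TASK VDecA. The weight of the walks through `p` at time `i` is the product. `W_7d29a1_h3.V_through` and `V_eq`,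
`Vp_eq` (the three constants match), or copy. -/
theorem V_through (η : Env d) {i n : ℕ} (hi : i ≤ n) (p z : Site d) :
    V F ρ β η {s : Fin n → Step d | pos s i = p ∧ pos s n = z} =
      Vp F ρ β η i p * Vp F ρ β (sh i p η) (n - i) (z - p) := by
  have hsub : {s : Fin n → Step d | pos s i = p ∧ pos s n = z} ⊆ toP n z := fun s hs => hs.2
  rw [V_eq η hsub, Pool.Agent.W_7d29a1_h3.V_through η hi p z, Vp_eq η i p,
    Vp_eq (sh i p η) (n - i) (z - p)]
  have h1 : Real.exp (inner ℝ F.θ (emb z) + n * (lam ρ β (0 : Vec d) - lam ρ β F.θ)) =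
      Real.exp (inner ℝ F.θ (emb p) + i * (lam ρ β (0 : Vec d) - lam ρ β F.θ)) *
        Real.exp (inner ℝ F.θ (emb (z - p)) +
          ((n - i : ℕ) : ℝ) * (lam ρ β (0 : Vec d) - lam ρ β F.θ)) := by
    rw [← Real.exp_add, emb_sub, inner_sub_right, Nat.cast_sub hi]
    congr 1
    ring
  rw [h1]
  ring

private theorem vdecA_wgt_pos (h : Vec d) (η : Env d) {n : ℕ} (s : Fin n → Step d) :
    0 < wgt β h η s := by
  unfold wgt
  exact Real.exp_pos _

private theorem vdecA_ind (h : Vec d) (η : Env d) {n : ℕ} (E : Set (Fin n → Step d)) :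
    ZT β h η E = ∑ s : Fin n → Step d, Set.indicator E (fun s => wgt β h η s) s := by
  classical
  unfold ZT
  refine Finset.sum_congr rfl fun s _ => ?_
  by_cases hs : s ∈ E
  · rw [if_pos hs, Set.indicator_of_mem hs]
  · rw [if_neg hs, Set.indicator_of_notMem hs]

private theorem vdecA_ZT_le (h : Vec d) (η : Env d) {n : ℕ} (E E' : Set (Fin n → Step d))
    (I : Finset ℕ) (J : ℕ → Finset (Site d)) (G : ℕ → Site d → Set (Fin n → Step d))
    (hE : ∀ s ∈ E, s ∈ E' ∨ ∃ i ∈ I, ∃ p ∈ J i, s ∈ G i p) :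
    ZT β h η E ≤ ZT β h η E' + ∑ i ∈ I, ∑ p ∈ J i, ZT β h η (G i p) := by
  classical
  simp only [vdecA_ind]
  have h2 : ∑ i ∈ I, ∑ p ∈ J i, ∑ s : Fin n → Step d,
        Set.indicator (G i p) (fun s => wgt β h η s) s =
      ∑ s : Fin n → Step d, ∑ i ∈ I, ∑ p ∈ J i,
        Set.indicator (G i p) (fun s => wgt β h η s) s := by
    rw [Finset.sum_congr rfl fun i _ => Finset.sum_comm, Finset.sum_comm]
  rw [h2, ← Finset.sum_add_distrib]
  refine Finset.sum_le_sum fun s _ => ?_
  have hw : ∀ K : Set (Fin n → Step d), 0 ≤ Set.indicator K (fun s => wgt β h η s) s := fun K =>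
    Set.indicator_nonneg (fun s _ => (vdecA_wgt_pos h η s).le) s
  have hnn : ∀ i ∈ I, (0 : ℝ) ≤ ∑ p ∈ J i, Set.indicator (G i p) (fun s => wgt β h η s) s :=
    fun i _ => Finset.sum_nonneg fun p _ => hw _
  by_cases hs : s ∈ E
  · rw [Set.indicator_of_mem hs]
    rcases hE s hs with h' | ⟨i, hi, p, hp, h'⟩
    · rw [Set.indicator_of_mem h']
      have := Finset.sum_nonneg hnn
      linarith
    · have h3 := Finset.single_le_sum
        (f := fun p => Set.indicator (G i p) (fun s => wgt β h η s) s) (fun p _ => hw _) hp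
      rw [Set.indicator_of_mem h'] at h3
      have h5 := Finset.single_le_sum hnn hi
      have h6 := hw E'
      linarith
  · rw [Set.indicator_of_notMem hs]
    exact add_nonneg (hw _) (Finset.sum_nonneg hnn)

private theorem vdecA_exit_le (η : Env d) (n S : ℕ) (z : Site d) (J : ℕ → Finset (Site d))
    (hJ : ∀ i p, p ∈ J i ↔ p ∈ boxF d n ∧ (S : ℝ) < ‖rv F i p‖) :
    Vp F ρ β η n z ≤ V F ρ β η (stP F n S z) + ∑ i ∈ Finset.range (n + 1),
      ∑ p ∈ J i, Vp F ρ β η i p * Vp F ρ β (sh i p η) (n - i) (z - p) := by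
  classical
  have h1 : ∑ i ∈ Finset.range (n + 1), ∑ p ∈ J i,
        Vp F ρ β η i p * Vp F ρ β (sh i p η) (n - i) (z - p) =
      ∑ i ∈ Finset.range (n + 1), ∑ p ∈ J i,
        V F ρ β η {s : Fin n → Step d | pos s i = p ∧ pos s n = z} := by
    refine Finset.sum_congr rfl fun i hi => Finset.sum_congr rfl fun p _ => ?_
    rw [Finset.mem_range] at hi
    rw [V_through η (by omega) p z]
  rw [h1]
  unfold Vp V
  simp only [← Finset.mul_sum]
  rw [← mul_add]
  refine mul_le_mul_of_nonneg_left ?_ (Real.exp_pos _).le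
  refine vdecA_ZT_le F.θ η _ _ _ _
    (fun i p => {s : Fin n → Step d | pos s i = p ∧ pos s n = z}) ?_
  intro s hz
  by_cases hs : ∀ i ≤ n, ‖rv F i (pos s i)‖ ≤ S
  · exact Or.inl ⟨hs, hz⟩
  · push Not at hs
    obtain ⟨i, hi, hsi⟩ := hs
    exact Or.inr ⟨i, Finset.mem_range.2 (Nat.lt_succ_of_le hi), pos s i,
      (hJ i _).2 ⟨pos_mem_box s i, hsi⟩, rfl, hz⟩

/-- If the strip has at most half of the weight, some point outside the strip has a large product. Copy of
`W_7d29a1_h3/DecA.lean`: a walk to `z` which is not in `stP F n S z` visits a point with `S < ‖rv F i p‖` (no first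
exit needed). -/
theorem exit_exists (j0 : Fin d) (η : Env d) {n S : ℕ} {z : Site d} (hz : adm n z)
    (h : V F ρ β η (stP F n S z) ≤ 1 / 2 * Vp F ρ β η n z) :
    ∃ i ≤ n, ∃ p : Site d, (S : ℝ) < ‖rv F i p‖ ∧ Vp F ρ β η n z ≤
      2 * ((n : ℝ) + 1) * (2 * (n : ℝ) + 1) ^ d *
        (Vp F ρ β η i p * Vp F ρ β (sh i p η) (n - i) (z - p)) := by
  classical
  by_contra hc
  push Not at hc
  have h0 := vdecA_exit_le (F := F) (ρ := ρ) (β := β) η n S z
    (fun i => (boxF d n).filter (fun p => (S : ℝ) < ‖rv F i p‖)) fun i p => Finset.mem_filter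
  have hV := Vp_pos (F := F) (ρ := ρ) (β := β) j0 η hz
  set v := Vp F ρ β η n z with hv
  have hn1 : (0 : ℝ) < (n : ℝ) + 1 := by positivity
  have hn2 : (0 : ℝ) < (2 * (n : ℝ) + 1) ^ d := by positivity
  set c : ℝ := v / (2 * ((n : ℝ) + 1) * (2 * (n : ℝ) + 1) ^ d) with hcd
  have hc0 : 0 < c := by positivity
  have h1 : ∀ i ∈ Finset.range (n + 1), ∑ p ∈ (boxF d n).filter (fun p => (S : ℝ) < ‖rv F i p‖),
      Vp F ρ β η i p * Vp F ρ β (sh i p η) (n - i) (z - p) < (2 * (n : ℝ) + 1) ^ d * c := by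
    intro i hi
    rw [Finset.mem_range] at hi
    rcases ((boxF d n).filter (fun p => (S : ℝ) < ‖rv F i p‖)).eq_empty_or_nonempty with he | hne
    · rw [he, Finset.sum_empty]
      positivity
    · have h2 : ∑ p ∈ (boxF d n).filter (fun p => (S : ℝ) < ‖rv F i p‖),
          Vp F ρ β η i p * Vp F ρ β (sh i p η) (n - i) (z - p) <
          ∑ p ∈ (boxF d n).filter (fun p => (S : ℝ) < ‖rv F i p‖), c := by
        refine Finset.sum_lt_sum_of_nonempty hne fun p hp => ?_
        rw [Finset.mem_filter] at hp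
        have h3 := hc i (by omega) p hp.2
        rw [hcd, lt_div_iff₀ (by positivity)]
        linarith
      refine h2.trans_le ?_
      rw [Finset.sum_const, nsmul_eq_mul]
      refine mul_le_mul_of_nonneg_right ?_ hc0.le
      have h4 : ((boxF d n).filter (fun p => (S : ℝ) < ‖rv F i p‖)).card ≤ (boxF d n).card :=
        Finset.card_filter_le _ _
      rw [card_boxF] at h4
      exact_mod_cast h4
  have h2 : ∑ i ∈ Finset.range (n + 1),
      ∑ p ∈ (boxF d n).filter (fun p => (S : ℝ) < ‖rv F i p‖),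
      Vp F ρ β η i p * Vp F ρ β (sh i p η) (n - i) (z - p) <
      ∑ i ∈ Finset.range (n + 1), (2 * (n : ℝ) + 1) ^ d * c :=
    Finset.sum_lt_sum_of_nonempty ⟨0, by simp⟩ h1
  rw [Finset.sum_const, Finset.card_range, nsmul_eq_mul] at h2
  have h3 : ((n + 1 : ℕ) : ℝ) * ((2 * (n : ℝ) + 1) ^ d * c) = 1 / 2 * v := by
    rw [hcd]
    push_cast
    field_simp
  linarith

end Pool.Agent.W_7d29a1_v
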