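import Pool.Agent.W_7d29a1_v.Wt
import Pool.Agent.W_7d29a1_h3.DecB

/-!
Decomposition into blocks.
-/

namespace Pool.Agent.W_7d29a1_v

open MeasureTheory ProbabilityTheory Filter Topology Pool.Agent.W_MP_7d29a1_pr
  Pool.Agent.W_7d29a1_h46 Pool.Agent.W_7d29a1_h46u Pool.Agent.W_7d29a1_h3

variable {d : ℕ} {F : Fr d} {ρ : Measure ℝ} {β : ℝ}

/-- TASK VDecB. From `W_7d29a1_h3.block_exists` with `Vp_eq`: the product of the constants of the blocks is the
constant of the whole (`emb (x (i+1) - x i)` telescopes, `x 0 = 0`, `x m = y`). -/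
theorem block_exists (j0 : Fin d) (η : Env d) (N m : ℕ) {y : Site d} (hy : adm (m * N) y) :
    ∃ x : ℕ → Site d, x 0 = 0 ∧ x m = y ∧ (∀ i < m, adm N (x (i + 1) - x i)) ∧
      Vp F ρ β η (m * N) y ≤ ((2 * ((m * N : ℕ) : ℝ) + 1) ^ d) ^ m *
        ∏ i ∈ Finset.range m, Vp F ρ β (sh (i * N) (x i) η) N (x (i + 1) - x i) := by
  obtain ⟨x, hx0, hxm, hadm, hle⟩ := Pool.Agent.W_7d29a1_h3.block_exists (ρ := ρ) (β := β) j0 η N m hy
  refine ⟨x, hx0, hxm, hadm, ?_⟩
  have h1 : ∀ M : ℕ, ∏ i ∈ Finset.range M, Vp F ρ β (sh (i * N) (x i) η) N (x (i + 1) - x i) =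
      Real.exp (inner ℝ F.θ (emb (x M)) - inner ℝ F.θ (emb (x 0)) +
        (M * N : ℕ) * (lam ρ β (0 : Vec d) - lam ρ β F.θ)) *
        ∏ i ∈ Finset.range M,
          Pool.Agent.W_7d29a1_h3.Vp ρ β (sh (i * N) (x i) η) N (x (i + 1) - x i) := by
    intro M
    induction M with
    | zero =>
      rw [Finset.range_zero, Finset.prod_empty, Finset.prod_empty, Nat.zero_mul, Nat.cast_zero,
        zero_mul, add_zero, sub_self, Real.exp_zero, mul_one]
    | succ M ih =>
      rw [Finset.prod_range_succ, Finset.prod_range_succ, ih, Vp_eq, emb_sub, inner_sub_right]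
      have h2 : Real.exp (inner ℝ F.θ (emb (x (M + 1))) - inner ℝ F.θ (emb (x 0)) +
          ((M + 1) * N : ℕ) * (lam ρ β (0 : Vec d) - lam ρ β F.θ)) =
          Real.exp (inner ℝ F.θ (emb (x M)) - inner ℝ F.θ (emb (x 0)) +
            (M * N : ℕ) * (lam ρ β (0 : Vec d) - lam ρ β F.θ)) *
          Real.exp (inner ℝ F.θ (emb (x (M + 1))) - inner ℝ F.θ (emb (x M)) +
            N * (lam ρ β (0 : Vec d) - lam ρ β F.θ)) := by
        rw [← Real.exp_add]
        congr 1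
        push_cast
        ring
      rw [h2]
      ring
  rw [h1 m, hx0, hxm, emb_zero, inner_zero_right, sub_zero, Vp_eq]
  have h3 := mul_le_mul_of_nonneg_left hle (Real.exp_pos (inner ℝ F.θ (emb y) +
    (m * N : ℕ) * (lam ρ β (0 : Vec d) - lam ρ β F.θ))).le
  refine h3.trans (le_of_eq ?_)
  ring

end Pool.Agent.W_7d29a1_v
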