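import Pool.Agent.W_7d29a1_h3.Cat
import Pool.Agent.W_7d29a1_h3.Ind

/-!
Directed polymers in all dimensions: `J` has no vertex. Definitions. The paper proof is row 595 of the table
`proofs` (it is row 587, the folder `W_7d29a1_h3`, in a frame which moves with velocity `v`).

The names are those of `W_7d29a1_h3`, with an additional first argument `F`, the frame (base tilt `θ`,
velocity `v`): inside this namespace `V`, `Vp`, `HH`, `g`, ... are the definitions of this file.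
-/

namespace Pool.Agent.W_7d29a1_v

open MeasureTheory ProbabilityTheory Filter Topology Pool.Agent.W_MP_7d29a1_pr
  Pool.Agent.W_7d29a1_h46 Pool.Agent.W_7d29a1_h46u Pool.Agent.W_7d29a1_h3

/-- The frame: a base tilt `θ` and a velocity `v`. -/
structure Fr (d : ℕ) where
  θ : Vec d
  v : Vec d

/-- The relative position `y - n v`. -/
noncomputable def rv {d : ℕ} (F : Fr d) (n : ℕ) (y : Site d) : Vec d := emb y - (n : ℝ) • F.v

/-- An approximation of `2 r v` with even coordinates (rounded towards `0`). -/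
noncomputable def zz {d : ℕ} (F : Fr d) (r : ℕ) : Site d :=
  fun j => 2 * (if 0 ≤ F.v j then ⌊(r : ℝ) * F.v j⌋ else ⌈(r : ℝ) * F.v j⌉)

/-- The walks of length `n` from `0` to `y` which stay in the moving ball `|S_i - i v| ≤ S`. -/
def stP {d : ℕ} (F : Fr d) (n S : ℕ) (y : Site d) : Set (Fin n → Step d) :=
  {s | (∀ i ≤ n, ‖rv F i (pos s i)‖ ≤ S) ∧ pos s n = y}

/-- The normalised weight (with the tilt `θ`) of a set of walks. -/
noncomputable def V {d : ℕ} (F : Fr d) (ρ : Measure ℝ) (β : ℝ) (η : Env d) {n : ℕ}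
    (E : Set (Fin n → Step d)) : ℝ :=
  Real.exp (-(n * lam ρ β F.θ)) * ZT β F.θ η E

/-- The normalised point to point weight. -/
noncomputable def Vp {d : ℕ} (F : Fr d) (ρ : Measure ℝ) (β : ℝ) (η : Env d) (n : ℕ)
    (y : Site d) : ℝ := V F ρ β η (toP n y)

/-- `H_φ(n) = n (lam θ + φ.v) - log Z_n(θ + φ)`. -/
noncomputable def HH {d : ℕ} (F : Fr d) (ρ : Measure ℝ) (β : ℝ) (φ : Vec d) (η : Env d)
    (n : ℕ) : ℝ := n * (lam ρ β F.θ + inner ℝ φ F.v) - X β (F.θ + φ) η n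

/-- The mean of `- log V` (to be used for nonempty sets of walks with the same end point). -/
noncomputable def gE {d : ℕ} (F : Fr d) (ρ : Measure ℝ) (β : ℝ) {n : ℕ}
    (E : Set (Fin n → Step d)) : ℝ := ∫ η, -Real.log (V F ρ β η E) ∂(law d ρ)

/-- The mean of the point to point passage time. -/
noncomputable def g {d : ℕ} (F : Fr d) (ρ : Measure ℝ) (β : ℝ) (n : ℕ) (y : Site d) : ℝ :=
  gE F ρ β (toP n y)

/-- Tilts arbitrarily close to `θ + φ₀` are above the affine function `lam θ + φ.v`. -/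
def Steep {d : ℕ} (F : Fr d) (ρ : Measure ℝ) (β : ℝ) (φ₀ : Vec d) : Prop :=
  ∀ ε : ℝ, 0 < ε → ∃ ψ : Vec d, ‖ψ - φ₀‖ ≤ ε ∧
    lam ρ β F.θ + inner ℝ ψ F.v < lam ρ β (F.θ + ψ)

/-- The index set of the tilts: `± e_j`. -/
abbrev Ix (d : ℕ) := Fin d × Bool

/-- The negation of the theorem, in the form in which it is used. -/
structure Setup (d : ℕ) (F : Fr d) (ρ : Measure ℝ) (β : ℝ) (φ : Ix d → Vec d) (c : ℝ) :
    Prop where
  em : EM ρ
  nc : ∀ c : ℝ, ρ {c} ≠ 1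
  βpos : 0 < β
  cpos : 0 < c
  vlt : ∑ j, |F.v j| < 1
  flat : ∀ i, lam ρ β (F.θ + φ i) ≤ lam ρ β F.θ + inner ℝ (φ i) F.v
  span : ∀ u : Vec d, ∃ i, c * ‖u‖ ≤ inner ℝ (φ i) u
  steep : ∀ i, Steep F ρ β (φ i)

/-- `D1 N = max_{l ≤ N} E (H_φ(l))_+`. -/
noncomputable def D1 {d : ℕ} (F : Fr d) (ρ : Measure ℝ) (β : ℝ) (φ : Vec d) (N : ℕ) : ℝ :=
  (Finset.range (N + 1)).sup' ⟨0, by simp⟩ fun l => ∫ η, max (HH F ρ β φ η l) 0 ∂(law d ρ)

/-- `D2 N = max_{l ≤ N} (E (H_φ(l))_+ ^ 2) ^ (1/2)`. -/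
noncomputable def D2 {d : ℕ} (F : Fr d) (ρ : Measure ℝ) (β : ℝ) (φ : Vec d) (N : ℕ) : ℝ :=
  (Finset.range (N + 1)).sup' ⟨0, by simp⟩ fun l =>
    Real.sqrt (∫ η, max (HH F ρ β φ η l) 0 ^ 2 ∂(law d ρ))

/-- The sum over the tilts. -/
noncomputable def DM {d : ℕ} (F : Fr d) (ρ : Measure ℝ) (β : ℝ) (φ : Ix d → Vec d) (N : ℕ) : ℝ :=
  ∑ i, D2 F ρ β (φ i) N

open Classical in
/-- An upper quantile of `T(2 r, z(r))`: see `Q_spec`. -/
noncomputable def Q (d : ℕ) (F : Fr d) (ρ : Measure ℝ) (β q : ℝ) (r : ℕ) : ℝ :=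
  Classical.epsilon fun x : ℝ =>
    (law d ρ).real {η : Env d | ¬ Real.exp (-x) ≤ Vp F ρ β η (2 * r) (zz F r)} ≤ q ∧
      q ≤ (law d ρ).real {η : Env d | Vp F ρ β η (2 * r) (zz F r) ≤ Real.exp (-x)}

/-- `b(n) = max (1, max_{r ≤ n} Q r)`. -/
noncomputable def bb (d : ℕ) (F : Fr d) (ρ : Measure ℝ) (β q : ℝ) (n : ℕ) : ℝ :=
  (Finset.range (n + 1)).sup' ⟨0, by simp⟩ fun r => max 1 (Q d F ρ β q r)

/-- The strip width `ξ(n)`. -/
noncomputable def xi (d : ℕ) (F : Fr d) (ρ : Measure ℝ) (β q : ℝ) (n : ℕ) : ℕ :=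
  sInf {Y : ℕ | ∀ r ≤ n, (law d ρ).real {η : Env d | ¬ Real.exp (-(bb d F ρ β q n + 1)) ≤
    V F ρ β η (stP F (2 * r) Y (zz F r))} ≤ 2 * q}

/-- `ξ' = max (ξ, n ^ c0)`. -/
noncomputable def xi' (d : ℕ) (F : Fr d) (ρ : Measure ℝ) (β q : ℝ) (n : ℕ) : ℝ :=
  max (xi d F ρ β q n : ℝ) ((n : ℝ) ^ c0 d)

end Pool.Agent.W_7d29a1_v
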