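import Pool.Agent.W_7d29a1_v.Defs

/-!
Geometry of the moving frame.
-/

namespace Pool.Agent.W_7d29a1_v

open MeasureTheory ProbabilityTheory Filter Topology Pool.Agent.W_MP_7d29a1_pr
  Pool.Agent.W_7d29a1_h46 Pool.Agent.W_7d29a1_h46u Pool.Agent.W_7d29a1_h3

variable {d : ℕ}

theorem emb_zero : emb (0 : Site d) = 0 := by
  ext j
  simp [emb]

theorem emb_add (x y : Site d) : emb (x + y) = emb x + emb y := by
  ext j
  simp [emb]

theorem emb_neg (x : Site d) : emb (-x) = -emb x := by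
  ext j
  simp [emb]

theorem emb_sub (x y : Site d) : emb (x - y) = emb x - emb y := by
  ext j
  simp [emb]

theorem emb_nsmul (k : ℕ) (x : Site d) : emb (k • x) = (k : ℝ) • emb x := by
  ext j
  simp [emb]

/-- The relative position is additive. -/
theorem rv_add (F : Fr d) (m n : ℕ) (x y : Site d) :
    rv F (m + n) (x + y) = rv F m x + rv F n y := by
  unfold rv
  rw [emb_add, Nat.cast_add, add_smul]
  abel

theorem rv_zero (F : Fr d) : rv F 0 (0 : Site d) = 0 := by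
  unfold rv
  rw [emb_zero]
  simp

theorem rv_zero_left (F : Fr d) (x : Site d) : rv F 0 x = emb x := by
  unfold rv
  simp

theorem rv_sub (F : Fr d) {m n : ℕ} (h : m ≤ n) (x y : Site d) :
    rv F (n - m) (y - x) = rv F n y - rv F m x := by
  unfold rv
  rw [emb_sub, Nat.cast_sub h, sub_smul]
  abel

theorem rv_mul (F : Fr d) (k n : ℕ) (x : Site d) :
    rv F (k * n) (k • x) = (k : ℝ) • rv F n x := by
  unfold rv
  rw [emb_nsmul, smul_sub, smul_smul, Nat.cast_mul]

/-- Two positions at the same time. -/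
theorem rv_sub_same (F : Fr d) (n : ℕ) (x y : Site d) : rv F n y - rv F n x = emb (y - x) := by
  unfold rv
  rw [emb_sub]
  abel

theorem norm_le_sum (u : Vec d) : ‖u‖ ≤ ∑ j, |u j| := by
  have h1 : u = ∑ j, EuclideanSpace.single j (u j) := by
    ext i
    simp [Finset.sum_apply]
  calc ‖u‖ = ‖∑ j, EuclideanSpace.single j (u j)‖ := by rw [← h1]
    _ ≤ ∑ j, ‖EuclideanSpace.single j (u j)‖ := norm_sum_le _ _
    _ = ∑ j, |u j| := by
        refine Finset.sum_congr rfl fun j _ => ?_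
        rw [EuclideanSpace.norm_single, Real.norm_eq_abs]

theorem abs_le_norm (u : Vec d) (j : Fin d) : |u j| ≤ ‖u‖ := by
  have h1 := PiLp.norm_apply_le u j
  rwa [Real.norm_eq_abs] at h1

theorem ln_cast (x : Site d) : (ln x : ℝ) = ∑ j, |(x j : ℝ)| := by
  unfold ln
  rw [Nat.cast_sum]
  refine Finset.sum_congr rfl fun j _ => ?_
  rw [Nat.cast_natAbs, Int.cast_abs]

theorem norm_emb_le (x : Site d) : ‖emb x‖ ≤ ln x := by
  rw [ln_cast]
  exact norm_le_sum _

theorem sn_le_norm (x : Site d) : (sn x : ℝ) ≤ ‖emb x‖ := by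
  obtain h0 | ⟨j, -, hj⟩ : sn x = 0 ∨ ∃ j ∈ (Finset.univ : Finset (Fin d)), sn x = (x j).natAbs := by
    by_cases h : (Finset.univ : Finset (Fin d)).Nonempty
    · right
      exact Finset.exists_mem_eq_sup Finset.univ h fun j => (x j).natAbs
    · left
      rw [Finset.not_nonempty_iff_eq_empty] at h
      unfold sn
      rw [h]
      rfl
  · rw [h0]
    simp
  · rw [hj]
    have h1 := abs_le_norm (emb x) j
    have h2 : (((x j).natAbs : ℕ) : ℝ) = |(x j : ℝ)| := by
      rw [Nat.cast_natAbs, Int.cast_abs]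
    rw [h2]
    exact h1

theorem norm_emb_le_sn (x : Site d) : ‖emb x‖ ≤ d * sn x :=
  (norm_emb_le x).trans (by exact_mod_cast ln_le_sn x)

theorem ln_le_norm (x : Site d) : (ln x : ℝ) ≤ d * ‖emb x‖ := by
  have h1 : (ln x : ℝ) ≤ d * sn x := by exact_mod_cast ln_le_sn x
  exact h1.trans (mul_le_mul_of_nonneg_left (sn_le_norm x) (Nat.cast_nonneg d))

theorem ln_add_le (x y : Site d) : ln (x + y) ≤ ln x + ln y := by
  unfold ln
  rw [← Finset.sum_add_distrib]
  exact Finset.sum_le_sum fun j _ => Int.natAbs_add_le _ _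

/-- Parity: adding a site with even coordinates. -/
theorem even_ln_add {x c : Site d} (hx : Even (ln x)) (hc : ∀ j, Even (c j)) :
    Even (ln (x + c)) := by
  have h2 : 2 ∣ ln (x + c) + ln x := by
    unfold ln
    rw [← Finset.sum_add_distrib]
    refine Finset.dvd_sum fun j _ => ?_
    rw [Pi.add_apply]
    obtain ⟨k, hk⟩ := hc j
    omega
  rw [Nat.even_iff] at hx ⊢
  omega

theorem even_ln_sub {x c : Site d} (hx : Even (ln x)) (hc : ∀ j, Even (c j)) :
    Even (ln (x - c)) := by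
  rw [sub_eq_add_neg]
  exact even_ln_add hx fun j => by
    rw [Pi.neg_apply]
    exact (hc j).neg

theorem even_ln_of {c : Site d} (hc : ∀ j, Even (c j)) : Even (ln c) := by
  have h1 : ln (0 : Site d) = 0 := by simp [ln]
  have h2 := even_ln_add (x := (0 : Site d)) (by rw [h1]; exact Even.zero) hc
  rwa [zero_add] at h2

theorem adm_of_even {n : ℕ} {x : Site d} (hn : Even n) (hx : Even (ln x)) (h : ln x ≤ n) :
    adm n x := by
  refine ⟨h, ?_⟩
  rw [Nat.even_iff] at hn hx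
  omega

theorem even_of_adm {n : ℕ} {x : Site d} (hn : Even n) (h : adm n x) : Even (ln x) := by
  have h1 := h.2
  rw [Nat.even_iff] at hn ⊢
  omega

theorem zz_even (F : Fr d) (r : ℕ) (j : Fin d) : Even (zz F r j) := by
  unfold zz
  exact ⟨_, two_mul _⟩

/-- The coordinates of `z(r)` are between `0` and `2 r v_j`. -/
theorem zz_abs (F : Fr d) (r : ℕ) (j : Fin d) : |(zz F r j : ℝ)| ≤ 2 * r * |F.v j| := by
  unfold zz
  have hr : (0 : ℝ) ≤ r := Nat.cast_nonneg r
  by_cases h : 0 ≤ F.v j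
  · have h1 : (0 : ℝ) ≤ (r : ℝ) * F.v j := mul_nonneg hr h
    have h2 : (0 : ℝ) ≤ (⌊(r : ℝ) * F.v j⌋ : ℝ) := by exact_mod_cast Int.floor_nonneg.2 h1
    simp only [if_pos h, Int.cast_mul, Int.cast_ofNat]
    rw [abs_of_nonneg (by positivity), abs_of_nonneg h]
    have h3 := Int.floor_le ((r : ℝ) * F.v j)
    linarith
  · have h' : F.v j < 0 := not_le.1 h
    have h1 : (r : ℝ) * F.v j ≤ 0 := mul_nonpos_of_nonneg_of_nonpos hr h'.le
    have h2 : (⌈(r : ℝ) * F.v j⌉ : ℝ) ≤ 0 := by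
      have : ⌈(r : ℝ) * F.v j⌉ ≤ 0 := Int.ceil_le.2 (by simpa using h1)
      exact_mod_cast this
    simp only [if_neg h, Int.cast_mul, Int.cast_ofNat]
    rw [abs_of_nonpos (by linarith), abs_of_neg h']
    have h3 := Int.le_ceil ((r : ℝ) * F.v j)
    linarith

theorem zz_close (F : Fr d) (r : ℕ) (j : Fin d) : |(zz F r j : ℝ) - 2 * r * F.v j| ≤ 2 := by
  unfold zz
  by_cases h : 0 ≤ F.v j
  · simp only [if_pos h, Int.cast_mul, Int.cast_ofNat]
    have h3 := Int.floor_le ((r : ℝ) * F.v j)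
    have h4 := Int.lt_floor_add_one ((r : ℝ) * F.v j)
    rw [abs_le]
    constructor <;> linarith
  · simp only [if_neg h, Int.cast_mul, Int.cast_ofNat]
    have h3 := Int.le_ceil ((r : ℝ) * F.v j)
    have h4 := Int.ceil_lt_add_one ((r : ℝ) * F.v j)
    rw [abs_le]
    constructor <;> linarith

theorem zz_zero (F : Fr d) : zz F 0 = 0 := by
  funext j
  unfold zz
  simp

theorem ln_zz (F : Fr d) (hv : ∑ j, |F.v j| ≤ 1) (r : ℕ) : ln (zz F r) ≤ 2 * r := by
  have h1 : (ln (zz F r) : ℝ) ≤ 2 * r := by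
    rw [ln_cast]
    calc ∑ j, |(zz F r j : ℝ)| ≤ ∑ j, 2 * r * |F.v j| := Finset.sum_le_sum fun j _ => zz_abs F r j
      _ = 2 * r * ∑ j, |F.v j| := by rw [Finset.mul_sum]
      _ ≤ 2 * r * 1 := mul_le_mul_of_nonneg_left hv (by positivity)
      _ = 2 * r := mul_one _
  exact_mod_cast h1

theorem even_ln_zz (F : Fr d) (r : ℕ) : Even (ln (zz F r)) := even_ln_of (zz_even F r)

theorem zz_adm (F : Fr d) (hv : ∑ j, |F.v j| ≤ 1) (r : ℕ) : adm (2 * r) (zz F r) :=
  adm_of_even (even_two_mul r) (even_ln_zz F r) (ln_zz F hv r)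

theorem zz_rv_apply (F : Fr d) (r : ℕ) (j : Fin d) : |rv F (2 * r) (zz F r) j| ≤ 2 := by
  have h1 : rv F (2 * r) (zz F r) j = (zz F r j : ℝ) - 2 * r * F.v j := by
    unfold rv
    simp [emb]
  rw [h1]
  exact zz_close F r j

theorem zz_rv (F : Fr d) (r : ℕ) : ‖rv F (2 * r) (zz F r)‖ ≤ 2 * d := by
  refine (norm_le_sum _).trans ?_
  calc ∑ j, |rv F (2 * r) (zz F r) j| ≤ ∑ _j : Fin d, (2 : ℝ) :=
        Finset.sum_le_sum fun j _ => zz_rv_apply F r j
    _ = 2 * d := by simp [mul_comm]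

/-- The same for an even time. -/
theorem zz_rv' (F : Fr d) {n : ℕ} (hn : Even n) : ‖rv F n (zz F (n / 2))‖ ≤ 2 * d := by
  have h1 := zz_rv F (n / 2)
  rwa [Nat.mul_div_cancel' hn.two_dvd] at h1

/-- The centre at the even time `n`: a site with even coordinates near `n v`. -/
noncomputable def cz {d : ℕ} (F : Fr d) (n : ℕ) : Site d := zz F (n / 2)

theorem cz_two_mul (F : Fr d) (r : ℕ) : cz F (2 * r) = zz F r := by
  unfold cz
  rw [Nat.mul_div_cancel_left _ (by norm_num : 0 < 2)]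

theorem cz_zero (F : Fr d) : cz F 0 = 0 := by
  unfold cz
  exact zz_zero F

theorem cz_even (F : Fr d) (n : ℕ) (j : Fin d) : Even (cz F n j) := zz_even F _ j

theorem cz_rv (F : Fr d) {n : ℕ} (hn : Even n) : ‖rv F n (cz F n)‖ ≤ 2 * d := zz_rv' F hn

theorem cz_adm (F : Fr d) (hv : ∑ j, |F.v j| ≤ 1) {n : ℕ} (hn : Even n) : adm n (cz F n) := by
  obtain ⟨k, hk⟩ := hn
  have h1 : n = 2 * k := by omega
  rw [h1, cz_two_mul]
  exact zz_adm F hv k

theorem norm_v_le (F : Fr d) : ‖F.v‖ ≤ ∑ j, |F.v j| := norm_le_sum _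

/-- The `l1` norm of a site in terms of its relative position. -/
theorem ln_le_rv (F : Fr d) (n : ℕ) (y : Site d) :
    (ln y : ℝ) ≤ n * ∑ j, |F.v j| + d * ‖rv F n y‖ := by
  rw [ln_cast]
  have h1 : ∀ j, |(y j : ℝ)| ≤ n * |F.v j| + ‖rv F n y‖ := by
    intro j
    have h2 := abs_le_norm (rv F n y) j
    have h3 : rv F n y j = (y j : ℝ) - n * F.v j := by
      unfold rv
      simp [emb]
    rw [h3] at h2
    have h4 : |(y j : ℝ)| ≤ |(n : ℝ) * F.v j| + |(y j : ℝ) - n * F.v j| := by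
      have := abs_add_le ((n : ℝ) * F.v j) ((y j : ℝ) - n * F.v j)
      rwa [add_sub_cancel] at this
    rw [abs_mul, Nat.abs_cast] at h4
    linarith
  calc ∑ j, |(y j : ℝ)| ≤ ∑ j, (n * |F.v j| + ‖rv F n y‖) := Finset.sum_le_sum fun j _ => h1 j
    _ = n * ∑ j, |F.v j| + d * ‖rv F n y‖ := by
        rw [Finset.sum_add_distrib, ← Finset.mul_sum]
        simp

/-- A walk of length `n` has relative position at most `2 n`. -/
theorem rv_pos_le (F : Fr d) (hv : ∑ j, |F.v j| ≤ 1) {n : ℕ} (s : Fin n → Step d) {i : ℕ}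
    (hi : i ≤ n) : ‖rv F i (pos s i)‖ ≤ 2 * i := by
  unfold rv
  have h1 : ‖emb (pos s i)‖ ≤ i := by
    refine (norm_emb_le _).trans ?_
    exact_mod_cast (adm_pos s hi).1
  have h2 : ‖(i : ℝ) • F.v‖ ≤ i := by
    rw [norm_smul, Real.norm_eq_abs, Nat.abs_cast]
    have := (norm_v_le F).trans hv
    calc (i : ℝ) * ‖F.v‖ ≤ i * 1 := mul_le_mul_of_nonneg_left this (Nat.cast_nonneg i)
      _ = i := mul_one _
  linarith [norm_sub_le (emb (pos s i)) ((i : ℝ) • F.v)]

theorem stP_sub {F : Fr d} {n S : ℕ} {y : Site d} : stP F n S y ⊆ toP n y := fun _ hs => hs.2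

/-- For `S ≥ 2 n` the strip is no restriction. -/
theorem stP_eq (F : Fr d) (hv : ∑ j, |F.v j| ≤ 1) {n S : ℕ} (hS : 2 * n ≤ S) (y : Site d) :
    stP F n S y = toP n y := by
  refine Set.Subset.antisymm stP_sub fun s hs => ⟨fun i hi => ?_, hs⟩
  refine (rv_pos_le F hv s hi).trans ?_
  have h1 : 2 * i ≤ S := by omega
  exact_mod_cast h1

/-- Some tilt has a nonnegative functional. -/
theorem Setup.exists_nonneg {F : Fr d} {ρ : Measure ℝ} {β : ℝ} {φ : Ix d → Vec d} {c : ℝ}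
    (S : Setup d F ρ β φ c) (u : Vec d) : ∃ i, 0 ≤ inner ℝ (φ i) u := by
  obtain ⟨i, hi⟩ := S.span u
  exact ⟨i, (mul_nonneg S.cpos.le (norm_nonneg u)).trans hi⟩

/-- Lattice points in a ball of radius `S` around any point of `ℝ^d`. -/
theorem card_ball (F : Fr d) (n S : ℕ) :
    ∃ G : Finset (Site d), G.card ≤ (2 * S + 1) ^ d ∧ ∀ x : Site d, ‖rv F n x‖ ≤ S → x ∈ G := by
  refine ⟨Fintype.piFinset fun j => Finset.Icc ⌈(n : ℝ) * F.v j - S⌉ ⌊(n : ℝ) * F.v j + S⌋,
    ?_, fun x hx => ?_⟩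
  · rw [Fintype.card_piFinset]
    calc ∏ j : Fin d, (Finset.Icc ⌈(n : ℝ) * F.v j - S⌉ ⌊(n : ℝ) * F.v j + S⌋).card
        ≤ ∏ _j : Fin d, (2 * S + 1) := by
          refine Finset.prod_le_prod' fun j _ => ?_
          rw [Int.card_Icc]
          have h1 := Int.le_ceil ((n : ℝ) * F.v j - S)
          have h2 := Int.floor_le ((n : ℝ) * F.v j + S)
          have h3 : ((⌊(n : ℝ) * F.v j + S⌋ - ⌈(n : ℝ) * F.v j - S⌉ : ℤ) : ℝ) ≤ ((2 * S : ℕ) : ℤ) := by
            push_cast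
            linarith
          have h4 : ⌊(n : ℝ) * F.v j + S⌋ - ⌈(n : ℝ) * F.v j - S⌉ ≤ ((2 * S : ℕ) : ℤ) := by
            exact_mod_cast h3
          omega
      _ = (2 * S + 1) ^ d := by simp
  · rw [Fintype.mem_piFinset]
    intro j
    rw [Finset.mem_Icc]
    have h2 := (abs_le_norm (rv F n x) j).trans hx
    have h3 : rv F n x j = (x j : ℝ) - n * F.v j := by
      unfold rv
      simp [emb]
    rw [h3, abs_le] at h2
    constructor
    · rw [Int.ceil_le]
      linarith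
    · rw [Int.le_floor]
      linarith

end Pool.Agent.W_7d29a1_v
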