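import Pool.Agent.W_7d29a1_v.QuantA
import Pool.Agent.W_7d29a1_h3.Ind

/-!
Lanes.
-/

namespace Pool.Agent.W_7d29a1_v

open MeasureTheory ProbabilityTheory Filter Topology Pool.Agent.W_MP_7d29a1_pr
  Pool.Agent.W_7d29a1_h46 Pool.Agent.W_7d29a1_h46u Pool.Agent.W_7d29a1_h3

variable {d : ℕ} {F : Fr d} {ρ : Measure ℝ} [IsProbabilityMeasure ρ]

/-- TASK VLaneA. `J` independent lanes. Lane `j` starts at the space-time point `(t j, x j)` and goes to
`x j + z((l - t j) / 2)` at the time `l` inside the moving strip of width `S` around its starting point; the relative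
positions of two starting points differ by more than `2 S`, so the strips use disjoint sets of sites (`dep_st_sh`).
`indep_events`, `real_sh` as in `W_7d29a1_h3/LaneA.lean`. -/
theorem lanes_fail (β : ℝ) {q B : ℝ} {n S J l : ℕ} (t : ℕ → ℕ) (x : ℕ → Site d)
    (hx : ∀ i < J, ∀ j < J, i ≠ j → 2 * (S : ℝ) < ‖rv F (t i) (x i) - rv F (t j) (x j)‖)
    (hS : ∀ r ≤ n, (law d ρ).real
      {η : Env d | ¬ Real.exp (-B) ≤ V F ρ β η (stP F (2 * r) S (zz F r))} ≤ 2 * q)
    (ht : ∀ j < J, t j ≤ l ∧ Even (l - t j) ∧ l - t j ≤ 2 * n) :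
    (law d ρ).real {η : Env d | ∀ j < J, ¬ Real.exp (-B) ≤
      V F ρ β (sh (t j) (x j) η) (stP F (l - t j) S (zz F ((l - t j) / 2)))} ≤ (2 * q) ^ J := by
  classical
  let A : ℕ → Set (Env d) := fun j => {η | ¬ Real.exp (-B) ≤
    V F ρ β (sh (t j) (x j) η) (stP F (l - t j) S (zz F ((l - t j) / 2)))}
  let T : ℕ → Set (ℕ × Site d) := fun j => {p | t j < p.1 ∧
    p.1 ≤ t j + (l - t j) ∧ ‖rv F p.1 p.2 - rv F (t j) (x j)‖ ≤ S}
  have hset : {η : Env d | ∀ j < J, ¬ Real.exp (-B) ≤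
      V F ρ β (sh (t j) (x j) η) (stP F (l - t j) S (zz F ((l - t j) / 2)))} =
      {η | ∀ j ∈ Finset.range J, η ∈ A j} := by
    ext η
    constructor
    · intro h j hj
      exact h j (Finset.mem_range.1 hj)
    · intro h j hj
      exact h j (Finset.mem_range.2 hj)
  have hm0 : ∀ (m : ℕ) (z : Site d),
      MeasurableSet {η : Env d | ¬ Real.exp (-B) ≤ V F ρ β η (stP F m S z)} := by
    intro m z
    exact (measurableSet_le measurable_const (measurable_V _)).compl
  have hm : ∀ j ∈ Finset.range J, MeasurableSet (A j) := by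
    intro j _
    exact measurable_sh (t j) (x j) (hm0 (l - t j) (zz F ((l - t j) / 2)))
  have hdep : ∀ j ∈ Finset.range J, ∀ η η' : Env d, (∀ p ∈ T j, η p = η' p) →
      (η ∈ A j ↔ η' ∈ A j) := by
    intro j _ η η' h
    have h1 := dep_st_sh (F := F) (ρ := ρ) (β := β) (t j) (x j)
      (l - t j) S (zz F ((l - t j) / 2)) h
    show (¬ Real.exp (-B) ≤ V F ρ β (sh (t j) (x j) η)
      (stP F (l - t j) S (zz F ((l - t j) / 2)))) ↔ (¬ Real.exp (-B) ≤ V F ρ β (sh (t j)
      (x j) η') (stP F (l - t j) S (zz F ((l - t j) / 2))))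
    simp only at h1
    rw [h1]
  have hdisj : ∀ i ∈ Finset.range J, ∀ j ∈ Finset.range J, i ≠ j → Disjoint (T i) (T j) := by
    intro i hi' j hj' hij
    rw [Set.disjoint_left]
    rintro p ⟨-, -, hi⟩ ⟨-, -, hj⟩
    have h1 := hx i (Finset.mem_range.1 hi') j (Finset.mem_range.1 hj') hij
    have h2 : ‖rv F (t i) (x i) - rv F (t j) (x j)‖ ≤
        ‖rv F (t i) (x i) - rv F p.1 p.2‖ + ‖rv F p.1 p.2 - rv F (t j) (x j)‖ :=
      norm_sub_le_norm_sub_add_norm_sub _ _ _
    rw [norm_sub_rev (rv F (t i) (x i)) (rv F p.1 p.2)] at h2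
    linarith
  rw [hset, indep_events (ρ := ρ) (Finset.range J) A T hm hdep hdisj]
  have hle : ∀ j ∈ Finset.range J, (law d ρ).real (A j) ≤ 2 * q := by
    intro j hj
    obtain ⟨-, he, hn⟩ := ht j (Finset.mem_range.1 hj)
    have h1 : (law d ρ).real (A j) =
        (law d ρ).real {η : Env d | ¬ Real.exp (-B) ≤
          V F ρ β η (stP F (l - t j) S (zz F ((l - t j) / 2)))} :=
      real_sh (ρ := ρ) (t j) (x j) (hm0 (l - t j) (zz F ((l - t j) / 2)))
    obtain ⟨r, hr⟩ := he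
    have h2 : l - t j = 2 * r := by omega
    rw [h1, h2, Nat.mul_div_cancel_left r (by norm_num : 0 < 2)]
    exact hS r (by omega)
  calc ∏ j ∈ Finset.range J, (law d ρ).real (A j) ≤ ∏ _j ∈ Finset.range J, (2 * q) :=
        Finset.prod_le_prod (fun j _ => measureReal_nonneg) hle
    _ = (2 * q) ^ J := by rw [Finset.prod_const, Finset.card_range]

/-- The cost of a lane (deterministic): climb to `x`, then the lane. -/
theorem lane_cost (j0 : Fin d) {β : ℝ} (φ : Vec d) (η : Env d) {t l S : ℕ} {x z : Site d}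
    (ht : t ≤ l) {u B : ℝ}
    (hclimb : Real.exp (-(inner ℝ φ (rv F t x) + u)) ≤ Vp F ρ β η t x)
    (hlane : Real.exp (-B) ≤ V F ρ β (sh t x η) (stP F (l - t) S z)) :
    HH F ρ β φ η l ≤ u + B - inner ℝ φ (rv F (l - t) z) := by
  obtain ⟨m, rfl⟩ := Nat.exists_eq_add_of_le ht
  rw [Nat.add_sub_cancel_left] at hlane ⊢
  have h1 : Real.exp (-B) ≤ Vp F ρ β (sh t x η) m z :=
    hlane.trans (V_mono _ stP_sub)
  have h2 := Vp_add (F := F) (ρ := ρ) (β := β) η t m x z
  have h3 : Real.exp (-(inner ℝ φ (rv F t x) + u)) * Real.exp (-B) ≤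
      Vp F ρ β η (t + m) (x + z) :=
    (mul_le_mul hclimb h1 (Real.exp_pos _).le ((Real.exp_pos _).le.trans hclimb)).trans h2
  rw [← Real.exp_add] at h3
  have h4 : Real.exp (-(inner ℝ φ (rv F t x) + u + B)) ≤
      V F ρ β η (toP (t + m) (x + z)) := by
    have h5 : -(inner ℝ φ (rv F t x) + u + B) = -(inner ℝ φ (rv F t x) + u) + -B := by ring
    rw [h5]
    exact h3
  have h6 := H_le_of (F := F) (ρ := ρ) (β := β) j0 φ η (n := t + m) (y := x + z)
    (E := toP (t + m) (x + z)) subset_rfl h4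
  rw [rv_add, inner_add_right] at h6
  linarith

end Pool.Agent.W_7d29a1_v
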