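import Pool.Agent.W_7d29a1_v.LaneA
import Pool.Agent.W_7d29a1_v.CheapC
import Pool.Agent.W_7d29a1_v.StopC
import Pool.Agent.W_7d29a1_h3.LaneB

/-!
The sum over the lanes.
-/

namespace Pool.Agent.W_7d29a1_v

open MeasureTheory ProbabilityTheory Filter Topology Pool.Agent.W_MP_7d29a1_pr
  Pool.Agent.W_7d29a1_h46 Pool.Agent.W_7d29a1_h46u Pool.Agent.W_7d29a1_h3

/-- Cauchy-Schwarz on a set. -/
private theorem VLaneB_cs {Ω : Type*} [MeasurableSpace Ω] {P : Measure Ω} [IsProbabilityMeasure P]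
    {f : Ω → ℝ} (hf : Measurable f) (hf0 : ∀ w, 0 ≤ f w) (hi : Integrable (fun w => f w ^ 2) P)
    {A : Set Ω} (hA : MeasurableSet A) :
    Integrable (fun w => A.indicator (fun _ => (1 : ℝ)) w * f w) P ∧
    ∫ w, A.indicator (fun _ => (1 : ℝ)) w * f w ∂P ≤
      Real.sqrt (∫ w, f w ^ 2 ∂P) * Real.sqrt (P.real A) := by
  have hL : MemLp f 2 P := (memLp_two_iff_integrable_sq hf.aestronglyMeasurable).2 hi
  have hL1 : MemLp (A.indicator fun _ => (1 : ℝ)) 2 P :=
    (memLp_const (1 : ℝ)).indicator hA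
  refine ⟨?_, ?_⟩
  · exact hL1.integrable_mul hL
  have h := integral_mul_le_Lp_mul_Lq_of_nonneg (μ := P) (p := 2) (q := 2)
    Real.HolderConjugate.two_two (f := A.indicator fun _ => (1 : ℝ)) (g := f)
    (ae_of_all _ fun w => Set.indicator_nonneg (fun _ _ => zero_le_one) w)
    (ae_of_all _ hf0) (by simpa using hL1) (by simpa using hL)
  have e1 : ∫ w, (A.indicator (fun _ => (1 : ℝ)) w) ^ (2 : ℝ) ∂P = P.real A := by
    have : (fun w => (A.indicator (fun _ => (1 : ℝ)) w) ^ (2 : ℝ)) =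
        A.indicator fun _ => (1 : ℝ) := by
      funext w
      by_cases hw : w ∈ A <;> simp [hw]
    rw [this, integral_indicator_const _ hA]
    simp
  have e2 : ∫ w, (f w) ^ (2 : ℝ) ∂P = ∫ w, f w ^ 2 ∂P := by
    refine integral_congr_ae (ae_of_all _ fun w => ?_)
    show (f w) ^ (2 : ℝ) = f w ^ 2
    rw [← Real.rpow_natCast]; norm_num
  rw [e1, e2, ← Real.sqrt_eq_rpow, ← Real.sqrt_eq_rpow] at h
  rw [mul_comm (Real.sqrt (∫ w, f w ^ 2 ∂P))]
  exact h

/-- The sum over the first good lane, abstract form. -/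
private theorem VLaneB_abs {Ω : Type*} [MeasurableSpace Ω] {P : Measure Ω} [IsProbabilityMeasure P]
    {H : Ω → ℝ} (hH : Measurable H) (hH4 : Integrable (fun w => H w ^ 4) P) {M : ℝ} (hM : 0 ≤ M)
    (h4 : ∫ w, H w ^ 4 ∂P ≤ M ^ 2) {K : ℕ} {F : ℕ → Set Ω}
    (hFm : ∀ m, MeasurableSet (F m)) (hF : ∀ m ≤ K, P.real (F m) ≤ (1 / 8) ^ m)
    {Bad : Set Ω} (hBm : MeasurableSet Bad) {p : ℝ} (hp : P.real Bad ≤ p) {A B : ℝ} (hA : 0 ≤ A)
    (hB : 0 ≤ B) (hdet : ∀ w, w ∉ Bad → ∃ m, m ≤ K ∧ w ∈ F m ∧ H w ≤ A + m * B) :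
    ∫ w, max (H w) 0 ^ 2 ∂P ≤ 2 * (A + B) ^ 2 + M * Real.sqrt p := by
  obtain ⟨f, hf⟩ : ∃ f : Ω → ℝ, f = fun w => max (H w) 0 ^ 2 := ⟨_, rfl⟩
  have hfm : Measurable f := by
    rw [hf]
    exact (hH.max measurable_const).pow_const 2
  have hf0 : ∀ w, 0 ≤ f w := fun w => by rw [hf]; positivity
  have hf4 : ∀ w, f w ^ 2 ≤ H w ^ 4 := by
    intro w
    rw [hf]
    show (max (H w) 0 ^ 2) ^ 2 ≤ H w ^ 4
    rcases le_total (H w) 0 with h | h
    · rw [max_eq_right h]
      have : 0 ≤ H w ^ 4 := by positivity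
      simpa using this
    · rw [max_eq_left h]
      exact le_of_eq (by ring)
  have hi2 : Integrable (fun w => f w ^ 2) P := by
    refine Integrable.mono' hH4 (hfm.pow_const 2).aestronglyMeasurable (ae_of_all _ fun w => ?_)
    rw [Real.norm_eq_abs, abs_of_nonneg (by positivity)]
    exact hf4 w
  obtain ⟨hcsi, hcs⟩ := VLaneB_cs hfm hf0 hi2 hBm
  have hcs2 : ∫ w, Bad.indicator (fun _ => (1 : ℝ)) w * f w ∂P ≤ M * Real.sqrt p := by
    refine hcs.trans ?_
    have e1 : Real.sqrt (∫ w, f w ^ 2 ∂P) ≤ M := by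
      rw [Real.sqrt_le_left hM]
      exact (integral_mono hi2 hH4 hf4).trans h4
    exact mul_le_mul e1 (Real.sqrt_le_sqrt hp) (Real.sqrt_nonneg _) hM
  have hFi : ∀ m, Integrable (fun w => (F m).indicator (fun _ => (A + m * B) ^ 2) w) P := fun m =>
    (integrable_const _).indicator (hFm m)
  have hpt : ∀ w, max (H w) 0 ^ 2 ≤
      (∑ m ∈ Finset.range (K + 1), (F m).indicator (fun _ => (A + m * B) ^ 2) w) +
        Bad.indicator (fun _ => (1 : ℝ)) w * f w := by
    intro w
    have hnn : ∀ m ∈ Finset.range (K + 1), 0 ≤ (F m).indicator (fun _ => (A + m * B) ^ 2) w :=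
      fun m _ => Set.indicator_nonneg (fun _ _ => by positivity) w
    by_cases hw : w ∈ Bad
    · rw [Set.indicator_of_mem hw, one_mul]
      have := Finset.sum_nonneg hnn
      have e : f w = max (H w) 0 ^ 2 := by rw [hf]
      rw [e]
      linarith
    · obtain ⟨m, hmK, hmF, hHm⟩ := hdet w hw
      rw [Set.indicator_of_notMem hw, zero_mul, add_zero]
      have h1 : (F m).indicator (fun _ => (A + m * B) ^ 2) w ≤
          ∑ m ∈ Finset.range (K + 1), (F m).indicator (fun _ => (A + m * B) ^ 2) w :=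
        Finset.single_le_sum hnn (Finset.mem_range.2 (by omega))
      refine le_trans ?_ h1
      rw [Set.indicator_of_mem hmF]
      have h2 : max (H w) 0 ≤ A + m * B := max_le hHm (by positivity)
      exact pow_le_pow_left₀ (le_max_right _ _) h2 2
  have hsumi : Integrable (fun w => ∑ m ∈ Finset.range (K + 1),
      (F m).indicator (fun _ => (A + m * B) ^ 2) w) P := integrable_finsetSum _ fun m _ => hFi m
  have hfi : Integrable (fun w => max (H w) 0 ^ 2) P := by
    refine Integrable.mono' ((integrable_const (1 : ℝ)).add hi2)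
      ((hH.max measurable_const).pow_const 2).aestronglyMeasurable (ae_of_all _ fun w => ?_)
    rw [Real.norm_eq_abs, abs_of_nonneg (by positivity)]
    show max (H w) 0 ^ 2 ≤ 1 + f w ^ 2
    rw [hf]
    show max (H w) 0 ^ 2 ≤ 1 + (max (H w) 0 ^ 2) ^ 2
    nlinarith [sq_nonneg (max (H w) 0 ^ 2 - 1), sq_nonneg (max (H w) 0)]
  have hmain := integral_mono hfi (hsumi.add hcsi) hpt
  have hadd : ∫ w, ((fun w => ∑ m ∈ Finset.range (K + 1),
      (F m).indicator (fun _ => (A + m * B) ^ 2) w) + (fun w =>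
        Bad.indicator (fun _ => (1 : ℝ)) w * f w)) w ∂P =
      (∫ w, ∑ m ∈ Finset.range (K + 1), (F m).indicator (fun _ => (A + m * B) ^ 2) w ∂P) +
        ∫ w, Bad.indicator (fun _ => (1 : ℝ)) w * f w ∂P := integral_add hsumi hcsi
  rw [hadd, integral_finsetSum _ fun m _ => hFi m] at hmain
  have hsum : ∑ m ∈ Finset.range (K + 1), ∫ w, (F m).indicator (fun _ => (A + m * B) ^ 2) w ∂P ≤
      2 * (A + B) ^ 2 := by
    have hterm : ∀ m ∈ Finset.range (K + 1),
        ∫ w, (F m).indicator (fun _ => (A + m * B) ^ 2) w ∂P ≤ (1 / 2) ^ m * (A + B) ^ 2 := by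
      intro m hm
      rw [integral_indicator_const _ (hFm m), smul_eq_mul]
      have h1 := hF m (by have := Finset.mem_range.1 hm; omega)
      have h2 : (A + m * B) ^ 2 ≤ (2 ^ m * (A + B)) ^ 2 := by
        have hm2 : (m : ℝ) + 1 ≤ 2 ^ m := by
          have := Nat.lt_two_pow_self (n := m)
          exact_mod_cast this
        refine pow_le_pow_left₀ (by positivity) ?_ 2
        have hm0 : (0 : ℝ) ≤ m := Nat.cast_nonneg m
        nlinarith [mul_nonneg hm0 hA, mul_le_mul_of_nonneg_right hm2 (add_nonneg hA hB)]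
      calc P.real (F m) * (A + m * B) ^ 2 ≤ (1 / 8) ^ m * (2 ^ m * (A + B)) ^ 2 :=
            mul_le_mul h1 h2 (by positivity) (by positivity)
        _ = (1 / 2) ^ m * (A + B) ^ 2 := by
            have e : ((1 : ℝ) / 8) ^ m * (2 ^ m) ^ 2 = (1 / 2) ^ m := by
              rw [← pow_mul, mul_comm m 2, pow_mul, ← mul_pow]
              norm_num
            rw [mul_pow, ← mul_assoc, e]
    refine (Finset.sum_le_sum hterm).trans ?_
    rw [← Finset.sum_mul]
    refine mul_le_mul_of_nonneg_right ?_ (sq_nonneg _)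
    exact sum_geometric_two_le _
  linarith

variable {d : ℕ} {F : Fr d} {ρ : Measure ℝ} [IsProbabilityMeasure ρ]


omit [IsProbabilityMeasure ρ] in
/-- The weight of the walk of length `0`. -/
private theorem VLaneB_Vp0 (β : ℝ) (η : Env d) : Vp F ρ β η 0 (0 : Site d) = 1 := by
  unfold Vp V toP ZT
  have hp : ∀ s : Fin 0 → Step d, pos s 0 = (0 : Site d) := by
    intro s
    unfold pos
    simp
  have he : emb (0 : Site d) = 0 := emb_zero
  simp [hp, wgt, energy, he]

/-- The event that a shifted weight is small is measurable. -/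
private theorem VLaneB_meas (β B : ℝ) (t : ℕ) (x : Site d) {n : ℕ} (E : Set (Fin n → Step d)) :
    MeasurableSet {η : Env d | ¬ Real.exp (-B) ≤ V F ρ β (sh t x η) E} := by
  have h1 : Measurable fun η : Env d => V F ρ β (sh t x η) E :=
    (measurable_V (F := F) (ρ := ρ) (β := β) E).comp (mp_sh (ρ := ρ) t x).measurable
  exact (measurableSet_le measurable_const h1).compl

/-- TASK VLaneB. One time `l = i L ≤ 2 n`, copy of `W_7d29a1_h3/LaneB.lean` (its private abstract lemmas can be copied).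
`travel` for `φ k` with a small multiple of `ε` (cost `6 ε' i a` instead of `4 ε i a`), `R = 1`; `m` least with
`m a > 2 ξ' + 2`, `a = ‖rv F L w‖`; lane `j` starts at `t j = j m L`, `x j = (j m) • w` (pure climb: `i = j` in `travel`), relative
position `j m` times that of `w` (`rv_mul`), so two lanes differ by at least `m a > 2 ξ`. `lane_cost` with
`z = zz F ((l - t) / 2)`, `‖φ k‖ ‖rv‖ ≤ 2 d ‖φ k‖` (`zz_rv'`), a constant which goes into `C`. -/
theorem lane_sum (j0 : Fin d) {β : ℝ} {φ : Ix d → Vec d} {c : ℝ} (S : Setup d F ρ β φ c)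
    (k : Ix d) {q : ℝ} (h0 : 0 < q) (h1 : q ≤ 1 / 16) {ε : ℝ} (hε : 0 < ε) :
    ∃ L : ℕ, 0 < L ∧ ∃ C c' : ℝ, 0 < C ∧ 0 < c' ∧ ∀ (n J i : ℕ), 1 ≤ n → 1 ≤ J → 1 ≤ i →
      i * L ≤ 2 * n →
      ∫ η, max (HH F ρ β (φ k) η (i * L)) 0 ^ 2 ∂(law d ρ) ≤
        100 * (bb d F ρ β q n + 1 + ε * (xi' d F ρ β q n + C)) ^ 2 +
        C * (n : ℝ) ^ 2 * Real.sqrt ((2 * q) ^ J + J * Real.exp (-(c' * (n : ℝ) ^ c0 d)) +
          Real.exp (-(c' * i))) := by
  have hd : 0 < d := j0.pos
  obtain ⟨L, w, hL, hLe, -, -, hRa, c1, hc1, htr0⟩ := travel (F := F) j0 S k (ε := ε / 12) (by positivity) 1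
  obtain ⟨C4, hC4, hmom⟩ := H_four (F := F) hd S.em β (φ k)
  obtain ⟨a, hadef⟩ : ∃ a : ℝ, a = ‖rv F L w‖ := ⟨_, rfl⟩
  rw [← hadef] at hRa
  have haR : 0 < a := by linarith
  have htr : ∀ i : ℕ, 1 ≤ i → (law d ρ).real {η : Env d | ¬ Real.exp (-(inner ℝ (φ k)
      (rv F (i * L) (i • w)) + ε / 2 * (i * a))) ≤ Vp F ρ β η (i * L) (i • w)} ≤
      Real.exp (-(c1 * i)) := by
    intro i hi
    have h := htr0 i i le_rfl hi
    rw [Nat.sub_self, zero_smul, add_zero, ← hadef, show 6 * (ε / 12) = ε / 2 by ring] at h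
    exact h
  obtain ⟨e0, he0⟩ : ∃ e0 : ℝ, e0 = ‖φ k‖ * (2 * d) := ⟨_, rfl⟩
  have he00 : 0 ≤ e0 := by rw [he0]; positivity
  refine ⟨L, hL, 1 + a + e0 / ε + 4 * Real.sqrt C4, min c1 (2 * c1 / a), by positivity,
    lt_min hc1 (by positivity), ?_⟩
  intro n J i hn hJ hi hil
  obtain ⟨c, hc⟩ : ∃ c : ℝ, c = min c1 (2 * c1 / a) := ⟨_, rfl⟩
  have hcc1 : c ≤ c1 := by rw [hc]; exact min_le_left _ _
  have hcc2 : c ≤ 2 * c1 / a := by rw [hc]; exact min_le_right _ _
  rw [← hc]
  obtain ⟨x, hx⟩ : ∃ x : ℕ, x = xi d F ρ β q n := ⟨_, rfl⟩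
  obtain ⟨X', hX'⟩ : ∃ X' : ℝ, X' = xi' d F ρ β q n := ⟨_, rfl⟩
  obtain ⟨b, hb⟩ : ∃ b : ℝ, b = bb d F ρ β q n := ⟨_, rfl⟩
  have hb1 : 1 ≤ b := by rw [hb]; exact one_le_bb β q n
  have hxX : (x : ℝ) ≤ X' := by rw [hx, hX']; exact le_max_left _ _
  have hnX : (n : ℝ) ^ c0 d ≤ X' := by rw [hX']; exact le_max_right _ _
  have hX0 : 0 ≤ X' := le_trans (Nat.cast_nonneg x) hxX
  rw [← hX', ← hb]
  obtain ⟨m, hm⟩ : ∃ m : ℕ, m = ⌈(2 * X' + 2) / a⌉₊ := ⟨_, rfl⟩
  have hm1 : 2 * X' + 2 ≤ m * a := by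
    have := Nat.le_ceil ((2 * X' + 2) / a)
    rw [← hm, div_le_iff₀ haR] at this
    exact this
  have hm2 : (m : ℝ) * a ≤ 2 * X' + 2 + a := by
    have := Nat.ceil_lt_add_one (a := (2 * X' + 2) / a) (by positivity)
    rw [← hm] at this
    have h3 := mul_le_mul_of_nonneg_right this.le haR.le
    rw [add_mul, div_mul_cancel₀ _ haR.ne'] at h3
    linarith
  have hmpos : 1 ≤ m := by
    rcases Nat.eq_zero_or_pos m with h | h
    · rw [h] at hm1
      push_cast at hm1
      linarith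
    · exact h
  obtain ⟨K, hK⟩ : ∃ K : ℕ, K = min J (i / m + 1) := ⟨_, rfl⟩
  have hKJ : K ≤ J := by rw [hK]; exact min_le_left _ _
  have hKi : ∀ j < K, j * m ≤ i := by
    intro j hj
    have h2 : j < i / m + 1 := lt_of_lt_of_le hj (by rw [hK]; exact min_le_right _ _)
    have h3 : j ≤ i / m := by omega
    exact (Nat.mul_le_mul_right m h3).trans (Nat.div_mul_le_self i m)
  have hK2 : K < J → i ≤ K * m := by
    intro h
    have h2 : K = i / m + 1 := by
      rw [hK] at h ⊢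
      omega
    rw [h2]
    have h3 := Nat.div_add_mod i m
    have h4 := Nat.mod_lt i hmpos
    have h5 : (i / m + 1) * m = m * (i / m) + m := by ring
    omega
  -- the events
  obtain ⟨Lf, hLf⟩ : ∃ Lf : ℕ → Set (Env d), Lf = fun j => {η : Env d | ¬ Real.exp (-(b + 1)) ≤
      V F ρ β (sh (j * m * L) ((j * m) • w) η)
        (stP F (i * L - j * m * L) x (zz F ((i * L - j * m * L) / 2)))} :=
    ⟨_, rfl⟩
  obtain ⟨G, hG⟩ : ∃ G : ℕ → Set (Env d), G = fun r => {η : Env d | ∀ j < r, η ∈ Lf j} := ⟨_, rfl⟩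
  obtain ⟨Cf, hCf⟩ : ∃ Cf : ℕ → Set (Env d), Cf = fun r : ℕ => {η : Env d |
      ¬ Real.exp (-(inner ℝ (φ k) (rv F (r * L) (r • w)) + ε / 2 * (r * a))) ≤
        Vp F ρ β η (r * L) (r • w)} := ⟨_, rfl⟩
  have hLfm : ∀ j, MeasurableSet (Lf j) := by
    intro j
    rw [hLf]
    exact VLaneB_meas β _ _ _ _
  have hGm : ∀ r, MeasurableSet (G r) := by
    intro r
    have e : G r = ⋂ j ∈ Finset.range r, Lf j := by
      rw [hG]
      ext η
      simp
    rw [e]
    exact Finset.measurableSet_biInter _ fun j _ => hLfm j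
  have hCfm : ∀ r, MeasurableSet (Cf r) := by
    intro r
    rw [hCf]
    exact (measurableSet_le measurable_const (measurable_V _)).compl
  have hCfp : ∀ r, 1 ≤ r → (law d ρ).real (Cf r) ≤ Real.exp (-(c1 * r)) := by
    intro r hr
    have := htr r hr
    rw [hCf]
    exact this
  have hGp : ∀ r ≤ K, (law d ρ).real (G r) ≤ (2 * q) ^ r := by
    intro r hr
    have h := lanes_fail (F := F) (ρ := ρ) β (q := q) (B := b + 1) (n := n) (S := x) (J := r)
      (l := i * L) (fun j => j * m * L) (fun j => (j * m) • w) (fun j hj j' hj' hne => by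
        rw [rv_mul, rv_mul, ← sub_smul, norm_smul, ← hadef, Real.norm_eq_abs]
        have h2 : (m : ℝ) ≤ |((j * m : ℕ) : ℝ) - ((j' * m : ℕ) : ℝ)| := by
          have h3 : (1 : ℝ) ≤ |(j : ℝ) - j'| := by
            have h4 : (1 : ℤ) ≤ |(j : ℤ) - j'| := Int.one_le_abs (by omega)
            exact_mod_cast h4
          push_cast
          rw [← sub_mul, abs_mul, Nat.abs_cast]
          have := mul_le_mul_of_nonneg_right h3 (Nat.cast_nonneg m : (0 : ℝ) ≤ m)
          linarith
        have h5 := mul_le_mul_of_nonneg_right h2 haR.le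
        linarith) (fun s hs => by
        have := xi_spec (F := F) (ρ := ρ) j0 S.vlt.le β h0 (lt_of_le_of_lt h1 (by norm_num)) hs
        rw [← hb, ← hx] at this
        exact this) (fun j hj => by
          have h2 : j * m * L ≤ i * L := Nat.mul_le_mul_right L (hKi j (lt_of_lt_of_le hj hr))
          refine ⟨h2, ?_, (Nat.sub_le _ _).trans hil⟩
          rw [Nat.even_sub h2]
          exact iff_of_true (hLe.mul_left i) (hLe.mul_left _))
    rw [hG, hLf]
    exact h
  obtain ⟨B1, hB1⟩ : ∃ B1 : Set (Env d), B1 = ⋃ j ∈ (Finset.range K).filter (fun j => 1 ≤ j),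
      Cf (j * m) := ⟨_, rfl⟩
  obtain ⟨B3, hB3⟩ : ∃ B3 : Set (Env d), B3 = {η | K = J ∧ η ∈ G J} := ⟨_, rfl⟩
  have hB1m : MeasurableSet B1 := by
    rw [hB1]
    exact Finset.measurableSet_biUnion _ fun j _ => hCfm _
  have hB3m : MeasurableSet B3 := by
    rw [hB3]
    by_cases h : K = J
    · have : {η : Env d | K = J ∧ η ∈ G J} = G J := by
        ext η
        simp [h]
      rw [this]
      exact hGm J
    · have : {η : Env d | K = J ∧ η ∈ G J} = ∅ := by
        ext η
        simp [h]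
      rw [this]
      exact MeasurableSet.empty
  have hpB1 : (law d ρ).real B1 ≤ J * Real.exp (-(c * (n : ℝ) ^ c0 d)) := by
    rw [hB1]
    refine (measureReal_biUnion_finset_le _ _).trans ?_
    have hterm : ∀ j ∈ (Finset.range K).filter (fun j => 1 ≤ j),
        (law d ρ).real (Cf (j * m)) ≤ Real.exp (-(c * (n : ℝ) ^ c0 d)) := by
      intro j hj
      have hj1 : 1 ≤ j := (Finset.mem_filter.1 hj).2
      have hjm : 1 ≤ j * m := Nat.one_le_iff_ne_zero.2 (by positivity)
      refine (hCfp _ hjm).trans (Real.exp_le_exp.2 (neg_le_neg ?_))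
      have hn0 : (0 : ℝ) ≤ (n : ℝ) ^ c0 d := by positivity
      have e1 : c * (n : ℝ) ^ c0 d ≤ 2 * c1 / a * (n : ℝ) ^ c0 d :=
        mul_le_mul_of_nonneg_right hcc2 hn0
      have e2 : 2 * c1 / a * (n : ℝ) ^ c0 d ≤ c1 * m := by
        rw [div_mul_eq_mul_div, div_le_iff₀ haR]
        have : 2 * (n : ℝ) ^ c0 d ≤ m * a := by linarith
        nlinarith
      have e3 : c1 * (m : ℝ) ≤ c1 * ((j * m : ℕ) : ℝ) := by
        refine mul_le_mul_of_nonneg_left ?_ hc1.le
        have : m ≤ j * m := Nat.le_mul_of_pos_left m hj1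
        exact_mod_cast this
      linarith
    refine (Finset.sum_le_sum hterm).trans ?_
    rw [Finset.sum_const, nsmul_eq_mul]
    refine mul_le_mul_of_nonneg_right ?_ (Real.exp_pos _).le
    have : ((Finset.range K).filter (fun j => 1 ≤ j)).card ≤ J :=
      (Finset.card_filter_le _ _).trans (by rw [Finset.card_range]; exact hKJ)
    exact_mod_cast this
  have hpCi : (law d ρ).real (Cf i) ≤ Real.exp (-(c * i)) :=
    (hCfp i hi).trans (Real.exp_le_exp.2 (neg_le_neg
      (mul_le_mul_of_nonneg_right hcc1 (Nat.cast_nonneg i))))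
  have hpB3 : (law d ρ).real B3 ≤ (2 * q) ^ J := by
    rw [hB3]
    by_cases h : K = J
    · have e : {η : Env d | K = J ∧ η ∈ G J} = G J := by
        ext η
        simp [h]
      rw [e]
      exact hGp J h.ge
    · have e : {η : Env d | K = J ∧ η ∈ G J} = ∅ := by
        ext η
        simp [h]
      rw [e]
      simp only [measureReal_empty]
      positivity
  have hpBad : (law d ρ).real (B3 ∪ B1 ∪ Cf i) ≤ (2 * q) ^ J +
      J * Real.exp (-(c * (n : ℝ) ^ c0 d)) + Real.exp (-(c * i)) := by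
    have e1 := measureReal_union_le (μ := law d ρ) (B3 ∪ B1) (Cf i)
    have e2 := measureReal_union_le (μ := law d ρ) B3 B1
    linarith
  obtain ⟨D, hD⟩ : ∃ D : ℝ, D = ε / 2 * (m * a) := ⟨_, rfl⟩
  have hD0 : 0 ≤ D := by rw [hD]; positivity
  have hdet : ∀ η, η ∉ B3 ∪ B1 ∪ Cf i → ∃ r, r ≤ K ∧ η ∈ G r ∧
      HH F ρ β (φ k) η (i * L) ≤ (b + 1 + e0) + r * D := by
    intro η hη
    simp only [Set.mem_union, not_or] at hη
    obtain ⟨⟨hη3, hη1⟩, hηi⟩ := hη
    by_cases hex : ∃ j, j < K ∧ η ∉ Lf j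
    · classical
      obtain ⟨r, hr⟩ : ∃ r, r = Nat.find hex := ⟨_, rfl⟩
      have hms := Nat.find_spec hex
      rw [← hr] at hms
      have hmin : ∀ j < r, η ∈ Lf j := by
        intro j hj
        by_contra hcon
        exact Nat.find_min hex (hr ▸ hj) ⟨lt_trans hj hms.1, hcon⟩
      refine ⟨r, hms.1.le, ?_, ?_⟩
      · rw [hG]
        exact hmin
      · have ht : r * m * L ≤ i * L := Nat.mul_le_mul_right L (hKi r hms.1)
        have hlane : Real.exp (-(b + 1)) ≤
            V F ρ β (sh (r * m * L) ((r * m) • w) η)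
              (stP F (i * L - r * m * L) x (zz F ((i * L - r * m * L) / 2))) := by
          by_contra hcon
          apply hms.2
          rw [hLf]
          exact hcon
        have hclimb : Real.exp (-(inner ℝ (φ k) (rv F (r * m * L) ((r * m) • w)) + r * D)) ≤
            Vp F ρ β η (r * m * L) ((r * m) • w) := by
          rcases Nat.eq_zero_or_pos r with hr0 | hr0
          · have := VLaneB_Vp0 (F := F) (ρ := ρ) β η
            rw [hr0]
            simp only [zero_mul, Nat.cast_zero, zero_smul, rv_zero, inner_zero_right, add_zero,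
              neg_zero, Real.exp_zero]
            exact this.ge
          · have hnot : η ∉ Cf (r * m) := by
              intro hcon
              apply hη1
              rw [hB1]
              simp only [Set.mem_iUnion]
              exact ⟨r, Finset.mem_filter.2 ⟨Finset.mem_range.2 hms.1, hr0⟩, hcon⟩
            rw [hCf] at hnot
            simp only [Set.mem_ofPred_eq, not_not] at hnot
            refine le_trans (le_of_eq ?_) hnot
            congr 1
            rw [hD]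
            push_cast
            ring
        have h12 := lane_cost (F := F) (ρ := ρ) j0 (φ k) η ht hclimb hlane
        have hev : Even (i * L - r * m * L) := by
          rw [Nat.even_sub ht]
          exact iff_of_true (hLe.mul_left i) (hLe.mul_left _)
        have h13 : |inner ℝ (φ k) (rv F (i * L - r * m * L) (zz F ((i * L - r * m * L) / 2)))| ≤ e0 := by
          refine (abs_real_inner_le_norm _ _).trans ?_
          rw [he0]
          exact mul_le_mul_of_nonneg_left (zz_rv' F hev) (norm_nonneg _)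
        have h14 := (abs_le.1 h13).1
        linarith
    · push Not at hex
      refine ⟨K, le_rfl, ?_, ?_⟩
      · rw [hG]
        exact hex
      · have hKJ' : K < J := by
          refine lt_of_le_of_ne hKJ fun h => hη3 ?_
          rw [hB3]
          refine ⟨h, ?_⟩
          rw [← h, hG]
          exact hex
        have hiK := hK2 hKJ'
        rw [hCf] at hηi
        simp only [Set.mem_ofPred_eq, not_not] at hηi
        have h5 := H_le_of (F := F) (ρ := ρ) (β := β) j0 (φ k) η (n := i * L) (y := i • w)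
          (E := toP (i * L) (i • w)) subset_rfl hηi
        have h6 : (i : ℝ) ≤ K * m := by exact_mod_cast hiK
        have h7 : ε / 2 * ((i : ℝ) * a) ≤ K * D := by
          rw [hD]
          have := mul_le_mul_of_nonneg_right h6 haR.le
          nlinarith
        linarith
  have h8 : ∀ r ≤ K, (law d ρ).real (G r) ≤ (1 / 8) ^ r := by
    intro r hr
    exact (hGp r hr).trans (pow_le_pow_left₀ (by positivity) (by linarith) r)
  obtain ⟨M, hM⟩ : ∃ M : ℝ, M = Real.sqrt C4 * (i * L : ℕ) ^ 2 := ⟨_, rfl⟩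
  have hM0 : 0 ≤ M := by rw [hM]; positivity
  have hM4 : ∫ η, HH F ρ β (φ k) η (i * L) ^ 4 ∂(law d ρ) ≤ M ^ 2 := by
    have := (hmom (i * L)).2.2.2.1
    rw [hM, mul_pow, Real.sq_sqrt hC4]
    refine this.trans (le_of_eq ?_)
    ring
  have hMn : M ≤ 4 * Real.sqrt C4 * (n : ℝ) ^ 2 := by
    rw [hM]
    have h9 : ((i * L : ℕ) : ℝ) ≤ 2 * n := by exact_mod_cast hil
    have h10 : ((i * L : ℕ) : ℝ) ^ 2 ≤ (2 * n) ^ 2 := pow_le_pow_left₀ (Nat.cast_nonneg _) h9 2
    have := mul_le_mul_of_nonneg_left h10 (Real.sqrt_nonneg C4)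
    linarith
  have habs := VLaneB_abs (P := law d ρ) (H := fun η => HH F ρ β (φ k) η (i * L))
    (measurable_HH _ _) (hmom (i * L)).1 hM0 hM4 (K := K) (F := G) hGm h8
    (Bad := B3 ∪ B1 ∪ Cf i) ((hB3m.union hB1m).union (hCfm i)) hpBad (A := b + 1 + e0) (B := D)
    (by linarith) hD0 hdet
  refine habs.trans ?_
  have hsq := Real.sqrt_nonneg ((2 * q) ^ J + J * Real.exp (-(c * (n : ℝ) ^ c0 d)) +
      Real.exp (-(c * i)))
  have hε0 : ε * (e0 / ε) = e0 := by field_simp
  have hDle : e0 + D ≤ ε * (X' + (1 + a + e0 / ε + 4 * Real.sqrt C4)) := by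
    rw [hD]
    have := Real.sqrt_nonneg C4
    have e1 : ε * (X' + (1 + a + e0 / ε + 4 * Real.sqrt C4)) =
        ε * (X' + (1 + a + 4 * Real.sqrt C4)) + ε * (e0 / ε) := by ring
    rw [e1, hε0]
    nlinarith [mul_le_mul_of_nonneg_left hm2 hε.le, mul_nonneg hε.le this, mul_pos hε haR]
  have hfirst : 2 * (b + 1 + e0 + D) ^ 2 ≤
      100 * (b + 1 + ε * (X' + (1 + a + e0 / ε + 4 * Real.sqrt C4))) ^ 2 := by
    have h11 : (b + 1 + e0 + D) ^ 2 ≤ (b + 1 + ε * (X' + (1 + a + e0 / ε + 4 * Real.sqrt C4))) ^ 2 :=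
      pow_le_pow_left₀ (by linarith) (by linarith) 2
    nlinarith [sq_nonneg (b + 1 + ε * (X' + (1 + a + e0 / ε + 4 * Real.sqrt C4)))]
  have hsecond : M * Real.sqrt ((2 * q) ^ J + J * Real.exp (-(c * (n : ℝ) ^ c0 d)) +
      Real.exp (-(c * i))) ≤ (1 + a + e0 / ε + 4 * Real.sqrt C4) * (n : ℝ) ^ 2 *
      Real.sqrt ((2 * q) ^ J + J * Real.exp (-(c * (n : ℝ) ^ c0 d)) + Real.exp (-(c * i))) := by
    refine mul_le_mul_of_nonneg_right ?_ hsq
    have : 0 ≤ (1 + a + e0 / ε) * (n : ℝ) ^ 2 := by positivity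
    nlinarith
  linarith

end Pool.Agent.W_7d29a1_v
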