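import Pool.Agent.W_7d29a1_v.Mom
import Pool.Agent.W_7d29a1_h3.MeanA

/-!
Means of the point to point passage times.
-/

namespace Pool.Agent.W_7d29a1_v

open MeasureTheory ProbabilityTheory Filter Topology Pool.Agent.W_MP_7d29a1_pr
  Pool.Agent.W_7d29a1_h46 Pool.Agent.W_7d29a1_h46u Pool.Agent.W_7d29a1_h3

variable {d : ℕ} {F : Fr d} {ρ : Measure ℝ} [IsProbabilityMeasure ρ]

private theorem MeanA_int (j0 : Fin d) (hρ : EM ρ) (β : ℝ) {n : ℕ} {y : Site d} (h : adm n y) :
    Integrable (fun η => -Real.log (V F ρ β η (toP n y))) (law d ρ) :=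
  (concE hρ β (fun _ hs => hs) ((adm_iff j0).1 h)).1.neg

/-- TASK VMeanA. (0.5). Copies of `W_7d29a1_h3/MeanA.lean`. `g_ge`: `V_le_H` gives `HH φ + φ.r ≤ -log Vp`, take
means, `H_mean_nonneg`. `g_nonneg`: `φ = 0`. -/
theorem g_ge (j0 : Fin d) (hρ : EM ρ) (β : ℝ) (φ : Vec d)
    (hh : lam ρ β (F.θ + φ) ≤ lam ρ β F.θ + inner ℝ φ F.v) {n : ℕ} {y : Site d} (h : adm n y) :
    inner ℝ φ (rv F n y) ≤ g F ρ β n y := by
  have hd : 0 < d := j0.pos
  obtain ⟨C, -, hC⟩ := H_four (F := F) (ρ := ρ) hd hρ β φ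
  have h1 := H_mean_nonneg (F := F) hd hρ β φ hh n
  have h2 : inner ℝ φ (rv F n y) ≤
      ∫ η, (HH F ρ β φ η n + inner ℝ φ (rv F n y)) ∂(law d ρ) := by
    rw [integral_add (hC n).2.2.1 (integrable_const _), integral_const]
    simp only [probReal_univ, one_smul]
    linarith
  refine h2.trans ?_
  unfold g gE
  refine integral_mono ((hC n).2.2.1.add (integrable_const _)) (MeanA_int j0 hρ β h) fun η => ?_
  have h3 : V F ρ β η (toP n y) * Real.exp (inner ℝ φ (rv F n y)) ≤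
      Real.exp (-HH F ρ β φ η n) := V_le_H j0 φ η subset_rfl
  have p1 : 0 < V F ρ β η (toP n y) := V_pos η ((adm_iff j0).1 h)
  have h4 := Real.log_le_log (mul_pos p1 (Real.exp_pos _)) h3
  rw [Real.log_exp, Real.log_mul p1.ne' (Real.exp_pos _).ne', Real.log_exp] at h4
  show HH F ρ β φ η n + inner ℝ φ (rv F n y) ≤ -Real.log (V F ρ β η (toP n y))
  linarith

theorem g_nonneg (j0 : Fin d) (hρ : EM ρ) (β : ℝ) {n : ℕ} {y : Site d} (h : adm n y) :
    0 ≤ g F ρ β n y := by
  have h1 := g_ge (F := F) j0 hρ β 0 (by rw [add_zero, inner_zero_left, add_zero]) h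
  rwa [inner_zero_left] at h1

theorem g_add (j0 : Fin d) (hρ : EM ρ) (β : ℝ) {m n : ℕ} {x y : Site d} (h : adm m x)
    (h' : adm n y) : g F ρ β (m + n) (x + y) ≤ g F ρ β m x + g F ρ β n y := by
  have h'' : adm (m + n) (x + y) := adm_add h h'
  have e1 : g F ρ β n y = ∫ η, -Real.log (V F ρ β (sh m x η) (toP n y)) ∂(law d ρ) :=
    (LawU_integral (mp_sh m x) (MeanA_int j0 hρ β h').aestronglyMeasurable).symm
  have i1 : Integrable (fun η => -Real.log (V F ρ β (sh m x η) (toP n y))) (law d ρ) :=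
    (mp_sh m x).integrable_comp_of_integrable (MeanA_int j0 hρ β h')
  rw [e1]
  unfold g gE
  rw [← integral_add (MeanA_int j0 hρ β h) i1]
  refine integral_mono (MeanA_int j0 hρ β h'') ((MeanA_int j0 hρ β h).add i1) fun η => ?_
  have h2 : V F ρ β η (toP m x) * V F ρ β (sh m x η) (toP n y) ≤ V F ρ β η (toP (m + n) (x + y)) :=
    Vp_add η m n x y
  have p1 : 0 < V F ρ β η (toP m x) := V_pos η ((adm_iff j0).1 h)
  have p2 : 0 < V F ρ β (sh m x η) (toP n y) := V_pos _ ((adm_iff j0).1 h')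
  have h3 := Real.log_le_log (mul_pos p1 p2) h2
  rw [Real.log_mul p1.ne' p2.ne'] at h3
  show -Real.log (V F ρ β η (toP (m + n) (x + y))) ≤
    -Real.log (V F ρ β η (toP m x)) + -Real.log (V F ρ β (sh m x η) (toP n y))
  linarith

theorem g_le (F : Fr d) (j0 : Fin d) (hρ : EM ρ) (β : ℝ) :
    ∃ C : ℝ, 0 < C ∧ ∀ (n : ℕ) (y : Site d), adm n y → g F ρ β n y ≤ C * n := by
  obtain ⟨C, hC, h⟩ := Pool.Agent.W_7d29a1_h3.g_le (d := d) j0 hρ β
  refine ⟨C + (‖F.θ‖ + |lam ρ β (0 : Vec d) - lam ρ β F.θ|), by positivity, fun n y hy => ?_⟩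
  have h1 : g F ρ β n y = Pool.Agent.W_7d29a1_h3.g ρ β n y - kk F ρ β n y :=
    gE_eq hρ β subset_rfl ((adm_iff j0).1 hy)
  have h2 := h n y hy
  have hn0 : (0 : ℝ) ≤ n := Nat.cast_nonneg n
  have h3 : |kk F ρ β n y| ≤ (‖F.θ‖ + |lam ρ β (0 : Vec d) - lam ρ β F.θ|) * n := by
    unfold kk
    have h4 : |inner ℝ F.θ (emb y)| ≤ ‖F.θ‖ * n := by
      refine (abs_real_inner_le_norm _ _).trans (mul_le_mul_of_nonneg_left ?_ (norm_nonneg _))
      exact (norm_emb_le y).trans (by exact_mod_cast hy.1)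
    have h5 : |(n : ℝ) * (lam ρ β (0 : Vec d) - lam ρ β F.θ)| =
        n * |lam ρ β (0 : Vec d) - lam ρ β F.θ| := by
      rw [abs_mul, abs_of_nonneg hn0]
    refine (abs_add_le _ _).trans ?_
    rw [h5]
    linarith
  have h4 := neg_abs_le (kk F ρ β n y)
  rw [h1]
  linarith

/-- The site after `i` blocks, `j` of them with displacement `x`, the others with `z`. -/
theorem adm_blocks {L : ℕ} {x z : Site d} (hx : adm L x) (hz : adm L z) (i j : ℕ) (hj : j ≤ i) :
    adm (i * L) (j • x + (i - j) • z) := by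
  induction i generalizing j with
  | zero =>
    have h0 : j = 0 := by omega
    subst h0
    rw [zero_smul, zero_mul, Nat.sub_zero, zero_smul, add_zero]
    exact adm_zero 0
  | succ i ih =>
    rw [Nat.succ_mul]
    rcases Nat.lt_or_ge i j with h1 | h1
    · have h2 : j = i + 1 := by omega
      subst h2
      have h3 := adm_add (ih i le_rfl) hx
      rw [Nat.sub_self, zero_smul, add_zero] at h3 ⊢
      rw [succ_nsmul]
      exact h3
    · have h3 := adm_add (ih j h1) hz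
      have h4 : i + 1 - j = (i - j) + 1 := by omega
      rw [h4, succ_nsmul, ← add_assoc]
      exact h3

/-- Iterated: `i` blocks, `j` of them climb. -/
theorem g_mul (j0 : Fin d) (hρ : EM ρ) (β : ℝ) {L : ℕ} {x z : Site d} (hx : adm L x)
    (hz : adm L z) (i j : ℕ) (hj : j ≤ i) :
    g F ρ β (i * L) (j • x + (i - j) • z) ≤
      j * g F ρ β L x + ((i : ℝ) - j) * g F ρ β L z := by
  induction i generalizing j with
  | zero =>
    have h0 : j = 0 := by omega
    subst h0
    obtain ⟨C, -, hC⟩ := g_le (d := d) F j0 hρ β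
    have h1 := hC (0 * L) ((0 : ℕ) • x + (0 - 0) • z) (adm_blocks hx hz 0 0 le_rfl)
    simpa using h1
  | succ i ih =>
    rcases Nat.lt_or_ge i j with h1 | h1
    · have h2 : j = i + 1 := by omega
      subst h2
      have h3 := g_add (F := F) j0 hρ β (adm_blocks hx hz i i le_rfl) hx
      have h4 := ih i le_rfl
      rw [Nat.sub_self, zero_smul, add_zero] at h3 h4
      rw [← Nat.succ_mul, ← succ_nsmul] at h3
      rw [Nat.sub_self, zero_smul, add_zero]
      push_cast
      linarith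
    · have h3 := g_add (F := F) j0 hρ β (adm_blocks hx hz i j h1) hz
      have h4 := ih j h1
      have h5 : i + 1 - j = (i - j) + 1 := by omega
      rw [← Nat.succ_mul, add_assoc, ← succ_nsmul, ← h5] at h3
      push_cast
      linarith

/-- (0.5), last part. -/
theorem g_norm (j0 : Fin d) {β : ℝ} {φ : Ix d → Vec d} {c : ℝ} (S : Setup d F ρ β φ c) {n : ℕ}
    {y : Site d} (h : adm n y) : c * ‖rv F n y‖ ≤ g F ρ β n y := by
  obtain ⟨i, hi⟩ := S.span (rv F n y)
  exact hi.trans (g_ge j0 S.em β (φ i) (S.flat i) h)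

end Pool.Agent.W_7d29a1_v
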