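import Pool.Agent.W_7d29a1_v.MeanA

/-!
A cheap end point.
-/

namespace Pool.Agent.W_7d29a1_v

open MeasureTheory ProbabilityTheory Filter Topology Pool.Agent.W_MP_7d29a1_pr
  Pool.Agent.W_7d29a1_h46 Pool.Agent.W_7d29a1_h46u Pool.Agent.W_7d29a1_h3

variable {d : ℕ} {F : Fr d} {ρ : Measure ℝ} [IsProbabilityMeasure ρ]

/-- the pointwise bound -/
private theorem MeanB_point (F : Fr d) (j0 : Fin d) (β : ℝ) (φ : Vec d) (η : Env d) (n : ℕ)
    (P : Finset (Site d)) (hP : P.Nonempty) (hsub : ∀ y, y ∈ P ↔ y ∈ boxF d n ∧ adm n y) (G : ℝ)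
    (hG : ∀ y ∈ P, inner ℝ φ (rv F n y) - g F ρ β n y ≤ G) :
    -HH F ρ β φ η n ≤ Real.log P.card + G +
      P.sup' hP fun y => |(-Real.log (Vp F ρ β η n y)) - g F ρ β n y| := by
  obtain ⟨D, hD⟩ : ∃ D : ℝ, D = P.sup' hP fun y =>
    |(-Real.log (Vp F ρ β η n y)) - g F ρ β n y| := ⟨_, rfl⟩
  rw [← hD]
  have hsum : Real.exp (-HH F ρ β φ η n) =
      ∑ y ∈ P, Real.exp (inner ℝ φ (rv F n y)) * Vp F ρ β η n y := by
    rw [H_eq_sum j0]
    symm
    refine Finset.sum_subset (fun y hy => ((hsub y).1 hy).1) fun y hy hy' => ?_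
    have : ¬ adm n y := fun ha => hy' ((hsub y).2 ⟨hy, ha⟩)
    rw [Vp_zero j0 η this, mul_zero]
  have hterm : ∀ y ∈ P, Real.exp (inner ℝ φ (rv F n y)) * Vp F ρ β η n y ≤ Real.exp (G + D) := by
    intro y hy
    have hpos : 0 < Vp F ρ β η n y := Vp_pos j0 η ((hsub y).1 hy).2
    have h1 : |(-Real.log (Vp F ρ β η n y)) - g F ρ β n y| ≤ D := by
      rw [hD]
      exact Finset.le_sup' (fun y => |(-Real.log (Vp F ρ β η n y)) - g F ρ β n y|) hy
    have h2 := (abs_le.1 h1).1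
    have h3 := hG y hy
    have h4 : Real.exp (inner ℝ φ (rv F n y)) * Vp F ρ β η n y =
        Real.exp (inner ℝ φ (rv F n y) + Real.log (Vp F ρ β η n y)) := by
      rw [Real.exp_add, Real.exp_log hpos]
    rw [h4]
    exact Real.exp_le_exp.2 (by linarith)
  have hcard : (0 : ℝ) < P.card := by exact_mod_cast hP.card_pos
  have h5 : Real.exp (-HH F ρ β φ η n) ≤ P.card * Real.exp (G + D) := by
    rw [hsum]
    have := Finset.sum_le_card_nsmul P _ _ hterm
    rwa [nsmul_eq_mul] at this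
  have h6 := Real.log_le_log (Real.exp_pos _) h5
  rw [Real.log_exp, Real.log_mul hcard.ne' (Real.exp_pos _).ne', Real.log_exp] at h6
  linarith

/-- TASK VMeanB. (0.7), copy of `W_7d29a1_h3/MeanB.lean` (`H_eq_sum`, `concE_max`). -/
theorem exists_y (F : Fr d) (j0 : Fin d) (hρ : EM ρ) (β : ℝ) (M : ℝ) :
    ∃ C : ℝ, 0 < C ∧ ∀ φ : Vec d, ‖φ‖ ≤ M → ∀ n : ℕ, 2 ≤ n → ∃ y : Site d, adm n y ∧
      -(∫ η, HH F ρ β φ η n ∂(law d ρ)) - C * (Real.sqrt n * Real.log n) ≤
        inner ℝ φ (rv F n y) - g F ρ β n y := by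
  classical
  have hd : 0 < d := j0.pos
  refine ⟨6 * d + 1 + 2 * Kc β ρ ^ 2, by positivity, ?_⟩
  intro φ _ n hn
  obtain ⟨P, hPdef⟩ : ∃ P : Finset (Site d), P = (boxF d n).filter fun y => adm n y := ⟨_, rfl⟩
  have hsub : ∀ y, y ∈ P ↔ y ∈ boxF d n ∧ adm n y := by
    intro y
    rw [hPdef, Finset.mem_filter]
  -- some walk
  have hne : Nonempty (Fin n → Step d) := ⟨fun _ => (j0, true)⟩
  obtain ⟨s⟩ := hne
  have hP : P.Nonempty := ⟨pos s n, (hsub _).2 ⟨pos_mem_box s n, adm_pos s le_rfl⟩⟩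
  obtain ⟨y, hy, hmax⟩ := Finset.exists_max_image P
    (fun y => inner ℝ φ (rv F n y) - g F ρ β n y) hP
  refine ⟨y, ((hsub y).1 hy).2, ?_⟩
  obtain ⟨G, hG⟩ : ∃ G : ℝ, G = inner ℝ φ (rv F n y) - g F ρ β n y := ⟨_, rfl⟩
  rw [← hG]
  have hmax' : ∀ y ∈ P, inner ℝ φ (rv F n y) - g F ρ β n y ≤ G := by
    rw [hG]
    exact hmax
  obtain ⟨hint, hle⟩ := concE_max (F := F) (ρ := ρ) hρ β (by omega : 1 ≤ n) P hP
    (fun y hy => (adm_iff j0).1 ((hsub y).1 hy).2)
  have hX := (concU hd hρ β (F.θ + φ) n).1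
  have hHint : Integrable (fun η => HH F ρ β φ η n) (law d ρ) := by
    unfold HH
    exact (integrable_const _).sub hX
  have h1 : ∫ η, -HH F ρ β φ η n ∂(law d ρ) ≤ ∫ η, (Real.log P.card + G +
      P.sup' hP fun y => |(-Real.log (Vp F ρ β η n y)) - g F ρ β n y|) ∂(law d ρ) :=
    integral_mono hHint.neg ((integrable_const _).add hint)
      fun η => MeanB_point F j0 β φ η n P hP hsub G hmax'
  rw [integral_neg, integral_add (integrable_const _) hint, integral_const, probReal_univ,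
    one_smul] at h1
  have hcard : (P.card : ℝ) ≤ ((2 * n + 1 : ℕ) : ℝ) ^ d := by
    have h2 : P.card ≤ (2 * n + 1) ^ d := by
      rw [← card_boxF, hPdef]
      exact Finset.card_filter_le _ _
    exact_mod_cast h2
  have hcard0 : (0 : ℝ) < P.card := by exact_mod_cast hP.card_pos
  have hn2 : (2 : ℝ) ≤ n := by exact_mod_cast hn
  have hlog2 : Real.log 2 ≤ Real.log n := Real.log_le_log (by norm_num) hn2
  have hlog2' : 1 / 2 ≤ Real.log 2 := by
    have := Real.log_two_gt_d9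
    linarith
  have hlogn : 1 / 2 ≤ Real.log n := hlog2'.trans hlog2
  have hlogc : Real.log P.card ≤ 3 * d * Real.log n := by
    have h3 : ((2 * n + 1 : ℕ) : ℝ) ≤ (n : ℝ) ^ 3 := by
      push_cast
      nlinarith [mul_nonneg (by linarith : (0 : ℝ) ≤ n - 2) (by linarith : (0 : ℝ) ≤ n)]
    have h4 : Real.log ((2 * n + 1 : ℕ) : ℝ) ≤ 3 * Real.log n := by
      have := Real.log_le_log (by positivity) h3
      rwa [Real.log_pow, Nat.cast_ofNat] at this
    have h5 : Real.log P.card ≤ d * Real.log ((2 * n + 1 : ℕ) : ℝ) := by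
      have := Real.log_le_log hcard0 hcard
      rwa [Real.log_pow] at this
    have hd0 : (0 : ℝ) ≤ d := Nat.cast_nonneg d
    have h6 := mul_le_mul_of_nonneg_left h4 hd0
    linarith
  have hlog2c : Real.log (2 * P.card) = Real.log 2 + Real.log P.card :=
    Real.log_mul (by norm_num) hcard0.ne'
  have hsq : 1 ≤ Real.sqrt n := by
    rw [Real.one_le_sqrt]
    linarith
  have hK : 0 ≤ Kc β ρ ^ 2 := sq_nonneg _
  have hd0 : (0 : ℝ) ≤ d := Nat.cast_nonneg d
  have hA : Real.log P.card ≤ Real.sqrt n * (3 * d * Real.log n) := by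
    have h7 : 0 ≤ 3 * (d : ℝ) * Real.log n := by positivity
    have h8 := mul_le_mul_of_nonneg_right hsq h7
    linarith
  have hB : Real.sqrt n * (Real.log (2 * P.card) + Kc β ρ ^ 2) ≤
      Real.sqrt n * (Real.log n + 3 * d * Real.log n + 2 * Kc β ρ ^ 2 * Real.log n) := by
    refine mul_le_mul_of_nonneg_left ?_ (Real.sqrt_nonneg _)
    rw [hlog2c]
    have h9 := mul_le_mul_of_nonneg_left hlogn hK
    linarith
  have hfin : (6 * (d : ℝ) + 1 + 2 * Kc β ρ ^ 2) * (Real.sqrt n * Real.log n) =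
      Real.sqrt n * (3 * d * Real.log n) +
        Real.sqrt n * (Real.log n + 3 * d * Real.log n + 2 * Kc β ρ ^ 2 * Real.log n) := by
    ring
  rw [hfin]
  linarith

end Pool.Agent.W_7d29a1_v
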