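import Pool.Agent.W_7d29a1_v.Wt
import Pool.Agent.W_7d29a1_h3.MomA
import Pool.Agent.W_7d29a1_h3.MomB
import Pool.Agent.W_7d29a1_h3.MomC

/-!
Concentration and moments: from the case without tilt (the tilt is a constant factor).
-/

namespace Pool.Agent.W_7d29a1_v

open MeasureTheory ProbabilityTheory Filter Topology Pool.Agent.W_MP_7d29a1_pr
  Pool.Agent.W_7d29a1_h46 Pool.Agent.W_7d29a1_h46u Pool.Agent.W_7d29a1_h3

variable {d : ℕ} {F : Fr d} {ρ : Measure ℝ} [IsProbabilityMeasure ρ]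

/-- The constant by which the passage times differ from those without tilt. -/
noncomputable def kk (F : Fr d) (ρ : Measure ℝ) (β : ℝ) (n : ℕ) (y : Site d) : ℝ :=
  inner ℝ F.θ (emb y) + n * (lam ρ β (0 : Vec d) - lam ρ β F.θ)

theorem gE_eq (hρ : EM ρ) (β : ℝ) {n : ℕ} {y : Site d} {E : Set (Fin n → Step d)}
    (hE : E ⊆ toP n y) (hne : E.Nonempty) :
    gE F ρ β E = Pool.Agent.W_7d29a1_h3.gE ρ β E - kk F ρ β n y := by
  unfold gE Pool.Agent.W_7d29a1_h3.gE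
  have h1 : (fun η : Env d => -Real.log (V F ρ β η E)) =
      fun η => -Real.log (Pool.Agent.W_7d29a1_h3.V ρ β η E) - kk F ρ β n y := by
    funext η
    rw [log_V_eq η hE hne]
    unfold kk
    ring
  have hi : Integrable (fun η : Env d => -Real.log (Pool.Agent.W_7d29a1_h3.V ρ β η E)) (law d ρ) :=
    (Pool.Agent.W_7d29a1_h3.concE (d := d) hρ β hne).1.neg
  rw [h1, integral_sub hi (integrable_const _), integral_const]
  simp

theorem log_sub_gE (hρ : EM ρ) (β : ℝ) (η : Env d) {n : ℕ} {y : Site d}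
    {E : Set (Fin n → Step d)} (hE : E ⊆ toP n y) (hne : E.Nonempty) :
    -Real.log (V F ρ β η E) - gE F ρ β E =
      -Real.log (Pool.Agent.W_7d29a1_h3.V ρ β η E) - Pool.Agent.W_7d29a1_h3.gE ρ β E := by
  rw [gE_eq hρ β hE hne, log_V_eq η hE hne]
  unfold kk
  ring

/-- (0.4). -/
theorem concE (hρ : EM ρ) (β : ℝ) {n : ℕ} {y : Site d} {E : Set (Fin n → Step d)}
    (hy : E ⊆ toP n y) (hE : E.Nonempty) :
    Integrable (fun η => Real.log (V F ρ β η E)) (law d ρ) ∧ ∀ t : ℝ, |t| ≤ 1 →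
      Integrable (fun η => Real.exp (t * (-Real.log (V F ρ β η E) - gE F ρ β E))) (law d ρ) ∧
      ∫ η, Real.exp (t * (-Real.log (V F ρ β η E) - gE F ρ β E)) ∂(law d ρ) ≤
        Real.exp (Kc β ρ ^ 2 * t ^ 2 * n) := by
  obtain ⟨h1, h2⟩ := Pool.Agent.W_7d29a1_h3.concE (d := d) hρ β hE
  constructor
  · have h3 : (fun η : Env d => Real.log (V F ρ β η E)) =
        fun η => kk F ρ β n y + Real.log (Pool.Agent.W_7d29a1_h3.V ρ β η E) := by
      funext η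
      rw [log_V_eq η hy hE]
      rfl
    rw [h3]
    exact (integrable_const _).add h1
  · intro t ht
    simp only [log_sub_gE (F := F) hρ β _ hy hE]
    exact h2 t ht

theorem concE_up (hρ : EM ρ) (β : ℝ) {n : ℕ} {y : Site d} {E : Set (Fin n → Step d)}
    (hy : E ⊆ toP n y) (hE : E.Nonempty) {t z : ℝ} (ht : 0 ≤ t) (ht1 : t ≤ 1) :
    (law d ρ).real {η | ¬ Real.exp (-(gE F ρ β E + z)) ≤ V F ρ β η E} ≤
      Real.exp (Kc β ρ ^ 2 * t ^ 2 * n - t * z) := by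
  refine le_trans (measureReal_mono ?_)
    (Pool.Agent.W_7d29a1_h3.concE_up (d := d) hρ β hE (z := z) ht ht1)
  intro η hη h
  refine hη ?_
  rw [V_eq η hy, gE_eq hρ β hy hE]
  have h1 : -(Pool.Agent.W_7d29a1_h3.gE ρ β E - kk F ρ β n y + z) =
      kk F ρ β n y + -(Pool.Agent.W_7d29a1_h3.gE ρ β E + z) := by ring
  rw [h1, Real.exp_add]
  exact mul_le_mul_of_nonneg_left h (Real.exp_pos _).le

theorem concE_dn (hρ : EM ρ) (β : ℝ) {n : ℕ} {y : Site d} {E : Set (Fin n → Step d)}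
    (hy : E ⊆ toP n y) (hE : E.Nonempty) {t z : ℝ} (ht : 0 ≤ t) (ht1 : t ≤ 1) :
    (law d ρ).real {η | Real.exp (-(gE F ρ β E - z)) ≤ V F ρ β η E} ≤
      Real.exp (Kc β ρ ^ 2 * t ^ 2 * n - t * z) := by
  refine le_trans (measureReal_mono ?_)
    (Pool.Agent.W_7d29a1_h3.concE_dn (d := d) hρ β hE (z := z) ht ht1)
  intro η hη
  have hη' : Real.exp (-(gE F ρ β E - z)) ≤ V F ρ β η E := hη
  change Real.exp (-(Pool.Agent.W_7d29a1_h3.gE ρ β E - z)) ≤ Pool.Agent.W_7d29a1_h3.V ρ β η E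
  rw [V_eq η hy, gE_eq hρ β hy hE] at hη'
  have h1 : -(Pool.Agent.W_7d29a1_h3.gE ρ β E - kk F ρ β n y - z) =
      kk F ρ β n y + -(Pool.Agent.W_7d29a1_h3.gE ρ β E - z) := by ring
  rw [h1, Real.exp_add] at hη'
  exact le_of_mul_le_mul_left hη' (Real.exp_pos _)

theorem concE_max (hρ : EM ρ) (β : ℝ) {n : ℕ} (hn : 1 ≤ n) (G : Finset (Site d))
    (hG : G.Nonempty) (hadm : ∀ y ∈ G, (toP n y).Nonempty) :
    Integrable (fun η => G.sup' hG fun y => |(-Real.log (Vp F ρ β η n y)) - g F ρ β n y|)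
      (law d ρ) ∧
    ∫ η, G.sup' hG (fun y => |(-Real.log (Vp F ρ β η n y)) - g F ρ β n y|) ∂(law d ρ) ≤
      Real.sqrt n * (Real.log (2 * G.card) + Kc β ρ ^ 2) := by
  have h1 : (fun η : Env d => G.sup' hG fun y => |(-Real.log (Vp F ρ β η n y)) - g F ρ β n y|) =
      fun η => G.sup' hG fun y => |(-Real.log (Pool.Agent.W_7d29a1_h3.Vp ρ β η n y)) -
        Pool.Agent.W_7d29a1_h3.g ρ β n y| := by
    funext η
    refine Finset.sup'_congr hG rfl fun y hy => ?_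
    have h2 := log_sub_gE (F := F) hρ β η (E := toP n y) (y := y) subset_rfl (hadm y hy)
    unfold Vp g Pool.Agent.W_7d29a1_h3.Vp Pool.Agent.W_7d29a1_h3.g
    rw [h2]
  rw [h1]
  exact Pool.Agent.W_7d29a1_h3.concE_max hρ β hn G hG hadm

/-- `H` in terms of the case without frame. -/
theorem HH_eq (φ : Vec d) (β : ℝ) (η : Env d) (n : ℕ) :
    HH F ρ β φ η n = Pool.Agent.W_7d29a1_h3.HH ρ β (F.θ + φ) η n +
      n * (lam ρ β F.θ + inner ℝ φ F.v - lam ρ β (0 : Vec d)) := by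
  unfold HH Pool.Agent.W_7d29a1_h3.HH
  ring

private theorem Mom_four (x y : ℝ) : (x + y) ^ 4 ≤ 8 * (x ^ 4 + y ^ 4) := by
  nlinarith [sq_nonneg (x - y), sq_nonneg (x ^ 2 - y ^ 2), sq_nonneg (x + y), sq_nonneg (x * y),
    mul_nonneg (sq_nonneg (x - y)) (sq_nonneg (x + y)), mul_nonneg (sq_nonneg (x - y)) (sq_nonneg (x - y)),
    mul_nonneg (sq_nonneg (x - y)) (sq_nonneg x), mul_nonneg (sq_nonneg (x - y)) (sq_nonneg y)]

/-- All moments of `H_φ(n)` exist, with crude bounds. -/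
theorem H_four (hd : 0 < d) (hρ : EM ρ) (β : ℝ) (φ : Vec d) :
    ∃ C : ℝ, 0 ≤ C ∧ ∀ n : ℕ, Integrable (fun η => HH F ρ β φ η n ^ 4) (law d ρ) ∧
      Integrable (fun η => HH F ρ β φ η n ^ 2) (law d ρ) ∧
      Integrable (fun η => HH F ρ β φ η n) (law d ρ) ∧
      ∫ η, HH F ρ β φ η n ^ 4 ∂(law d ρ) ≤ C * (n : ℝ) ^ 4 ∧
      ∫ η, HH F ρ β φ η n ^ 2 ∂(law d ρ) ≤ C * (n : ℝ) ^ 2 := by
  obtain ⟨C, hC, h⟩ := Pool.Agent.W_7d29a1_h3.H_four (d := d) hd hρ β (F.θ + φ)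
  set a : ℝ := lam ρ β F.θ + inner ℝ φ F.v - lam ρ β (0 : Vec d) with ha
  refine ⟨8 * (C + a ^ 4) + 2 * (C + a ^ 2), by positivity, fun n => ?_⟩
  obtain ⟨i4, i2, i1, b4, b2⟩ := h n
  have hn0 : (0 : ℝ) ≤ n := Nat.cast_nonneg n
  have hmeas : Measurable fun η : Env d => HH F ρ β φ η n := measurable_HH φ n
  have p4 : ∀ η : Env d, HH F ρ β φ η n ^ 4 ≤
      8 * Pool.Agent.W_7d29a1_h3.HH ρ β (F.θ + φ) η n ^ 4 + 8 * (a ^ 4 * (n : ℝ) ^ 4) := by
    intro η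
    rw [HH_eq, ← ha]
    refine (Mom_four _ _).trans (le_of_eq ?_)
    ring
  have p2 : ∀ η : Env d, HH F ρ β φ η n ^ 2 ≤
      2 * Pool.Agent.W_7d29a1_h3.HH ρ β (F.θ + φ) η n ^ 2 + 2 * (a ^ 2 * (n : ℝ) ^ 2) := by
    intro η
    rw [HH_eq, ← ha]
    nlinarith [sq_nonneg (Pool.Agent.W_7d29a1_h3.HH ρ β (F.θ + φ) η n - n * a)]
  have I4 := (i4.const_mul 8).add (integrable_const (μ := law d ρ) (8 * (a ^ 4 * (n : ℝ) ^ 4)))
  have I2 := (i2.const_mul 2).add (integrable_const (μ := law d ρ) (2 * (a ^ 2 * (n : ℝ) ^ 2)))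
  have J4 : Integrable (fun η => HH F ρ β φ η n ^ 4) (law d ρ) := by
    refine I4.mono' (hmeas.pow_const 4).aestronglyMeasurable (Eventually.of_forall fun η => ?_)
    rw [Real.norm_eq_abs, abs_of_nonneg (by positivity)]
    exact p4 η
  have J2 : Integrable (fun η => HH F ρ β φ η n ^ 2) (law d ρ) := by
    refine I2.mono' (hmeas.pow_const 2).aestronglyMeasurable (Eventually.of_forall fun η => ?_)
    rw [Real.norm_eq_abs, abs_of_nonneg (by positivity)]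
    exact p2 η
  have J1 : Integrable (fun η => HH F ρ β φ η n) (law d ρ) := by
    have h1 : (fun η : Env d => HH F ρ β φ η n) = fun η =>
        Pool.Agent.W_7d29a1_h3.HH ρ β (F.θ + φ) η n + n * a := by
      funext η
      rw [HH_eq]
    rw [h1]
    exact i1.add (integrable_const _)
  refine ⟨J4, J2, J1, ?_, ?_⟩
  · have h1 := integral_mono J4 I4 p4
    simp only [Pi.add_apply] at h1
    rw [integral_add (i4.const_mul 8) (integrable_const _), integral_const_mul, integral_const] at h1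
    simp only [probReal_univ, one_smul] at h1
    have h4 : 0 ≤ 2 * (C + a ^ 2) * (n : ℝ) ^ 4 := by positivity
    linarith
  · have h1 := integral_mono J2 I2 p2
    simp only [Pi.add_apply] at h1
    rw [integral_add (i2.const_mul 2) (integrable_const _), integral_const_mul, integral_const] at h1
    simp only [probReal_univ, one_smul] at h1
    have h4 : 0 ≤ 8 * (C + a ^ 4) * (n : ℝ) ^ 2 := by positivity
    linarith

/-- The mean of `H`. -/
theorem H_mean_eq (hd : 0 < d) (hρ : EM ρ) (β : ℝ) (φ : Vec d) (n : ℕ) :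
    ∫ η, HH F ρ β φ η n ∂(law d ρ) =
      n * (lam ρ β F.θ + inner ℝ φ F.v) - A ρ β (F.θ + φ) n := by
  unfold HH A
  rw [integral_sub (integrable_const _) (concU hd hρ β (F.θ + φ) n).1, integral_const]
  simp

/-- (0.3). -/
theorem H_mean_nonneg (hd : 0 < d) (hρ : EM ρ) (β : ℝ) (φ : Vec d)
    (hh : lam ρ β (F.θ + φ) ≤ lam ρ β F.θ + inner ℝ φ F.v) (n : ℕ) :
    0 ≤ ∫ η, HH F ρ β φ η n ∂(law d ρ) := by
  rw [H_mean_eq hd hρ]
  have h2 := A_le_lam hd hρ β (F.θ + φ) n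
  have h3 : (n : ℝ) * lam ρ β (F.θ + φ) ≤ n * (lam ρ β F.θ + inner ℝ φ F.v) :=
    mul_le_mul_of_nonneg_left hh (Nat.cast_nonneg n)
  linarith

/-- (0.3) for the tilt `θ` itself. -/
theorem H_mean_zero (hd : 0 < d) (hρ : EM ρ) (β : ℝ) (n : ℕ) :
    0 ≤ ∫ η, HH F ρ β (0 : Vec d) η n ∂(law d ρ) :=
  H_mean_nonneg hd hρ β 0 (by rw [add_zero, inner_zero_left, add_zero]) n

private theorem Mom_kk (β : ℝ) : ∃ C : ℝ, 0 < C ∧ ∀ (n : ℕ) (y : Site d), adm n y →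
    |kk F ρ β n y| ≤ C * n := by
  refine ⟨‖F.θ‖ + |lam ρ β (0 : Vec d) - lam ρ β F.θ| + 1, by positivity, fun n y h => ?_⟩
  unfold kk
  have hn0 : (0 : ℝ) ≤ n := Nat.cast_nonneg n
  have h1 : |inner ℝ F.θ (emb y)| ≤ ‖F.θ‖ * n := by
    refine (abs_real_inner_le_norm _ _).trans (mul_le_mul_of_nonneg_left ?_ (norm_nonneg _))
    exact (norm_emb_le y).trans (by exact_mod_cast h.1)
  have h2 : |(n : ℝ) * (lam ρ β (0 : Vec d) - lam ρ β F.θ)| =
      n * |lam ρ β (0 : Vec d) - lam ρ β F.θ| := by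
    rw [abs_mul, Nat.abs_cast]
  calc |inner ℝ F.θ (emb y) + n * (lam ρ β (0 : Vec d) - lam ρ β F.θ)|
      ≤ |inner ℝ F.θ (emb y)| + |(n : ℝ) * (lam ρ β (0 : Vec d) - lam ρ β F.θ)| := abs_add_le _ _
    _ ≤ ‖F.θ‖ * n + n * |lam ρ β (0 : Vec d) - lam ρ β F.θ| := by rw [h2]; linarith
    _ ≤ _ := by linarith

/-- (0.6). -/
theorem micro (F : Fr d) (j0 : Fin d) (hρ : EM ρ) (β : ℝ) :
    ∃ C : ℝ, 0 < C ∧ ∀ (n : ℕ) (y : Site d), adm n y →
      (law d ρ).real {η | ¬ Real.exp (-(C * n)) ≤ Vp F ρ β η n y} ≤ Real.exp (-n) := by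
  obtain ⟨C, hC, h⟩ := Pool.Agent.W_7d29a1_h3.micro (d := d) j0 hρ β
  obtain ⟨C', hC', h'⟩ := Mom_kk (F := F) (ρ := ρ) (d := d) β
  refine ⟨C + C', by positivity, fun n y hy => ?_⟩
  refine le_trans (measureReal_mono ?_) (h n y hy)
  intro η hη h1
  refine hη ?_
  rw [Vp_eq]
  have h2 : -((C + C') * n) = -(C' * n) + -(C * n) := by ring
  rw [h2, Real.exp_add]
  refine mul_le_mul (Real.exp_le_exp.2 ?_) h1 (Real.exp_pos _).le (Real.exp_pos _).le
  have h3 := (abs_le.1 (h' n y hy)).1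
  unfold kk at h3
  exact h3

end Pool.Agent.W_7d29a1_v
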