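import Pool.Agent.W_7d29a1_v.Wt
import Pool.Agent.W_7d29a1_h3.QuantA

/-!
Quantiles.
-/

namespace Pool.Agent.W_7d29a1_v

open MeasureTheory ProbabilityTheory Filter Topology Pool.Agent.W_MP_7d29a1_pr
  Pool.Agent.W_7d29a1_h46 Pool.Agent.W_7d29a1_h46u Pool.Agent.W_7d29a1_h3

variable {d : ℕ} {F : Fr d} {ρ : Measure ℝ} [IsProbabilityMeasure ρ]

/-- TASK VQuantA. Copies of `W_7d29a1_h3/QuantA.lean` (`adm_zero` is replaced by `zz_adm`). -/
theorem Q_spec (j0 : Fin d) (hv : ∑ j, |F.v j| ≤ 1) (β : ℝ) {q : ℝ} (h0 : 0 < q) (h1 : q < 1)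
    (r : ℕ) :
    (law d ρ).real {η : Env d | ¬ Real.exp (-Q d F ρ β q r) ≤ Vp F ρ β η (2 * r) (zz F r)} ≤ q ∧
      q ≤ (law d ρ).real
        {η : Env d | Vp F ρ β η (2 * r) (zz F r) ≤ Real.exp (-Q d F ρ β q r)} := by
  have hm : Measurable fun η : Env d => -Real.log (Vp F ρ β η (2 * r) (zz F r)) :=
    (Real.measurable_log.comp (measurable_V (toP (2 * r) (zz F r)))).neg
  obtain ⟨γ, h2, h3⟩ := exists_upper_quantile (law d ρ) hm h0 h1
  have hex : ∃ x : ℝ,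
      (law d ρ).real {η : Env d | ¬ Real.exp (-x) ≤ Vp F ρ β η (2 * r) (zz F r)} ≤ q ∧
        q ≤ (law d ρ).real {η : Env d | Vp F ρ β η (2 * r) (zz F r) ≤ Real.exp (-x)} := by
    refine ⟨γ, le_trans (le_of_eq ?_) h2, h3.trans (le_of_eq ?_)⟩
    · congr 1
      ext η
      have hp : 0 < Vp F ρ β η (2 * r) (zz F r) := Vp_pos j0 η (zz_adm F hv r)
      simp only [Set.mem_setOf_eq, not_le]
      constructor
      · intro h4
        have h5 := Real.log_lt_log hp h4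
        rw [Real.log_exp] at h5
        linarith
      · intro h4
        rw [← Real.log_lt_iff_lt_exp hp]
        linarith
    · congr 1
      ext η
      have hp : 0 < Vp F ρ β η (2 * r) (zz F r) := Vp_pos j0 η (zz_adm F hv r)
      simp only [Set.mem_setOf_eq]
      constructor
      · intro h4
        rw [← Real.log_le_iff_le_exp hp]
        linarith
      · intro h4
        have h5 := Real.log_le_log hp h4
        rw [Real.log_exp] at h5
        linarith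
  exact Classical.epsilon_spec hex

theorem one_le_bb (β q : ℝ) (n : ℕ) : 1 ≤ bb d F ρ β q n := by
  unfold bb
  exact (le_max_left 1 (Q d F ρ β q 0)).trans
    (Finset.le_sup' (fun r => max 1 (Q d F ρ β q r)) (Finset.mem_range.2 (Nat.succ_pos n)))

theorem bb_mono (β q : ℝ) {m n : ℕ} (h : m ≤ n) : bb d F ρ β q m ≤ bb d F ρ β q n := by
  unfold bb
  exact Finset.sup'_mono _ (Finset.range_subset_range.2 (Nat.succ_le_succ h)) _

theorem Q_le_bb (β q : ℝ) {r n : ℕ} (h : r ≤ n) : Q d F ρ β q r ≤ bb d F ρ β q n := by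
  unfold bb
  exact (le_max_right 1 (Q d F ρ β q r)).trans
    (Finset.le_sup' (fun r => max 1 (Q d F ρ β q r)) (Finset.mem_range.2 (Nat.lt_succ_of_le h)))

/-- `T(2 r, z(r)) ≤ b(n)` with probability at least `1 - q` for `r ≤ n`. -/
theorem bb_spec (j0 : Fin d) (hv : ∑ j, |F.v j| ≤ 1) (β : ℝ) {q : ℝ} (h0 : 0 < q) (h1 : q < 1)
    {r n : ℕ} (h : r ≤ n) :
    (law d ρ).real
      {η : Env d | ¬ Real.exp (-bb d F ρ β q n) ≤ Vp F ρ β η (2 * r) (zz F r)} ≤ q := by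
  refine le_trans (measureReal_mono ?_) (Q_spec j0 hv β h0 h1 r).1
  intro η h2 h3
  refine h2 (le_trans ?_ h3)
  exact Real.exp_le_exp.2 (neg_le_neg (Q_le_bb β q h))

/-- The defining property of `ξ(n)` (`Nat.sInf_mem`; the set contains `4 n` by `stP_eq`, `bb_spec`). -/
theorem xi_spec (j0 : Fin d) (hv : ∑ j, |F.v j| ≤ 1) (β : ℝ) {q : ℝ} (h0 : 0 < q) (h1 : q < 1)
    {r n : ℕ} (h : r ≤ n) :
    (law d ρ).real {η : Env d | ¬ Real.exp (-(bb d F ρ β q n + 1)) ≤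
      V F ρ β η (stP F (2 * r) (xi d F ρ β q n) (zz F r))} ≤ 2 * q := by
  have hne : {Y : ℕ | ∀ r ≤ n, (law d ρ).real {η : Env d | ¬ Real.exp (-(bb d F ρ β q n + 1)) ≤
      V F ρ β η (stP F (2 * r) Y (zz F r))} ≤ 2 * q}.Nonempty := by
    refine ⟨4 * n, fun r hr => ?_⟩
    rw [stP_eq F hv (by omega : 2 * (2 * r) ≤ 4 * n) (zz F r)]
    have h2 := bb_spec (ρ := ρ) j0 hv β h0 h1 hr
    refine le_trans (measureReal_mono ?_) (h2.trans (by linarith))
    intro η h3 h4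
    refine h3 (le_trans ?_ h4)
    exact Real.exp_le_exp.2 (by linarith)
  exact Nat.sInf_mem hne r h

/-- Below `ξ(n)` the property fails (`Nat.notMem_of_lt_sInf`). -/
theorem xi_min (β q : ℝ) {n Y : ℕ} (h : Y < xi d F ρ β q n) :
    ∃ r ≤ n, 2 * q < (law d ρ).real {η : Env d | ¬ Real.exp (-(bb d F ρ β q n + 1)) ≤
      V F ρ β η (stP F (2 * r) Y (zz F r))} := by
  have h2 := Nat.notMem_of_lt_sInf h
  simp only [Set.mem_setOf_eq, not_forall] at h2
  obtain ⟨r, hr, h3⟩ := h2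
  exact ⟨r, hr, not_le.1 h3⟩

end Pool.Agent.W_7d29a1_v
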