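import Pool.Agent.W_7d29a1_v.Mom
import Pool.Agent.W_7d29a1_h3.StopA

/-!
Stopping.
-/

namespace Pool.Agent.W_7d29a1_v

open MeasureTheory ProbabilityTheory Filter Topology Pool.Agent.W_MP_7d29a1_pr
  Pool.Agent.W_7d29a1_h46 Pool.Agent.W_7d29a1_h46u Pool.Agent.W_7d29a1_h3

variable {d : ℕ} {F : Fr d} {ρ : Measure ℝ} [IsProbabilityMeasure ρ]

/-- TASK VStopA. Jensen, from `W_7d29a1_h3.H_add_pt` and `HH_eq` (`∑ p_s = 1`: `FreeU_p` sums to one), or copy. -/
theorem H_add_pt (hd : 0 < d) (β : ℝ) (φ : Vec d) (m n : ℕ) (η : Env d) :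
    HH F ρ β φ η (m + n) ≤ HH F ρ β φ η m +
      ∑ s : Fin m → Step d, FreeU_p β (F.θ + φ) m s η * HH F ρ β φ (sh m (pos s m) η) n := by
  have h1 := FreeU_pt hd β (F.θ + φ) m n η
  have h2 := FreeU_sum hd β (F.θ + φ) m η
  have h3 : ∑ s : Fin m → Step d, FreeU_p β (F.θ + φ) m s η * HH F ρ β φ (sh m (pos s m) η) n =
      n * (lam ρ β F.θ + inner ℝ φ F.v) -
        ∑ s : Fin m → Step d, FreeU_p β (F.θ + φ) m s η * X β (F.θ + φ) (sh m (pos s m) η) n := by
    unfold HH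
    simp only [mul_sub]
    rw [Finset.sum_sub_distrib, ← Finset.sum_mul, h2, one_mul]
  rw [h3]
  unfold HH
  push_cast
  linarith

/-- The stopping events. -/
def VStopA_A {d : ℕ} (F : Fr d) (ρ : Measure ℝ) (β : ℝ) (φ : Vec d) (Y : ℝ) (l : ℕ) :
    Set (Env d) :=
  {η | HH F ρ β φ η l ≤ -Y ∧ ∀ k ∈ Finset.range l, ¬ HH F ρ β φ η k ≤ -Y}

omit [IsProbabilityMeasure ρ] in
lemma VStopA_meas (β : ℝ) (φ : Vec d) (Y : ℝ) (l : ℕ) :
    MeasurableSet (VStopA_A F ρ β φ Y l) := by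
  have h1 : VStopA_A F ρ β φ Y l = {η | HH F ρ β φ η l ≤ -Y} ∩
      ⋂ k ∈ Finset.range l, {η | HH F ρ β φ η k ≤ -Y}ᶜ := by
    ext η
    simp only [VStopA_A, Set.mem_setOf_eq, Set.mem_inter_iff, Set.mem_iInter, Set.mem_compl_iff]
  rw [h1]
  refine (measurableSet_le (measurable_HH φ l) measurable_const).inter ?_
  exact Finset.measurableSet_biInter _ fun k _ =>
    (measurableSet_le (measurable_HH φ k) measurable_const).compl

omit [IsProbabilityMeasure ρ] in
lemma VStopA_HH (β : ℝ) (φ : Vec d) {k l : ℕ} (hk : k ≤ l) {η η' : Env d}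
    (hη : ∀ p ∈ {p : ℕ × Site d | p.1 ≤ l}, η p = η' p) :
    HH F ρ β φ η k = HH F ρ β φ η' k := by
  have h2 : Z β (F.θ + φ) η k = Z β (F.θ + φ) η' k :=
    dependsOn_Z β (F.θ + φ) k fun p hp => hη p (hp.2.trans hk)
  unfold HH X
  rw [h2]

omit [IsProbabilityMeasure ρ] in
lemma VStopA_dep (β : ℝ) (φ : Vec d) (Y : ℝ) (l : ℕ) {η η' : Env d}
    (hη : ∀ p ∈ {p : ℕ × Site d | p.1 ≤ l}, η p = η' p) :
    η ∈ VStopA_A F ρ β φ Y l ↔ η' ∈ VStopA_A F ρ β φ Y l := by
  unfold VStopA_A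
  simp only [Set.mem_setOf_eq]
  rw [VStopA_HH β φ le_rfl hη]
  refine and_congr_right fun _ => ?_
  refine forall₂_congr fun k hk => ?_
  rw [VStopA_HH β φ (Finset.mem_range.1 hk).le hη]

lemma VStopA_dep2 (β : ℝ) (φ : Vec d) (m n : ℕ) (y : Site d) :
    DependsOn (fun η : Env d => HH F ρ β φ (sh m y η) n) {p : ℕ × Site d | p.1 ≤ m}ᶜ := by
  intro η η' hη
  have h1 := FreeU_dep2 β (F.θ + φ) m n y hη
  simp only at h1 ⊢
  unfold HH
  rw [h1]

lemma VStopA_le_D1 (β : ℝ) (φ : Vec d) {l N : ℕ} (hl : l ≤ N) :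
    ∫ η, max (HH F ρ β φ η l) 0 ∂(law d ρ) ≤ D1 F ρ β φ N :=
  Finset.le_sup' (fun l => ∫ η, max (HH F ρ β φ η l) 0 ∂(law d ρ))
    (Finset.mem_range.2 (Nat.lt_succ_of_le hl))

/-- On the stopping event. -/
lemma VStopA_on (hd : 0 < d) (hρ : EM ρ) (β : ℝ) (φ : Vec d) {l N : ℕ} (hl : l ≤ N) (Y : ℝ) :
    ∫ η in VStopA_A F ρ β φ Y l, HH F ρ β φ η N ∂(law d ρ) ≤
      (-Y + D1 F ρ β φ N) * (law d ρ).real (VStopA_A F ρ β φ Y l) := by
  obtain ⟨C, -, hC⟩ := H_four (F := F) hd hρ β φ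
  have hH : ∀ k, Integrable (fun η => HH F ρ β φ η k) (law d ρ) := fun k => (hC k).2.2.1
  have hA := VStopA_meas (F := F) (ρ := ρ) β φ Y l
  obtain ⟨G, hG⟩ : ∃ G : (Fin l → Step d) → Env d → ℝ, G = fun s =>
    (VStopA_A F ρ β φ Y l).indicator (FreeU_p β (F.θ + φ) l s) := ⟨_, rfl⟩
  have hGm : ∀ s, Measurable (G s) := fun s => by
    rw [hG]
    exact (FreeU_meas β (F.θ + φ) l s).indicator hA
  have hG0 : ∀ s η, 0 ≤ G s η := fun s η => by
    rw [hG]
    exact Set.indicator_nonneg (fun η _ => FreeU_nonneg hd β (F.θ + φ) l s η) η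
  have hG1 : ∀ s η, G s η ≤ 1 := fun s η => by
    rw [hG]
    refine Set.indicator_le' (fun η _ => FreeU_le_one hd β (F.θ + φ) l s η)
      (fun _ _ => zero_le_one) η
  have hGb : ∀ s η, ‖G s η‖ ≤ 1 := fun s η => by
    rw [Real.norm_eq_abs, abs_of_nonneg (hG0 s η)]
    exact hG1 s η
  have hGi : ∀ s, Integrable (G s) (law d ρ) := fun s =>
    (integrable_const (1 : ℝ)).mono' (hGm s).aestronglyMeasurable
      (Filter.Eventually.of_forall fun η => hGb s η)
  have hGd : ∀ s, DependsOn (G s) {p : ℕ × Site d | p.1 ≤ l} := fun s => by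
    intro η η' hη
    rw [hG]
    simp only [Set.indicator]
    have h1 := VStopA_dep (F := F) (ρ := ρ) β φ Y l hη
    have h2 := FreeU_dep β (F.θ + φ) l s hη
    rw [h2]
    by_cases h3 : η' ∈ VStopA_A F ρ β φ Y l
    · rw [if_pos h3, if_pos (h1.2 h3)]
    · rw [if_neg h3, if_neg fun h4 => h3 (h1.1 h4)]
  have hGsum : ∀ η, ∑ s, G s η = (VStopA_A F ρ β φ Y l).indicator (fun _ => (1 : ℝ)) η := by
    intro η
    rw [hG]
    by_cases h3 : η ∈ VStopA_A F ρ β φ Y l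
    · simp only [Set.indicator_of_mem h3]
      exact FreeU_sum hd β (F.θ + φ) l η
    · simp only [Set.indicator_of_notMem h3, Finset.sum_const_zero]
  have hHs : ∀ y : Site d, Integrable (fun η => HH F ρ β φ (sh l y η) (N - l)) (law d ρ) :=
    fun y => ((mp_sh l y).integrable_comp (measurable_HH φ (N - l)).aestronglyMeasurable).2
      (hH (N - l))
  have hGH : ∀ s : Fin l → Step d,
      Integrable (fun η => G s η * HH F ρ β φ (sh l (pos s l) η) (N - l)) (law d ρ) := fun s =>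
    (hHs (pos s l)).bdd_mul (c := 1) (hGm s).aestronglyMeasurable
      (Filter.Eventually.of_forall fun η => hGb s η)
  have hprod : ∀ s : Fin l → Step d,
      ∫ η, G s η * HH F ρ β φ (sh l (pos s l) η) (N - l) ∂(law d ρ) =
        (∫ η, G s η ∂(law d ρ)) * ∫ η, HH F ρ β φ η (N - l) ∂(law d ρ) := by
    intro s
    rw [integral_indep (ρ := ρ) {p : ℕ × Site d | p.1 ≤ l} (F := G s)
      (G := fun η => HH F ρ β φ (sh l (pos s l) η) (N - l)) (hGm s)
      ((measurable_HH φ (N - l)).comp (measurable_sh l (pos s l))) (hGd s)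
      (VStopA_dep2 β φ l (N - l) (pos s l)), integral_sh l (pos s l) (measurable_HH φ (N - l))]
  have hmass : ∑ s, ∫ η, G s η ∂(law d ρ) = (law d ρ).real (VStopA_A F ρ β φ Y l) := by
    rw [← integral_finsetSum _ fun s _ => hGi s]
    simp only [hGsum]
    rw [integral_indicator hA]
    simp
  have hpt : ∀ η, (VStopA_A F ρ β φ Y l).indicator (fun η => HH F ρ β φ η N) η ≤
      -Y * (VStopA_A F ρ β φ Y l).indicator (fun _ => (1 : ℝ)) η +
        ∑ s : Fin l → Step d, G s η * HH F ρ β φ (sh l (pos s l) η) (N - l) := by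
    intro η
    rw [hG]
    by_cases h3 : η ∈ VStopA_A F ρ β φ Y l
    · simp only [Set.indicator_of_mem h3]
      have h4 := H_add_pt (F := F) (ρ := ρ) hd β φ l (N - l) η
      rw [Nat.add_sub_cancel' hl] at h4
      have h5 : HH F ρ β φ η l ≤ -Y := h3.1
      linarith
    · simp only [Set.indicator_of_notMem h3, zero_mul, Finset.sum_const_zero, mul_zero, add_zero,
        le_refl]
  have hI1 : Integrable ((VStopA_A F ρ β φ Y l).indicator (fun _ => (1 : ℝ))) (law d ρ) :=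
    (integrable_const (1 : ℝ)).indicator hA
  rw [← integral_indicator hA]
  have h6 : ∫ η, (VStopA_A F ρ β φ Y l).indicator (fun η => HH F ρ β φ η N) η ∂(law d ρ) ≤
      ∫ η, (-Y * (VStopA_A F ρ β φ Y l).indicator (fun _ => (1 : ℝ)) η +
        ∑ s : Fin l → Step d, G s η * HH F ρ β φ (sh l (pos s l) η) (N - l)) ∂(law d ρ) :=
    integral_mono ((hH N).indicator hA)
      ((hI1.const_mul (-Y)).add (integrable_finsetSum _ fun s _ => hGH s)) hpt
  refine h6.trans ?_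
  rw [integral_add (hI1.const_mul (-Y)) (integrable_finsetSum _ fun s _ => hGH s),
    integral_const_mul, integral_indicator hA, integral_finsetSum _ fun s _ => hGH s,
    Finset.sum_congr rfl fun s _ => hprod s, ← Finset.sum_mul, hmass]
  have h7 : ∫ η, HH F ρ β φ η (N - l) ∂(law d ρ) ≤ D1 F ρ β φ N := by
    refine le_trans ?_ (VStopA_le_D1 (F := F) (ρ := ρ) β φ (Nat.sub_le N l))
    refine integral_mono (hH (N - l)) ((hH (N - l)).pos_part) fun η => le_max_left _ _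
  have h8 : (0 : ℝ) ≤ (law d ρ).real (VStopA_A F ρ β φ Y l) := measureReal_nonneg
  have h9 := mul_le_mul_of_nonneg_left h7 h8
  have h10 : ∫ _ in VStopA_A F ρ β φ Y l, (1 : ℝ) ∂(law d ρ) =
      (law d ρ).real (VStopA_A F ρ β φ Y l) := by simp
  rw [h10]
  linarith

/-- (2.1), copy of `W_7d29a1_h3/StopA.lean`. -/
theorem stop (hd : 0 < d) (hρ : EM ρ) (β : ℝ) (φ : Vec d)
    (hh : lam ρ β (F.θ + φ) ≤ lam ρ β F.θ + inner ℝ φ F.v) (N : ℕ) {Y : ℝ} (hY : 0 < Y) :
    (law d ρ).real {η | ∃ l ≤ N, HH F ρ β φ η l ≤ -Y} ≤ 2 * D1 F ρ β φ N / Y := by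
  obtain ⟨C, -, hC⟩ := H_four (F := F) hd hρ β φ
  have hH : ∀ k, Integrable (fun η => HH F ρ β φ η k) (law d ρ) := fun k => (hC k).2.2.1
  have hA := fun l => VStopA_meas (F := F) (ρ := ρ) β φ Y l
  obtain ⟨U, hU⟩ : ∃ U : Set (Env d), U = {η | ∃ l ≤ N, HH F ρ β φ η l ≤ -Y} := ⟨_, rfl⟩
  have hUA : U = ⋃ l ∈ Finset.range (N + 1), VStopA_A F ρ β φ Y l := by
    classical
    rw [hU]
    ext η
    simp only [Set.mem_setOf_eq, Set.mem_iUnion, Finset.mem_range, exists_prop]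
    constructor
    · rintro ⟨l, hl, hl2⟩
      have hex : ∃ l, HH F ρ β φ η l ≤ -Y := ⟨l, hl2⟩
      refine ⟨Nat.find hex, ?_, Nat.find_spec hex, fun k hk => ?_⟩
      · have := Nat.find_min' hex hl2
        omega
      · exact Nat.find_min hex (Finset.mem_range.1 hk)
    · rintro ⟨l, hl, hl2⟩
      exact ⟨l, by omega, hl2.1⟩
  have hdisj : Set.PairwiseDisjoint (↑(Finset.range (N + 1)) : Set ℕ)
      (fun l => VStopA_A F ρ β φ Y l) := by
    intro k _ l _ hkl
    refine Set.disjoint_left.2 fun η hk hl => ?_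
    rcases lt_or_gt_of_ne hkl with h1 | h1
    · exact hl.2 k (Finset.mem_range.2 h1) hk.1
    · exact hk.2 l (Finset.mem_range.2 h1) hl.1
  have hUm : MeasurableSet U := by
    rw [hUA]
    exact Finset.measurableSet_biUnion _ fun l _ => hA l
  have h1 : ∫ η in U, HH F ρ β φ η N ∂(law d ρ) ≤
      (-Y + D1 F ρ β φ N) * (law d ρ).real U := by
    rw [hUA, integral_biUnion_finset _ (fun l _ => hA l) hdisj fun l _ => (hH N).integrableOn,
      measureReal_biUnion_finset hdisj fun l _ => hA l, Finset.mul_sum]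
    refine Finset.sum_le_sum fun l hl => VStopA_on hd hρ β φ ?_ Y
    have := Finset.mem_range.1 hl
    omega
  have h2 : ∫ η in Uᶜ, HH F ρ β φ η N ∂(law d ρ) ≤ D1 F ρ β φ N := by
    refine le_trans ?_ (VStopA_le_D1 (F := F) (ρ := ρ) β φ (le_refl N))
    rw [← integral_indicator hUm.compl]
    refine integral_mono ((hH N).indicator hUm.compl) (hH N).pos_part fun η => ?_
    by_cases h3 : η ∈ Uᶜ
    · rw [Set.indicator_of_mem h3]
      exact le_max_left _ _
    · rw [Set.indicator_of_notMem h3]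
      exact le_max_right _ _
  have h3 := integral_add_compl hUm (hH N)
  have h4 := H_mean_nonneg hd hρ β φ hh N
  have h5 : (law d ρ).real U ≤ 1 := measureReal_le_one
  have h6 : 0 ≤ D1 F ρ β φ N :=
    (integral_nonneg fun η => le_max_right _ _).trans (VStopA_le_D1 (F := F) (ρ := ρ) β φ (le_refl N))
  rw [← hU, le_div_iff₀ hY]
  have h7 : D1 F ρ β φ N * (law d ρ).real U ≤ D1 F ρ β φ N * 1 :=
    mul_le_mul_of_nonneg_left h5 h6
  nlinarith [h1, h2, h3, h4, h7]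

end Pool.Agent.W_7d29a1_v
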