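import Pool.Agent.W_7d29a1_v.StopA

/-!
Subadditivity of the L2 norm.
-/

namespace Pool.Agent.W_7d29a1_v

open MeasureTheory ProbabilityTheory Filter Topology Pool.Agent.W_MP_7d29a1_pr
  Pool.Agent.W_7d29a1_h46 Pool.Agent.W_7d29a1_h46u Pool.Agent.W_7d29a1_h3

variable {d : ℕ} {F : Fr d} {ρ : Measure ℝ} [IsProbabilityMeasure ρ]

private theorem VStopB_alg {L A B : ℝ} (hA : 0 ≤ A) (hB : 0 ≤ B)
    (h : ∀ t : ℝ, 0 < t → L ≤ (1 + t) * A + (1 + 1 / t) * B) :
    Real.sqrt L ≤ Real.sqrt A + Real.sqrt B := by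
  have ha := Real.sqrt_nonneg A
  have hb := Real.sqrt_nonneg B
  have ha2 : Real.sqrt A * Real.sqrt A = A := Real.mul_self_sqrt hA
  have hb2 : Real.sqrt B * Real.sqrt B = B := Real.mul_self_sqrt hB
  set x := Real.sqrt A with hx
  set y := Real.sqrt B with hy
  rw [Real.sqrt_le_left (by linarith)]
  have key : ∀ δ : ℝ, 0 < δ → L ≤ (x + y + 2 * δ) * (x + y) := by
    intro δ hδ
    have hxd : 0 < x + δ := by linarith
    have hyd : 0 < y + δ := by linarith
    have h1 := h ((y + δ) / (x + δ)) (by positivity)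
    have e1 : 1 + (y + δ) / (x + δ) = (x + y + 2 * δ) / (x + δ) := by
      field_simp
      ring
    have e2 : 1 + 1 / ((y + δ) / (x + δ)) = (x + y + 2 * δ) / (y + δ) := by
      field_simp
      ring
    rw [e1, e2] at h1
    have e3 : (x + y + 2 * δ) / (x + δ) * A ≤ (x + y + 2 * δ) * x := by
      rw [div_mul_eq_mul_div, div_le_iff₀ hxd, ← ha2]
      have : 0 ≤ (x + y + 2 * δ) * x * δ := by positivity
      nlinarith
    have e4 : (x + y + 2 * δ) / (y + δ) * B ≤ (x + y + 2 * δ) * y := by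
      rw [div_mul_eq_mul_div, div_le_iff₀ hyd, ← hb2]
      have : 0 ≤ (x + y + 2 * δ) * y * δ := by positivity
      nlinarith
    nlinarith
  by_contra hcon
  push Not at hcon
  set D := L - (x + y) ^ 2 with hD
  have hDpos : 0 < D := by linarith
  have hs : 0 < 2 * (x + y) + 1 := by positivity
  have h2 := key (D / (2 * (x + y) + 1)) (by positivity)
  have h3 : 2 * (D / (2 * (x + y) + 1)) * (x + y) < D := by
    have e5 : 2 * (D / (2 * (x + y) + 1)) * (x + y) = D * (2 * (x + y)) / (2 * (x + y) + 1) := by ring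
    rw [e5, div_lt_iff₀ hs]
    nlinarith
  nlinarith

/-- TASK VStopB. (2.2), copy of `W_7d29a1_h3/StopB.lean`. -/
theorem H2_add (hd : 0 < d) (hρ : EM ρ) (β : ℝ) (φ : Vec d) (m n : ℕ) :
    Real.sqrt (∫ η, max (HH F ρ β φ η (m + n)) 0 ^ 2 ∂(law d ρ)) ≤
      Real.sqrt (∫ η, max (HH F ρ β φ η m) 0 ^ 2 ∂(law d ρ)) +
        Real.sqrt (∫ η, max (HH F ρ β φ η n) 0 ^ 2 ∂(law d ρ)) := by
  obtain ⟨C, -, hmom⟩ := H_four (F := F) hd hρ β φ
  have hmeas : ∀ k, Measurable fun η : Env d => max (HH F ρ β φ η k) 0 ^ 2 := fun k =>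
    ((measurable_HH φ k).max measurable_const).pow_const 2
  have hint : ∀ k, Integrable (fun η => max (HH F ρ β φ η k) 0 ^ 2) (law d ρ) := by
    intro k
    refine (hmom k).2.1.mono' (hmeas k).aestronglyMeasurable (Filter.Eventually.of_forall fun η => ?_)
    rw [Real.norm_eq_abs, abs_of_nonneg (sq_nonneg _)]
    rcases le_total (HH F ρ β φ η k) 0 with h1 | h1
    · rw [max_eq_right h1]
      simpa using sq_nonneg (HH F ρ β φ η k)
    · rw [max_eq_left h1]
  have hKint : ∀ y : Site d, Integrable (fun η => max (HH F ρ β φ (sh m y η) n) 0 ^ 2) (law d ρ) :=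
    fun y => ((mp_sh m y).integrable_comp (hmeas n).aestronglyMeasurable).2 (hint n)
  have hpK : ∀ s : Fin m → Step d, Integrable (fun η => FreeU_p β (F.θ + φ) m s η *
      max (HH F ρ β φ (sh m (pos s m) η) n) 0 ^ 2) (law d ρ) := fun s => by
    refine (hKint (pos s m)).bdd_mul (c := 1) (FreeU_meas β (F.θ + φ) m s).aestronglyMeasurable
      (Filter.Eventually.of_forall fun η => ?_)
    rw [Real.norm_eq_abs, abs_of_nonneg (FreeU_nonneg hd β (F.θ + φ) m s η)]
    exact FreeU_le_one hd β (F.θ + φ) m s η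
  have hp : ∀ s : Fin m → Step d, Integrable (FreeU_p β (F.θ + φ) m s) (law d ρ) := fun s => by
    refine (integrable_const (1 : ℝ)).mono' (FreeU_meas β (F.θ + φ) m s).aestronglyMeasurable
      (Filter.Eventually.of_forall fun η => ?_)
    rw [Real.norm_eq_abs, abs_of_nonneg (FreeU_nonneg hd β (F.θ + φ) m s η)]
    exact FreeU_le_one hd β (F.θ + φ) m s η
  have hS : Integrable (fun η => ∑ s : Fin m → Step d, FreeU_p β (F.θ + φ) m s η *
      max (HH F ρ β φ (sh m (pos s m) η) n) 0 ^ 2) (law d ρ) :=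
    integrable_finsetSum _ fun s _ => hpK s
  have hv : ∫ η, ∑ s : Fin m → Step d, FreeU_p β (F.θ + φ) m s η *
      max (HH F ρ β φ (sh m (pos s m) η) n) 0 ^ 2 ∂(law d ρ)
        = ∫ η, max (HH F ρ β φ η n) 0 ^ 2 ∂(law d ρ) := by
    rw [integral_finsetSum _ fun s _ => hpK s]
    have h1 : ∀ s : Fin m → Step d, ∫ η, FreeU_p β (F.θ + φ) m s η *
        max (HH F ρ β φ (sh m (pos s m) η) n) 0 ^ 2 ∂(law d ρ) =
        (∫ η, FreeU_p β (F.θ + φ) m s η ∂(law d ρ)) * ∫ η, max (HH F ρ β φ η n) 0 ^ 2 ∂(law d ρ) := by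
      intro s
      have h2 := integral_indep (ρ := ρ) {p : ℕ × Site d | p.1 ≤ m} (F := FreeU_p β (F.θ + φ) m s)
        (G := fun η => max (HH F ρ β φ (sh m (pos s m) η) n) 0 ^ 2) (FreeU_meas β (F.θ + φ) m s)
        ((hmeas n).comp (measurable_sh m (pos s m))) (FreeU_dep β (F.θ + φ) m s) (by
          intro η η' hη
          have h3 := FreeU_dep2 β (F.θ + φ) m n (pos s m) hη
          simp only at h3 ⊢
          unfold HH
          rw [h3])
      rw [h2, integral_sh m (pos s m) (hmeas n)]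
    rw [Finset.sum_congr rfl fun s _ => h1 s, ← Finset.sum_mul,
      ← integral_finsetSum _ fun s _ => hp s]
    simp only [FreeU_sum hd]
    simp
  refine VStopB_alg (integral_nonneg fun η => sq_nonneg _) (integral_nonneg fun η => sq_nonneg _)
    fun t ht => ?_
  have hrhs : (1 + t) * ∫ η, max (HH F ρ β φ η m) 0 ^ 2 ∂(law d ρ) +
      (1 + 1 / t) * ∫ η, max (HH F ρ β φ η n) 0 ^ 2 ∂(law d ρ) =
      ∫ η, ((1 + t) * max (HH F ρ β φ η m) 0 ^ 2 + (1 + 1 / t) * ∑ s : Fin m → Step d,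
        FreeU_p β (F.θ + φ) m s η * max (HH F ρ β φ (sh m (pos s m) η) n) 0 ^ 2) ∂(law d ρ) := by
    rw [integral_add ((hint m).const_mul _) (hS.const_mul _), integral_const_mul, integral_const_mul, hv]
  rw [hrhs]
  refine integral_mono (hint (m + n)) (((hint m).const_mul _).add (hS.const_mul _)) fun η => ?_
  show max (HH F ρ β φ η (m + n)) 0 ^ 2 ≤ (1 + t) * max (HH F ρ β φ η m) 0 ^ 2 +
    (1 + 1 / t) * ∑ s : Fin m → Step d,
        FreeU_p β (F.θ + φ) m s η * max (HH F ρ β φ (sh m (pos s m) η) n) 0 ^ 2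
  set f := max (HH F ρ β φ η m) 0 with hf
  set G := ∑ s : Fin m → Step d, FreeU_p β (F.θ + φ) m s η * max (HH F ρ β φ (sh m (pos s m) η) n) 0 with hG
  have hf0 : 0 ≤ f := le_max_right _ _
  have hG0 : 0 ≤ G := Finset.sum_nonneg fun s _ =>
    mul_nonneg (FreeU_nonneg hd β (F.θ + φ) m s η) (le_max_right _ _)
  have h1 : max (HH F ρ β φ η (m + n)) 0 ≤ f + G := by
    refine max_le ?_ (add_nonneg hf0 hG0)
    refine (H_add_pt hd β φ m n η).trans (add_le_add (le_max_left _ _) ?_)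
    exact Finset.sum_le_sum fun s _ =>
      mul_le_mul_of_nonneg_left (le_max_left _ _) (FreeU_nonneg hd β (F.θ + φ) m s η)
  have h2 : max (HH F ρ β φ η (m + n)) 0 ^ 2 ≤ (f + G) ^ 2 :=
    pow_le_pow_left₀ (le_max_right _ _) h1 2
  have h3 : G ^ 2 ≤ ∑ s : Fin m → Step d,
        FreeU_p β (F.θ + φ) m s η * max (HH F ρ β φ (sh m (pos s m) η) n) 0 ^ 2 := by
    have hconv := (even_two.convexOn_pow (𝕜 := ℝ)).map_sum_le (t := Finset.univ)
      (w := fun s : Fin m → Step d => FreeU_p β (F.θ + φ) m s η)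
      (p := fun s : Fin m → Step d => max (HH F ρ β φ (sh m (pos s m) η) n) 0)
      (fun s _ => FreeU_nonneg hd β (F.θ + φ) m s η) (FreeU_sum hd β (F.θ + φ) m η) (fun s _ => Set.mem_univ _)
    simp only [smul_eq_mul] at hconv
    exact hconv
  have h4 : (f + G) ^ 2 ≤ (1 + t) * f ^ 2 + (1 + 1 / t) * G ^ 2 := by
    have h5 : 0 ≤ (t * f - G) ^ 2 / t := by positivity
    have h6 : (t * f - G) ^ 2 / t = t * f ^ 2 - 2 * f * G + 1 / t * G ^ 2 := by
      field_simp
      ring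
    rw [h6] at h5
    nlinarith
  have h7 : (1 + 1 / t) * G ^ 2 ≤ (1 + 1 / t) * ∑ s : Fin m → Step d,
        FreeU_p β (F.θ + φ) m s η * max (HH F ρ β φ (sh m (pos s m) η) n) 0 ^ 2 :=
    mul_le_mul_of_nonneg_left h3 (by positivity)
  linarith

end Pool.Agent.W_7d29a1_v
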