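import Pool.Agent.W_7d29a1_v.ConfC

/-!
Localisation.
-/

namespace Pool.Agent.W_7d29a1_v

open MeasureTheory ProbabilityTheory Filter Topology Pool.Agent.W_MP_7d29a1_pr
  Pool.Agent.W_7d29a1_h46 Pool.Agent.W_7d29a1_h46u Pool.Agent.W_7d29a1_h3

variable {d : ℕ} {F : Fr d} {ρ : Measure ℝ} [IsProbabilityMeasure ρ]

private theorem ThinBv_c0_pos (d : ℕ) : 0 < c0 d := by
  unfold c0; positivity

private theorem ThinBv_c0_le (d : ℕ) : c0 d ≤ 1 := by
  unfold c0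
  rw [div_le_one (by positivity)]
  have : (0 : ℝ) ≤ (d : ℝ) := by positivity
  linarith

/-- The logarithmic term is negligible. -/
private theorem ThinBv_log (d : ℕ) {a : ℝ} (ha : 0 < a) : ∀ᶠ n : ℕ in atTop, ∀ N ≤ 3 * n,
    Real.log (2 * ((N : ℝ) + 1) * (2 * (N : ℝ) + 1) ^ d) ≤ a * (n : ℝ) ^ c0 d := by
  have hd : (0 : ℝ) < (d : ℝ) + 1 := by positivity
  have he : 0 < a / (8 * ((d : ℝ) + 1)) := by positivity
  have h1 := (isLittleO_log_rpow_atTop (ThinBv_c0_pos d)).def he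
  have h2 : Tendsto (fun n : ℕ => 8 * (n : ℝ)) atTop atTop :=
    tendsto_natCast_atTop_atTop.const_mul_atTop (by norm_num)
  filter_upwards [h2.eventually h1, eventually_ge_atTop 1] with n hn hn1 N hN
  have hnr : (1 : ℝ) ≤ (n : ℝ) := by exact_mod_cast hn1
  have hNr : (N : ℝ) ≤ 3 * (n : ℝ) := by exact_mod_cast hN
  have hN0 : (0 : ℝ) ≤ (N : ℝ) := by positivity
  have hlog0 : 0 ≤ Real.log (8 * (n : ℝ)) := Real.log_nonneg (by linarith)
  have hb : 2 * ((N : ℝ) + 1) * (2 * (N : ℝ) + 1) ^ d ≤ (8 * (n : ℝ)) ^ (d + 1) := by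
    have e1 : 2 * ((N : ℝ) + 1) ≤ 8 * (n : ℝ) := by linarith
    have e2 : (2 * (N : ℝ) + 1) ^ d ≤ (8 * (n : ℝ)) ^ d :=
      pow_le_pow_left₀ (by positivity) (by linarith) d
    rw [pow_succ, mul_comm ((8 * (n : ℝ)) ^ d)]
    exact mul_le_mul e1 e2 (by positivity) (by positivity)
  have h3 : Real.log (2 * ((N : ℝ) + 1) * (2 * (N : ℝ) + 1) ^ d) ≤
      ((d : ℝ) + 1) * Real.log (8 * (n : ℝ)) := by
    calc Real.log (2 * ((N : ℝ) + 1) * (2 * (N : ℝ) + 1) ^ d)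
        ≤ Real.log ((8 * (n : ℝ)) ^ (d + 1)) := Real.log_le_log (by positivity) hb
      _ = ((d : ℝ) + 1) * Real.log (8 * (n : ℝ)) := by
          rw [Real.log_pow]; push_cast; ring
  have h4 : Real.log (8 * (n : ℝ)) ≤ a / (8 * ((d : ℝ) + 1)) * (8 * (n : ℝ) ^ c0 d) := by
    rw [Real.norm_eq_abs, Real.norm_eq_abs, abs_of_nonneg hlog0,
      abs_of_nonneg (Real.rpow_nonneg (by positivity) _)] at hn
    refine hn.trans ?_
    refine mul_le_mul_of_nonneg_left ?_ he.le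
    rw [Real.mul_rpow (by norm_num) (by positivity)]
    refine mul_le_mul_of_nonneg_right ?_ (Real.rpow_nonneg (by positivity) _)
    calc (8 : ℝ) ^ c0 d ≤ (8 : ℝ) ^ (1 : ℝ) :=
          Real.rpow_le_rpow_of_exponent_le (by norm_num) (ThinBv_c0_le d)
      _ = 8 := Real.rpow_one 8
  calc Real.log (2 * ((N : ℝ) + 1) * (2 * (N : ℝ) + 1) ^ d)
      ≤ ((d : ℝ) + 1) * Real.log (8 * (n : ℝ)) := h3
    _ ≤ ((d : ℝ) + 1) * (a / (8 * ((d : ℝ) + 1)) * (8 * (n : ℝ) ^ c0 d)) :=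
        mul_le_mul_of_nonneg_left h4 hd.le
    _ = a * (n : ℝ) ^ c0 d := by field_simp

/-- TASK VThinB. Copy of `W_7d29a1_h3/ThinB.lean`: `exit_luck` with `u = φ.r - δ b / 2` (`≤ ‖φ k‖ 3 K b`), `S = ⌈C9 b⌉`. -/
theorem thin_loc (j0 : Fin d) {β : ℝ} {φ : Ix d → Vec d} {c q : ℝ} (P : Post d F ρ β φ c q)
    {K δ p1 : ℝ} (hK : 0 < K) (hδ : 0 < δ) (hp : 0 < p1) :
    ∃ C9 : ℝ, 0 < C9 ∧ ∀ᶠ n : ℕ in atTop, ∀ (N' : ℕ) (z : Site d) (k : Ix d),
      N' ≤ 3 * n → adm N' z → ‖rv F N' z‖ ≤ 3 * K * bb d F ρ β q n →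
      p1 ≤ (law d ρ).real {η : Env d |
          Real.exp (δ / 2 * bb d F ρ β q n - inner ℝ (φ k) (rv F N' z)) ≤
            Vp F ρ β η N' z} →
      p1 / 2 ≤ (law d ρ).real {η : Env d |
          Real.exp (δ / 2 * bb d F ρ β q n - 1 - inner ℝ (φ k) (rv F N' z)) ≤
            V F ρ β η (stP F N' ⌈C9 * bb d F ρ β q n⌉₊ z)} := by
  obtain ⟨C, hC, hlk⟩ := P.lk 3
  obtain ⟨c', hc', hlow⟩ := P.low
  have hc : 0 < c := P.cpos
  have hlog := ThinBv_log d hc'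
  obtain ⟨M, hM⟩ : ∃ M : ℝ, M = ∑ i, ‖φ i‖ := ⟨_, rfl⟩
  have hM0 : 0 ≤ M := by rw [hM]; exact Finset.sum_nonneg fun i _ => norm_nonneg _
  have hMi : ∀ i, ‖φ i‖ ≤ M := by
    intro i
    rw [hM]
    exact Finset.single_le_sum (f := fun i => ‖φ i‖) (fun j _ => norm_nonneg _) (Finset.mem_univ i)
  obtain ⟨C9, hC9⟩ : ∃ C9 : ℝ, C9 = 3 * K + (3 * K * M + 1) / c + 2 / c + 8 * C / (c * p1) := ⟨_, rfl⟩
  have t0 : 0 < (3 * K * M + 1) / c := by positivity
  have t1 : 0 < 2 / c := by positivity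
  have t2 : 0 < 8 * C / (c * p1) := by positivity
  have hC9pos : 0 < C9 := by rw [hC9]; positivity
  have hC9a : 3 * K + (3 * K * M + 1) / c ≤ C9 := by rw [hC9]; linarith
  have hC9b : 2 / c ≤ C9 := by rw [hC9]; linarith
  have hC9c : 8 * C / (c * p1) ≤ C9 := by rw [hC9]; linarith
  have hC9d : 3 * c * K + 3 * K * M + 1 ≤ c * C9 := by
    have h := mul_le_mul_of_nonneg_left hC9a hc.le
    have e : c * (3 * K + (3 * K * M + 1) / c) = 3 * c * K + 3 * K * M + 1 := by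
      field_simp
      ring
    linarith
  have hY1 : 1 ≤ c * C9 / 2 := by
    have := mul_le_mul_of_nonneg_left hC9b hc.le
    rw [mul_div_cancel₀ _ hc.ne'] at this
    linarith
  have hY2 : C / (c * C9 / 2) ≤ p1 / 4 := by
    rw [div_le_iff₀ (by linarith)]
    have h := (div_le_iff₀ (mul_pos hc hp)).1 hC9c
    nlinarith [h]
  refine ⟨C9, hC9pos, ?_⟩
  filter_upwards [hlk, hlow, hlog] with n hl hb hL N' z k hN hz hsz hA
  obtain ⟨b, hbb⟩ : ∃ b : ℝ, b = bb d F ρ β q n := ⟨_, rfl⟩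
  have hb1 : 1 ≤ b := by rw [hbb]; exact one_le_bb β q n
  rw [← hbb] at hsz hA hb ⊢
  obtain ⟨l1, l2⟩ := hl N' hN (c * C9 / 2) hY1
  have l2 := l2 z
  rw [← hbb] at l1 l2
  set S : ℕ := ⌈C9 * b⌉₊ with hS
  have hSb : C9 * b ≤ (S : ℝ) := Nat.le_ceil _
  have hsub : {η : Env d | Real.exp (δ / 2 * b - inner ℝ (φ k) (rv F N' z)) ≤ Vp F ρ β η N' z} ⊆
      {η : Env d | Real.exp (δ / 2 * b - 1 - inner ℝ (φ k) (rv F N' z)) ≤
        V F ρ β η (stP F N' S z)} ∪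
      ({η : Env d | ∃ l ≤ N', ∃ (y : Site d) (i : Ix d),
        Real.exp (c * C9 / 2 * b - inner ℝ (φ i) (rv F l y)) ≤ Vp F ρ β η l y} ∪
      {η : Env d | ∃ l ≤ N', ∃ (y : Site d) (i : Ix d),
        Real.exp (c * C9 / 2 * b - inner ℝ (φ i) (rv F l y)) ≤
          Vp F ρ β (sh (N' - l) (z - y) η) l y}) := by
    intro η hη
    have hη' : Real.exp (δ / 2 * b - inner ℝ (φ k) (rv F N' z)) ≤ Vp F ρ β η N' z := hη
    by_cases hhalf : V F ρ β η (stP F N' S z) ≤ 1 / 2 * Vp F ρ β η N' z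
    · right
      refine exit_luck j0 P.toSetup η (u := inner ℝ (φ k) (rv F N' z) - δ / 2 * b) hz ?_ hhalf ?_
      · rwa [neg_sub]
      · have hin : inner ℝ (φ k) (rv F N' z) ≤ M * (3 * K * b) :=
          (real_inner_le_norm _ _).trans (mul_le_mul (hMi k) hsz (norm_nonneg _) hM0)
        have hLn := hL N' hN
        have hdb : 0 < δ / 2 * b := by positivity
        have h1 : c * (C9 * b) ≤ c * (S : ℝ) := mul_le_mul_of_nonneg_left hSb hc.le
        have h2 : c * ‖rv F N' z‖ ≤ c * (3 * K * b) := mul_le_mul_of_nonneg_left hsz hc.le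
        have h3 : (3 * c * K + 3 * K * M + 1) * b ≤ c * C9 * b :=
          mul_le_mul_of_nonneg_right hC9d (by linarith)
        have e1 : 2 * (c * C9 / 2 * b) = c * C9 * b := by ring
        have e2 : c * (2 * (S : ℝ) - ‖rv F N' z‖) = 2 * (c * (S : ℝ)) - c * ‖rv F N' z‖ := by ring
        have e3 : c * (C9 * b) = c * C9 * b := by ring
        have e4 : (3 * c * K + 3 * K * M + 1) * b =
            c * (3 * K * b) + M * (3 * K * b) + b := by ring
        rw [e1, e2]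
        linarith
    · left
      show Real.exp (δ / 2 * b - 1 - inner ℝ (φ k) (rv F N' z)) ≤ V F ρ β η (stP F N' S z)
      push Not at hhalf
      have h1 : Real.exp (δ / 2 * b - 1 - inner ℝ (φ k) (rv F N' z)) =
          Real.exp (-1) * Real.exp (δ / 2 * b - inner ℝ (φ k) (rv F N' z)) := by
        rw [← Real.exp_add]; congr 1; ring
      have h2 : Real.exp (-1) ≤ 1 / 2 := by
        rw [Real.exp_neg, inv_eq_one_div]
        exact one_div_le_one_div_of_le (by norm_num) (by linarith [Real.add_one_le_exp (1 : ℝ)])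
      rw [h1]
      calc Real.exp (-1) * Real.exp (δ / 2 * b - inner ℝ (φ k) (rv F N' z))
          ≤ 1 / 2 * Real.exp (δ / 2 * b - inner ℝ (φ k) (rv F N' z)) :=
            mul_le_mul_of_nonneg_right h2 (Real.exp_pos _).le
        _ ≤ 1 / 2 * Vp F ρ β η N' z := mul_le_mul_of_nonneg_left hη' (by norm_num)
        _ ≤ V F ρ β η (stP F N' S z) := hhalf.le
  have hm := measureReal_mono (μ := law d ρ) hsub
  have hu1 := measureReal_union_le (μ := law d ρ)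
    {η : Env d | Real.exp (δ / 2 * b - 1 - inner ℝ (φ k) (rv F N' z)) ≤ V F ρ β η (stP F N' S z)}
    ({η : Env d | ∃ l ≤ N', ∃ (y : Site d) (i : Ix d),
        Real.exp (c * C9 / 2 * b - inner ℝ (φ i) (rv F l y)) ≤ Vp F ρ β η l y} ∪
      {η : Env d | ∃ l ≤ N', ∃ (y : Site d) (i : Ix d),
        Real.exp (c * C9 / 2 * b - inner ℝ (φ i) (rv F l y)) ≤
          Vp F ρ β (sh (N' - l) (z - y) η) l y})
  have hu2 := measureReal_union_le (μ := law d ρ)
    {η : Env d | ∃ l ≤ N', ∃ (y : Site d) (i : Ix d),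
        Real.exp (c * C9 / 2 * b - inner ℝ (φ i) (rv F l y)) ≤ Vp F ρ β η l y}
    {η : Env d | ∃ l ≤ N', ∃ (y : Site d) (i : Ix d),
        Real.exp (c * C9 / 2 * b - inner ℝ (φ i) (rv F l y)) ≤
          Vp F ρ β (sh (N' - l) (z - y) η) l y}
  linarith

end Pool.Agent.W_7d29a1_v
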