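import Pool.Agent.W_7d29a1_v.QuantA
import Pool.Agent.W_7d29a1_h3.Ind

/-!
Translates.
-/

namespace Pool.Agent.W_7d29a1_v

open MeasureTheory ProbabilityTheory Filter Topology Pool.Agent.W_MP_7d29a1_pr
  Pool.Agent.W_7d29a1_h46 Pool.Agent.W_7d29a1_h46u Pool.Agent.W_7d29a1_h3

variable {d : ℕ} {F : Fr d} {ρ : Measure ℝ} [IsProbabilityMeasure ρ]

private theorem vThinC_meas_sh (t : ℕ) (x : Site d) : Measurable (sh t x : Env d → Env d) :=
  measurable_pi_lambda _ fun _ => measurable_pi_apply _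

/-- TASK VThinC. `J` translates of a strip event: all fail with probability at most `(1 - p)^J`. Compare
`W_7d29a1_h3/ThinC.lean` (`dep_st_sh`, `rv_sub_same`). -/
theorem trans_fail (β : ℝ) {p B : ℝ} {N S t : ℕ} {z : Site d} (J : ℕ) (x : ℕ → Site d)
    (hx : ∀ i < J, ∀ j < J, i ≠ j → 2 * (S : ℝ) < ‖emb (x i - x j)‖)
    (hp : p ≤ (law d ρ).real {η : Env d | Real.exp B ≤ V F ρ β η (stP F N S z)}) :
    (law d ρ).real {η : Env d | ∀ j < J, ¬ Real.exp B ≤
      V F ρ β (sh t (x j) η) (stP F N S z)} ≤ (1 - p) ^ J := by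
  classical
  have hA0 : MeasurableSet {η : Env d | Real.exp B ≤ V F ρ β η (stP F N S z)} :=
    measurableSet_le measurable_const (measurable_V _)
  have hA : MeasurableSet {η : Env d | ¬ Real.exp B ≤ V F ρ β η (stP F N S z)} := hA0.compl
  have key := indep_events (ρ := ρ) (Finset.range J)
    (fun j => {η : Env d | ¬ Real.exp B ≤ V F ρ β (sh t (x j) η) (stP F N S z)})
    (fun j => {q : ℕ × Site d | t < q.1 ∧ q.1 ≤ t + N ∧ ‖rv F q.1 q.2 - rv F t (x j)‖ ≤ S})
    (fun j _ => (vThinC_meas_sh t (x j)) hA)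
    (fun j _ η η' hη => by
      have h1 := dep_st_sh (F := F) (ρ := ρ) (β := β) t (x j) N S z
      have h2 : V F ρ β (sh t (x j) η) (stP F N S z) = V F ρ β (sh t (x j) η') (stP F N S z) :=
        @h1 η η' (fun q hq => hη q hq)
      show (¬ Real.exp B ≤ V F ρ β (sh t (x j) η) (stP F N S z)) ↔
        (¬ Real.exp B ≤ V F ρ β (sh t (x j) η') (stP F N S z))
      rw [h2])
    (fun i hi j hj hij => by
      refine Set.disjoint_left.2 fun q hqi hqj => ?_
      have h1 : ‖rv F q.1 q.2 - rv F t (x i)‖ ≤ S := hqi.2.2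
      have h2 : ‖rv F q.1 q.2 - rv F t (x j)‖ ≤ S := hqj.2.2
      have h3 := hx i (Finset.mem_range.1 hi) j (Finset.mem_range.1 hj) hij
      have h4 : emb (x i - x j) =
          (rv F q.1 q.2 - rv F t (x j)) - (rv F q.1 q.2 - rv F t (x i)) := by
        rw [← rv_sub_same F t (x j) (x i)]
        abel
      rw [h4] at h3
      have h5 := norm_sub_le (rv F q.1 q.2 - rv F t (x j)) (rv F q.1 q.2 - rv F t (x i))
      linarith)
  have hset : {η : Env d | ∀ j < J, ¬ Real.exp B ≤
      V F ρ β (sh t (x j) η) (stP F N S z)} =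
      {η : Env d | ∀ i ∈ Finset.range J, η ∈ {η : Env d | ¬ Real.exp B ≤
        V F ρ β (sh t (x i) η) (stP F N S z)}} := by
    ext η
    simp only [Set.mem_ofPred_eq, Finset.mem_range]
  rw [hset, key]
  have hone : ∀ j ∈ Finset.range J,
      (law d ρ).real {η : Env d | ¬ Real.exp B ≤ V F ρ β (sh t (x j) η) (stP F N S z)} ≤
        1 - p := by
    intro j _
    have h1 : (law d ρ).real {η : Env d | ¬ Real.exp B ≤ V F ρ β (sh t (x j) η) (stP F N S z)} =
        (law d ρ).real {η : Env d | ¬ Real.exp B ≤ V F ρ β η (stP F N S z)} :=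
      real_sh t (x j) hA
    rw [h1]
    have h2 : (law d ρ).real {η : Env d | ¬ Real.exp B ≤ V F ρ β η (stP F N S z)} =
        1 - (law d ρ).real {η : Env d | Real.exp B ≤ V F ρ β η (stP F N S z)} := by
      have h3 := probReal_compl_eq_one_sub (μ := law d ρ) hA0
      exact h3
    rw [h2]
    linarith
  refine (Finset.prod_le_prod (fun j _ => measureReal_nonneg) hone).trans ?_
  rw [Finset.prod_const, Finset.card_range]

end Pool.Agent.W_7d29a1_v
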