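import Pool.Agent.W_7d29a1_v.ConfC
import Pool.Agent.W_7d29a1_v.ThinC
import Pool.Agent.W_7d29a1_h3.ThinD

/-!
The contradiction of section 7.
-/

namespace Pool.Agent.W_7d29a1_v

open MeasureTheory ProbabilityTheory Filter Topology Pool.Agent.W_MP_7d29a1_pr
  Pool.Agent.W_7d29a1_h46 Pool.Agent.W_7d29a1_h46u Pool.Agent.W_7d29a1_h3

variable {d : ℕ} {F : Fr d} {ρ : Measure ℝ} [IsProbabilityMeasure ρ]

/-- A random variable of nonnegative mean which is at most `-A` outside a small event has a large second moment. -/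
private theorem VThinD_int {Ω : Type*} [MeasurableSpace Ω] {μ : Measure Ω} [IsProbabilityMeasure μ]
    {H : Ω → ℝ} (hH : Measurable H) (h1 : Integrable H μ) (h2 : Integrable (fun ω => H ω ^ 2) μ)
    (h0 : 0 ≤ ∫ ω, H ω ∂μ) {B : Set Ω} (hB : MeasurableSet B) {A s : ℝ} (hs : 0 < s) (hA : 0 ≤ A)
    (hg : ∀ ω, ω ∉ B → H ω ≤ -A) :
    A * (1 - μ.real B) ≤ (s * ∫ ω, max (H ω) 0 ^ 2 ∂μ + μ.real B / s) / 2 := by
  have hmax : Integrable (fun ω => max (H ω) 0 ^ 2) μ := by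
    refine h2.mono' ((hH.max measurable_const).pow_const 2).aestronglyMeasurable
      (ae_of_all _ fun ω => ?_)
    rw [Real.norm_eq_abs, abs_of_nonneg (sq_nonneg _), ← sq_abs (H ω)]
    exact pow_le_pow_left₀ (le_max_right _ _) (max_le (le_abs_self _) (abs_nonneg _)) 2
  have hind : Integrable (B.indicator fun _ => (1 : ℝ)) μ :=
    (integrable_const (1 : ℝ)).indicator hB
  have hindE : ∫ ω, B.indicator (fun _ => (1 : ℝ)) ω ∂μ = μ.real B := by
    rw [integral_indicator_const _ hB, smul_eq_mul, mul_one]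
  have hpt : ∀ ω, H ω ≤ -A + A * B.indicator (fun _ => (1 : ℝ)) ω +
      (s * max (H ω) 0 ^ 2 + B.indicator (fun _ => (1 : ℝ)) ω / s) / 2 := by
    intro ω
    by_cases hω : ω ∈ B
    · rw [Set.indicator_of_mem hω]
      have h3 : 2 * max (H ω) 0 ≤ s * max (H ω) 0 ^ 2 + 1 / s := by
        have h4 : 0 ≤ (s * max (H ω) 0 - 1) ^ 2 / s := by positivity
        have h5 : (s * max (H ω) 0 - 1) ^ 2 / s =
            s * max (H ω) 0 ^ 2 + 1 / s - 2 * max (H ω) 0 := by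
          field_simp
          ring
        linarith
      have h6 := le_max_left (H ω) 0
      linarith
    · rw [Set.indicator_of_notMem hω]
      have h3 := hg ω hω
      have h4 : 0 ≤ s * max (H ω) 0 ^ 2 := by positivity
      simp only [mul_zero, add_zero, zero_div]
      linarith
  have hi1 : Integrable (fun ω => -A + A * B.indicator (fun _ => (1 : ℝ)) ω) μ :=
    (integrable_const (-A)).add (hind.const_mul A)
  have hi2 : Integrable (fun ω => (s * max (H ω) 0 ^ 2 + B.indicator (fun _ => (1 : ℝ)) ω / s) / 2) μ :=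
    ((hmax.const_mul s).add (hind.div_const s)).div_const 2
  have hle : ∫ ω, H ω ∂μ ≤ ∫ ω, (-A + A * B.indicator (fun _ => (1 : ℝ)) ω +
      (s * max (H ω) 0 ^ 2 + B.indicator (fun _ => (1 : ℝ)) ω / s) / 2) ∂μ :=
    integral_mono h1 (hi1.add hi2) hpt
  have e1 : ∫ ω, (-A + A * B.indicator (fun _ => (1 : ℝ)) ω +
      (s * max (H ω) 0 ^ 2 + B.indicator (fun _ => (1 : ℝ)) ω / s) / 2) ∂μ =
      -A + A * μ.real B + (s * ∫ ω, max (H ω) 0 ^ 2 ∂μ + μ.real B / s) / 2 := by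
    rw [integral_add hi1 hi2, integral_add (integrable_const _) (hind.const_mul A),
      integral_const, integral_const_mul, hindE, integral_div,
      integral_add (hmax.const_mul s) (hind.div_const s), integral_const_mul, integral_div, hindE]
    simp
  rw [e1] at hle
  linarith

/-- On a good event the point to level passage time is small. -/
private theorem VThinD_good (j0 : Fin d) {β : ℝ} (φ : Vec d) (η : Env d) {t N S : ℕ}
    {x z : Site d} {u v : ℝ}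
    (h1 : Real.exp (-(inner ℝ φ (rv F t x) + v)) ≤ Vp F ρ β η t x)
    (h2 : Real.exp (u - inner ℝ φ (rv F N z)) ≤ V F ρ β (sh t x η) (stP F N S z)) :
    HH F ρ β φ η (t + N) ≤ v - u := by
  have h3 : V F ρ β (sh t x η) (stP F N S z) ≤ Vp F ρ β (sh t x η) N z := V_mono _ stP_sub
  have h4 := Vp_add (F := F) (ρ := ρ) (β := β) η t N x z
  have h5 := V_le_H (F := F) (ρ := ρ) (β := β) j0 φ η (n := t + N)
    (y := x + z) (E := toP (t + N) (x + z)) subset_rfl
  rw [rv_add, inner_add_right] at h5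
  have h7 : Real.exp (-(inner ℝ φ (rv F t x) + v)) * Real.exp (u - inner ℝ φ (rv F N z)) ≤
      V F ρ β η (toP (t + N) (x + z)) :=
    (mul_le_mul h1 (h2.trans h3) (Real.exp_pos _).le ((Real.exp_pos _).le.trans h1)).trans h4
  have h8 := (mul_le_mul_of_nonneg_right h7
    (Real.exp_pos (inner ℝ φ (rv F t x) + inner ℝ φ (rv F N z))).le).trans h5
  rw [← Real.exp_add, ← Real.exp_add, Real.exp_le_exp] at h8
  linarith

/-- The starting points of the translates. -/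
private noncomputable def VThinD_x (F : Fr d) (L m J : ℕ) (w : Site d) (j : ℕ) : Site d :=
  (j * m) • w + (J * m - j * m) • zz F (L / 2)

private theorem VThinD_diff (L m J : ℕ) (w : Site d) {i j : ℕ} (hij : j < i) (hi : i < J) :
    VThinD_x F L m J w i - VThinD_x F L m J w j = ((i - j) * m) • (w - zz F (L / 2)) := by
  obtain ⟨e, rfl⟩ := Nat.exists_eq_add_of_lt hij
  obtain ⟨f, rfl⟩ := Nat.exists_eq_add_of_lt hi
  unfold VThinD_x
  have e1 : (j + e + 1 + f + 1) * m - (j + e + 1) * m = (f + 1) * m := by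
    rw [← Nat.sub_mul]
    congr 1
    omega
  have e2 : (j + e + 1 + f + 1) * m - j * m = (e + 1) * m + (f + 1) * m := by
    rw [← Nat.sub_mul, ← add_mul]
    congr 1
    omega
  have e3 : j + e + 1 - j = e + 1 := by omega
  have e4 : (j + e + 1) * m = j * m + (e + 1) * m := by ring
  rw [e1, e2, e3, e4, add_smul, add_smul, smul_sub]
  abel

private theorem VThinD_dist {L m J S : ℕ} {w : Site d} (hL : Even L)
    (hS : 2 * (S : ℝ) < m * (‖rv F L w‖ - 2 * d)) :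
    ∀ i < J, ∀ j < J, i ≠ j →
      2 * (S : ℝ) < ‖emb (VThinD_x F L m J w i - VThinD_x F L m J w j)‖ := by
  have key : ∀ i j : ℕ, j < i → i < J →
      2 * (S : ℝ) < ‖emb (VThinD_x F L m J w i - VThinD_x F L m J w j)‖ := by
    intro i j hij hi
    rw [VThinD_diff L m J w hij hi, emb_nsmul, norm_smul, Real.norm_eq_abs, Nat.abs_cast]
    have h1 : ‖rv F L w‖ - 2 * d ≤ ‖emb (w - zz F (L / 2))‖ := by
      rw [← rv_sub_same F L (zz F (L / 2)) w]
      have h2 := norm_sub_norm_le (rv F L w) (rv F L (zz F (L / 2)))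
      have h3 := zz_rv' F hL
      linarith
    have h2 : (m : ℝ) ≤ (((i - j) * m : ℕ) : ℝ) := by
      have h3 : 1 * m ≤ (i - j) * m := Nat.mul_le_mul_right m (by omega)
      rw [one_mul] at h3
      exact_mod_cast h3
    calc 2 * (S : ℝ) < m * (‖rv F L w‖ - 2 * d) := hS
      _ ≤ m * ‖emb (w - zz F (L / 2))‖ := mul_le_mul_of_nonneg_left h1 (Nat.cast_nonneg m)
      _ ≤ _ := mul_le_mul_of_nonneg_right h2 (norm_nonneg _)
  intro i hi j hj hij
  rcases Nat.lt_or_gt_of_ne hij with h | h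
  · have h1 := key j i h hj
    rwa [emb_sub, norm_sub_rev, ← emb_sub] at h1
  · exact key i j h hi

/-- The probability of the bad event. -/
private theorem VThinD_bad (β : ℝ) {φ : Vec d} {ε c p B : ℝ} {N S L m J : ℕ} {z w : Site d}
    (hm : 1 ≤ m) (hJ : 1 ≤ J) (hL : Even L) (hS : 2 * (S : ℝ) < m * (‖rv F L w‖ - 2 * d))
    (htr : ∀ i j : ℕ, j ≤ i → 1 ≤ i →
      (law d ρ).real {η | ¬ Real.exp (-(inner ℝ φ
          (rv F (i * L) (j • w + (i - j) • zz F (L / 2))) + 6 * ε * (i * ‖rv F L w‖))) ≤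
        Vp F ρ β η (i * L) (j • w + (i - j) • zz F (L / 2))} ≤ Real.exp (-(c * i)))
    (hp : p ≤ (law d ρ).real {η : Env d | Real.exp B ≤ V F ρ β η (stP F N S z)}) :
    (law d ρ).real {η : Env d | (∀ j < J, ¬ Real.exp B ≤
      V F ρ β (sh (J * m * L) (VThinD_x F L m J w j) η) (stP F N S z)) ∨
      ∃ j < J, ¬ Real.exp (-(inner ℝ φ (rv F (J * m * L) (VThinD_x F L m J w j)) +
          6 * ε * (((J * m : ℕ) : ℝ) * ‖rv F L w‖))) ≤
        Vp F ρ β η (J * m * L) (VThinD_x F L m J w j)} ≤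
      (1 - p) ^ J + J * Real.exp (-(c * ((J * m : ℕ) : ℝ))) := by
  have hsub : {η : Env d | (∀ j < J, ¬ Real.exp B ≤
      V F ρ β (sh (J * m * L) (VThinD_x F L m J w j) η) (stP F N S z)) ∨
      ∃ j < J, ¬ Real.exp (-(inner ℝ φ (rv F (J * m * L) (VThinD_x F L m J w j)) +
          6 * ε * (((J * m : ℕ) : ℝ) * ‖rv F L w‖))) ≤
        Vp F ρ β η (J * m * L) (VThinD_x F L m J w j)} =
      {η : Env d | ∀ j < J, ¬ Real.exp B ≤
      V F ρ β (sh (J * m * L) (VThinD_x F L m J w j) η) (stP F N S z)} ∪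
      ⋃ j ∈ Finset.range J, {η : Env d |
        ¬ Real.exp (-(inner ℝ φ (rv F (J * m * L) (VThinD_x F L m J w j)) +
          6 * ε * (((J * m : ℕ) : ℝ) * ‖rv F L w‖))) ≤
        Vp F ρ β η (J * m * L) (VThinD_x F L m J w j)} := by
    ext η
    simp
  rw [hsub]
  refine (measureReal_union_le _ _).trans
    (add_le_add (trans_fail β J (VThinD_x F L m J w) (VThinD_dist hL hS) hp) ?_)
  refine (measureReal_biUnion_finset_le _ _).trans ?_
  have hone : ∀ j ∈ Finset.range J, (law d ρ).real {η : Env d |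
        ¬ Real.exp (-(inner ℝ φ (rv F (J * m * L) (VThinD_x F L m J w j)) +
          6 * ε * (((J * m : ℕ) : ℝ) * ‖rv F L w‖))) ≤
        Vp F ρ β η (J * m * L) (VThinD_x F L m J w j)} ≤
        Real.exp (-(c * ((J * m : ℕ) : ℝ))) := by
    intro j hj
    have hj1 : j * m ≤ J * m := Nat.mul_le_mul_right m (Finset.mem_range.1 hj).le
    exact htr (J * m) (j * m) hj1 (Nat.mul_pos hJ hm)
  calc ∑ j ∈ Finset.range J, (law d ρ).real {η : Env d |
        ¬ Real.exp (-(inner ℝ φ (rv F (J * m * L) (VThinD_x F L m J w j)) +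
          6 * ε * (((J * m : ℕ) : ℝ) * ‖rv F L w‖))) ≤
        Vp F ρ β η (J * m * L) (VThinD_x F L m J w j)}
      ≤ ∑ _j ∈ Finset.range J, Real.exp (-(c * ((J * m : ℕ) : ℝ))) := Finset.sum_le_sum hone
    _ = J * Real.exp (-(c * ((J * m : ℕ) : ℝ))) := by
      rw [Finset.sum_const, Finset.card_range, nsmul_eq_mul]

private theorem VThinD_meas (F : Fr d) (β : ℝ) (φ : Vec d) (B : ℝ) (N S t J : ℕ) (z : Site d)
    (x : ℕ → Site d) (v : ℝ) :
    MeasurableSet {η : Env d | (∀ j < J, ¬ Real.exp B ≤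
      V F ρ β (sh t (x j) η) (stP F N S z)) ∨
      ∃ j < J, ¬ Real.exp (-(inner ℝ φ (rv F t (x j)) + v)) ≤ Vp F ρ β η t (x j)} := by
  have h1 : ∀ j : ℕ, MeasurableSet {η : Env d | Real.exp B ≤
      V F ρ β (sh t (x j) η) (stP F N S z)} := fun j =>
    measurableSet_le measurable_const ((measurable_V _).comp (measurable_sh _ _))
  have h2 : ∀ j : ℕ, MeasurableSet {η : Env d |
      Real.exp (-(inner ℝ φ (rv F t (x j)) + v)) ≤ Vp F ρ β η t (x j)} := fun j =>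
    measurableSet_le measurable_const (measurable_V _)
  have e : {η : Env d | (∀ j < J, ¬ Real.exp B ≤
      V F ρ β (sh t (x j) η) (stP F N S z)) ∨
      ∃ j < J, ¬ Real.exp (-(inner ℝ φ (rv F t (x j)) + v)) ≤ Vp F ρ β η t (x j)} =
      (⋂ j ∈ Finset.range J, {η : Env d | Real.exp B ≤
      V F ρ β (sh t (x j) η) (stP F N S z)}ᶜ) ∪
      ⋃ j ∈ Finset.range J, {η : Env d |
      Real.exp (-(inner ℝ φ (rv F t (x j)) + v)) ≤ Vp F ρ β η t (x j)}ᶜ := by
    ext η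
    simp
  rw [e]
  exact (Finset.measurableSet_biInter _ fun j _ => (h1 j).compl).union
    (Finset.measurableSet_biUnion _ fun j _ => (h2 j).compl)

/-- The least width. -/
private theorem VThinD_m {S : ℕ} {a : ℝ} (ha : 4 * (d : ℝ) + 1 ≤ a) :
    ∃ m : ℕ, 1 ≤ m ∧ 2 * (S : ℝ) < m * (a - 2 * d) ∧ m * a ≤ 4 * S + 2 + 2 * a ∧
      (m : ℝ) ≤ 2 * S + 2 ∧ 2 * S / a ≤ m := by
  have hd : (0 : ℝ) ≤ d := Nat.cast_nonneg d
  have ha0 : 0 < a := by linarith
  have ha1 : 1 ≤ a - 2 * d := by linarith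
  have hS : (0 : ℝ) ≤ S := Nat.cast_nonneg S
  obtain ⟨x, hx⟩ : ∃ x : ℝ, x = (2 * S + 1) / (a - 2 * d) := ⟨_, rfl⟩
  have hx0 : 0 ≤ x := by
    rw [hx]
    positivity
  have hxa : x * (a - 2 * d) = 2 * S + 1 := by
    rw [hx]
    field_simp
  have hx1 : x ≤ 2 * S + 1 := by nlinarith
  have h1 : (⌊x⌋₊ : ℝ) ≤ x := Nat.floor_le hx0
  have h2 : x < ⌊x⌋₊ + 1 := Nat.lt_floor_add_one x
  refine ⟨⌊x⌋₊ + 1, by omega, ?_, ?_, ?_, ?_⟩
  · push_cast
    nlinarith
  · push_cast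
    nlinarith
  · push_cast
    linarith
  · push_cast
    rw [div_le_iff₀ ha0]
    nlinarith

private theorem VThinD_one (j0 : Fin d) {β : ℝ} {φ : Ix d → Vec d} {c q : ℝ}
    (P : Post d F ρ β φ c q) {δ p1 C9 : ℝ} (hδ : 0 < δ) (hp : 0 < p1) (hC : 0 < C9) (k : Ix d) :
    ∀ᶠ n : ℕ in atTop, ∀ (N' : ℕ) (z : Site d), N' ≤ 3 * n →
      (law d ρ).real {η : Env d |
          Real.exp (δ / 2 * bb d F ρ β q n - 1 - inner ℝ (φ k) (rv F N' z)) ≤
            V F ρ β η (stP F N' ⌈C9 * bb d F ρ β q n⌉₊ z)} < p1 := by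
  have hd0 : 0 < d := j0.pos
  have hq1 : q < 1 := by linarith [P.q1]
  rcases lt_or_ge 1 p1 with hp1 | hp1
  · exact Eventually.of_forall fun n N' z _ => measureReal_le_one.trans_lt hp1
  obtain ⟨Cd, hCd, hdd⟩ := P.dd 4
  obtain ⟨Cb, hCb, hble⟩ := bb_le j0 P.toSetup P.q0 hq1
  obtain ⟨cl, hcl, hlow⟩ := P.low
  -- the constants
  obtain ⟨σ, hσd⟩ : ∃ σ : ℝ, σ = δ / (16 * Cd ^ 2) := ⟨_, rfl⟩
  have hσ : 0 < σ := by rw [hσd]; positivity
  have hσC : σ * Cd ^ 2 = δ / 16 := by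
    rw [hσd]
    field_simp
  obtain ⟨f0, hf0d⟩ : ∃ f0 : ℝ, f0 = min (1 / 2) (σ * δ / 16) := ⟨_, rfl⟩
  have hf0 : 0 < f0 := by rw [hf0d]; positivity
  have hf0a : f0 ≤ 1 / 2 := by rw [hf0d]; exact min_le_left _ _
  have hf0b : f0 ≤ σ * δ / 16 := by rw [hf0d]; exact min_le_right _ _
  obtain ⟨J0, hJ0⟩ := exists_pow_lt_of_lt_one (half_pos hf0) (show 1 - p1 < 1 by linarith)
  obtain ⟨J, hJd⟩ : ∃ J : ℕ, J = J0 + 1 := ⟨_, rfl⟩
  have hJ1 : 1 ≤ J := by omega
  have hJr : (1 : ℝ) ≤ J := by exact_mod_cast hJ1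
  have hJp : (1 - p1) ^ J ≤ f0 / 2 := by
    rw [hJd]
    exact (pow_le_pow_of_le_one (by linarith) (by linarith) (Nat.le_succ J0)).trans hJ0.le
  obtain ⟨ε, hεd⟩ : ∃ ε : ℝ, ε = δ / (384 * J * C9) := ⟨_, rfl⟩
  have hε : 0 < ε := by rw [hεd]; positivity
  have hεe : 24 * ε * J * C9 = δ / 16 := by
    rw [hεd]
    field_simp
    norm_num
  obtain ⟨L, w, hL, hLe, hwe, hadm, haR, c', hc, htr⟩ :=
    travel j0 P.toSetup k hε (4 * (d : ℝ) + 1)
  obtain ⟨a, ha⟩ : ∃ a : ℝ, a = ‖rv F L w‖ := ⟨_, rfl⟩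
  rw [← ha] at haR
  have hdr : (0 : ℝ) ≤ d := Nat.cast_nonneg d
  have har : (0 : ℝ) < a := by linarith
  obtain ⟨M2, hM2⟩ := eventually_atTop.1
    ((Real.tendsto_exp_neg_atTop_nhds_zero.eventually_lt_const
      (show (0 : ℝ) < f0 / (2 * J) by positivity)))
  -- the eventual facts
  have hc0 : 0 < c0 d := by
    unfold c0
    positivity
  have htend : Tendsto (fun n : ℕ => cl * (n : ℝ) ^ c0 d) atTop atTop :=
    ((tendsto_rpow_atTop hc0).comp tendsto_natCast_atTop_atTop).const_mul_atTop hcl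
  have hE2 := htend.eventually_ge_atTop
    (8 / δ + 96 * ε * J * (6 + 2 * a) / δ + |M2| * a / (2 * c' * C9))
  have hE3 : ∀ᶠ n : ℕ in atTop, (J : ℝ) * L * (2 * C9 * (Cb * (n : ℝ) ^ (0.53 : ℝ)) + 5) ≤ n := by
    have h1 : Tendsto (fun n : ℕ => ((n : ℝ) ^ (0.47 : ℝ))) atTop atTop :=
      (tendsto_rpow_atTop (by norm_num)).comp tendsto_natCast_atTop_atTop
    filter_upwards [h1.eventually_ge_atTop ((J : ℝ) * L * (2 * C9 * Cb + 5)),
      eventually_ge_atTop 1] with n hn hn1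
    have hnr : (1 : ℝ) ≤ n := by exact_mod_cast hn1
    have h2 : (1 : ℝ) ≤ (n : ℝ) ^ (0.53 : ℝ) := Real.one_le_rpow hnr (by norm_num)
    have h3 : (n : ℝ) = (n : ℝ) ^ (0.47 : ℝ) * (n : ℝ) ^ (0.53 : ℝ) := by
      rw [← Real.rpow_add (by linarith)]
      norm_num
    have h4 : 2 * C9 * (Cb * (n : ℝ) ^ (0.53 : ℝ)) + 5 ≤ (2 * C9 * Cb + 5) * (n : ℝ) ^ (0.53 : ℝ) := by
      nlinarith
    calc (J : ℝ) * L * (2 * C9 * (Cb * (n : ℝ) ^ (0.53 : ℝ)) + 5)
        ≤ (J : ℝ) * L * ((2 * C9 * Cb + 5) * (n : ℝ) ^ (0.53 : ℝ)) :=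
          mul_le_mul_of_nonneg_left h4 (by positivity)
      _ = ((J : ℝ) * L * (2 * C9 * Cb + 5)) * (n : ℝ) ^ (0.53 : ℝ) := by ring
      _ ≤ (n : ℝ) ^ (0.47 : ℝ) * (n : ℝ) ^ (0.53 : ℝ) :=
          mul_le_mul_of_nonneg_right hn (by linarith)
      _ = n := h3.symm
  filter_upwards [hdd, hlow, hE2, hE3, eventually_ge_atTop 1] with n hD hlo hE2 hE3 hn1 N' z hN
  by_contra hcon
  rw [not_lt] at hcon
  obtain ⟨b, hb⟩ : ∃ b : ℝ, b = bb d F ρ β q n := ⟨_, rfl⟩
  rw [← hb] at hD hlo hcon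
  have hb1 : 1 ≤ b := by rw [hb]; exact one_le_bb β q n
  have hb0 : 0 < b := by linarith
  have hbn : b ≤ Cb * (n : ℝ) ^ (0.53 : ℝ) := by rw [hb]; exact hble n hn1
  have hbig := hE2.trans hlo
  have hx1 : 0 ≤ 8 / δ := by positivity
  have hx2 : 0 ≤ 96 * ε * J * (6 + 2 * a) / δ := by positivity
  have hx3 : 0 ≤ |M2| * a / (2 * c' * C9) := by positivity
  have hb8 : 1 ≤ δ * b / 8 := by
    have h1 : 8 / δ ≤ b := by linarith
    rw [div_le_iff₀ hδ] at h1
    linarith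
  have hb64 : 6 * ε * J * (6 + 2 * a) ≤ δ * b / 16 := by
    have h1 : 96 * ε * J * (6 + 2 * a) / δ ≤ b := by linarith
    rw [div_le_iff₀ hδ] at h1
    linarith
  have hbM : M2 ≤ c' * (2 * C9 * b / a) := by
    have h1 : |M2| * a / (2 * c' * C9) ≤ b := by linarith
    rw [div_le_iff₀ (by positivity)] at h1
    refine (le_abs_self M2).trans ?_
    rw [mul_div_assoc', le_div_iff₀ har]
    linarith
  -- the widths
  obtain ⟨S, hS⟩ : ∃ S : ℕ, S = ⌈C9 * b⌉₊ := ⟨_, rfl⟩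
  rw [← hS] at hcon
  have hS1 : C9 * b ≤ S := by rw [hS]; exact Nat.le_ceil _
  have hS2 : (S : ℝ) ≤ C9 * b + 1 := by
    rw [hS]
    exact (Nat.ceil_lt_add_one (by positivity)).le
  obtain ⟨m, hm1, hmS, hma, hm3, hm4⟩ := VThinD_m (S := S) haR
  have hm5 : 2 * C9 * b / a ≤ m := by
    refine le_trans ?_ hm4
    rw [div_le_div_iff_of_pos_right har]
    linarith
  -- the time
  have ht : J * m * L ≤ n := by
    have h1 : (J : ℝ) * m * L ≤ n := by
      calc (J : ℝ) * m * L = (J : ℝ) * L * m := by ring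
        _ ≤ (J : ℝ) * L * (2 * C9 * (Cb * (n : ℝ) ^ (0.53 : ℝ)) + 5) := by
            refine mul_le_mul_of_nonneg_left ?_ (by positivity)
            have h2 : 2 * C9 * b ≤ 2 * C9 * (Cb * (n : ℝ) ^ (0.53 : ℝ)) :=
              mul_le_mul_of_nonneg_left hbn (by positivity)
            linarith
        _ ≤ n := hE3
    exact_mod_cast h1
  -- the bad event
  have hbad := VThinD_bad (ε := ε) (J := J) β hm1 hJ1 hLe (by rw [← ha]; exact hmS) htr hcon
  have hmeas := VThinD_meas (ρ := ρ) F β (φ k) (δ / 2 * b - 1 - inner ℝ (φ k) (rv F N' z)) N' S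
    (J * m * L) J z (VThinD_x F L m J w) (6 * ε * (((J * m : ℕ) : ℝ) * ‖rv F L w‖))
  obtain ⟨Bd, hBd⟩ : ∃ Bd : Set (Env d), Bd = {η : Env d | (∀ j < J,
      ¬ Real.exp (δ / 2 * b - 1 - inner ℝ (φ k) (rv F N' z)) ≤
      V F ρ β (sh (J * m * L) (VThinD_x F L m J w j) η) (stP F N' S z)) ∨
      ∃ j < J, ¬ Real.exp (-(inner ℝ (φ k) (rv F (J * m * L) (VThinD_x F L m J w j)) +
          6 * ε * (((J * m : ℕ) : ℝ) * ‖rv F L w‖))) ≤
        Vp F ρ β η (J * m * L) (VThinD_x F L m J w j)} := ⟨_, rfl⟩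
  rw [← hBd] at hbad hmeas
  have hJm : (((J * m : ℕ) : ℝ)) = J * m := by push_cast; ring
  have hexp : (J : ℝ) * Real.exp (-(c' * ((J * m : ℕ) : ℝ))) ≤ f0 / 2 := by
    have h1 : M2 ≤ c' * ((J * m : ℕ) : ℝ) := by
      refine hbM.trans (mul_le_mul_of_nonneg_left ?_ hc.le)
      have h2 : (m : ℝ) ≤ J * m := by
        have : (0 : ℝ) ≤ m := Nat.cast_nonneg m
        nlinarith
      rw [hJm]
      linarith
    have h2 := (hM2 _ h1).le
    rw [le_div_iff₀ (by positivity)] at h2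
    linarith
  have hfB : (law d ρ).real Bd ≤ f0 := by linarith
  -- the value on the good event
  have hgood : ∀ η, η ∉ Bd → HH F ρ β (φ k) η (J * m * L + N') ≤ -(δ * b / 4) := by
    intro η hη
    rw [hBd] at hη
    simp only [Set.mem_ofPred_eq, not_or, not_forall, not_exists, not_and, not_not] at hη
    obtain ⟨⟨j, hj, hj1⟩, hj2⟩ := hη
    have h1 := VThinD_good (F := F) (ρ := ρ) j0 (φ k) η (u := δ / 2 * b - 1) (hj2 j hj) hj1
    have h2 : 6 * ε * (((J * m : ℕ) : ℝ) * ‖rv F L w‖) ≤ δ * b / 8 := by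
      rw [← ha, hJm]
      have h3 : 6 * ε * (J * m * a) = 6 * ε * J * (m * a) := by ring
      have h4 : (m : ℝ) * a ≤ 4 * (C9 * b) + 6 + 2 * a := by linarith
      have h5 : 6 * ε * J * (m * a) ≤ 6 * ε * J * (4 * (C9 * b) + 6 + 2 * a) :=
        mul_le_mul_of_nonneg_left h4 (by positivity)
      have h6 : 6 * ε * J * (4 * (C9 * b) + 6 + 2 * a) =
          (24 * ε * J * C9) * b + 6 * ε * J * (6 + 2 * a) := by
        ring
      rw [h6, hεe] at h5
      rw [h3]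
      linarith
    linarith
  -- the moments
  obtain ⟨_, _, hfour⟩ := H_four (F := F) hd0 P.em β (φ k)
  obtain ⟨_, hi2, hi1, _, _⟩ := hfour (J * m * L + N')
  have hmean := H_mean_nonneg (F := F) hd0 P.em β (φ k) (P.flat k) (J * m * L + N')
  have hsq : ∫ η, max (HH F ρ β (φ k) η (J * m * L + N')) 0 ^ 2 ∂(law d ρ) ≤ (Cd * b) ^ 2 := by
    have h1 : Real.sqrt (∫ η, max (HH F ρ β (φ k) η (J * m * L + N')) 0 ^ 2 ∂(law d ρ)) ≤
        Cd * b := by
      refine le_trans ?_ hD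
      have h0 : ∀ i : Ix d, 0 ≤ D2 F ρ β (φ i) (4 * n) := by
        intro i
        unfold D2
        exact (Real.sqrt_nonneg _).trans (Finset.le_sup' (fun l => Real.sqrt
          (∫ η, max (HH F ρ β (φ i) η l) 0 ^ 2 ∂(law d ρ))) (Finset.mem_range.2 (Nat.succ_pos _)))
      refine le_trans ?_ (Finset.single_le_sum (f := fun i => D2 F ρ β (φ i) (4 * n))
        (fun i _ => h0 i) (Finset.mem_univ k))
      unfold D2
      exact Finset.le_sup' (fun l => Real.sqrt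
        (∫ η, max (HH F ρ β (φ k) η l) 0 ^ 2 ∂(law d ρ)))
        (Finset.mem_range.2 (by omega))
    have h2 : 0 ≤ ∫ η, max (HH F ρ β (φ k) η (J * m * L + N')) 0 ^ 2 ∂(law d ρ) :=
      integral_nonneg fun η => sq_nonneg _
    calc _ = Real.sqrt (∫ η, max (HH F ρ β (φ k) η (J * m * L + N')) 0 ^ 2 ∂(law d ρ)) ^ 2 :=
          (Real.sq_sqrt h2).symm
      _ ≤ (Cd * b) ^ 2 := pow_le_pow_left₀ (Real.sqrt_nonneg _) h1 2
  have hfin := VThinD_int (measurable_HH (φ k) (J * m * L + N')) hi1 hi2 hmean hmeas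
    (A := δ * b / 4) (s := σ / b) (by positivity) (by positivity) hgood
  have k1 : σ / b * ∫ η, max (HH F ρ β (φ k) η (J * m * L + N')) 0 ^ 2 ∂(law d ρ) ≤
      δ * b / 16 := by
    calc _ ≤ σ / b * (Cd * b) ^ 2 := mul_le_mul_of_nonneg_left hsq (by positivity)
      _ = (σ * Cd ^ 2) * b := by
        field_simp
      _ = δ * b / 16 := by rw [hσC]; ring
  have k2 : (law d ρ).real Bd / (σ / b) ≤ δ * b / 16 := by
    rw [div_le_iff₀ (by positivity)]
    have h1 : (law d ρ).real Bd ≤ σ * δ / 16 := hfB.trans hf0b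
    have h2 : δ * b / 16 * (σ / b) = σ * δ / 16 := by
      field_simp
    rw [h2]
    exact h1
  have k3 : δ * b / 8 ≤ δ * b / 4 * (1 - (law d ρ).real Bd) := by
    have h1 : (law d ρ).real Bd ≤ 1 / 2 := hfB.trans hf0a
    have h2 : 0 < δ * b := by positivity
    nlinarith
  have k4 : 0 < δ * b := by positivity
  linarith

/-- TASK VThinD. Copy of `W_7d29a1_h3/ThinD.lean`. `travel` for `φ k` with `R ≥ 4 d + 1`; `m` least with `m (a - 2 d) > 2 S + 1`, `t = J m L`,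
`x j = (j m) • w + (J m - j m) • zz F (L / 2)`, `j < J`: `emb (x i - x j)` is `(i - j) m` times `emb (w - zz F (L / 2))`, whose norm is at
least `a - 2 d`. On a translated event and its climb `HH (φ k) η (t + N') ≤ 6 ε J m a + 1 - δ b / 2 ≤ - δ b / 4`. -/
theorem thin_contra (j0 : Fin d) {β : ℝ} {φ : Ix d → Vec d} {c q : ℝ} (P : Post d F ρ β φ c q)
    {δ p1 C9 : ℝ} (hδ : 0 < δ) (hp : 0 < p1) (hC : 0 < C9) :
    ∀ᶠ n : ℕ in atTop, ∀ (N' : ℕ) (z : Site d) (k : Ix d),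
      N' ≤ 3 * n → Even N' →
      (law d ρ).real {η : Env d |
          Real.exp (δ / 2 * bb d F ρ β q n - 1 - inner ℝ (φ k) (rv F N' z)) ≤
            V F ρ β η (stP F N' ⌈C9 * bb d F ρ β q n⌉₊ z)} < p1 := by
  have h := eventually_all.2 fun k : Ix d => VThinD_one (δ := δ) j0 P hδ hp hC k
  filter_upwards [h] with n hn N' z k hN _
  exact hn k N' z hN

end Pool.Agent.W_7d29a1_v
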