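import Pool.Agent.W_7d29a1_v.ThinA
import Pool.Agent.W_7d29a1_v.ThinB
import Pool.Agent.W_7d29a1_v.ThinD

/-!
Section 7.
-/

namespace Pool.Agent.W_7d29a1_v

open MeasureTheory ProbabilityTheory Filter Topology Pool.Agent.W_MP_7d29a1_pr
  Pool.Agent.W_7d29a1_h46 Pool.Agent.W_7d29a1_h46u Pool.Agent.W_7d29a1_h3

variable {d : ℕ} {F : Fr d} {ρ : Measure ℝ} [IsProbabilityMeasure ρ]

/-- Section 7. -/
theorem thin (j0 : Fin d) {β : ℝ} {φ : Ix d → Vec d} {c q : ℝ} (P : Post d F ρ β φ c q)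
    {K δ p0 : ℝ} (hK : 0 < K) (hδ : 0 < δ) (hp : 0 < p0) :
    ∀ᶠ n : ℕ in atTop, ∀ N : ℕ, Even N → n ≤ N →
      N ≤ 2 * n → (law d ρ).real (Win F ρ β φ q K δ n N) ≤ p0 := by
  obtain ⟨p1, hp1, h1⟩ := thin_cell j0 P hK hδ hp
  obtain ⟨C9, hC9, h2⟩ := thin_loc j0 P hK hδ hp1
  have h3 := thin_contra j0 P hδ (half_pos hp1) hC9
  filter_upwards [h1, h2, h3] with n a1 a2 a3 N hN hn1 hn2
  by_contra hcon
  obtain ⟨N', z, k, b1, b2, b3, b4, b5⟩ := a1 N hN hn1 hn2 (not_le.1 hcon)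
  exact absurd (a2 N' z k b2 b3 b4 b5) (not_le.2 (a3 N' z k b2 b1))

end Pool.Agent.W_7d29a1_v
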