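import Pool.Agent.W_7d29a1_v.ConfC
import Pool.Agent.W_7d29a1_h3.ThinA

/-!
From windows to points.
-/

namespace Pool.Agent.W_7d29a1_v

open MeasureTheory ProbabilityTheory Filter Topology Pool.Agent.W_MP_7d29a1_pr
  Pool.Agent.W_7d29a1_h46 Pool.Agent.W_7d29a1_h46u Pool.Agent.W_7d29a1_h3

variable {d : ℕ} {F : Fr d} {ρ : Measure ℝ} [IsProbabilityMeasure ρ]

/-- The event of section 7: a passage between two windows which is faster than `φ.r - δ b`. -/
def Win {d : ℕ} (F : Fr d) (ρ : Measure ℝ) (β : ℝ) (φ : Ix d → Vec d) (q K δ : ℝ) (n N : ℕ) :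
    Set (Env d) :=
  {η | ∃ (x p : Site d) (i : Ix d), ‖emb x‖ ≤ K * bb d F ρ β q n ∧
    ‖rv F N p‖ ≤ K * bb d F ρ β q n ∧ Even (ln x) ∧ Even (ln p) ∧
    Real.exp (δ * bb d F ρ β q n - inner ℝ (φ i) (rv F N (p - x))) ≤
      Vp F ρ β (sh 0 x η) N (p - x)}

private theorem ThinA_meas_sh (t : ℕ) (x : Site d) : Measurable (sh t x : Env d → Env d) :=
  measurable_pi_lambda _ fun _ => measurable_pi_apply _

/-- The event for pairs of sites with the property `S` and the tilt `φ`. -/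
private def ThinA_W (F : Fr d) (ρ : Measure ℝ) (β : ℝ) (φ : Vec d) (D : ℝ) (N : ℕ)
    (S : Site d → Site d → Prop) : Set (Env d) :=
  {η | ∃ x p : Site d, S x p ∧
    Real.exp (D - inner ℝ φ (rv F N (p - x))) ≤ Vp F ρ β (sh 0 x η) N (p - x)}

omit [IsProbabilityMeasure ρ] in
private theorem ThinA_meas (β : ℝ) (φ : Vec d) (D : ℝ) (N : ℕ) (S : Site d → Site d → Prop) :
    MeasurableSet (ThinA_W F ρ β φ D N S) := by
  have h1 : ThinA_W F ρ β φ D N S = ⋃ x : Site d, ⋃ p : Site d, {η : Env d | S x p ∧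
      Real.exp (D - inner ℝ φ (rv F N (p - x))) ≤ Vp F ρ β (sh 0 x η) N (p - x)} := by
    ext η
    simp only [ThinA_W, Set.mem_iUnion, Set.mem_ofPred_eq]
  rw [h1]
  refine MeasurableSet.iUnion fun x => MeasurableSet.iUnion fun p => ?_
  by_cases h : S x p
  · have h2 : {η : Env d | S x p ∧
        Real.exp (D - inner ℝ φ (rv F N (p - x))) ≤ Vp F ρ β (sh 0 x η) N (p - x)} =
        {η : Env d | Real.exp (D - inner ℝ φ (rv F N (p - x))) ≤ Vp F ρ β (sh 0 x η) N (p - x)} := by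
      ext η
      simp only [Set.mem_ofPred_eq]
      exact ⟨fun h3 => h3.2, fun h3 => ⟨h, h3⟩⟩
    rw [h2]
    exact measurableSet_le measurable_const ((measurable_V _).comp (ThinA_meas_sh 0 x))
  · have h2 : {η : Env d | S x p ∧
        Real.exp (D - inner ℝ φ (rv F N (p - x))) ≤ Vp F ρ β (sh 0 x η) N (p - x)} = ∅ := by
      ext η
      simp only [Set.mem_ofPred_eq, Set.mem_empty_iff_false, iff_false]
      exact fun h3 => h h3.1
    rw [h2]
    exact MeasurableSet.empty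

/-- The conditions on a pair of sites. -/
private def ThinA_S (F : Fr d) (N : ℕ) (B : ℝ) (x p : Site d) : Prop :=
  ‖emb x‖ ≤ B ∧ ‖rv F N p‖ ≤ B ∧ Even (ln x) ∧ Even (ln p)

/-- Pigeonhole over the tilts. -/
private theorem ThinA_pig {β B D a : ℝ} {φ : Ix d → Vec d} (N : ℕ)
    (h : 2 * d * a < (law d ρ).real {η : Env d | ∃ (x p : Site d) (i : Ix d), ‖emb x‖ ≤ B ∧
      ‖rv F N p‖ ≤ B ∧ Even (ln x) ∧ Even (ln p) ∧
      Real.exp (D - inner ℝ (φ i) (rv F N (p - x))) ≤ Vp F ρ β (sh 0 x η) N (p - x)}) :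
    ∃ i : Ix d, a < (law d ρ).real (ThinA_W F ρ β (φ i) D N (ThinA_S F N B)) := by
  by_contra hcon
  push Not at hcon
  have hsub : {η : Env d | ∃ (x p : Site d) (i : Ix d), ‖emb x‖ ≤ B ∧
      ‖rv F N p‖ ≤ B ∧ Even (ln x) ∧ Even (ln p) ∧
      Real.exp (D - inner ℝ (φ i) (rv F N (p - x))) ≤ Vp F ρ β (sh 0 x η) N (p - x)} ⊆
      ⋃ i : Ix d, ThinA_W F ρ β (φ i) D N (ThinA_S F N B) := by
    rintro η ⟨x, p, i, hx, hp, hxe, hpe, hV⟩
    rw [Set.mem_iUnion]
    exact ⟨i, x, p, ⟨hx, hp, hxe, hpe⟩, hV⟩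
  have h1 := measureReal_mono (μ := law d ρ) hsub (measure_ne_top _ _)
  have h2 : (law d ρ).real (⋃ i : Ix d, ThinA_W F ρ β (φ i) D N (ThinA_S F N B)) ≤
      ∑ i : Ix d, (law d ρ).real (ThinA_W F ρ β (φ i) D N (ThinA_S F N B)) :=
    measureReal_iUnion_fintype_le _
  have h3 : ∑ i : Ix d, (law d ρ).real (ThinA_W F ρ β (φ i) D N (ThinA_S F N B)) ≤
      ∑ _i : Ix d, a := Finset.sum_le_sum fun i _ => hcon i
  have h4 : ∑ _i : Ix d, a = 2 * d * a := by
    rw [Finset.sum_const, Finset.card_univ, Fintype.card_prod, Fintype.card_fin,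
      Fintype.card_bool, nsmul_eq_mul]
    push_cast
    ring
  linarith

/-- The cube number `k`. -/
private def ThinA_cube (R : ℕ) (k x : Site d) : Prop :=
  ∀ i, (R : ℤ) * k i ≤ x i ∧ x i < R * k i + R

private theorem ThinA_index {R M : ℕ} {B : ℝ} (hR : 0 < R) (hB : B ≤ M * R) {x : Site d}
    (hx : (sn x : ℝ) ≤ B) : ∃ k ∈ boxF d M, ThinA_cube R k x := by
  have hR' : (0 : ℤ) < R := by exact_mod_cast hR
  have h1 : sn x ≤ M * R := by
    have h2 := hx.trans hB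
    exact_mod_cast h2
  have h2 := sn_le_iff.1 h1
  refine ⟨fun i => x i / R, ?_, fun i => ⟨?_, ?_⟩⟩
  · rw [mem_boxF]
    intro i
    have h3 := abs_le.1 (h2 i)
    push_cast at h3
    rw [abs_le]
    constructor
    · rw [Int.le_ediv_iff_mul_le hR']
      linarith [h3.1]
    · have h4 : x i / R ≤ (M * R : ℤ) / R := Int.ediv_le_ediv hR' h3.2
      rwa [Int.mul_ediv_cancel _ hR'.ne'] at h4
  · exact Int.mul_ediv_self_le hR'.ne'
  · exact Int.lt_mul_ediv_self_add hR'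

private theorem ThinA_snp {N : ℕ} (hN : Even N) {p : Site d} {B : ℝ} (hp : ‖rv F N p‖ ≤ B) :
    (sn (p - cz F N) : ℝ) ≤ B + 2 * d := by
  have h1 := sn_le_norm (p - cz F N)
  have h2 := rv_sub_same F N (cz F N) p
  have h3 := cz_rv F hN
  have h4 : ‖emb (p - cz F N)‖ ≤ ‖rv F N p‖ + ‖rv F N (cz F N)‖ := by
    rw [← h2]
    exact norm_sub_le _ _
  linarith

private theorem ThinA_pair {β B D p1 : ℝ} {φ : Vec d} {N R M : ℕ} (hN : Even N) (hR : 0 < R)
    (hB : B + 2 * d ≤ M * R)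
    (h : p1 * ((boxF d M).card : ℝ) ^ 2 <
      (law d ρ).real (ThinA_W F ρ β φ D N (ThinA_S F N B))) :
    ∃ k k' : Site d, p1 ≤ (law d ρ).real (ThinA_W F ρ β φ D N
      fun x p => ThinA_S F N B x p ∧ ThinA_cube R k x ∧ ThinA_cube R k' (p - cz F N)) := by
  by_contra hcon
  push Not at hcon
  have hd0 : (0 : ℝ) ≤ 2 * d := by positivity
  have hsub : ThinA_W F ρ β φ D N (ThinA_S F N B) ⊆ ⋃ k ∈ boxF d M, ⋃ k' ∈ boxF d M,
      ThinA_W F ρ β φ D N
        fun x p => ThinA_S F N B x p ∧ ThinA_cube R k x ∧ ThinA_cube R k' (p - cz F N) := by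
    rintro η ⟨x, p, hS, hV⟩
    obtain ⟨k, hk, hkx⟩ := ThinA_index hR hB
      (((sn_le_norm x).trans hS.1).trans (by linarith))
    obtain ⟨k', hk', hkp⟩ := ThinA_index hR hB (ThinA_snp hN hS.2.1)
    simp only [Set.mem_iUnion]
    exact ⟨k, hk, k', hk', x, p, ⟨hS, hkx, hkp⟩, hV⟩
  have h1 := measureReal_mono (μ := law d ρ) hsub (measure_ne_top _ _)
  have h2 : (law d ρ).real (⋃ k ∈ boxF d M, ⋃ k' ∈ boxF d M, ThinA_W F ρ β φ D N
      fun x p => ThinA_S F N B x p ∧ ThinA_cube R k x ∧ ThinA_cube R k' (p - cz F N)) ≤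
      ∑ _k ∈ boxF d M, ∑ _k' ∈ boxF d M, p1 := by
    refine (measureReal_biUnion_finset_le _ _).trans (Finset.sum_le_sum fun k _ => ?_)
    refine (measureReal_biUnion_finset_le _ _).trans (Finset.sum_le_sum fun k' _ => ?_)
    exact (hcon k k').le
  rw [Finset.sum_const, Finset.sum_const, nsmul_eq_mul, nsmul_eq_mul] at h2
  have h3 : ((boxF d M).card : ℝ) * (((boxF d M).card : ℝ) * p1) =
      p1 * ((boxF d M).card : ℝ) ^ 2 := by ring
  linarith

private theorem ThinA_smul_even {R : ℕ} (hR : Even R) (k : Site d) (j : Fin d) :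
    Even (((R : ℤ) • k) j) := by
  rw [Pi.smul_apply, smul_eq_mul]
  obtain ⟨m, hm⟩ := hR
  exact ⟨m * k j, by rw [hm]; push_cast; ring⟩

private theorem ThinA_cube_sn {R : ℕ} {k x : Site d} (hk : ThinA_cube R k x) :
    sn (x - (R : ℤ) • k) ≤ R := by
  rw [sn_le_iff]
  intro i
  obtain ⟨h2, h3⟩ := hk i
  rw [Pi.sub_apply, Pi.smul_apply, smul_eq_mul, abs_le]
  constructor <;> linarith

private theorem ThinA_ln_cz (F : Fr d) {l : ℕ} (hl : Even l) :
    (ln (cz F l) : ℝ) ≤ l * ∑ j, |F.v j| := by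
  rw [ln_cast, Finset.mul_sum]
  refine Finset.sum_le_sum fun j _ => ?_
  have h1 := zz_abs F (l / 2) j
  have h2 : (2 : ℝ) * ((l / 2 : ℕ) : ℝ) = l := by
    exact_mod_cast Nat.mul_div_cancel' hl.two_dvd
  rw [h2] at h1
  exact h1

/-- Admissibility of the two connecting displacements. -/
private theorem ThinA_adm {R l : ℕ} (hle : Even l)
    (hl : (d : ℝ) * R ≤ l * (1 - ∑ j, |F.v j|)) {x c : Site d} (hc : ∀ j, Even (c j))
    (hx : Even (ln x)) (hs : sn (x - c) ≤ R) :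
    adm l (x - c + cz F l) ∧ adm l (-(x - c) + cz F l) := by
  have h1 : Even (ln (x - c)) := even_ln_sub hx hc
  have h2 : (ln (x - c) : ℝ) ≤ d * R := by
    have h3 := ln_le_sn (x - c)
    have h4 : d * sn (x - c) ≤ d * R := Nat.mul_le_mul_left d hs
    exact_mod_cast h3.trans h4
  have h3 := ThinA_ln_cz F hle
  have hneg : ln (-(x - c)) = ln (x - c) := by
    unfold ln
    refine Finset.sum_congr rfl fun j _ => ?_
    rw [Pi.neg_apply, Int.natAbs_neg]
  have key : ∀ u : Site d, ln u = ln (x - c) → adm l (u + cz F l) := by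
    intro u hu
    refine adm_of_even hle (even_ln_add (by rw [hu]; exact h1) (cz_even F l)) ?_
    have h4 : (ln (u + cz F l) : ℝ) ≤ ln u + ln (cz F l) := by exact_mod_cast ln_add_le _ _
    rw [hu] at h4
    have h5 : (ln (u + cz F l) : ℝ) ≤ l := by linarith
    exact_mod_cast h5
  exact ⟨key _ rfl, key _ hneg⟩

/-- The relative positions differ little. -/
private theorem ThinA_near {R N l : ℕ} (hle : Even l) {k k' c c' z x p : Site d}
    (hz : z = cz F l + (c' - c) + cz F l) (hkx : ThinA_cube R k x)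
    (hkp : ThinA_cube R k' (p - cz F N)) (hc : c = (R : ℤ) • k)
    (hc' : c' = cz F N + (R : ℤ) • k') :
    ‖rv F N (p - x) - rv F (l + N + l) z‖ ≤ d * R + 4 * d := by
  have h1 : rv F (l + N + l) z = rv F l (cz F l) + rv F N (c' - c) + rv F l (cz F l) := by
    rw [hz, rv_add, rv_add]
  have h2 : rv F N (p - x) - rv F N (c' - c) = emb (p - x - (c' - c)) := rv_sub_same F N _ _
  have h3 : sn (p - x - (c' - c)) ≤ R := by
    rw [sn_le_iff]
    intro i
    obtain ⟨a1, a2⟩ := hkx i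
    obtain ⟨b1, b2⟩ := hkp i
    rw [Pi.sub_apply] at b1 b2
    have e1 : (p - x - (c' - c)) i = p i - x i - (cz F N i + R * k' i - R * k i) := by
      rw [hc, hc']
      simp only [Pi.sub_apply, Pi.add_apply, Pi.smul_apply, smul_eq_mul]
    rw [e1, abs_le]
    constructor <;> linarith
  have h4 : ‖emb (p - x - (c' - c))‖ ≤ d * R := by
    refine (norm_emb_le_sn _).trans ?_
    have h5 : (sn (p - x - (c' - c)) : ℝ) ≤ R := by exact_mod_cast h3
    exact mul_le_mul_of_nonneg_left h5 (Nat.cast_nonneg d)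
  have h5 := cz_rv F hle
  have h6 : rv F N (p - x) - rv F (l + N + l) z =
      emb (p - x - (c' - c)) - rv F l (cz F l) - rv F l (cz F l) := by
    rw [h1, ← h2]
    abel
  rw [h6]
  have h7 := norm_sub_le (emb (p - x - (c' - c)) - rv F l (cz F l)) (rv F l (cz F l))
  have h8 := norm_sub_le (emb (p - x - (c' - c))) (rv F l (cz F l))
  linarith

private theorem ThinA_conn {β B D C5 Φ : ℝ} {φ : Vec d} (hφ : ‖φ‖ ≤ Φ)
    (hC5 : ∀ (n : ℕ) (y : Site d), adm n y →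
      (law d ρ).real {η | ¬ Real.exp (-(C5 * n)) ≤ Vp F ρ β η n y} ≤ Real.exp (-n))
    {R N l : ℕ} (hR : Even R) (hle : Even l)
    (hl : (d : ℝ) * R ≤ l * (1 - ∑ j, |F.v j|)) (k k' : Site d) :
    (law d ρ).real (ThinA_W F ρ β φ D N
      fun x p => ThinA_S F N B x p ∧ ThinA_cube R k x ∧ ThinA_cube R k' (p - cz F N)) ≤
    (law d ρ).real {η : Env d | Real.exp (D - inner ℝ φ (rv F (l + N + l)
      (cz F l + (cz F N + (R : ℤ) • k' - (R : ℤ) • k) + cz F l)) -
      (Φ * (d * R + 4 * d) + 2 * (C5 * l))) ≤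
        Vp F ρ β η (l + N + l) (cz F l + (cz F N + (R : ℤ) • k' - (R : ℤ) • k) + cz F l)} +
    2 * ((2 * (R : ℝ) + 1) ^ d * Real.exp (-l)) := by
  classical
  obtain ⟨c, hc⟩ : ∃ c : Site d, c = (R : ℤ) • k := ⟨_, rfl⟩
  obtain ⟨c', hc'⟩ : ∃ c' : Site d, c' = cz F N + (R : ℤ) • k' := ⟨_, rfl⟩
  have hce : ∀ j, Even (c j) := fun j => by rw [hc]; exact ThinA_smul_even hR k j
  have hce' : ∀ j, Even (c' j) := fun j => by
    rw [hc', Pi.add_apply]
    exact (cz_even F N j).add (ThinA_smul_even hR k' j)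
  obtain ⟨z, hz⟩ : ∃ z : Site d, z = cz F l + (c' - c) + cz F l := ⟨_, rfl⟩
  obtain ⟨G, hG⟩ : ∃ G : Finset (Site d), G = (boxF d R).filter
    fun u => adm l (u + cz F l) ∧ adm l (-u + cz F l) := ⟨_, rfl⟩
  have hGc : (G.card : ℝ) ≤ (2 * (R : ℝ) + 1) ^ d := by
    have h1 : G.card ≤ (boxF d R).card := by
      rw [hG]
      exact Finset.card_filter_le _ _
    rw [card_boxF] at h1
    exact_mod_cast h1
  have hGm : ∀ u : Site d, sn u ≤ R → adm l (u + cz F l) ∧ adm l (-u + cz F l) → u ∈ G := by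
    intro u h1 h2
    rw [hG, Finset.mem_filter, mem_boxF_iff]
    exact ⟨h1, h2⟩
  have hGa : ∀ u ∈ G, adm l (u + cz F l) ∧ adm l (-u + cz F l) := by
    intro u hu
    rw [hG, Finset.mem_filter] at hu
    exact hu.2
  have hm := ThinA_meas (F := F) (ρ := ρ) β φ D N
    (fun x p => ThinA_S F N B x p ∧ ThinA_cube R k x ∧ ThinA_cube R k' (p - cz F N))
  have hsh := real_sh (ρ := ρ) l (cz F l - c) hm
  rw [← hsh, ← hc, ← hc', ← hz]
  have hB1 : (law d ρ).real (⋃ u ∈ G, {η : Env d | ¬ Real.exp (-(C5 * l)) ≤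
      Vp F ρ β η l (u + cz F l)}) ≤ (2 * (R : ℝ) + 1) ^ d * Real.exp (-l) := by
    refine (measureReal_biUnion_finset_le _ _).trans ?_
    refine (Finset.sum_le_sum fun u hu => hC5 l (u + cz F l) (hGa u hu).1).trans ?_
    rw [Finset.sum_const, nsmul_eq_mul]
    exact mul_le_mul_of_nonneg_right hGc (Real.exp_pos _).le
  have hB2 : (law d ρ).real (⋃ u ∈ G, {η : Env d | sh (l + N) (cz F l + (c' - c) + u) η ∈
      {η : Env d | ¬ Real.exp (-(C5 * l)) ≤ Vp F ρ β η l (-u + cz F l)}}) ≤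
      (2 * (R : ℝ) + 1) ^ d * Real.exp (-l) := by
    refine (measureReal_biUnion_finset_le _ _).trans ?_
    refine (Finset.sum_le_sum fun u hu => ?_).trans
      (b := ∑ _u ∈ G, Real.exp (-(l : ℝ))) ?_
    · have hme : MeasurableSet {η : Env d | ¬ Real.exp (-(C5 * l)) ≤
          Vp F ρ β η l (-u + cz F l)} :=
        (measurableSet_le measurable_const (measurable_V _)).compl
      rw [real_sh (l + N) (cz F l + (c' - c) + u) hme]
      exact hC5 l (-u + cz F l) (hGa u hu).2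
    · rw [Finset.sum_const, nsmul_eq_mul]
      exact mul_le_mul_of_nonneg_right hGc (Real.exp_pos _).le
  have hsub : {η : Env d | sh l (cz F l - c) η ∈ ThinA_W F ρ β φ D N
      fun x p => ThinA_S F N B x p ∧ ThinA_cube R k x ∧ ThinA_cube R k' (p - cz F N)} ⊆
      {η : Env d | Real.exp (D - inner ℝ φ (rv F (l + N + l) z) -
        (Φ * (d * R + 4 * d) + 2 * (C5 * l))) ≤ Vp F ρ β η (l + N + l) z} ∪
      ((⋃ u ∈ G, {η : Env d | ¬ Real.exp (-(C5 * l)) ≤ Vp F ρ β η l (u + cz F l)}) ∪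
      (⋃ u ∈ G, {η : Env d | sh (l + N) (cz F l + (c' - c) + u) η ∈
        {η : Env d | ¬ Real.exp (-(C5 * l)) ≤ Vp F ρ β η l (-u + cz F l)}})) := by
    rintro η ⟨x, p, ⟨hS, hkx, hkp⟩, hV⟩
    by_cases hb1 : η ∈ ⋃ u ∈ G, {η : Env d | ¬ Real.exp (-(C5 * l)) ≤
        Vp F ρ β η l (u + cz F l)}
    · exact Or.inr (Or.inl hb1)
    by_cases hb2 : η ∈ ⋃ u ∈ G, {η : Env d | sh (l + N) (cz F l + (c' - c) + u) η ∈
        {η : Env d | ¬ Real.exp (-(C5 * l)) ≤ Vp F ρ β η l (-u + cz F l)}}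
    · exact Or.inr (Or.inr hb2)
    left
    simp only [Set.mem_iUnion, Set.mem_ofPred_eq, not_exists, not_not] at hb1 hb2
    have hx1 : sn (x - c) ≤ R := by rw [hc]; exact ThinA_cube_sn hkx
    have hp1 : sn (p - c') ≤ R := by
      have h1 := ThinA_cube_sn hkp
      have h2 : p - cz F N - (R : ℤ) • k' = p - c' := by rw [hc']; abel
      rwa [h2] at h1
    have hx2 := ThinA_adm (F := F) hle hl hce hS.2.2.1 hx1
    have hp2 := ThinA_adm (F := F) hle hl hce' hS.2.2.2 hp1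
    have g1 := hb1 _ (hGm _ hx1 hx2)
    have g2 := hb2 _ (hGm _ hp1 hp2)
    rw [sh_sh] at hV
    have e1 : x + (cz F l - c) = x - c + cz F l := by abel
    have e2 : 0 + l = l := Nat.zero_add l
    rw [e1, e2] at hV
    have g3 := Vp_add (F := F) (ρ := ρ) (β := β) η l N (x - c + cz F l) (p - x)
    have e3 : x - c + cz F l + (p - x) = cz F l + (c' - c) + (p - c') := by abel
    rw [e3] at g3
    have g4 := Vp_add (F := F) (ρ := ρ) (β := β) η (l + N) l (cz F l + (c' - c) + (p - c'))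
      (-(p - c') + cz F l)
    have e4 : cz F l + (c' - c) + (p - c') + (-(p - c') + cz F l) = z := by
      rw [hz]
      abel
    rw [e4] at g4
    have g5 : Real.exp (-(C5 * l)) * Real.exp (D - inner ℝ φ (rv F N (p - x))) ≤
        Vp F ρ β η (l + N) (cz F l + (c' - c) + (p - c')) := by
      refine le_trans (mul_le_mul g1 hV (Real.exp_pos _).le ?_) g3
      exact (Real.exp_pos _).le.trans g1
    have g6 : Real.exp (-(C5 * l)) * Real.exp (D - inner ℝ φ (rv F N (p - x))) *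
        Real.exp (-(C5 * l)) ≤ Vp F ρ β η (l + N + l) z := by
      refine le_trans (mul_le_mul g5 g2 (Real.exp_pos _).le ?_) g4
      exact (mul_pos (Real.exp_pos _) (Real.exp_pos _)).le.trans g5
    change Real.exp (D - inner ℝ φ (rv F (l + N + l) z) -
      (Φ * (d * R + 4 * d) + 2 * (C5 * l))) ≤ Vp F ρ β η (l + N + l) z
    refine le_trans ?_ g6
    rw [← Real.exp_add, ← Real.exp_add, Real.exp_le_exp]
    have h5 := ThinA_near hle hz hkx hkp hc hc' (x := x) (p := p)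
    have h6 : inner ℝ φ (rv F N (p - x)) - inner ℝ φ (rv F (l + N + l) z) ≤
        Φ * (d * R + 4 * d) := by
      rw [← inner_sub_right]
      refine (real_inner_le_norm _ _).trans ?_
      exact mul_le_mul hφ h5 (norm_nonneg _) ((norm_nonneg _).trans hφ)
    linarith
  have h1 := measureReal_mono (μ := law d ρ) hsub
  have h2 := measureReal_union_le (μ := law d ρ)
    {η : Env d | Real.exp (D - inner ℝ φ (rv F (l + N + l) z) -
        (Φ * (d * R + 4 * d) + 2 * (C5 * l))) ≤ Vp F ρ β η (l + N + l) z}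
    ((⋃ u ∈ G, {η : Env d | ¬ Real.exp (-(C5 * l)) ≤ Vp F ρ β η l (u + cz F l)}) ∪
      (⋃ u ∈ G, {η : Env d | sh (l + N) (cz F l + (c' - c) + u) η ∈
        {η : Env d | ¬ Real.exp (-(C5 * l)) ≤ Vp F ρ β η l (-u + cz F l)}}))
  have h3 := measureReal_union_le (μ := law d ρ)
    (⋃ u ∈ G, {η : Env d | ¬ Real.exp (-(C5 * l)) ≤ Vp F ρ β η l (u + cz F l)})
    (⋃ u ∈ G, {η : Env d | sh (l + N) (cz F l + (c' - c) + u) η ∈
        {η : Env d | ¬ Real.exp (-(C5 * l)) ≤ Vp F ρ β η l (-u + cz F l)}})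
  linarith

/-- TASK VThinA. If `P(Win) > p0`: one of the `2 d` indices has probability `> p0 / (2 d)` (pigeonhole, no symmetry). Cut the windows in
cubes of side `R = 2 ⌊ε' b / 2⌋` with corners in `(R ℤ)^d`: for `x` the corners `c`, for `p` the corners `c'`. Connect:
`l = 2 n_v d R`, `n_v ≥ 1 / (1 - |v|_1)` an integer: from `(-l, c - cz F l)` to `(0, x)`, displacement `x - c + cz F l` (`adm l`: `adm_of_even`,
`ln ≤ d R + l |v|_1 ≤ l`, `zz_abs`), and from `(N, p)` to `(N + l, c' + cz F l)`, displacement `c' - p + cz F l`. `N' = N + 2 l`,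
`z = c' - c + 2 cz F l`; `rv F N' z` differs from `rv F N (p - x)` by at most `2 d R + 4 d`. See `W_7d29a1_h3/ThinA.lean`. -/
theorem thin_cell (j0 : Fin d) {β : ℝ} {φ : Ix d → Vec d} {c q : ℝ} (P : Post d F ρ β φ c q)
    {K δ p0 : ℝ} (hK : 0 < K) (hδ : 0 < δ) (hp : 0 < p0) :
    ∃ p1 : ℝ, 0 < p1 ∧ ∀ᶠ n : ℕ in atTop, ∀ N : ℕ, Even N → n ≤ N →
      N ≤ 2 * n → p0 < (law d ρ).real (Win F ρ β φ q K δ n N) →
      ∃ (N' : ℕ) (z : Site d) (k : Ix d), Even N' ∧ N' ≤ 3 * n ∧ adm N' z ∧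
        ‖rv F N' z‖ ≤ 3 * K * bb d F ρ β q n ∧
        p1 ≤ (law d ρ).real {η : Env d |
          Real.exp (δ / 2 * bb d F ρ β q n - inner ℝ (φ k) (rv F N' z)) ≤
            Vp F ρ β η N' z} := by
  have hd : 0 < d := Fin.pos j0
  have hdr : (1 : ℝ) ≤ d := by exact_mod_cast hd
  obtain ⟨C5, hC5, hmic⟩ := micro (ρ := ρ) F j0 P.em β
  obtain ⟨Cb, hCb, hble⟩ := bb_le (ρ := ρ) j0 P.toSetup P.q0 (by linarith [P.q1])
  obtain ⟨c', hc', hlow⟩ := P.low
  obtain ⟨σ, hσ⟩ : ∃ σ : ℝ, σ = ∑ j, |F.v j| := ⟨_, rfl⟩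
  have hσ1 : σ < 1 := by rw [hσ]; exact P.vlt
  obtain ⟨nv, hnv⟩ := exists_nat_ge (1 / (1 - σ))
  have hnv1 : 1 ≤ (nv : ℝ) * (1 - σ) := by
    rw [div_le_iff₀ (by linarith)] at hnv
    exact hnv
  have hσ0 : 0 ≤ σ := by rw [hσ]; positivity
  have hnv2 : (1 : ℝ) ≤ nv := by
    have h1 : (0 : ℝ) ≤ nv := Nat.cast_nonneg nv
    nlinarith
  have hnv3 : 1 ≤ nv := by exact_mod_cast hnv2
  obtain ⟨Φ, hΦ⟩ : ∃ Φ : ℝ, Φ = ∑ i, ‖φ i‖ := ⟨_, rfl⟩
  have hΦ0 : 0 ≤ Φ := by rw [hΦ]; positivity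
  have hΦi : ∀ i, ‖φ i‖ ≤ Φ := fun i => by
    rw [hΦ]
    exact Finset.single_le_sum (f := fun i => ‖φ i‖) (fun j _ => norm_nonneg _) (Finset.mem_univ i)
  obtain ⟨A, hA⟩ : ∃ A : ℝ, A = Φ * d + 4 * nv * d * C5 + 1 := ⟨_, rfl⟩
  have hA0 : 0 < A := by rw [hA]; positivity
  obtain ⟨e, he⟩ : ∃ e : ℝ, e = min (K / (2 * d)) (δ / (4 * A)) := ⟨_, rfl⟩
  have he0 : 0 < e := by
    rw [he]
    exact lt_min (by positivity) (by positivity)
  have heK : d * e ≤ K / 2 := by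
    have h1 : e ≤ K / (2 * d) := by rw [he]; exact min_le_left _ _
    rw [le_div_iff₀ (by positivity)] at h1
    linarith
  have heδ : e * A ≤ δ / 4 := by
    have h1 : e ≤ δ / (4 * A) := by
      rw [he]
      exact min_le_right _ _
    rw [le_div_iff₀ (by positivity)] at h1
    linarith
  obtain ⟨M, hM⟩ : ∃ M : ℕ, M = ⌈4 * K / e⌉₊ := ⟨_, rfl⟩
  have hMe : 4 * K / e ≤ M := by
    rw [hM]
    exact Nat.le_ceil _
  have hcard : 0 < ((boxF d M).card : ℝ) := by
    rw [card_boxF]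
    positivity
  obtain ⟨p1, hp1⟩ : ∃ p1 : ℝ, p1 = p0 / (8 * d * ((boxF d M).card : ℝ) ^ 2) := ⟨_, rfl⟩
  have hp1pos : 0 < p1 := by
    rw [hp1]
    positivity
  have hc0 : 0 < c0 d := by
    unfold c0
    positivity
  have htend : Tendsto (fun n : ℕ => c' * (n : ℝ) ^ c0 d) atTop atTop :=
    ((tendsto_rpow_atTop hc0).comp tendsto_natCast_atTop_atTop).const_mul_atTop hc'
  have hev : ∀ a : ℝ, ∀ᶠ n : ℕ in atTop, a ≤ bb d F ρ β q n := by
    intro a
    filter_upwards [hlow, htend.eventually_ge_atTop a] with n h1 h2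
    exact h2.trans h1
  have hev2 : ∀ᶠ n : ℕ in atTop, 4 * nv * d * (e * bb d F ρ β q n) ≤ n := by
    have h1 : Tendsto (fun n : ℕ => (n : ℝ) ^ (0.47 : ℝ)) atTop atTop :=
      (tendsto_rpow_atTop (by norm_num)).comp tendsto_natCast_atTop_atTop
    filter_upwards [h1.eventually_ge_atTop (4 * nv * d * (e * Cb)), eventually_ge_atTop 1] with n h2 h3
    have h4 := hble n h3
    have h6 : (0 : ℝ) < n := by exact_mod_cast h3
    have h5 : (n : ℝ) = (n : ℝ) ^ (0.53 : ℝ) * (n : ℝ) ^ (0.47 : ℝ) := by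
      rw [← Real.rpow_add h6]
      norm_num
    have h7 : 0 ≤ (n : ℝ) ^ (0.53 : ℝ) := Real.rpow_nonneg h6.le _
    calc 4 * nv * d * (e * bb d F ρ β q n) ≤ 4 * nv * d * (e * (Cb * (n : ℝ) ^ (0.53 : ℝ))) :=
          mul_le_mul_of_nonneg_left (mul_le_mul_of_nonneg_left h4 he0.le) (by positivity)
      _ = (n : ℝ) ^ (0.53 : ℝ) * (4 * nv * d * (e * Cb)) := by ring
      _ ≤ (n : ℝ) ^ (0.53 : ℝ) * (n : ℝ) ^ (0.47 : ℝ) := mul_le_mul_of_nonneg_left h2 h7
      _ = n := h5.symm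
  refine ⟨p1, hp1pos, ?_⟩
  filter_upwards [hev ((2 / p1 + 4) / e), hev2, hev (8 * d / K), hev (16 * (d * Φ) / δ)]
    with n h1 h2 hb8 hb16 N hNe hN1 hN2 hWin
  obtain ⟨b, hb⟩ : ∃ b : ℝ, b = bb d F ρ β q n := ⟨_, rfl⟩
  rw [← hb] at h1 h2 hb8 hb16 ⊢
  have hb1 : 1 ≤ b := by
    rw [hb]
    exact one_le_bb β q n
  have hbK : 8 * d ≤ K * b := by
    rw [div_le_iff₀ hK] at hb8
    linarith
  have hbδ : 16 * (d * Φ) ≤ δ * b := by
    rw [div_le_iff₀ hδ] at hb16
    linarith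
  have heb : 2 / p1 + 4 ≤ e * b := by
    rw [div_le_iff₀ he0] at h1
    linarith
  have h2p : 0 < 2 / p1 := by positivity
  obtain ⟨R, hR⟩ : ∃ R : ℕ, R = 2 * ⌊e * b / 2⌋₊ := ⟨_, rfl⟩
  have hRe : Even R := ⟨⌊e * b / 2⌋₊, by omega⟩
  have hRle : (R : ℝ) ≤ e * b := by
    have h3 : (⌊e * b / 2⌋₊ : ℝ) ≤ e * b / 2 := Nat.floor_le (by positivity)
    rw [hR]
    push_cast
    linarith
  have hRge : e * b - 2 ≤ R := by
    have h3 := Nat.lt_floor_add_one (e * b / 2)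
    rw [hR]
    push_cast
    linarith
  have hR2 : 2 / p1 ≤ R := by linarith
  have hR0 : 0 < R := by
    have h3 : (0 : ℝ) < R := by linarith
    exact_mod_cast h3
  have hR1 : (1 : ℝ) ≤ R := by exact_mod_cast hR0
  have hKB : K * b + 2 * d ≤ M * R := by
    have h3 : 2 * (K * b) = 4 * K / e * (e * b / 2) := by
      field_simp
      ring
    have h4 : 4 * K / e * (e * b / 2) ≤ M * R :=
      mul_le_mul hMe (by linarith) (by positivity) (by positivity)
    have h5 : 0 ≤ (d : ℝ) := Nat.cast_nonneg d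
    linarith
  obtain ⟨i0, hi0⟩ := ThinA_pig (F := F) (ρ := ρ) (β := β) (B := K * b) (D := δ * b)
    (a := p0 / (4 * d)) (φ := φ) N (by
      have h3 : 2 * (d : ℝ) * (p0 / (4 * d)) = p0 / 2 := by
        field_simp
        ring
      rw [h3]
      refine lt_trans (b := p0) (by linarith) ?_
      rw [hb]
      exact hWin)
  have hW3 : 2 * p1 * ((boxF d M).card : ℝ) ^ 2 <
      (law d ρ).real (ThinA_W F ρ β (φ i0) (δ * b) N (ThinA_S F N (K * b))) := by
    have h3 : 2 * p1 * ((boxF d M).card : ℝ) ^ 2 = p0 / (4 * d) := by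
      rw [hp1]
      field_simp
      ring
    rw [h3]
    exact hi0
  obtain ⟨k, k', hkk⟩ := ThinA_pair hNe hR0 hKB hW3
  obtain ⟨l, hl⟩ : ∃ l : ℕ, l = 2 * nv * d * R := ⟨_, rfl⟩
  have hlr : (l : ℝ) = 2 * nv * d * R := by
    rw [hl]
    push_cast
    ring
  have hle : Even l := ⟨nv * d * R, by rw [hl]; ring⟩
  have hl1 : (d : ℝ) * R ≤ l * (1 - ∑ j, |F.v j|) := by
    rw [← hσ, hlr]
    have h3 : (d : ℝ) * R * 1 ≤ d * R * (nv * (1 - σ)) :=
      mul_le_mul_of_nonneg_left hnv1 (by positivity)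
    have h4 : 0 ≤ (d : ℝ) * R * (nv * (1 - σ)) := by
      have : 0 ≤ 1 - σ := by linarith
      positivity
    have h5 : 2 * (nv : ℝ) * d * R * (1 - σ) = 2 * (d * R * (nv * (1 - σ))) := by ring
    linarith
  have hconn := ThinA_conn (F := F) (ρ := ρ) (β := β) (B := K * b) (D := δ * b) (N := N) (hΦi i0)
    hmic hRe hle hl1 k k'
  obtain ⟨z, hz⟩ : ∃ z : Site d, z = cz F l + (cz F N + (R : ℤ) • k' - (R : ℤ) • k) + cz F l :=
    ⟨_, rfl⟩
  rw [← hz] at hconn
  have hsmall : 2 * ((2 * (R : ℝ) + 1) ^ d * Real.exp (-l)) ≤ p1 := by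
    have h0 : Real.exp (-(l : ℝ)) ≤ Real.exp (-(2 * d * R)) := by
      rw [Real.exp_le_exp, hlr]
      have h3 : 2 * (d : ℝ) * R * 1 ≤ 2 * d * R * nv := mul_le_mul_of_nonneg_left hnv2 (by positivity)
      linarith
    have h3 : (2 * (R : ℝ) + 1) ^ d * Real.exp (-(2 * d * R)) =
        ((2 * (R : ℝ) + 1) * Real.exp (-(2 * R))) ^ d := by
      rw [mul_pow, ← Real.exp_nat_mul]
      congr 2
      ring
    have h4 : (2 * (R : ℝ) + 1) * Real.exp (-(2 * R)) ≤ 1 / R := by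
      rw [Real.exp_neg, ← div_eq_mul_inv, div_le_div_iff₀ (Real.exp_pos _) (by linarith)]
      have h5 := Real.quadratic_le_exp_of_nonneg (x := 2 * (R : ℝ)) (by linarith)
      nlinarith
    have h5 : 1 / (R : ℝ) ≤ 1 := by
      rw [div_le_one (by linarith)]
      exact hR1
    have h6 : 0 ≤ (2 * (R : ℝ) + 1) * Real.exp (-(2 * R)) := by positivity
    have h7 : ((2 * (R : ℝ) + 1) * Real.exp (-(2 * R))) ^ d ≤ 1 / R :=
      (pow_le_of_le_one h6 (h4.trans h5) (by omega)).trans h4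
    have h8 : 2 * (1 / (R : ℝ)) ≤ p1 := by
      rw [div_le_iff₀ hp1pos] at hR2
      rw [mul_one_div, div_le_iff₀ (by linarith)]
      linarith
    have h9 : (2 * (R : ℝ) + 1) ^ d * Real.exp (-l) ≤
        (2 * (R : ℝ) + 1) ^ d * Real.exp (-(2 * d * R)) :=
      mul_le_mul_of_nonneg_left h0 (by positivity)
    linarith
  have hfin : p1 ≤ (law d ρ).real {η : Env d |
      Real.exp (δ / 2 * b - inner ℝ (φ i0) (rv F (l + N + l) z)) ≤ Vp F ρ β η (l + N + l) z} := by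
    refine le_trans (b := (law d ρ).real {η : Env d | Real.exp (δ * b -
      inner ℝ (φ i0) (rv F (l + N + l) z) - (Φ * (d * R + 4 * d) + 2 * (C5 * l))) ≤
        Vp F ρ β η (l + N + l) z}) (by linarith) ?_
    refine measureReal_mono fun η hη => ?_
    change Real.exp (δ / 2 * b - inner ℝ (φ i0) (rv F (l + N + l) z)) ≤ Vp F ρ β η (l + N + l) z
    refine le_trans (Real.exp_le_exp.2 ?_) hη
    have h3 : Φ * (d * R + 4 * d) + 2 * (C5 * l) + R = A * R + 4 * (d * Φ) := by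
      rw [hlr, hA]
      ring
    have h4 : A * R ≤ A * (e * b) := mul_le_mul_of_nonneg_left hRle hA0.le
    have h5 : e * A * b ≤ δ / 4 * b := mul_le_mul_of_nonneg_right heδ (by linarith)
    have h6 : A * (e * b) = e * A * b := by ring
    linarith
  refine ⟨l + N + l, z, i0, ?_, ?_, ?_, ?_, hfin⟩
  · obtain ⟨m, hm⟩ := hNe
    exact ⟨l + m, by omega⟩
  · have h3 : 2 * (l : ℝ) ≤ n := by
      rw [hlr]
      have h4 : 4 * (nv : ℝ) * d * R ≤ 4 * nv * d * (e * b) :=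
        mul_le_mul_of_nonneg_left hRle (by positivity)
      linarith
    have h4 : 2 * l ≤ n := by exact_mod_cast h3
    omega
  · by_contra hna
    have h3 : {η : Env d | Real.exp (δ / 2 * b - inner ℝ (φ i0) (rv F (l + N + l) z)) ≤
        Vp F ρ β η (l + N + l) z} = ∅ := by
      ext η
      simp only [Set.mem_ofPred_eq, Set.mem_empty_iff_false, iff_false, not_le]
      rw [Vp_zero j0 η hna]
      exact Real.exp_pos _
    rw [h3, measureReal_empty] at hfin
    linarith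
  · rcases Set.eq_empty_or_nonempty (ThinA_W F ρ β (φ i0) (δ * b) N
      fun x p => ThinA_S F N (K * b) x p ∧ ThinA_cube R k x ∧ ThinA_cube R k' (p - cz F N))
      with h3 | h3
    · rw [h3, measureReal_empty] at hkk
      linarith
    · obtain ⟨η, x, p, ⟨hS, hkx, hkp⟩, -⟩ := h3
      have h4 := ThinA_near (F := F) (N := N) (l := l) (c := (R : ℤ) • k)
        (c' := cz F N + (R : ℤ) • k') (z := z) hle hz hkx hkp rfl rfl
      have h5 : rv F N (p - x) = rv F N p - emb x := by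
        have h6 := rv_sub F (Nat.zero_le N) x p
        rwa [Nat.sub_zero, rv_zero_left] at h6
      have h6 : ‖rv F (l + N + l) z‖ ≤ ‖rv F N (p - x)‖ + ‖rv F N (p - x) - rv F (l + N + l) z‖ := by
        have h7 := norm_sub_le (rv F N (p - x)) (rv F N (p - x) - rv F (l + N + l) z)
        rwa [sub_sub_cancel] at h7
      have h7 : ‖rv F N (p - x)‖ ≤ ‖rv F N p‖ + ‖emb x‖ := by
        rw [h5]
        exact norm_sub_le _ _
      have h8 : (d : ℝ) * R ≤ d * (e * b) := mul_le_mul_of_nonneg_left hRle (by positivity)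
      have h9 : d * e * b ≤ K / 2 * b := mul_le_mul_of_nonneg_right heK (by linarith)
      have h10 : (d : ℝ) * (e * b) = d * e * b := by ring
      linarith [hS.1, hS.2.1]

end Pool.Agent.W_7d29a1_v
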