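import Pool.Agent.W_7d29a1_v.Geo
import Pool.Agent.W_7d29a1_h3.Wt

/-!
Normalised weights.
-/

namespace Pool.Agent.W_7d29a1_v

open MeasureTheory ProbabilityTheory Filter Topology Pool.Agent.W_MP_7d29a1_pr
  Pool.Agent.W_7d29a1_h46 Pool.Agent.W_7d29a1_h46u Pool.Agent.W_7d29a1_h3

variable {d : ℕ} {F : Fr d} {ρ : Measure ℝ} {β : ℝ}

theorem V_nonneg (η : Env d) {n : ℕ} (E : Set (Fin n → Step d)) : 0 ≤ V F ρ β η E :=
  mul_nonneg (Real.exp_pos _).le (ZT_nonneg _ _ _ _)

theorem V_pos (η : Env d) {n : ℕ} {E : Set (Fin n → Step d)} (hE : E.Nonempty) :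
    0 < V F ρ β η E :=
  mul_pos (Real.exp_pos _) (ZT_pos _ _ _ hE)

theorem V_mono (η : Env d) {n : ℕ} {E E' : Set (Fin n → Step d)} (h : E ⊆ E') :
    V F ρ β η E ≤ V F ρ β η E' :=
  mul_le_mul_of_nonneg_left (ZT_mono _ _ _ h) (Real.exp_pos _).le

theorem Vp_pos (j0 : Fin d) (η : Env d) {n : ℕ} {y : Site d} (h : adm n y) : 0 < Vp F ρ β η n y :=
  V_pos η ((adm_iff j0).1 h)

private theorem Wt_ZT_empty (β : ℝ) (h : Vec d) (η : Env d) {n : ℕ} :
    ZT β h η (∅ : Set (Fin n → Step d)) = 0 := by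
  unfold ZT
  exact Finset.sum_eq_zero fun s _ => if_neg (Set.notMem_empty s)

/-- The weight of a non admissible point is `0`. -/
theorem Vp_zero (j0 : Fin d) (η : Env d) {n : ℕ} {y : Site d} (h : ¬ adm n y) :
    Vp F ρ β η n y = 0 := by
  have h1 : toP n y = ∅ := Set.not_nonempty_iff_eq_empty.1 fun h2 => h ((adm_iff j0).2 h2)
  unfold Vp V
  rw [h1, Wt_ZT_empty, mul_zero]

theorem measurable_V {n : ℕ} (E : Set (Fin n → Step d)) : Measurable fun η : Env d => V F ρ β η E := by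
  unfold V
  exact (measurable_ZT β F.θ E).const_mul _

theorem measurable_HH (φ : Vec d) (n : ℕ) :
    Measurable fun η : Env d => HH F ρ β φ η n := by
  unfold HH
  exact (measurable_X β (F.θ + φ) n).const_sub _

private theorem Wt_cast (m n : ℕ) (a : ℝ) :
    Real.exp (-((m + n : ℕ) * a)) = Real.exp (-(m * a)) * Real.exp (-(n * a)) := by
  rw [← Real.exp_add]
  congr 1
  push_cast
  ring

/-- TASK Wt. Concatenation: `wgt_glue` with `h = 0` (as in `Z_add`), the map `(s, q) ↦ Fin.append s q` is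
injective. -/
theorem V_append (η : Env d) {m n : ℕ} {x : Site d} {E1 : Set (Fin m → Step d)}
    {E2 : Set (Fin n → Step d)} {E : Set (Fin (m + n) → Step d)} (h1 : ∀ s ∈ E1, pos s m = x)
    (h : ∀ s ∈ E1, ∀ q ∈ E2, Fin.append s q ∈ E) :
    V F ρ β η E1 * V F ρ β (sh m x η) E2 ≤ V F ρ β η E := by
  have h2 : ZT β F.θ η E1 * ZT β F.θ (sh m x η) E2 ≤ ZT β F.θ η E := by
    unfold ZT
    rw [sum_glue, Finset.sum_mul]
    refine Finset.sum_le_sum fun s _ => ?_
    rw [Finset.mul_sum]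
    refine Finset.sum_le_sum fun q _ => ?_
    by_cases hs : s ∈ E1
    · by_cases hq : q ∈ E2
      · rw [if_pos hs, if_pos hq, if_pos (h s hs q hq), wgt_glue, h1 s hs]
      · rw [if_neg hq, mul_zero]
        split_ifs
        · exact (wgt_pos _ _ _ _).le
        · exact le_rfl
    · rw [if_neg hs, zero_mul]
      split_ifs
      · exact (wgt_pos _ _ _ _).le
      · exact le_rfl
  unfold V
  rw [Wt_cast]
  have h3 : Real.exp (-(m * lam ρ β F.θ)) * ZT β F.θ η E1 *
      (Real.exp (-(n * lam ρ β F.θ)) * ZT β F.θ (sh m x η) E2) =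
      Real.exp (-(m * lam ρ β F.θ)) * Real.exp (-(n * lam ρ β F.θ)) *
        (ZT β F.θ η E1 * ZT β F.θ (sh m x η) E2) := by ring
  rw [h3]
  exact mul_le_mul_of_nonneg_left h2 (mul_pos (Real.exp_pos _) (Real.exp_pos _)).le

theorem Vp_add (η : Env d) (m n : ℕ) (x y : Site d) :
    Vp F ρ β η m x * Vp F ρ β (sh m x η) n y ≤ Vp F ρ β η (m + n) (x + y) := by
  refine V_append η (fun s hs => hs) fun s hs q hq => ?_
  have hs' : pos s m = x := hs
  have hq' : pos q n = y := hq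
  change pos (Fin.append s q) (m + n) = x + y
  rw [pos_glue_add, hs', hq']

private theorem Wt_tilt (β : ℝ) (h φ : Vec d) (η : Env d) {n : ℕ} (s : Fin n → Step d) :
    wgt β (h + φ) η s = Real.exp (inner ℝ φ (emb (pos s n))) * wgt β h η s := by
  unfold wgt
  rw [← Real.exp_add]
  congr 1
  rw [inner_add_left]
  ring

private theorem Wt_exp_HH (j0 : Fin d) (φ : Vec d) (η : Env d) (n : ℕ) :
    Real.exp (-HH F ρ β φ η n) =
      Real.exp (-(n * inner ℝ φ F.v)) * (Real.exp (-(n * lam ρ β F.θ)) * Z β (F.θ + φ) η n) := by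
  unfold HH X
  rw [← mul_assoc, ← Real.exp_add, neg_sub, sub_eq_add_neg, Real.exp_add,
    Real.exp_log (Z_pos (Nat.lt_of_le_of_lt (Nat.zero_le _) j0.2) β (F.θ + φ) η n), mul_comm]
  congr 2
  ring

private theorem Wt_rv (φ : Vec d) (n : ℕ) (y : Site d) :
    Real.exp (inner ℝ φ (rv F n y)) =
      Real.exp (-(n * inner ℝ φ F.v)) * Real.exp (inner ℝ φ (emb y)) := by
  rw [← Real.exp_add]
  congr 1
  unfold rv
  rw [inner_sub_right, inner_smul_right]
  ring

/-- The point to level weight as a sum over the end points. -/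
theorem H_eq_sum (j0 : Fin d) (φ : Vec d) (η : Env d) (n : ℕ) :
    Real.exp (-HH F ρ β φ η n) =
      ∑ y ∈ boxF d n, Real.exp (inner ℝ φ (rv F n y)) * Vp F ρ β η n y := by
  classical
  rw [Wt_exp_HH j0, Z_eq]
  have h1 : ∑ s : Fin n → Step d, wgt β (F.θ + φ) η s =
      ∑ y ∈ boxF d n, Real.exp (inner ℝ φ (emb y)) * ZT β F.θ η (toP n y) := by
    rw [← Finset.sum_fiberwise_of_maps_to (t := boxF d n) (g := fun s : Fin n → Step d => pos s n)
      fun s _ => pos_mem_box s n]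
    refine Finset.sum_congr rfl fun y _ => ?_
    unfold ZT
    rw [Finset.sum_filter, Finset.mul_sum]
    refine Finset.sum_congr rfl fun s _ => ?_
    by_cases hs : pos s n = y
    · rw [if_pos hs, if_pos (show s ∈ toP n y from hs), Wt_tilt β F.θ φ η s, hs]
    · rw [if_neg hs, if_neg (show s ∉ toP n y from hs), mul_zero]
  rw [h1, Finset.mul_sum, Finset.mul_sum]
  refine Finset.sum_congr rfl fun y _ => ?_
  rw [Wt_rv]
  unfold Vp V
  ring

/-- (0.2): the point to level weight is at least the weight of walks to one point. -/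
theorem V_le_H (j0 : Fin d) (φ : Vec d) (η : Env d) {n : ℕ} {y : Site d} {E : Set (Fin n → Step d)}
    (hE : E ⊆ toP n y) :
    V F ρ β η E * Real.exp (inner ℝ φ (rv F n y)) ≤ Real.exp (-HH F ρ β φ η n) := by
  rw [Wt_exp_HH j0, Z_eq, Wt_rv]
  unfold V
  have h0 : ZT β F.θ η E * Real.exp (inner ℝ φ (emb y)) ≤ ∑ s : Fin n → Step d, wgt β (F.θ + φ) η s := by
    unfold ZT
    rw [Finset.sum_mul]
    refine Finset.sum_le_sum fun s _ => ?_
    by_cases hs : s ∈ E
    · have h1 : pos s n = y := hE hs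
      rw [if_pos hs, Wt_tilt β F.θ φ η s, h1, mul_comm]
    · rw [if_neg hs, zero_mul]
      exact (wgt_pos _ _ _ _).le
  calc Real.exp (-(n * lam ρ β F.θ)) * ZT β F.θ η E *
        (Real.exp (-(n * inner ℝ φ F.v)) * Real.exp (inner ℝ φ (emb y)))
      = Real.exp (-(n * inner ℝ φ F.v)) * (Real.exp (-(n * lam ρ β F.θ)) *
          (ZT β F.θ η E * Real.exp (inner ℝ φ (emb y)))) := by ring
    _ ≤ _ := mul_le_mul_of_nonneg_left (mul_le_mul_of_nonneg_left h0 (Real.exp_pos _).le)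
        (Real.exp_pos _).le

theorem Vp_le_H (j0 : Fin d) (η : Env d) (n : ℕ) (y : Site d) :
    Vp F ρ β η n y ≤ Real.exp (-HH F ρ β (0 : Vec d) η n) := by
  have h1 := V_le_H (F := F) (ρ := ρ) (β := β) j0 (0 : Vec d) η (n := n) (y := y) (E := toP n y)
    subset_rfl
  rw [inner_zero_left, Real.exp_zero, mul_one] at h1
  exact h1

/-- A walk is at least as good for the point to level weight as its cost: if `exp (-a) ≤ V E` for walks to `y`
then `H_φ ≤ a - φ.r`. -/
theorem H_le_of (j0 : Fin d) (φ : Vec d) (η : Env d) {n : ℕ} {y : Site d}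
    {E : Set (Fin n → Step d)} (hE : E ⊆ toP n y) {a : ℝ} (h : Real.exp (-a) ≤ V F ρ β η E) :
    HH F ρ β φ η n ≤ a - inner ℝ φ (rv F n y) := by
  have h1 := V_le_H (F := F) (ρ := ρ) (β := β) j0 φ η hE
  have h2 : Real.exp (-a + inner ℝ φ (rv F n y)) ≤ Real.exp (-HH F ρ β φ η n) := by
    rw [Real.exp_add]
    exact (mul_le_mul_of_nonneg_right h (Real.exp_pos _).le).trans h1
  linarith [Real.exp_le_exp.1 h2]

/-- Comparison with the weights without tilt: on walks to one point the tilt is a constant factor. -/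
theorem V_eq (η : Env d) {n : ℕ} {y : Site d} {E : Set (Fin n → Step d)} (hE : E ⊆ toP n y) :
    V F ρ β η E = Real.exp (inner ℝ F.θ (emb y) + n * (lam ρ β (0 : Vec d) - lam ρ β F.θ)) *
      Pool.Agent.W_7d29a1_h3.V ρ β η E := by
  unfold V Pool.Agent.W_7d29a1_h3.V
  have h0 : ZT β F.θ η E = Real.exp (inner ℝ F.θ (emb y)) * ZT β (0 : Vec d) η E := by
    unfold ZT
    rw [Finset.mul_sum]
    refine Finset.sum_congr rfl fun s _ => ?_
    by_cases hs : s ∈ E
    · have h1 : pos s n = y := hE hs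
      have h2 := Wt_tilt β (0 : Vec d) F.θ η s
      rw [zero_add, h1] at h2
      rw [if_pos hs, if_pos hs, h2]
    · rw [if_neg hs, if_neg hs, mul_zero]
  rw [h0, ← mul_assoc, ← mul_assoc, ← Real.exp_add, ← Real.exp_add]
  congr 2
  ring

theorem Vp_eq (η : Env d) (n : ℕ) (y : Site d) :
    Vp F ρ β η n y = Real.exp (inner ℝ F.θ (emb y) + n * (lam ρ β (0 : Vec d) - lam ρ β F.θ)) *
      Pool.Agent.W_7d29a1_h3.Vp ρ β η n y := V_eq η subset_rfl

/-- The passage times differ by a constant. -/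
theorem log_V_eq (η : Env d) {n : ℕ} {y : Site d} {E : Set (Fin n → Step d)} (hE : E ⊆ toP n y)
    (hne : E.Nonempty) :
    Real.log (V F ρ β η E) = inner ℝ F.θ (emb y) + n * (lam ρ β (0 : Vec d) - lam ρ β F.θ) +
      Real.log (Pool.Agent.W_7d29a1_h3.V ρ β η E) := by
  rw [V_eq η hE, Real.log_mul (Real.exp_pos _).ne' (Pool.Agent.W_7d29a1_h3.V_pos η hne).ne',
    Real.log_exp]

private theorem Wt_dep (β : ℝ) (h : Vec d) {n : ℕ} {E : Set (Fin n → Step d)} {η η' : Env d}
    (hη : ∀ s ∈ E, ∀ i : Fin n, η (i + 1, pos s (i + 1)) = η' (i + 1, pos s (i + 1))) :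
    ZT β h η E = ZT β h η' E := by
  unfold ZT
  refine Finset.sum_congr rfl fun s _ => ?_
  by_cases hs : s ∈ E
  · rw [if_pos hs, if_pos hs]
    have h1 : energy η s = energy η' s := by
      unfold energy
      exact Finset.sum_congr rfl fun i _ => hη s hs i
    unfold wgt
    rw [h1]
  · rw [if_neg hs, if_neg hs]

/-- The weight of `E` uses the rows `1, ..., n` only. -/
theorem dep_V {n : ℕ} (E : Set (Fin n → Step d)) :
    DependsOn (fun η : Env d => V F ρ β η E) {p | 1 ≤ p.1 ∧ p.1 ≤ n} := by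
  intro η η' hη
  change V F ρ β η E = V F ρ β η' E
  unfold V
  rw [Wt_dep β F.θ fun s _ i => hη _ ⟨Nat.le_add_left 1 _, i.2⟩]

/-- A shifted weight uses the rows `t + 1, ..., t + n` only. -/
theorem dep_V_sh (t : ℕ) (x : Site d) {n : ℕ} (E : Set (Fin n → Step d)) :
    DependsOn (fun η : Env d => V F ρ β (sh t x η) E) {p | t < p.1 ∧ p.1 ≤ t + n} := by
  intro η η' hη
  change V F ρ β (sh t x η) E = V F ρ β (sh t x η') E
  unfold V
  rw [Wt_dep β F.θ fun s _ i => ?_]
  refine hη _ ⟨?_, ?_⟩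
  · change t < (i : ℕ) + 1 + t
    omega
  · have hi := i.2
    change (i : ℕ) + 1 + t ≤ t + n
    omega

/-- A shifted strip weight uses the sites of the shifted strip only. -/
theorem dep_st_sh (t : ℕ) (x : Site d) (n S : ℕ) (y : Site d) :
    DependsOn (fun η : Env d => V F ρ β (sh t x η) (stP F n S y))
      {p | t < p.1 ∧ p.1 ≤ t + n ∧ ‖rv F p.1 p.2 - rv F t x‖ ≤ S} := by
  intro η η' hη
  change V F ρ β (sh t x η) (stP F n S y) = V F ρ β (sh t x η') (stP F n S y)
  unfold V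
  rw [Wt_dep β F.θ fun s hs i => ?_]
  have hi := i.2
  refine hη _ ⟨?_, ?_, ?_⟩
  · change t < (i : ℕ) + 1 + t
    omega
  · change (i : ℕ) + 1 + t ≤ t + n
    omega
  · change ‖rv F ((i : ℕ) + 1 + t) (pos s (i + 1) + x) - rv F t x‖ ≤ S
    rw [rv_add, add_sub_cancel_right]
    exact hs.1 _ (by omega)

end Pool.Agent.W_7d29a1_v
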